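import Mathlib
import Pool.Agent.Work.CM.Defs
import Pool.Agent.Work.MP_787500_nt.H10_Defs
import Pool.Agent.Work.MP_787500_nt.H10_Quad
import Pool.Agent.Work.MP_787500_nt.RS.Defs

/-!
Definitions for the modules of this folder. Do not change.
-/

set_option autoImplicit false

namespace Pool.Agent.Work.MP_787500_nt.HC

open WithZero IsDedekindDomain NumberField Pool.Agent.Work.CM
open scoped nonZeroDivisors

universe u

section ideals

/-- the group of fractional ideals -/
abbrev Idl (K : Type*) [Field K] [NumberField K] := (FractionalIdeal (𝓞 K)⁰ K)ˣ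

variable {K : Type*} [Field K] [NumberField K]

/-- the prime ideal of a place, as a fractional ideal -/
noncomputable def pr (v : HeightOneSpectrum (𝓞 K)) : Idl K :=
  Units.mk0 (v.asIdeal : FractionalIdeal (𝓞 K)⁰ K) (FractionalIdeal.coeIdeal_ne_zero.2 v.ne_bot)

/-- the principal fractional ideal generated by `x` -/
noncomputable def prin (x : Kˣ) : Idl K := toPrincipalIdeal (𝓞 K) K x

/-- the class of a fractional ideal -/
noncomputable def cl (I : Idl K) : ClassGroup (𝓞 K) := ClassGroup.mk K I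

/-- the image of a fractional ideal in the complex numbers -/
noncomputable def lat [Algebra K ℂ] (I : Idl K) : Submodule ℤ ℂ where
  carrier := {z | ∃ x : K, x ∈ (I : FractionalIdeal (𝓞 K)⁰ K) ∧ algebraMap K ℂ x = z}
  add_mem' := by
    rintro _ _ ⟨x, hx, rfl⟩ ⟨y, hy, rfl⟩
    exact ⟨x + y, ((I : FractionalIdeal (𝓞 K)⁰ K) : Submodule (𝓞 K) K).add_mem hx hy,
      map_add _ _ _⟩
  zero_mem' := ⟨0, ((I : FractionalIdeal (𝓞 K)⁰ K) : Submodule (𝓞 K) K).zero_mem, map_zero _⟩
  smul_mem' := by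
    rintro n _ ⟨x, hx, rfl⟩
    refine ⟨n • x, ?_, map_zsmul _ _ _⟩
    exact ((I : FractionalIdeal (𝓞 K)⁰ K) : Submodule (𝓞 K) K).toAddSubgroup.zsmul_mem hx n

theorem mem_lat [Algebra K ℂ] {I : Idl K} {z : ℂ} :
    z ∈ lat I ↔ ∃ x : K, x ∈ (I : FractionalIdeal (𝓞 K)⁰ K) ∧ algebraMap K ℂ x = z := Iff.rfl

/-- the value at the superlattice of index two given by the place `v` -/
noncomputable def eV [Algebra K ℂ] (v : HeightOneSpectrum (𝓞 K)) (I : Idl K) : ℂ :=
  ev (lat I) (lat ((pr v)⁻¹ * I))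

end ideals

section algebra

/-- Two functions on a group with the relations of the values of the Weierstrass function at the
points of order two. -/
structure Vals {A F : Type*} [CommGroup A] [Field F] (p p' : A) (E E' : A → F) : Prop where
  back : ∀ I, E' I = -2 * E (p * I)
  back' : ∀ I, E I = -2 * E' (p' * I)
  ne : ∀ I, E I ≠ E' I
  ne1 : ∀ I, E I ≠ E (p * I)
  ne1' : ∀ I, E' I ≠ E' (p' * I)
  step : ∀ I, (E (p⁻¹ * I) - E I) ^ 2 = 8 * (E I + 2 * E (p * I)) * (E I - E (p * I))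
  step' : ∀ I, (E' (p'⁻¹ * I) - E' I) ^ 2 = 8 * (E' I + 2 * E' (p' * I)) * (E' I - E' (p' * I))

/-- the square root of `(2 E + E') / (E - E')` -/
noncomputable def sv {A F : Type*} [CommGroup A] [Field F] (p : A) (E : A → F) (I : A) : F :=
  (E (p⁻¹ * I) - E I) / (2 * (E I + 2 * E (p * I)))

/-- the square root of `sv` -/
noncomputable def wv {A F : Type*} [CommGroup A] [Field F] (p : A) (E : A → F) (I : A) : F :=
  sv p E (p⁻¹ * I) * (1 + sv p E I) / 2

/-- The relations of the functions `W`, `W'` on the class group. -/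
structure Wdata (K F : Type*) {A : Type*} [Field K] [Field F] [Algebra K F] [CommGroup A]
    (p : A) (h : ℕ) (α : K) (W W' : A → F) : Prop where
  four : ∀ a, W a ^ 4 + W' a ^ 4 = 1
  rec1 : ∀ a, W (p * a) ^ 2 * (1 + W a ^ 2) = 2 * W a
  rec2 : ∀ a, W' a ^ 2 * (1 + W' (p * a) ^ 2) = 2 * W' (p * a)
  prod : ∀ a, algebraMap K F α ^ 2 = (∏ k ∈ Finset.range h, (1 + W (p ^ k * a) ^ 2)) ^ 2
  ne : ∀ a, W a ≠ 0
  ne' : ∀ a, W' a ≠ 0

/-- The automorphisms act on `W`, `W'` by translations of the index. -/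
def Act (K F : Type*) {A : Type*} [Field K] [Field F] [Algebra K F] [CommGroup A]
    (W W' : A → F) : Prop :=
  ∀ σ : F ≃ₐ[K] F, ∃ c : A, ∀ a, σ (W a) = W (c * a) ∧ σ (W' a) = W' (c * a)

/-- A sequence of the arithmetic-geometric mean, up to the index `n`, and `u ^ 4 = 1 - (b / a) ^ 2`. -/
structure Sq4 {F : Type*} [Field F] (w w' i : F) (a b u : ℕ → F) (n : ℕ) : Prop where
  four : w ^ 4 + w' ^ 4 = 1
  w0 : w ≠ 0
  w0' : w' ≠ 0
  i2 : i ^ 2 = -1
  a0 : a 0 = w ^ 2
  b0 : b 0 = -i * w' ^ 2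
  u0 : u 0 = -1 / w
  as : ∀ m < n, a (m + 1) = (a m + b m) / 2
  bs : ∀ m < n, b (m + 1) ^ 2 = a m * b m
  us : ∀ m < n, u (m + 1) = u m ^ 2 * a m / (2 * a (m + 1))

end algebra

section context

variable (K : Type u) [Field K] [NumberField K]

/-- the class number -/
noncomputable def hK : ℕ := Nat.card (ClassGroup (𝓞 K))

/-- The setting of the construction. -/
structure Ctx (q : ℕ) (s : K) (v : HeightOneSpectrum (𝓞 K)) (α : Kˣ)
    (W W' : ClassGroup (𝓞 K) → AlgebraicClosure K) : Prop where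
  base : IsBase K q s
  two : (2 : 𝓞 K) ∈ v.asIdeal
  al : prin α = pr v ^ hK K
  data : Wdata K (AlgebraicClosure K) (cl (pr v)⁻¹) (hK K) (α : K) W W'
  act : Act K (AlgebraicClosure K) W W'
  agm : ∀ (i : AlgebraicClosure K) (a b u : ℕ → AlgebraicClosure K),
    (∀ n, Sq4 (W 1) (W' 1) i a b u n) →
    ∀ m, a m ∈ RS.abField K (AlgebraicClosure K) ∧ b m ∈ RS.abField K (AlgebraicClosure K)

variable {K}

/-- the field generated by `i`, `b_0, .., b_n`, and all values of `W`, `W'` -/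
noncomputable def layM (W W' : ClassGroup (𝓞 K) → AlgebraicClosure K) (i : AlgebraicClosure K)
    (b : ℕ → AlgebraicClosure K) (n : ℕ) : IntermediateField K (AlgebraicClosure K) :=
  IntermediateField.adjoin K
    ({i} ∪ {z | ∃ m, m ≤ n ∧ z = b m} ∪ (Set.range W ∪ Set.range W'))

/-- the subfield of `layM` fixed by the automorphisms of order dividing the class number -/
noncomputable def layF (W W' : ClassGroup (𝓞 K) → AlgebraicClosure K) (i : AlgebraicClosure K)
    (b : ℕ → AlgebraicClosure K) (n : ℕ) : IntermediateField K (AlgebraicClosure K) where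
  carrier := {x | x ∈ layM W W' i b n ∧ ∀ τ : AlgebraicClosure K ≃ₐ[K] AlgebraicClosure K,
    (∀ y ∈ layM W W' i b n, (τ ^ hK K) y = y) → τ x = x}
  mul_mem' := by
    rintro x y ⟨hx, hx'⟩ ⟨hy, hy'⟩
    exact ⟨mul_mem hx hy, fun τ hτ => by rw [map_mul, hx' τ hτ, hy' τ hτ]⟩
  one_mem' := ⟨one_mem _, fun τ _ => map_one τ⟩
  add_mem' := by
    rintro x y ⟨hx, hx'⟩ ⟨hy, hy'⟩
    exact ⟨add_mem hx hy, fun τ hτ => by rw [map_add, hx' τ hτ, hy' τ hτ]⟩
  zero_mem' := ⟨zero_mem _, fun τ _ => map_zero τ⟩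
  algebraMap_mem' := fun r => ⟨(layM W W' i b n).algebraMap_mem r, fun τ _ => τ.commutes r⟩
  inv_mem' := by
    rintro x ⟨hx, hx'⟩
    exact ⟨inv_mem hx, fun τ hτ => by rw [map_inv₀, hx' τ hτ]⟩

theorem mem_layF {W W' : ClassGroup (𝓞 K) → AlgebraicClosure K} {i : AlgebraicClosure K}
    {b : ℕ → AlgebraicClosure K} {n : ℕ} {x : AlgebraicClosure K} :
    x ∈ layF W W' i b n ↔ x ∈ layM W W' i b n ∧
      ∀ τ : AlgebraicClosure K ≃ₐ[K] AlgebraicClosure K,
        (∀ y ∈ layM W W' i b n, (τ ^ hK K) y = y) → τ x = x := Iff.rfl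

end context

section valuations

/-- A valuation of `F` above the place `v`: properties. -/
structure Dya (K : Type*) {F : Type*} [Field K] [Field F] [Algebra K F] (V : Valuation F ℤᵐ⁰)
    (h : ℕ) (α : K) : Prop where
  two : V 2 < 1
  al : V (algebraMap K F α) < 1
  res : ∀ x : K, V (algebraMap K F x) ≤ 1 →
    V (algebraMap K F x) < 1 ∨ V (algebraMap K F x - 1) < 1
  unif : ∀ x : K, V (algebraMap K F x) < 1 → V (algebraMap K F x) ≤ V 2
  g1 : ¬ V (algebraMap K F (2 ^ h / α) - 1) ≤ V 8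
  g2 : ¬ V (algebraMap K F (2 ^ h / α) + 1) ≤ V 8

end valuations

end Pool.Agent.Work.MP_787500_nt.HC
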