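import Mathlib
import Pool.Agent.Work.MP_787500_nt.HC.Defs

/-!
Basic lemmas on the definitions of this folder.
-/

set_option autoImplicit false

namespace Pool.Agent.Work.MP_787500_nt.HC

open WithZero IsDedekindDomain NumberField

section sq4

variable {F F' : Type*} [Field F] [Field F']

theorem Sq4.mono {w w' i : F} {a b u : ℕ → F} {m n : ℕ} (h : Sq4 w w' i a b u n) (hmn : m ≤ n) :
    Sq4 w w' i a b u m :=
  ⟨h.four, h.w0, h.w0', h.i2, h.a0, h.b0, h.u0, fun k hk => h.as k (hk.trans_le hmn),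
    fun k hk => h.bs k (hk.trans_le hmn), fun k hk => h.us k (hk.trans_le hmn)⟩

theorem Sq4.map (ψ : F →+* F') {w w' i : F} {a b u : ℕ → F} {n : ℕ} (h : Sq4 w w' i a b u n) :
    Sq4 (ψ w) (ψ w') (ψ i) (ψ ∘ a) (ψ ∘ b) (ψ ∘ u) n := by
  refine ⟨?_, ?_, ?_, ?_, ?_, ?_, ?_, fun m hm => ?_, fun m hm => ?_, fun m hm => ?_⟩
  · rw [← map_pow, ← map_pow, ← map_add, h.four, map_one]
  · exact (map_ne_zero ψ).2 h.w0
  · exact (map_ne_zero ψ).2 h.w0'
  · rw [← map_pow, h.i2, map_neg, map_one]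
  · simp only [Function.comp_apply, h.a0, map_pow]
  · simp only [Function.comp_apply, h.b0, map_pow, map_mul, map_neg]
  · simp only [Function.comp_apply, h.u0, map_div₀, map_neg, map_one]
  · simp only [Function.comp_apply, h.as m hm, map_div₀, map_add, map_ofNat]
  · simp only [Function.comp_apply]
    rw [← map_pow, h.bs m hm, map_mul]
  · simp only [Function.comp_apply, h.us m hm, map_div₀, map_mul, map_pow, map_ofNat]

theorem Sq4.comap (ψ : F →+* F') {w w' i : F} {a b u : ℕ → F} {A B U : ℕ → F'} {n : ℕ}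
    (h : Sq4 (ψ w) (ψ w') (ψ i) A B U n) (ha : ∀ m ≤ n, ψ (a m) = A m)
    (hb : ∀ m ≤ n, ψ (b m) = B m) (hu : ∀ m ≤ n, ψ (u m) = U m) : Sq4 w w' i a b u n := by
  refine ⟨?_, ?_, ?_, ?_, ?_, ?_, ?_, fun m hm => ?_, fun m hm => ?_, fun m hm => ?_⟩
  · apply ψ.injective
    rw [map_add, map_pow, map_pow, h.four, map_one]
  · exact (map_ne_zero ψ).1 h.w0
  · exact (map_ne_zero ψ).1 h.w0'
  · apply ψ.injective
    rw [map_pow, h.i2, map_neg, map_one]
  · apply ψ.injective
    rw [ha 0 (Nat.zero_le _), h.a0, map_pow]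
  · apply ψ.injective
    rw [hb 0 (Nat.zero_le _), h.b0, map_mul, map_neg, map_pow]
  · apply ψ.injective
    rw [hu 0 (Nat.zero_le _), h.u0, map_div₀, map_neg, map_one]
  · apply ψ.injective
    rw [ha (m + 1) hm, h.as m hm, map_div₀, map_add, map_ofNat, ha m hm.le, hb m hm.le]
  · apply ψ.injective
    rw [map_pow, hb (m + 1) hm, h.bs m hm, map_mul, ha m hm.le, hb m hm.le]
  · apply ψ.injective
    rw [hu (m + 1) hm, h.us m hm, map_div₀, map_mul, map_mul, map_pow, map_ofNat, ha m hm.le,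
      ha (m + 1) hm, hu m hm.le]

theorem sq4_ne [CharZero F] {w w' i : F} {a b u : ℕ → F} {n : ℕ} (h : Sq4 w w' i a b u n)
    {m : ℕ} (hm : m ≤ n) :
    a m ≠ 0 ∧ b m ≠ 0 ∧ a m + b m ≠ 0 ∧ a m - b m ≠ 0 ∧ u m ≠ 0 ∧
      u m ^ 4 * a m ^ 2 = a m ^ 2 - b m ^ 2 := by
  have h2 : (2 : F) ≠ 0 := two_ne_zero
  induction m with
  | zero =>
    have hi := h.i2
    have hw := h.w0
    have hw' := h.w0'
    have hi0 : i ≠ 0 := by
      rintro rfl
      rw [zero_pow two_ne_zero] at hi
      exact one_ne_zero (neg_eq_zero.1 hi.symm)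
    have e1 : a 0 ^ 2 - b 0 ^ 2 = 1 := by
      rw [h.a0, h.b0]
      linear_combination h.four - w' ^ 4 * hi
    have e2 : (a 0 + b 0) * (a 0 - b 0) = 1 := by rw [← e1]; ring
    refine ⟨?_, ?_, left_ne_zero_of_mul_eq_one e2, right_ne_zero_of_mul_eq_one e2, ?_, ?_⟩
    · rw [h.a0]; exact pow_ne_zero _ hw
    · rw [h.b0]; exact mul_ne_zero (neg_ne_zero.2 hi0) (pow_ne_zero _ hw')
    · rw [h.u0]; exact div_ne_zero (neg_ne_zero.2 one_ne_zero) hw
    · rw [e1, h.u0, h.a0]
      field_simp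
  | succ m ih =>
    obtain ⟨ha, hb, hab, hamb, hu, heq⟩ := ih (by omega)
    have has := h.as m (by omega)
    have hbs := h.bs m (by omega)
    have hus := h.us m (by omega)
    have ha' : a (m + 1) ≠ 0 := by rw [has]; exact div_ne_zero hab h2
    have hb' : b (m + 1) ≠ 0 := by
      intro hc
      rw [hc, zero_pow two_ne_zero] at hbs
      exact mul_ne_zero ha hb hbs.symm
    have e1 : a (m + 1) ^ 2 - b (m + 1) ^ 2 = ((a m - b m) / 2) ^ 2 := by
      rw [hbs, has]
      field_simp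
      ring
    have e2 : (a (m + 1) + b (m + 1)) * (a (m + 1) - b (m + 1)) ≠ 0 := by
      rw [show (a (m + 1) + b (m + 1)) * (a (m + 1) - b (m + 1)) =
        a (m + 1) ^ 2 - b (m + 1) ^ 2 by ring, e1]
      exact pow_ne_zero _ (div_ne_zero hamb h2)
    refine ⟨ha', hb', left_ne_zero_of_mul e2, right_ne_zero_of_mul e2, ?_, ?_⟩
    · rw [hus]
      exact div_ne_zero (mul_ne_zero (pow_ne_zero _ hu) ha) (mul_ne_zero h2 ha')
    · have e3 : u (m + 1) ^ 4 * a (m + 1) ^ 2 =
          (u m ^ 4 * a m ^ 2) ^ 2 / (16 * a (m + 1) ^ 2) := by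
        rw [hus]
        field_simp
        ring
      rw [e3, heq, e1, has]
      field_simp
      ring

theorem exists_sq4 [IsAlgClosed F] {w w' : F} (h4 : w ^ 4 + w' ^ 4 = 1) (hw : w ≠ 0)
    (hw' : w' ≠ 0) : ∃ (i : F) (a b u : ℕ → F), ∀ n, Sq4 w w' i a b u n := by
  have hs : ∀ x : F, ∃ y : F, y ^ 2 = x := fun x => by
    obtain ⟨z, hz⟩ := IsAlgClosed.exists_pow_nat_eq x (n := 2) (by norm_num)
    exact ⟨z, hz⟩
  choose s hs using hs
  let i : F := s (-1)
  let f : F × F × F → F × F × F := fun t =>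
    ((t.1 + t.2.1) / 2, s (t.1 * t.2.1), t.2.2 ^ 2 * t.1 / (2 * ((t.1 + t.2.1) / 2)))
  let t0 : F × F × F := (w ^ 2, -i * w' ^ 2, -1 / w)
  refine ⟨i, fun m => (f^[m] t0).1, fun m => (f^[m] t0).2.1, fun m => (f^[m] t0).2.2, fun n => ?_⟩
  refine ⟨h4, hw, hw', hs _, rfl, rfl, rfl, fun m _ => ?_, fun m _ => ?_, fun m _ => ?_⟩
  · simp only [Function.iterate_succ', Function.comp_apply, f]
  · simp only [Function.iterate_succ', Function.comp_apply, f, hs]
  · simp only [Function.iterate_succ', Function.comp_apply, f]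

/-- the quotients `z = b / a` -/
theorem sq4_quot [CharZero F] {w w' i : F} {a b u : ℕ → F} {n : ℕ} (h : Sq4 w w' i a b u n)
    {m : ℕ} (hm : m < n) :
    (b (m + 1) / a (m + 1)) ^ 2 * (1 + b m / a m) ^ 2 = 4 * (b m / a m) := by
  obtain ⟨ha, hb, hab, -, -, -⟩ := sq4_ne h hm.le
  have has := h.as m hm
  have hbs := h.bs m hm
  rw [div_pow, hbs, has]
  field_simp
  norm_num

end sq4

section wdata

variable {K F F' A : Type*} [Field K] [Field F] [Field F'] [Algebra K F] [Algebra K F']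
  [CommGroup A] {p : A} {h : ℕ} {α : K} {W W' : A → F}

theorem Wdata.map (ψ : F →ₐ[K] F') (H : Wdata K F p h α W W') :
    Wdata K F' p h α (ψ ∘ W) (ψ ∘ W') := by
  refine ⟨fun a => ?_, fun a => ?_, fun a => ?_, fun a => ?_, fun a => ?_, fun a => ?_⟩
  · simp only [Function.comp_apply]
    rw [← map_pow, ← map_pow, ← map_add, H.four, map_one]
  · simp only [Function.comp_apply]
    rw [← map_pow, ← map_pow, ← map_one ψ, ← map_add, ← map_mul, H.rec1, map_mul, map_ofNat]
  · simp only [Function.comp_apply]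
    rw [← map_pow, ← map_pow, ← map_one ψ, ← map_add, ← map_mul, H.rec2, map_mul, map_ofNat]
  · simp only [Function.comp_apply]
    rw [← ψ.commutes, ← map_pow, H.prod a, map_pow, map_prod]
    simp only [map_add, map_one, map_pow]
  · exact (map_ne_zero ψ).2 (H.ne a)
  · exact (map_ne_zero ψ).2 (H.ne' a)

theorem Wdata.comap (ψ : F →ₐ[K] F') (H : Wdata K F' p h α (fun a => ψ (W a)) (fun a => ψ (W' a))) :
    Wdata K F p h α W W' := by
  refine ⟨fun a => ?_, fun a => ?_, fun a => ?_, fun a => ?_, fun a => ?_, fun a => ?_⟩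
  · apply (ψ : F →+* F').injective
    simp only [RingHom.coe_coe]
    rw [map_add, map_pow, map_pow, map_one, H.four]
  · apply (ψ : F →+* F').injective
    simp only [RingHom.coe_coe]
    rw [map_mul, map_add, map_pow, map_pow, map_one, H.rec1, map_mul, map_ofNat]
  · apply (ψ : F →+* F').injective
    simp only [RingHom.coe_coe]
    rw [map_mul, map_add, map_pow, map_pow, map_one, H.rec2, map_mul, map_ofNat]
  · apply (ψ : F →+* F').injective
    simp only [RingHom.coe_coe]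
    rw [map_pow, ψ.commutes, H.prod a, map_pow, map_prod]
    simp only [map_add, map_one, map_pow]
  · exact (map_ne_zero ψ).1 (H.ne a)
  · exact (map_ne_zero ψ).1 (H.ne' a)

/-- the sequence starting at any index -/
theorem Wdata.exists_sq4 [IsAlgClosed F] (H : Wdata K F p h α W W') (c : A) :
    ∃ (i : F) (a b u : ℕ → F), ∀ n, Sq4 (W c) (W' c) i a b u n :=
  HC.exists_sq4 (H.four c) (H.ne c) (H.ne' c)

end wdata

section dya

variable {F : Type*} [Field F]

theorem val_nat_le (V : Valuation F ℤᵐ⁰) (n : ℕ) : V (n : F) ≤ 1 := by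
  induction n with
  | zero => rw [Nat.cast_zero, map_zero]; exact zero_le
  | succ n ih =>
    rw [Nat.cast_succ]
    exact (V.map_add _ _).trans (max_le ih (by rw [map_one]))

end dya

end Pool.Agent.Work.MP_787500_nt.HC
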