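import Mathlib
import Pool.Agent.Work.MP_787500_nt.HC.Basic

/-!
# Module ARA: ideals stable under conjugation are principal

`Quad.exists_W`: `𝓞 K = ℤ + ℤ W`, `2 W = 1 + s`, `W^2 = W - 2 k`. So `S = 2 W - 1`, and `σ W = 1 - W`
(`2 σ W = 1 + σ S`, `2 ≠ 0` in the domain `𝓞 K`). If `J = ⊥` it is principal. Otherwise the set of the `b` with
`a + b W ∈ J` for some `a` is an ideal of `ℤ`, not zero (if `x = a + b W ∈ J` is nonzero then either `b ≠ 0` or
`a W ∈ J` with `a ≠ 0`), generated by `r ≠ 0`. For `a + b W ∈ J`: `r ∣ b`, and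
`(a + b W) W = -2 k b + (a + b) W ∈ J`, so `r ∣ a`. So `J = r J'` with the ideal
`J' = {x | r x ∈ J}`; `J'` is stable under `σ` and contains `a' + W` for some integer `a'`. So it contains
`(a' + W) - σ (a' + W) = 2 W - 1 = S`. The ideal `(S)` is maximal: `𝓞 K ⧸ (S)` has `q` elements
(`x = a + b W`, `2 x ≡ 2 a + b` mod `S`; or `Ideal.isPrime_of_irreducible_absNorm` with
`absNorm (span {S}) = |norm S| = q`; or directly: if `x = a + b W ∉ (S)` then `q ∤ 2 a + b` (`2 x = (2a+b) + b S`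
and `q = -S^2 ∈ (S)`; `q` is odd), so `(S, x)` contains `2a + b` and `q`, hence 1). So `J' = (S)` or
`J' = ⊤`, and `J = (r S)` or `J = (r)`.
-/

set_option autoImplicit false

namespace Pool.Agent.Work.MP_787500_nt.HC

open WithZero IsDedekindDomain NumberField
open scoped Pointwise nonZeroDivisors

universe u

variable {K : Type*} [Field K] [NumberField K] {q : ℕ} {s : K}

theorem ambiguous (hb : IsBase K q s) {S : 𝓞 K} (hS : algebraMap (𝓞 K) K S = s)
    (σ : 𝓞 K ≃+* 𝓞 K) (hσ : σ S = -S) {J : Ideal (𝓞 K)} (hJ : ∀ x ∈ J, σ x ∈ J) :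
    Submodule.IsPrincipal J := by
  obtain ⟨hK2, hs, hq, hq16⟩ := hb
  obtain ⟨W, k, hW, hWk, hx⟩ := Quad.exists_W hK2 hs hq (by omega)
  have hinj : Function.Injective (algebraMap (𝓞 K) K) := RingOfIntegers.coe_injective
  have hW' : 2 * W = 1 + S := by
    apply hinj
    rw [map_mul, map_ofNat, hW, map_add, map_one, hS]
  have hS2 : S ^ 2 = -(q : 𝓞 K) := by
    apply hinj
    rw [map_pow, hS, hs, map_neg, map_natCast]
  have h20 : (2 : 𝓞 K) ≠ 0 := two_ne_zero
  have hσW : σ W = 1 - W := by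
    apply mul_left_cancel₀ h20
    have h1 : σ (2 * W) = 1 - S := by rw [hW', map_add, map_one, hσ]; ring
    rw [map_mul, map_ofNat] at h1
    rw [h1]
    linear_combination hW'
  by_cases hJ0 : J = ⊥
  · rw [hJ0]
    exact bot_isPrincipal
  obtain ⟨x0, hx0J, hx00⟩ := Submodule.exists_mem_ne_zero_of_ne_bot hJ0
  -- the ideal of the coefficients of W
  let B : Ideal ℤ :=
    { carrier := {b | ∃ a : ℤ, (a : 𝓞 K) + b * W ∈ J}
      add_mem' := by
        rintro b b' ⟨a, ha⟩ ⟨a', ha'⟩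
        refine ⟨a + a', ?_⟩
        have := J.add_mem ha ha'
        convert this using 1
        push_cast
        ring
      zero_mem' := ⟨0, by simp⟩
      smul_mem' := by
        rintro c b ⟨a, ha⟩
        refine ⟨c * a, ?_⟩
        have := J.mul_mem_left (c : 𝓞 K) ha
        convert this using 1
        rw [smul_eq_mul]
        push_cast
        ring }
  have hBmem : ∀ b : ℤ, b ∈ B ↔ ∃ a : ℤ, (a : 𝓞 K) + b * W ∈ J := fun b => Iff.rfl
  obtain ⟨r, hr⟩ := (IsPrincipalIdealRing.principal B).principal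
  have hmulW : ∀ a b : ℤ, (a : 𝓞 K) + b * W ∈ J →
      ((-(2 * k * b) : ℤ) : 𝓞 K) + ((a + b : ℤ) : 𝓞 K) * W ∈ J := by
    intro a b hab
    have h1 := J.mul_mem_right W hab
    convert h1 using 1
    push_cast
    linear_combination (b : 𝓞 K) * hWk
  have hdvd : ∀ a b : ℤ, (a : 𝓞 K) + b * W ∈ J → r ∣ b ∧ r ∣ a := by
    intro a b hab
    have h1 : b ∈ B := ⟨a, hab⟩
    have h2 : a + b ∈ B := ⟨_, hmulW a b hab⟩
    rw [hr] at h1 h2
    obtain ⟨c, hc⟩ := Ideal.mem_span_singleton'.1 h1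
    obtain ⟨d, hd⟩ := Ideal.mem_span_singleton'.1 h2
    exact ⟨⟨c, by rw [← hc]; ring⟩, ⟨d - c, by linear_combination hc - hd⟩⟩
  have hr0 : r ≠ 0 := by
    rintro rfl
    obtain ⟨a, b, rfl⟩ := hx x0
    obtain ⟨h1, h2⟩ := hdvd a b hx0J
    rw [zero_dvd_iff] at h1 h2
    apply hx00
    rw [h1, h2]
    simp
  have hr0' : (r : 𝓞 K) ≠ 0 := by exact_mod_cast hr0
  obtain ⟨a0, ha0⟩ : ∃ a : ℤ, (a : 𝓞 K) + r * W ∈ J := by
    have : r ∈ B := by
      rw [hr]
      exact Ideal.mem_span_singleton_self r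
    exact this
  obtain ⟨a', rfl⟩ := (hdvd _ _ ha0).2
  -- the divided ideal
  have hJ'S : (r : 𝓞 K) * S ∈ J := by
    have h1 := J.sub_mem ha0 (hJ _ ha0)
    rw [map_add, map_mul, hσW, map_intCast, map_intCast] at h1
    convert h1 using 1
    push_cast
    linear_combination -(r : 𝓞 K) * hW'
  have hqJ : (r : 𝓞 K) * q ∈ J := by
    have h1 := J.mul_mem_right (-S) hJ'S
    convert h1 using 1
    linear_combination (r : 𝓞 K) * hS2
  by_cases hall : ∀ x, (r : 𝓞 K) * x ∈ J → x ∈ Ideal.span {S}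
  · refine ⟨⟨(r : 𝓞 K) * S, ?_⟩⟩
    refine le_antisymm ?_ ?_
    · intro x hxJ
      obtain ⟨a, b, rfl⟩ := hx x
      obtain ⟨⟨b1, rfl⟩, ⟨a1, rfl⟩⟩ := hdvd a b hxJ
      have h1 : (r : 𝓞 K) * (a1 + b1 * W) ∈ J := by
        convert hxJ using 1
        push_cast
        ring
      obtain ⟨c, hc⟩ := Ideal.mem_span_singleton'.1 (hall _ h1)
      refine Ideal.mem_span_singleton'.2 ⟨c, ?_⟩
      push_cast
      linear_combination (r : 𝓞 K) * hc
    · exact (Ideal.span_singleton_le_iff_mem _).2 hJ'S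
  · push Not at hall
    obtain ⟨x, hxJ, hxS⟩ := hall
    refine ⟨⟨(r : 𝓞 K), ?_⟩⟩
    refine le_antisymm ?_ ?_
    · intro y hyJ
      obtain ⟨a, b, rfl⟩ := hx y
      obtain ⟨⟨b1, rfl⟩, ⟨a1, rfl⟩⟩ := hdvd a b hyJ
      refine Ideal.mem_span_singleton'.2 ⟨(a1 : 𝓞 K) + b1 * W, ?_⟩
      push_cast
      ring
    · refine (Ideal.span_singleton_le_iff_mem _).2 ?_
      obtain ⟨a, b, rfl⟩ := hx x
      have hm : (r : 𝓞 K) * ((2 * a + b : ℤ) : 𝓞 K) ∈ J := by
        have h1 := J.sub_mem (J.mul_mem_left 2 hxJ) (J.mul_mem_left (b : 𝓞 K) hJ'S)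
        convert h1 using 1
        push_cast
        linear_combination -(r : 𝓞 K) * b * hW'
      have hqS : (q : 𝓞 K) ∈ Ideal.span {S} := Ideal.mem_span_singleton'.2 ⟨-S, by
        linear_combination -hS2⟩
      have hqm : ¬ (q : ℤ) ∣ 2 * a + b := by
        rintro ⟨c, hc⟩
        apply hxS
        have hcK : (2 : 𝓞 K) * a + b = q * c := by exact_mod_cast congrArg (Int.cast (R := 𝓞 K)) hc
        have h1 : 2 * ((a : 𝓞 K) + b * W) ∈ Ideal.span {S} := by
          have h2 : 2 * ((a : 𝓞 K) + b * W) = q * c + b * S := by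
            linear_combination hcK + (b : 𝓞 K) * hW'
          rw [h2]
          exact Ideal.add_mem _ (Ideal.mul_mem_right _ _ hqS)
            (Ideal.mul_mem_left _ _ (Ideal.mem_span_singleton_self S))
        obtain ⟨m, hm2⟩ : ∃ m : ℕ, q + 1 = 2 * m := ⟨(q + 1) / 2, by omega⟩
        have hmK : (q : 𝓞 K) + 1 = 2 * m := by exact_mod_cast hm2
        have h3 : (a : 𝓞 K) + b * W = m * (2 * ((a : 𝓞 K) + b * W)) -
            (a + b * W) * q := by
          linear_combination ((a : 𝓞 K) + b * W) * hmK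
        rw [h3]
        exact Ideal.sub_mem _ (Ideal.mul_mem_left _ _ h1) (Ideal.mul_mem_left _ _ hqS)
      have hcop : IsCoprime (q : ℤ) (2 * a + b) :=
        (Prime.coprime_iff_not_dvd (Nat.prime_iff_prime_int.1 hq)).2 hqm
      obtain ⟨u, t, hut⟩ := hcop
      have hutK : (u : 𝓞 K) * q + t * ((2 * a + b : ℤ) : 𝓞 K) = 1 := by
        exact_mod_cast congrArg (Int.cast (R := 𝓞 K)) hut
      have h4 : (r : 𝓞 K) = u * (r * q) + t * (r * ((2 * a + b : ℤ) : 𝓞 K)) := by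
        linear_combination -(r : 𝓞 K) * hutK
      rw [h4]
      exact J.add_mem (J.mul_mem_left _ hqJ) (J.mul_mem_left _ hm)

end Pool.Agent.Work.MP_787500_nt.HC
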