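import Mathlib
import Pool.Agent.Work.MP_787500_nt.HC.Basic
import Pool.Agent.Work.MP_787500_nt.HC.ArA

/-!
# Module ARB: the class number is odd

`σ : 𝓞 K ≃+* 𝓞 K` with `σ S = -S` (`Quad.exists_conj`, `Quad.exists_int_s`,
`NumberField.RingOfIntegers.mapRingEquiv`); `σ (σ x) = x` (`Quad.exists_W`: every `x` is `a + b W`).
Suppose the class number is even: there is a class of order two (`exists_prime_orderOf_dvd_card`), the class
of a nonzero ideal `I` (`ClassGroup.mk0_surjective`). Write `I' = I.map σ` (the image ideal).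
1. `I * I'` is stable under `σ`, so it is principal (`ambiguous`), so `[I'] = [I]⁻¹ = [I]` (order two).
2. So there are nonzero `x, y ∈ 𝓞 K` with `(x) I' = (y) I` (`ClassGroup.mk0_eq_mk0_iff`). Apply `σ`:
   `(σ x) I = (σ y) I'`. Multiply: `(x σ x) I I' = (y σ y) I I'`, so `(x σ x) = (y σ y)` as ideals, so
   `x σ x = ε y σ y` with a unit `ε`; `x σ x` and `y σ y` are positive rational integers
   (`a + b W ↦ a^2 + a b + 2 k b^2`, or the norm form of `Quad.normSq_emb`), so `ε` is a positive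
   rational unit, `ε = 1`: `x σ x = y σ y`.
3. Put `λ = y / x ∈ K`, `λ σλ = 1`, `I' = λ I`. If `λ ≠ -1` let `μ = 1 + λ`, then `λ = μ / σμ`; if `λ = -1` let
   `μ = s`, `σ s = -s`, `λ = μ / σμ`. So `σ(μ I) = σμ λ I = μ I`. In terms of integral ideals: with
   `z = x μ ∈ 𝓞 K` (i.e. `z = x + y`, or `z = x S` if `y = -x`): `σ z * y = z * σ x`... so the
   ideal `J = (z * σ x) I` satisfies `σ J = (σ z * x) I'` and `(x) I' = (y) I` gives `σ J = (σ z * y) I = (z * σ x) I = J`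
   (check: `z = x + y`: `(σ x + σ y) y = x σ x + y σ x = (x + y) σ x`. `z = x S`, `y = -x`: `-S σx (-x) = x S σ x`.)
4. `J` is stable under `σ`, so it is principal (`ambiguous`), so `[I] = 1`, a contradiction.
-/

set_option autoImplicit false

namespace Pool.Agent.Work.MP_787500_nt.HC

open WithZero IsDedekindDomain NumberField
open scoped Pointwise nonZeroDivisors

universe u

variable {K : Type*} [Field K] [NumberField K] {q : ℕ} {s : K}

private theorem arB_coords (hs : s ^ 2 = -(q : K)) (hq : 0 < q) {W : 𝓞 K}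
    (hW : 2 * algebraMap (𝓞 K) K W = 1 + s) {a b : ℤ} (h : (a : 𝓞 K) + b * W = 0) :
    a = 0 ∧ b = 0 := by
  have h1 : ((2 * a + b : ℚ) : K) + ((b : ℚ) : K) * s = 0 := by
    have h2 := congrArg (algebraMap (𝓞 K) K) h
    rw [map_add, map_mul, map_intCast, map_intCast, map_zero] at h2
    push_cast
    linear_combination 2 * h2 - (b : K) * hW
  obtain ⟨h2, h3⟩ := Quad.not_rat hs hq _ _ h1
  have h4 : b = 0 := by exact_mod_cast h3
  subst h4
  have h5 : (2 : ℚ) * a = 0 := by simpa using h2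
  have h6 : (a : ℚ) = 0 := by linarith
  exact ⟨by exact_mod_cast h6, rfl⟩

private theorem arB_dvd (hs : s ^ 2 = -(q : K)) (hq : 0 < q) {W : 𝓞 K}
    (hW : 2 * algebraMap (𝓞 K) K W = 1 + s) (hx : ∀ x : 𝓞 K, ∃ a b : ℤ, x = a + b * W)
    {m n : ℤ} (h : (m : 𝓞 K) ∣ (n : 𝓞 K)) : m ∣ n := by
  obtain ⟨z, hz⟩ := h
  obtain ⟨a, b, rfl⟩ := hx z
  have h1 : ((n - m * a : ℤ) : 𝓞 K) + ((-(m * b) : ℤ) : 𝓞 K) * W = 0 := by
    push_cast
    linear_combination hz
  obtain ⟨h2, -⟩ := arB_coords hs hq hW h1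
  exact ⟨a, by linarith⟩

theorem odd_hK (hb : IsBase K q s) : Odd (hK K) := by
  obtain ⟨hK2, hs, hq, hq16⟩ := hb
  obtain ⟨W, k, hW, hWk, hx⟩ := Quad.exists_W hK2 hs hq (by omega)
  obtain ⟨S, hS, hS2⟩ := Quad.exists_int_s hs
  obtain ⟨σK, hσK⟩ := Quad.exists_conj hK2 hs hq.pos
  have hinj : Function.Injective (algebraMap (𝓞 K) K) := RingOfIntegers.coe_injective
  set σ : 𝓞 K ≃+* 𝓞 K := RingOfIntegers.mapRingEquiv σK with hσdef
  have hσmap : ∀ x : 𝓞 K, algebraMap (𝓞 K) K (σ x) = σK (algebraMap (𝓞 K) K x) := fun x => rfl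
  have hσ : σ S = -S := by
    apply hinj
    rw [hσmap, hS, hσK, map_neg, hS]
  have hW' : 2 * W = 1 + S := by
    apply hinj
    rw [map_mul, map_ofNat, hW, map_add, map_one, hS]
  have h20 : (2 : 𝓞 K) ≠ 0 := two_ne_zero
  have hσW : σ W = 1 - W := by
    apply mul_left_cancel₀ h20
    have h1 : σ (2 * W) = 1 - S := by rw [hW', map_add, map_one, hσ]; ring
    rw [map_mul, map_ofNat] at h1
    rw [h1]
    linear_combination hW'
  have hσσ : ∀ x, σ (σ x) = x := by
    intro x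
    obtain ⟨a, b, rfl⟩ := hx x
    rw [map_add, map_mul, hσW, map_intCast, map_intCast, map_add, map_mul, map_sub, map_one, hσW,
      map_intCast, map_intCast]
    ring
  -- norms
  have hk8 : 8 * k = q + 1 := by
    have h1 : (4 : 𝓞 K) * (W * (1 - W)) = 1 + q := by
      linear_combination (2 - 2 * W - (1 + S)) * hW' - hS2
    rw [hWk] at h1
    have h2 : ((8 * k : ℤ) : 𝓞 K) = ((q + 1 : ℤ) : 𝓞 K) := by
      push_cast
      linear_combination h1
    exact_mod_cast h2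
  have hnorm : ∀ x : 𝓞 K, x ≠ 0 → ∃ m : ℤ, 0 < m ∧ x * σ x = m := by
    intro x hx0
    obtain ⟨a, b, rfl⟩ := hx x
    refine ⟨a ^ 2 + a * b + 2 * k * b ^ 2, ?_, ?_⟩
    · have h1 : 4 * (a ^ 2 + a * b + 2 * k * b ^ 2) = (2 * a + b) ^ 2 + q * b ^ 2 := by
        linear_combination b ^ 2 * hk8
      have hq0 : (0 : ℤ) < q := by exact_mod_cast hq.pos
      have h2 : 0 < (2 * a + b) ^ 2 + q * b ^ 2 := by
        by_cases hb0 : b = 0
        · subst hb0
          have ha0 : a ≠ 0 := by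
            rintro rfl
            apply hx0
            simp
          have : 0 < a ^ 2 := by positivity
          nlinarith
        · have : 0 < b ^ 2 := by positivity
          have h3 : 0 < (q : ℤ) * b ^ 2 := mul_pos hq0 this
          nlinarith [sq_nonneg (2 * a + b)]
      linarith
    · rw [map_add, map_mul, hσW, map_intCast, map_intCast]
      push_cast
      linear_combination (b : 𝓞 K) ^ 2 * hWk
  -- suppose the class number is even
  by_contra hodd
  rw [Nat.not_odd_iff_even] at hodd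
  have hdvd : 2 ∣ Nat.card (ClassGroup (𝓞 K)) := even_iff_two_dvd.1 hodd
  have : Fact (Nat.Prime 2) := ⟨Nat.prime_two⟩
  obtain ⟨c, hc⟩ := exists_prime_orderOf_dvd_card' 2 hdvd
  obtain ⟨I, rfl⟩ := ClassGroup.mk0_surjective c
  have hI0 : (I : Ideal (𝓞 K)) ≠ ⊥ := nonZeroDivisors.coe_ne_zero I
  have hcc : ClassGroup.mk0 I * ClassGroup.mk0 I = 1 := by
    rw [← pow_two, ← hc, pow_orderOf_eq_one]
  have hc1 : ClassGroup.mk0 I ≠ 1 := by
    intro h
    rw [h, orderOf_one] at hc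
    omega
  set I' : Ideal (𝓞 K) := (I : Ideal (𝓞 K)).map (σ : 𝓞 K →+* 𝓞 K) with hI'
  have hmapmap : ∀ L : Ideal (𝓞 K), (L.map (σ : 𝓞 K →+* 𝓞 K)).map (σ : 𝓞 K →+* 𝓞 K) = L := by
    intro L
    rw [Ideal.map_map]
    have : ((σ : 𝓞 K →+* 𝓞 K).comp (σ : 𝓞 K →+* 𝓞 K)) = RingHom.id _ := by
      ext1 x
      exact hσσ x
    rw [this, Ideal.map_id]
  have hmem : ∀ (L : Ideal (𝓞 K)) x, x ∈ L → σ x ∈ L.map (σ : 𝓞 K →+* 𝓞 K) := fun L x hxL =>
    Ideal.mem_map_of_mem (σ : 𝓞 K →+* 𝓞 K) hxL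
  have hI'0 : I' ≠ ⊥ := by
    intro h0
    apply hI0
    rw [← hmapmap I, ← hI', h0, Ideal.map_bot]
  -- step 1
  have hprin : Submodule.IsPrincipal ((I : Ideal (𝓞 K)) * I') := by
    refine ambiguous ⟨hK2, hs, hq, hq16⟩ hS σ hσ (fun x hxL => ?_)
    have h1 := hmem _ x hxL
    rw [Ideal.map_mul, hI', hmapmap, mul_comm] at h1
    exact h1
  have hII'0 : (I : Ideal (𝓞 K)) * I' ≠ ⊥ := mul_ne_zero hI0 hI'0
  have hI'mem : I' ∈ (Ideal (𝓞 K))⁰ := mem_nonZeroDivisors_of_ne_zero hI'0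
  have hcl : ClassGroup.mk0 I = ClassGroup.mk0 ⟨I', hI'mem⟩ := by
    have h1 : ClassGroup.mk0 (I * ⟨I', hI'mem⟩) = 1 := by
      have h2 := (ClassGroup.mk0_eq_one_iff (mem_nonZeroDivisors_of_ne_zero hII'0)).2 hprin
      exact h2
    rw [map_mul] at h1
    have h2 := hcc.trans h1.symm
    exact mul_left_cancel h2
  obtain ⟨y, x, hy0, hx0, hxy⟩ := ClassGroup.mk0_eq_mk0_iff.1 hcl
  -- (y) I = (x) I'
  have hxy' : Ideal.span {y} * (I : Ideal (𝓞 K)) = Ideal.span {x} * I' := hxy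
  have hspanσ : ∀ z : 𝓞 K, (Ideal.span {z}).map (σ : 𝓞 K →+* 𝓞 K) = Ideal.span {σ z} := by
    intro z
    rw [Ideal.map_span, Set.image_singleton]
    rfl
  have hxyσ : Ideal.span {σ y} * I' = Ideal.span {σ x} * (I : Ideal (𝓞 K)) := by
    have h1 := congrArg (Ideal.map (σ : 𝓞 K →+* 𝓞 K)) hxy'
    rw [Ideal.map_mul, Ideal.map_mul, hspanσ, hspanσ, ← hI', hI', hmapmap] at h1
    rw [hI']
    exact h1
  have hnormeq : x * σ x = y * σ y := by
    obtain ⟨m, hm, hxm⟩ := hnorm x hx0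
    obtain ⟨n, hn, hyn⟩ := hnorm y hy0
    have h1 : Ideal.span {y * σ y} * ((I : Ideal (𝓞 K)) * I') =
        Ideal.span {x * σ x} * ((I : Ideal (𝓞 K)) * I') := by
      rw [← Ideal.span_singleton_mul_span_singleton, ← Ideal.span_singleton_mul_span_singleton]
      calc Ideal.span {y} * Ideal.span {σ y} * ((I : Ideal (𝓞 K)) * I')
          = (Ideal.span {y} * (I : Ideal (𝓞 K))) * (Ideal.span {σ y} * I') := by ring
        _ = (Ideal.span {x} * I') * (Ideal.span {σ x} * (I : Ideal (𝓞 K))) := by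
            rw [hxy', hxyσ]
        _ = _ := by ring
    have h2 := mul_right_cancel₀ hII'0 h1
    rw [hxm, hyn, Ideal.span_singleton_eq_span_singleton] at h2
    have h3 := arB_dvd hs hq.pos hW hx h2.dvd
    have h4 := arB_dvd hs hq.pos hW hx h2.symm.dvd
    have h5 : n = m := Int.dvd_antisymm hn.le hm.le h3 h4
    rw [hxm, hyn, h5]
  have hσ0 : ∀ z : 𝓞 K, z ≠ 0 → σ z ≠ 0 := fun z hz h => hz (by
    have := congrArg σ h
    rwa [hσσ, map_zero] at this)
  -- step 3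
  obtain ⟨z, hz0, hz⟩ : ∃ z : 𝓞 K, z ≠ 0 ∧ σ z * y = z * σ x := by
    by_cases hxy0 : x + y = 0
    · have hyx : y = -x := by linear_combination hxy0
      refine ⟨x * S, mul_ne_zero hx0 ?_, ?_⟩
      · rintro rfl
        rw [map_zero] at hS
        exact Quad.s_ne_zero hs hq hS.symm
      · rw [map_mul, hσ, hyx]
        ring
    · refine ⟨x + y, hxy0, ?_⟩
      rw [map_add]
      linear_combination -hnormeq
  have hc0 : z * σ x ≠ 0 := mul_ne_zero hz0 (hσ0 x hx0)
  have hJ : Submodule.IsPrincipal (Ideal.span {z * σ x} * (I : Ideal (𝓞 K))) := by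
    refine ambiguous ⟨hK2, hs, hq, hq16⟩ hS σ hσ (fun t ht => ?_)
    have h1 := hmem _ t ht
    rw [Ideal.map_mul, hspanσ, map_mul, hσσ, ← hI'] at h1
    have h2 : Ideal.span {σ z * x} * I' = Ideal.span {z * σ x} * (I : Ideal (𝓞 K)) := by
      rw [← hz, ← Ideal.span_singleton_mul_span_singleton,
        ← Ideal.span_singleton_mul_span_singleton, mul_assoc, mul_assoc, hxy']
    rw [h2] at h1
    exact h1
  apply hc1
  have hmemI : Ideal.span {z * σ x} * (I : Ideal (𝓞 K)) ∈ (Ideal (𝓞 K))⁰ := by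
    refine mem_nonZeroDivisors_of_ne_zero (mul_ne_zero ?_ hI0)
    rw [Ne, Ideal.zero_eq_bot, Ideal.span_singleton_eq_bot]
    exact hc0
  have h1 := (ClassGroup.mk0_eq_one_iff hmemI).2 hJ
  rw [← h1, ClassGroup.mk0_eq_mk0_iff]
  refine ⟨z * σ x, 1, hc0, one_ne_zero, ?_⟩
  rw [Ideal.span_singleton_one, Ideal.one_eq_top.symm, one_mul]

end Pool.Agent.Work.MP_787500_nt.HC
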