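import Mathlib
import Pool.Agent.Work.MP_787500_nt.HC.Basic

/-!
# Module ALGA: the algebra of the values (pure field algebra)

Write `E = E I`, `E' = E' I`, `D = E - E'`, `s = sv p E I`. By `back`, `E + 2 E(p I) = E - E' = D ≠ 0` and
`E - E(p I) = (2 E + E') / 2`.
* `sv_sq`: `step` says `(E(p⁻¹I) - E)^2 = 4 D (2 E + E')`, and `s = (E(p⁻¹I) - E) / (2 D)`, so
  `s^2 D = 2 E + E'`. Also `E(p⁻¹I) = E + 2 s D`, and `E'(p⁻¹I) = -2 E` (`back` at `p⁻¹ I`).
* `diff_vals`: `E(p⁻¹I) - E'(p⁻¹I) = 3 E + 2 s D = D (1 + s^2) + 2 s D = D (1 + s)^2`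
  (`3 E = D + (2 E + E')`), with `wv ^ 2 = s`.
* `wv_sq`: with `s1 = sv p E (p⁻¹ I)`: `sv_sq` at `p⁻¹ I` says
  `s1^2 (D (1 + s)^2) = 2 E(p⁻¹I) + E'(p⁻¹I) = 4 s D`, so `s1^2 (1 + s)^2 = 4 s` (`D ≠ 0`), and
  `wv = s1 (1 + s) / 2`.
* `wv_ne`: `s ≠ 0`: otherwise `E' = -2 E`, so `E = E(p I)` by `back`, against `ne1`.
* `rec_vals`: `wv(p⁻¹I)^2 = s1` and `1 + wv^2 = 1 + s`, `s1 (1 + s) = 2 wv`.
* `four_vals`: `wv^4 = s^2 = (2 E + E')/(E - E')`, and for the primed function (apply `sv_sq` to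
  `h.symm`) `wv'^4 = (2 E' + E)/(E' - E)`; the sum is 1.
-/

set_option autoImplicit false

namespace Pool.Agent.Work.MP_787500_nt.HC

open WithZero IsDedekindDomain NumberField
open scoped Pointwise nonZeroDivisors

universe u

variable {A F : Type*} [CommGroup A] [Field F] [CharZero F] {p p' : A} {E E' : A → F}

omit [CharZero F] in
theorem Vals.symm (h : Vals p p' E E') : Vals p' p E' E :=
  ⟨h.back', h.back, fun I => (h.ne I).symm, h.ne1', h.ne1, h.step', h.step⟩

private theorem dne (h : Vals p p' E E') (I : A) : E I - E' I ≠ 0 := sub_ne_zero.2 (h.ne I)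

private theorem den (h : Vals p p' E E') (I : A) : E I + 2 * E (p * I) = E I - E' I := by
  rw [h.back I]
  ring

/-- the value at the next index -/
private theorem nxt (h : Vals p p' E E') (I : A) :
    E (p⁻¹ * I) = E I + 2 * sv p E I * (E I - E' I) := by
  have hd := dne h I
  unfold sv
  rw [den h I]
  field_simp
  ring

private theorem nxt' (h : Vals p p' E E') (I : A) : E' (p⁻¹ * I) = -2 * E I := by
  rw [h.back, mul_inv_cancel_left]

theorem sv_sq (h : Vals p p' E E') (I : A) :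
    sv p E I ^ 2 * (E I - E' I) = 2 * E I + E' I := by
  have hd := dne h I
  have h1 := h.step I
  have h2 : E (p⁻¹ * I) - E I = 2 * sv p E I * (E I - E' I) := by
    rw [nxt h I]
    ring
  have h3 : 2 * (E I - E (p * I)) = 2 * E I + E' I := by
    rw [h.back I]
    ring
  rw [h2, den h I] at h1
  have h4 : (4 * (E I - E' I)) * (sv p E I ^ 2 * (E I - E' I)) =
      (4 * (E I - E' I)) * (2 * E I + E' I) := by
    rw [← h3]
    linear_combination h1
  exact mul_left_cancel₀ (mul_ne_zero (by norm_num) hd) h4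

/-- the difference at the next index -/
private theorem dnxt (h : Vals p p' E E') (I : A) :
    E (p⁻¹ * I) - E' (p⁻¹ * I) = (E I - E' I) * (1 + sv p E I) ^ 2 := by
  rw [nxt h I, nxt' h I]
  linear_combination -(sv_sq h I)

theorem wv_sq (h : Vals p p' E E') (I : A) : wv p E I ^ 2 = sv p E I := by
  have h1 := sv_sq h (p⁻¹ * I)
  rw [dnxt h I, nxt' h I, nxt h I] at h1
  have hd := dne h I
  have h2 : (4 * (E I - E' I)) * wv p E I ^ 2 = (4 * (E I - E' I)) * sv p E I := by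
    unfold wv
    linear_combination h1
  exact mul_left_cancel₀ (mul_ne_zero (by norm_num) hd) h2

theorem wv_ne (h : Vals p p' E E') (I : A) : wv p E I ≠ 0 := by
  intro h0
  have h1 := wv_sq h I
  rw [h0, zero_pow two_ne_zero] at h1
  have h2 := sv_sq h I
  rw [← h1, zero_pow two_ne_zero, zero_mul] at h2
  apply h.ne1 I
  have h3 := h.back I
  have h4 : 2 * E I = 2 * E (p * I) := by linear_combination -h2 - h3
  exact mul_left_cancel₀ (two_ne_zero (α := F)) h4

theorem four_vals (h : Vals p p' E E') (I : A) : wv p E I ^ 4 + wv p' E' I ^ 4 = 1 := by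
  have h1 := sv_sq h I
  have h2 := sv_sq h.symm I
  have hd := dne h I
  have h3 : wv p E I ^ 4 = sv p E I ^ 2 := by rw [← wv_sq h I]; ring
  have h4 : wv p' E' I ^ 4 = sv p' E' I ^ 2 := by rw [← wv_sq h.symm I]; ring
  rw [h3, h4]
  have h5 : (sv p E I ^ 2 + sv p' E' I ^ 2) * (E I - E' I) = 1 * (E I - E' I) := by
    linear_combination h1 - h2
  exact mul_right_cancel₀ hd h5

theorem rec_vals (h : Vals p p' E E') (I : A) :
    wv p E (p⁻¹ * I) ^ 2 * (1 + wv p E I ^ 2) = 2 * wv p E I := by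
  rw [wv_sq h, wv_sq h]
  unfold wv
  ring

theorem diff_vals (h : Vals p p' E E') (I : A) :
    E (p⁻¹ * I) - E' (p⁻¹ * I) = (E I - E' I) * (1 + wv p E I ^ 2) ^ 2 := by
  rw [wv_sq h, dnxt h]

end Pool.Agent.Work.MP_787500_nt.HC
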