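import Mathlib
import Pool.Agent.Work.MP_787500_nt.HC.Basic
import Pool.Agent.Work.CM.Kl1
import Pool.Agent.Work.CM.Hom

/-!
# Module LATB: the lattice of a fractional ideal

`lat I` is the image in `ℂ` of the fractional ideal `I` (`mem_lat`).

* `lat_mul`: `FractionalIdeal.coe_mul`, `Submodule.mul_induction_on` in both directions (a product
  `x y`, `x ∈ I`, `y ∈ J`, is in `I J`; the elements of `I J` are sums of such products).
* `lat_le`: `algebraMap K ℂ` is injective.
* `lat_injective`: `lat_le` twice, `Units.ext`.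
* `lat_prin`: `prin x = toPrincipalIdeal (𝓞 K) K x` is `spanSingleton x` (`coe_toPrincipalIdeal`),
  `FractionalIdeal.mem_singleton_mul`; elements of `m • L`: `Submodule.mem_smul_pointwise_iff_exists`.
* `half_lat`: `half L = (2 : ℂ)⁻¹ • L`, and `prin 2⁻¹` : from `lat_prin`.
-/

set_option autoImplicit false

namespace Pool.Agent.Work.MP_787500_nt.HC

open WithZero IsDedekindDomain NumberField Pool.Agent.Work.CM
open scoped Pointwise nonZeroDivisors

universe u

variable {K : Type*} [Field K] [NumberField K] [Algebra K ℂ]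

private theorem mem_coe {I : Idl K} {x : K} :
    algebraMap K ℂ x ∈ lat I ↔ x ∈ (I : FractionalIdeal (𝓞 K)⁰ K) := by
  constructor
  · rintro ⟨y, hy, h⟩
    rwa [← (algebraMap K ℂ).injective h]
  · intro h
    exact ⟨x, h, rfl⟩

theorem lat_mul (I J : Idl K) : lat (I * J) = lat I * lat J := by
  apply le_antisymm
  · rintro _ ⟨x, hx, rfl⟩
    rw [Units.val_mul] at hx
    refine FractionalIdeal.mul_induction_on (C := fun x => algebraMap K ℂ x ∈ lat I * lat J) hx
      ?_ ?_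
    · intro i hi j hj
      rw [map_mul]
      exact Submodule.mul_mem_mul ⟨i, hi, rfl⟩ ⟨j, hj, rfl⟩
    · intro a b ha hb
      rw [map_add]
      exact add_mem ha hb
  · rw [Submodule.mul_le]
    rintro _ ⟨x, hx, rfl⟩ _ ⟨y, hy, rfl⟩
    refine ⟨x * y, ?_, map_mul _ _ _⟩
    rw [Units.val_mul]
    exact FractionalIdeal.mul_mem_mul hx hy

theorem one_mem_lat : (1 : ℂ) ∈ lat (1 : Idl K) :=
  ⟨1, by rw [Units.val_one]; exact FractionalIdeal.one_mem_one _, map_one _⟩

theorem lat_one_mul (I : Idl K) : lat (1 : Idl K) * lat I ≤ lat I := by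
  rw [← lat_mul, one_mul]

theorem inK_lat (I : Idl K) : InK K (lat I) := by
  rintro _ ⟨x, -, rfl⟩
  exact ⟨x, rfl⟩

theorem lat_le {I J : Idl K} :
    lat I ≤ lat J ↔ (I : FractionalIdeal (𝓞 K)⁰ K) ≤ (J : FractionalIdeal (𝓞 K)⁰ K) := by
  constructor
  · intro h x hx
    exact mem_coe.1 (h (mem_coe.2 hx))
  · rintro h _ ⟨x, hx, rfl⟩
    exact ⟨x, h hx, rfl⟩

theorem lat_injective : Function.Injective (lat : Idl K → Submodule ℤ ℂ) := by
  intro I J h
  apply Units.ext
  exact le_antisymm (lat_le.1 h.le) (lat_le.1 h.ge)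

theorem lat_prin (x : Kˣ) (I : Idl K) : lat (prin x * I) = (algebraMap K ℂ (x : K)) • lat I := by
  ext z
  rw [Submodule.mem_smul_pointwise_iff_exists, mem_lat]
  have hx : ((prin x * I : Idl K) : FractionalIdeal (𝓞 K)⁰ K) =
      FractionalIdeal.spanSingleton (𝓞 K)⁰ (x : K) * (I : FractionalIdeal (𝓞 K)⁰ K) := by
    rw [Units.val_mul]
    unfold prin
    rw [coe_toPrincipalIdeal]
  rw [hx]
  constructor
  · rintro ⟨y, hy, rfl⟩
    obtain ⟨y', hy', rfl⟩ := FractionalIdeal.mem_singleton_mul.1 hy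
    exact ⟨_, ⟨y', hy', rfl⟩, by rw [map_mul, smul_eq_mul]⟩
  · rintro ⟨_, ⟨y', hy', rfl⟩, rfl⟩
    exact ⟨_, FractionalIdeal.mem_singleton_mul.2 ⟨y', hy', rfl⟩, by rw [map_mul, smul_eq_mul]⟩

theorem half_lat {v v' : HeightOneSpectrum (𝓞 K)}
    (h2 : pr v * pr v' = prin (Units.mk0 (2 : K) two_ne_zero)) (I : Idl K) :
    half (lat (pr v * I)) = lat ((pr v')⁻¹ * I) := by
  have h1 := lat_prin (Units.mk0 (2 : K) two_ne_zero)⁻¹ (pr v * I)
  have h3 : prin (Units.mk0 (2 : K) two_ne_zero)⁻¹ = (prin (Units.mk0 (2 : K) two_ne_zero))⁻¹ :=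
    map_inv _ _
  have h4 : (prin (Units.mk0 (2 : K) two_ne_zero))⁻¹ * (pr v * I) = (pr v')⁻¹ * I := by
    rw [← h2, mul_inv_rev, mul_assoc, inv_mul_cancel_left]
  rw [h3, h4] at h1
  rw [h1]
  unfold half
  congr 1
  rw [Units.val_inv_eq_inv_val, Units.val_mk0, map_inv₀, map_ofNat]

end Pool.Agent.Work.MP_787500_nt.HC
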