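import Mathlib
import Pool.Agent.Work.MP_787500_nt.HC.Basic
import Pool.Agent.Work.MP_787500_nt.HC.LatA
import Pool.Agent.Work.MP_787500_nt.HC.LatB
import Pool.Agent.Work.MP_787500_nt.HC.LatD
import Pool.Agent.Work.CM.Chn

/-!
# Module VALA: the relations of the values

`eV v I = ev (lat I) (lat ((pr v)⁻¹ * I))`. Prove the statement for `(v, v')` first for the three unprimed
relations in a private theorem, and apply it twice (`h2` is symmetric, `mul_comm`). Fix `I` and put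
`L0 = lat (pr v * I)`, `L1 = lat I`, `L2 = lat ((pr v)⁻¹ * I)`, `L3 = lat ((pr v)⁻¹ * ((pr v)⁻¹ * I))`. By `two_lat`
(and `(pr v)⁻¹ * (pr v * I) = I`): `Two L0 L1`, `Two L1 L2`, `Two L2 L3`, with
`ev L0 L1 = eV v (pr v * I)`, `ev L1 L2 = eV v I`, `ev L2 L3 = eV v ((pr v)⁻¹ * I)`. By `half_lat`
`half L0 = lat ((pr v')⁻¹ * I) ≠ L2` (`lat_pr_ne`) and (with `(pr v)⁻¹ * I` for `I`)
`half L1 = lat ((pr v')⁻¹ * ((pr v)⁻¹ * I)) ≠ L3`.
* `back`: `eV v' I = ev L1 (half L0) = -2 ev L0 L1` (`Two.ev_half`).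
* `ne`: `Two.ev_ne`. `ne1`: `chain_ne`. `step`: `chain_step`.
-/

set_option autoImplicit false

namespace Pool.Agent.Work.MP_787500_nt.HC

open WithZero IsDedekindDomain NumberField Pool.Agent.Work.CM
open scoped Pointwise nonZeroDivisors

universe u

variable {K : Type*} [Field K] [NumberField K] [Algebra K ℂ] {q : ℕ} {s : K}

private theorem vals_half (hb : IsBase K q s) {v v' : HeightOneSpectrum (𝓞 K)} (hne : v ≠ v')
    (hv : (2 : 𝓞 K) ∈ v.asIdeal) (hv' : (2 : 𝓞 K) ∈ v'.asIdeal)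
    (h2 : pr v * pr v' = prin (Units.mk0 (2 : K) two_ne_zero)) (I : Idl K) :
    eV v' I = -2 * eV v (pr v * I) ∧ eV v I ≠ eV v' I ∧ eV v I ≠ eV v (pr v * I) ∧
      (eV v ((pr v)⁻¹ * I) - eV v I) ^ 2 =
        8 * (eV v I + 2 * eV v (pr v * I)) * (eV v I - eV v (pr v * I)) := by
  have e0 : (pr v)⁻¹ * (pr v * I) = I := inv_mul_cancel_left _ _
  have t0 : Two (lat (pr v * I)) (lat I) := by
    have := two_lat hb hv (pr v * I)
    rwa [e0] at this
  have t1 : Two (lat I) (lat ((pr v)⁻¹ * I)) := two_lat hb hv I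
  have t2 : Two (lat ((pr v)⁻¹ * I)) (lat ((pr v)⁻¹ * ((pr v)⁻¹ * I))) :=
    two_lat hb hv ((pr v)⁻¹ * I)
  have v0 : ev (lat (pr v * I)) (lat I) = eV v (pr v * I) := by
    unfold eV
    rw [e0]
  have n0 : half (lat (pr v * I)) = lat ((pr v')⁻¹ * I) := half_lat h2 I
  have n1 : half (lat I) = lat ((pr v')⁻¹ * ((pr v)⁻¹ * I)) := by
    have := half_lat h2 ((pr v)⁻¹ * I)
    rwa [mul_inv_cancel_left] at this
  have m0 : lat ((pr v)⁻¹ * I) ≠ half (lat (pr v * I)) := by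
    rw [n0]
    exact lat_pr_ne hne I
  have m1 : lat ((pr v)⁻¹ * ((pr v)⁻¹ * I)) ≠ half (lat I) := by
    rw [n1]
    exact lat_pr_ne hne _
  refine ⟨?_, ?_, ?_, ?_⟩
  · have h := t0.ev_half
    rw [n0, v0] at h
    exact h
  · exact Two.ev_ne t1 (two_lat hb hv' I) (lat_pr_ne hne I)
  · have h := (chain_ne t0 t1 m0).2
    rw [v0] at h
    exact h
  · have h := chain_step t0 t1 t2 m0 m1
    rw [v0] at h
    exact h

theorem vals (hb : IsBase K q s) {v v' : HeightOneSpectrum (𝓞 K)} (hne : v ≠ v')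
    (hv : (2 : 𝓞 K) ∈ v.asIdeal) (hv' : (2 : 𝓞 K) ∈ v'.asIdeal)
    (h2 : pr v * pr v' = prin (Units.mk0 (2 : K) two_ne_zero)) :
    Vals (pr v) (pr v') (eV v) (eV v') := by
  have h2' : pr v' * pr v = prin (Units.mk0 (2 : K) two_ne_zero) := by rw [mul_comm, h2]
  have H := fun I => vals_half hb hne hv hv' h2 I
  have H' := fun I => vals_half hb hne.symm hv' hv h2' I
  exact ⟨fun I => (H I).1, fun I => (H' I).1, fun I => (H I).2.1, fun I => (H I).2.2.1,
    fun I => (H' I).2.2.1, fun I => (H I).2.2.2, fun I => (H' I).2.2.2⟩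

end Pool.Agent.Work.MP_787500_nt.HC
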