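import Mathlib
import Pool.Agent.Work.MP_787500_nt.HC.Basic
import Pool.Agent.Work.MP_787500_nt.HC.LatA
import Pool.Agent.Work.MP_787500_nt.HC.LatB
import Pool.Agent.Work.MP_787500_nt.HC.LatD
import Pool.Agent.Work.MP_787500_nt.HC.ValA
import Pool.Agent.Work.MP_787500_nt.HC.AlgA
import Pool.Agent.Work.CM.Chn
import Pool.Agent.Work.CM.Tw5

/-!
# Module CHA: the chain of lattices belonging to the sequence of the arithmetic-geometric mean

Write `z m = b m / a m`, `x j = ev (M j) (M (j+1))`. Construct by recursion on `m` triples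
`(M m, M (m+1), M (m+2))` with `Two (M m) (M (m+1))`, `Two (M (m+1)) (M (m+2))`, `M (m+2) ≠ half (M m)` and
 (†)  `z m ^ 2 * (x (m+1) + 2 x m) = 2 (x (m+1) - x m)`.
(Dependent choice: prove the step as an existence lemma, then iterate on a subtype of triples with
the index, or use `Nat.rec` with `Classical.choose`.)

Step: `c = x (m+1) + 2 x m ≠ 0`, `t = 2 (z m) c`, so `t^2 = 4 z^2 c^2 = 8 c (x (m+1) - x m)` by (†);
`chain_choice` gives `M (m+3)` with `x (m+2) = x (m+1) + t` (this is the last claim of the theorem).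
New (†): `3 x (m+1) = c + 2 (x (m+1) - x m) = c (1 + z^2)`, so
`x (m+2) + 2 x (m+1) = 3 x (m+1) + t = c (1 + z)^2`, and `2 (x (m+2) - x (m+1)) = 4 z c`; so (†) for `m + 1`
is `z(m+1)^2 (1 + z)^2 = 4 z`: `sq4_quot`.

Start: `M 0 = lat (pr v')`, `M 1 = lat 1`, `M 2` = a superlattice of index two of `lat 1` different from
`lat (pr v)⁻¹` and `lat (pr v')⁻¹` (`Two.third`, `two_lat 1`, `lat_pr_ne`). `half (M 0) = lat (pr v)⁻¹`
(`half_lat` with `v, v'` exchanged and `I = 1`), so `M 2 ≠ half (M 0)`. With `E = eV v 1`, `E' = eV v' 1`: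
`x 0 = eV v' (pr v' * 1) = -E/2` (`Vals.back'`), `x 1 = -E - E'` (`Two.ev_sum`). `z 0 = -i w'^2/w^2`,
`z 0 ^ 2 = -w'^4/w^4` with `w^4 (E - E') = 2 E + E'`, `w'^4 (E' - E) = 2 E' + E` (`sv_sq`, `wv_sq`, for
`h` and `h.symm`). So `z 0 ^2 (2 E + E') = 2 E' + E`, which is (†): `x 1 + 2 x 0 = -(2 E + E')`,
`2 (x 1 - x 0) = -(2 E' + E)`.
-/

set_option autoImplicit false

namespace Pool.Agent.Work.MP_787500_nt.HC

open WithZero IsDedekindDomain NumberField Pool.Agent.Work.CM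
open scoped Pointwise nonZeroDivisors

universe u

variable {K : Type*} [Field K] [NumberField K] [Algebra K ℂ] {q : ℕ} {s : K}
variable {v v' : HeightOneSpectrum (𝓞 K)}

private theorem chain_succ {z z' : ℂ} (hz : z' ^ 2 * (1 + z) ^ 2 = 4 * z)
    {L0 L1 L2 : Submodule ℤ ℂ} (h0 : Two L0 L1) (h1 : Two L1 L2) (hn : L2 ≠ half L0)
    (h : z ^ 2 * (ev L1 L2 + 2 * ev L0 L1) = 2 * (ev L1 L2 - ev L0 L1)) :
    ∃ L3 : Submodule ℤ ℂ, Two L2 L3 ∧ L3 ≠ half L1 ∧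
      z' ^ 2 * (ev L2 L3 + 2 * ev L1 L2) = 2 * (ev L2 L3 - ev L1 L2) ∧
      2 * z * (ev L1 L2 + 2 * ev L0 L1) = ev L2 L3 - ev L1 L2 := by
  obtain ⟨L3, h3, n3, e3⟩ := chain_choice h0 h1 hn (t := 2 * z * (ev L1 L2 + 2 * ev L0 L1))
    (by linear_combination (4 * (ev L1 L2 + 2 * ev L0 L1)) * h)
  refine ⟨L3, h3, n3, ?_, ?_⟩
  · rw [e3]
    linear_combination (ev L1 L2 + 2 * ev L0 L1) * hz - z' ^ 2 * h
  · rw [e3]
    ring

private theorem chain_all {z : ℕ → ℂ} (hz : ∀ m, z (m + 1) ^ 2 * (1 + z m) ^ 2 = 4 * z m)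
    {L0 L1 L2 : Submodule ℤ ℂ} (h0 : Two L0 L1) (h1 : Two L1 L2) (hn : L2 ≠ half L0)
    (h : z 0 ^ 2 * (ev L1 L2 + 2 * ev L0 L1) = 2 * (ev L1 L2 - ev L0 L1)) :
    ∃ M : ℕ → Submodule ℤ ℂ, M 0 = L0 ∧ (∀ j, Two (M j) (M (j + 1))) ∧
      (∀ j, M (j + 2) ≠ half (M j)) ∧
      ∀ m, 2 * z m * (ev (M (m + 1)) (M (m + 2)) + 2 * ev (M m) (M (m + 1))) =
        ev (M (m + 2)) (M (m + 3)) - ev (M (m + 1)) (M (m + 2)) := by
  classical
  let T : ℕ → Type := fun m => {t : Submodule ℤ ℂ × Submodule ℤ ℂ × Submodule ℤ ℂ //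
    Two t.1 t.2.1 ∧ Two t.2.1 t.2.2 ∧ t.2.2 ≠ half t.1 ∧
      z m ^ 2 * (ev t.2.1 t.2.2 + 2 * ev t.1 t.2.1) = 2 * (ev t.2.1 t.2.2 - ev t.1 t.2.1)}
  have hstep : ∀ (m : ℕ) (t : T m), ∃ t' : T (m + 1), t'.1.1 = t.1.2.1 ∧ t'.1.2.1 = t.1.2.2 ∧
      2 * z m * (ev t.1.2.1 t.1.2.2 + 2 * ev t.1.1 t.1.2.1) =
        ev t.1.2.2 t'.1.2.2 - ev t.1.2.1 t.1.2.2 := by
    rintro m ⟨⟨A, B, C⟩, hA, hB, hC, hD⟩
    obtain ⟨L3, a1, a2, a3, a4⟩ := chain_succ (hz m) hA hB hC hD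
    exact ⟨⟨⟨B, C, L3⟩, hB, a1, a2, a3⟩, rfl, rfl, a4⟩
  choose f hf using hstep
  let S : ∀ m, T m := fun m => Nat.rec (motive := T) ⟨⟨L0, L1, L2⟩, h0, h1, hn, h⟩ f m
  have hS : ∀ m, S (m + 1) = f m (S m) := fun m => rfl
  have e1 : ∀ m, (S (m + 1)).1.1 = (S m).1.2.1 := fun m => by rw [hS]; exact (hf m (S m)).1
  have e2 : ∀ m, (S (m + 1)).1.2.1 = (S m).1.2.2 := fun m => by rw [hS]; exact (hf m (S m)).2.1
  have e3 : ∀ m, (S (m + 2)).1.1 = (S m).1.2.2 := fun m => by rw [e1, e2]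
  have e4 : ∀ m, (S (m + 3)).1.1 = (S (m + 1)).1.2.2 := fun m => e3 (m + 1)
  refine ⟨fun m => (S m).1.1, rfl, fun j => ?_, fun j => ?_, fun m => ?_⟩
  · show Two (S j).1.1 (S (j + 1)).1.1
    rw [e1]
    exact (S j).2.1
  · show (S (j + 2)).1.1 ≠ half (S j).1.1
    rw [e3]
    exact (S j).2.2.2.1
  · show 2 * z m * (ev (S (m + 1)).1.1 (S (m + 2)).1.1 + 2 * ev (S m).1.1 (S (m + 1)).1.1) =
        ev (S (m + 2)).1.1 (S (m + 3)).1.1 - ev (S (m + 1)).1.1 (S (m + 2)).1.1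
    rw [e4, e3, e1, hS]
    exact (hf m (S m)).2.2

theorem exists_chain (hb : IsBase K q s) (hne : v ≠ v') (hv : (2 : 𝓞 K) ∈ v.asIdeal)
    (hv' : (2 : 𝓞 K) ∈ v'.asIdeal) (h2 : pr v * pr v' = prin (Units.mk0 (2 : K) two_ne_zero))
    {i : ℂ} {a b u : ℕ → ℂ}
    (hS : ∀ n, Sq4 (wv (pr v) (eV v) 1) (wv (pr v') (eV v') 1) i a b u n) :
    ∃ M : ℕ → Submodule ℤ ℂ, M 0 = lat (pr v') ∧ (∀ j, Two (M j) (M (j + 1))) ∧
      (∀ j, M (j + 2) ≠ half (M j)) ∧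
      ∀ m, 2 * (b m / a m) * (ev (M (m + 1)) (M (m + 2)) + 2 * ev (M m) (M (m + 1))) =
        ev (M (m + 2)) (M (m + 3)) - ev (M (m + 1)) (M (m + 2)) := by
  have V := vals hb hne hv hv' h2
  have h2' : pr v' * pr v = prin (Units.mk0 (2 : K) two_ne_zero) := by rw [mul_comm, h2]
  have hA : Two (lat (1 : Idl K)) (lat ((pr v)⁻¹ * 1)) := two_lat hb hv 1
  have hB : Two (lat (1 : Idl K)) (lat ((pr v')⁻¹ * 1)) := two_lat hb hv' 1
  have hAB : lat ((pr v)⁻¹ * (1 : Idl K)) ≠ lat ((pr v')⁻¹ * 1) := lat_pr_ne hne 1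
  obtain ⟨D, hD, hDA, hDB⟩ := Two.third hA hB hAB
  have hsum := Two.ev_sum hA hB hD hAB hDB.symm hDA
  have hP : Two (lat (pr v')) (lat (1 : Idl K)) := by
    have := two_lat hb hv' (pr v')
    rwa [inv_mul_cancel] at this
  have hx0 : eV v' (pr v' * 1) = ev (lat (pr v')) (lat (1 : Idl K)) := by
    unfold eV
    rw [mul_one, inv_mul_cancel]
  have hback := V.back' 1
  rw [hx0] at hback
  have hhalf : half (lat (pr v')) = lat ((pr v)⁻¹ * 1) := by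
    have := half_lat h2' 1
    rwa [mul_one (pr v')] at this
  have hE : eV v 1 = ev (lat (1 : Idl K)) (lat ((pr v)⁻¹ * 1)) := rfl
  have hE' : eV v' 1 = ev (lat (1 : Idl K)) (lat ((pr v')⁻¹ * 1)) := rfl
  rw [← hE, ← hE'] at hsum
  refine chain_all (z := fun m => b m / a m) (fun m => sq4_quot (hS (m + 1)) (Nat.lt_succ_self m))
    hP hD (by rw [hhalf]; exact hDA) ?_
  have s1 := sv_sq V 1
  have s2 := sv_sq V.symm 1
  rw [← wv_sq V] at s1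
  rw [← wv_sq V.symm] at s2
  have hw := (hS 0).w0
  have hi := (hS 0).i2
  have ha0 := (hS 0).a0
  have hb0 := (hS 0).b0
  show (b 0 / a 0) ^ 2 * _ = _
  rw [ha0, hb0]
  generalize wv (pr v) (eV v) 1 = w at *
  generalize wv (pr v') (eV v') 1 = w' at *
  have hz : (-i * w' ^ 2 / w ^ 2) ^ 2 * w ^ 4 = -w' ^ 4 := by
    rw [div_pow, mul_pow, neg_sq, hi]
    field_simp
  generalize -i * w' ^ 2 / w ^ 2 = z at *
  generalize ev (lat (pr v')) (lat (1 : Idl K)) = x0 at *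
  generalize ev (lat (1 : Idl K)) D = x1 at *
  generalize eV v 1 = E at *
  generalize eV v' 1 = E' at *
  have g1 : x0 = -E / 2 := by linear_combination (1 / 2 : ℂ) * hback
  have g2 : x1 = -E - E' := by linear_combination hsum
  rw [g1, g2]
  linear_combination z ^ 2 * s1 - s2 - (E - E') * hz

end Pool.Agent.Work.MP_787500_nt.HC
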