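import Mathlib
import Pool.Agent.Work.MP_787500_nt.HC.Basic
import Pool.Agent.Work.MP_787500_nt.HC.LatA
import Pool.Agent.Work.MP_787500_nt.HC.LatB
import Pool.Agent.Work.CM.Rep
import Pool.Agent.Work.CM.Hom
import Pool.Agent.Work.CM.Tw4

/-!
# Module CHB: the lattices of a chain are stable under an order

`B = span ℤ {1} ⊔ (2^n : ℂ) • lat 1`: `(2^n) • lat 1 ≤ B ≤ lat 1`, so it is a lattice (`isLat_of_sandwich`,
`isLat_lat`), in `K` (`inK_lat`), contains `1`, and `B * B ≤ B` (`Submodule.mul_le`; `lat 1 * lat 1 ≤ lat 1`).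
By induction on `j`: `InK K (M j)` and `(2^j) • lat 1 * M j ≤ M j`: `M (j+1) ≤ half (M j)` (`Two.half_two`,
i.e. `2 z ∈ M j` for `z ∈ M (j+1)`), so elements of `M (j+1)` are halves of elements in `K`, and for
`x ∈ lat 1`, `z ∈ M (j+1)`: `2^(j+1) x z = (2^j x) (2 z) ∈ M j ≤ M (j+1)`. For `j ≤ n`,
`2^n x z` is a multiple of `2^j x z`.
-/

set_option autoImplicit false

namespace Pool.Agent.Work.MP_787500_nt.HC

open WithZero IsDedekindDomain NumberField Pool.Agent.Work.CM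
open scoped Pointwise nonZeroDivisors

universe u

variable {K : Type*} [Field K] [NumberField K] [Algebra K ℂ] {q : ℕ} {s : K}

theorem exists_order (hb : IsBase K q s) {M : ℕ → Submodule ℤ ℂ}
    (h0 : lat (1 : Idl K) * M 0 ≤ M 0) (hK0 : InK K (M 0)) (hT : ∀ j, Two (M j) (M (j + 1)))
    (n : ℕ) : ∃ B : Submodule ℤ ℂ, IsLat B ∧ InK K B ∧ (1 : ℂ) ∈ B ∧ B * B ≤ B ∧
      ∀ j ≤ n, InK K (M j) ∧ B * M j ≤ M j := by
  have hR := isLat_lat hb (1 : Idl K)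
  have hRK := inK_lat (1 : Idl K)
  have hRR : ∀ x ∈ lat (1 : Idl K), ∀ y ∈ lat (1 : Idl K), x * y ∈ lat (1 : Idl K) :=
    fun x hx y hy => lat_one_mul 1 (Submodule.mul_mem_mul hx hy)
  have h1R : (1 : ℂ) ∈ lat (1 : Idl K) := one_mem_lat
  generalize lat (1 : Idl K) = R at *
  have hIn : ∀ j, InK K (M j) ∧ ∀ x ∈ R, ∀ z ∈ M j, 2 ^ j * (x * z) ∈ M j := by
    intro j
    induction j with
    | zero =>
      exact ⟨hK0, fun x hx z hz => by
        rw [pow_zero, one_mul]; exact h0 (Submodule.mul_mem_mul hx hz)⟩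
    | succ j ih =>
      have h2 : ∀ z ∈ M (j + 1), 2 * z ∈ M j := fun z hz => (hT j).two_mem hz
      refine ⟨fun z hz => ?_, fun x hx z hz => ?_⟩
      · obtain ⟨y, hy⟩ := ih.1 _ (h2 z hz)
        refine ⟨y / 2, ?_⟩
        rw [map_div₀, map_ofNat, hy]
        field_simp
      · have h3 := ih.2 x hx _ (h2 z hz)
        apply (hT j).le
        have e : (2 : ℂ) ^ (j + 1) * (x * z) = 2 ^ j * (x * (2 * z)) := by ring
        rw [e]
        exact h3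
  have hz : ∀ (L : Submodule ℤ ℂ) (m : ℤ) (z : ℂ), z ∈ L → (m : ℂ) * z ∈ L := by
    intro L m z hz
    rw [← zsmul_eq_mul]
    exact L.smul_mem m hz
  have hp : ∀ (L : Submodule ℤ ℂ) (k : ℕ) (z : ℂ), z ∈ L → (2 : ℂ) ^ k * z ∈ L := by
    intro L k z h
    have := hz L (2 ^ k) z h
    push_cast at this
    exact this
  have h2n : (2 : ℂ) ^ n ≠ 0 := pow_ne_zero _ two_ne_zero
  have hmem : ∀ z : ℂ, z ∈ Submodule.span ℤ {(1 : ℂ)} ⊔ (2 : ℂ) ^ n • R ↔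
      ∃ m : ℤ, ∃ r ∈ R, (m : ℂ) + 2 ^ n * r = z := by
    intro z
    rw [Submodule.mem_sup]
    constructor
    · rintro ⟨x, hx, y, hy, rfl⟩
      obtain ⟨m, rfl⟩ := Submodule.mem_span_singleton.1 hx
      obtain ⟨r, hr, rfl⟩ := (Submodule.mem_smul_pointwise_iff_exists _ _ _).1 hy
      exact ⟨m, r, hr, by rw [zsmul_eq_mul, mul_one, smul_eq_mul]⟩
    · rintro ⟨m, r, hr, rfl⟩
      refine ⟨m, Submodule.mem_span_singleton.2 ⟨m, by rw [zsmul_eq_mul, mul_one]⟩, 2 ^ n * r,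
        (Submodule.mem_smul_pointwise_iff_exists _ _ _).2 ⟨r, hr, by rw [smul_eq_mul]⟩, rfl⟩
  refine ⟨Submodule.span ℤ {(1 : ℂ)} ⊔ (2 : ℂ) ^ n • R, ?_, ?_, ?_, ?_, fun j hj => ⟨(hIn j).1, ?_⟩⟩
  · refine isLat_of_sandwich hR hR h2n le_sup_right ?_
    intro z hzz
    obtain ⟨m, r, hr, rfl⟩ := (hmem z).1 hzz
    refine add_mem ?_ (hp R n r hr)
    have := hz R m 1 h1R
    rwa [mul_one] at this
  · intro z hzz
    obtain ⟨m, r, hr, rfl⟩ := (hmem z).1 hzz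
    obtain ⟨x, hx⟩ := hRK r hr
    exact ⟨(m : K) + 2 ^ n * x, by rw [map_add, map_mul, map_pow, map_intCast, map_ofNat, hx]⟩
  · exact (hmem 1).2 ⟨1, 0, R.zero_mem, by rw [mul_zero, add_zero, Int.cast_one]⟩
  · rw [Submodule.mul_le]
    intro x hx y hy
    obtain ⟨m, r, hr, rfl⟩ := (hmem x).1 hx
    obtain ⟨m', r', hr', rfl⟩ := (hmem y).1 hy
    refine (hmem _).2 ⟨m * m', (m : ℂ) * r' + (m' : ℂ) * r + 2 ^ n * (r * r'),
      add_mem (add_mem (hz R _ _ hr') (hz R _ _ hr)) (hp R n _ (hRR _ hr _ hr')), ?_⟩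
    push_cast
    ring
  · rw [Submodule.mul_le]
    intro x hx y hy
    obtain ⟨m, r, hr, rfl⟩ := (hmem x).1 hx
    have e : ((m : ℂ) + 2 ^ n * r) * y = (m : ℂ) * y + 2 ^ (n - j) * (2 ^ j * (r * y)) := by
      have : (2 : ℂ) ^ n = 2 ^ (n - j) * 2 ^ j := by rw [← pow_add, Nat.sub_add_cancel hj]
      rw [this]
      ring
    rw [e]
    exact add_mem (hz _ _ _ hy) (hp _ _ _ ((hIn j).2 r hr y hy))

end Pool.Agent.Work.MP_787500_nt.HC
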