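import Mathlib
import Pool.Agent.Work.MP_787500_nt.HC.Basic
import Pool.Agent.Work.MP_787500_nt.HC.ChB
import Pool.Agent.Work.CM.Kl3
import Pool.Agent.Work.CM.Chn

/-!
# Module CHC: the quotients are in the maximal abelian extension

`mem_abField`: let `σ, τ` be automorphisms of `ℂ` over `K`. `exists_order` with `n = m + 3` gives `B`; `ev_comm`
gives `ν ≠ 0` with `σ (τ (ev (M j) (M (j+1)))) = ν * τ (σ (ev (M j) (M (j+1))))` for `j = m, m + 1, m + 2`.
`z = (x(m+2) - x(m+1)) / (2 (x(m+1) + 2 x(m)))`, `x j = ev (M j) (M (j+1))`, the denominator is not zero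
(`chain_ne` for `M m, M (m+1), M (m+2)`); `σ (τ z)` and `τ (σ z)` are equal since `ν` cancels.
-/

set_option autoImplicit false

namespace Pool.Agent.Work.MP_787500_nt.HC

open WithZero IsDedekindDomain NumberField Pool.Agent.Work.CM
open scoped Pointwise nonZeroDivisors

universe u

variable {K : Type*} [Field K] [NumberField K] [Algebra K ℂ] {q : ℕ} {s : K}

theorem quot_mem (hb : IsBase K q s) {M : ℕ → Submodule ℤ ℂ}
    (h0 : lat (1 : Idl K) * M 0 ≤ M 0) (hK0 : InK K (M 0)) (hT : ∀ j, Two (M j) (M (j + 1)))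
    (hN : ∀ j, M (j + 2) ≠ half (M j)) {z : ℂ} {m : ℕ}
    (hz : 2 * z * (ev (M (m + 1)) (M (m + 2)) + 2 * ev (M m) (M (m + 1))) =
        ev (M (m + 2)) (M (m + 3)) - ev (M (m + 1)) (M (m + 2))) :
    z ∈ RS.abField K ℂ := by
  rw [RS.mem_abField]
  intro σ τ
  obtain ⟨B, hB, hBK, h1, hBB, hM⟩ := exists_order hb h0 hK0 hT (m + 3)
  obtain ⟨ν, hν, H⟩ := ev_comm σ τ hB hBK h1 hBB
  have e0 := H _ _ (hT m) (hM (m + 1) (by omega)).1 (hM m (by omega)).2 (hM (m + 1) (by omega)).2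
  have e1 := H _ _ (hT (m + 1)) (hM (m + 2) (by omega)).1 (hM (m + 1) (by omega)).2
    (hM (m + 2) (by omega)).2
  have e2 := H _ _ (hT (m + 2)) (hM (m + 3) (by omega)).1 (hM (m + 2) (by omega)).2
    (hM (m + 3) (by omega)).2
  have hc := (chain_ne (hT m) (hT (m + 1)) (hN m)).1
  have a1 := congrArg (fun x => σ (τ x)) hz
  have a2 := congrArg (fun x => τ (σ x)) hz
  simp only [map_mul, map_add, map_sub, map_ofNat] at a1 a2
  rw [show m + 2 + 1 = m + 3 from rfl] at e2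
  rw [show m + 1 + 1 = m + 2 from rfl] at e1
  rw [e0, e1, e2] at a1
  have hc' : τ (σ (ev (M (m + 1)) (M (m + 2)) + 2 * ev (M m) (M (m + 1)))) ≠ 0 := by
    rw [Ne, EmbeddingLike.map_eq_zero_iff, EmbeddingLike.map_eq_zero_iff]
    exact hc
  simp only [map_mul, map_add, map_ofNat] at hc'
  have h2 : 2 * ν * (τ (σ (ev (M (m + 1)) (M (m + 2)))) + 2 * τ (σ (ev (M m) (M (m + 1))))) ≠ 0 :=
    mul_ne_zero (mul_ne_zero two_ne_zero hν) hc'
  apply mul_right_cancel₀ h2
  linear_combination a1 - ν * a2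

end Pool.Agent.Work.MP_787500_nt.HC
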