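import Mathlib
import Pool.Agent.Work.MP_787500_nt.HC.Basic

/-!
# Module CLSA: the class group

`cl I = ClassGroup.mk K I`, `prin x = toPrincipalIdeal (𝓞 K) K x`.
* `cl_surjective`: `ClassGroup.induction`.
* `cl_eq_iff`: `cl I = cl J` iff `cl (J * I⁻¹) = 1` iff `J * I⁻¹` is principal (`ClassGroup.mk_eq_one_iff`,
  `mem_principal_ideals_iff`, or via `ClassGroup.equiv K`), generated by a nonzero `x`.
* `exists_class_fun`: choose a representative of every class.
* `exists_alpha`: `cl (pr v ^ hK K) = (cl (pr v)) ^ Nat.card _ = 1` (`pow_card_eq_one'`; the class group is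
  finite).
-/

set_option autoImplicit false

namespace Pool.Agent.Work.MP_787500_nt.HC

open WithZero IsDedekindDomain NumberField
open scoped Pointwise nonZeroDivisors

universe u

variable {K : Type*} [Field K] [NumberField K]

theorem cl_mul (I J : Idl K) : cl (I * J) = cl I * cl J := map_mul _ _ _

theorem cl_one : cl (1 : Idl K) = 1 := map_one _

theorem cl_inv (I : Idl K) : cl I⁻¹ = (cl I)⁻¹ := map_inv _ _

theorem cl_pow (I : Idl K) (n : ℕ) : cl (I ^ n) = cl I ^ n := map_pow _ _ _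

theorem cl_surjective : Function.Surjective (cl : Idl K → ClassGroup (𝓞 K)) := by
  intro c
  exact ClassGroup.induction (K := K) (P := fun c => ∃ I : Idl K, cl I = c) (fun I => ⟨I, rfl⟩) c

private theorem equiv_cl (I : Idl K) : ClassGroup.equiv K (cl I) =
    QuotientGroup.mk' (toPrincipalIdeal (𝓞 K) K).range I := by
  unfold cl
  rw [ClassGroup.equiv_mk]
  congr 1
  ext
  simp

theorem cl_eq_iff {I J : Idl K} : cl I = cl J ↔ ∃ x : Kˣ, J = prin x * I := by
  rw [← (ClassGroup.equiv K).injective.eq_iff, equiv_cl, equiv_cl, QuotientGroup.mk'_eq_mk']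
  constructor
  · rintro ⟨z, ⟨x, rfl⟩, h⟩
    exact ⟨x, by rw [← h, mul_comm]; rfl⟩
  · rintro ⟨x, rfl⟩
    exact ⟨_, ⟨x, rfl⟩, mul_comm _ _⟩

theorem exists_class_fun {X : Type*} (f : Idl K → X) (h : ∀ (x : Kˣ) (I : Idl K),
    f (prin x * I) = f I) : ∃ W : ClassGroup (𝓞 K) → X, ∀ I, W (cl I) = f I := by
  refine ⟨fun c => f (Function.surjInv cl_surjective c), fun I => ?_⟩
  have h1 : cl (Function.surjInv cl_surjective (cl I)) = cl I := Function.surjInv_eq _ _
  obtain ⟨x, hx⟩ := cl_eq_iff.1 h1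
  have h2 : f I = f (prin x * Function.surjInv cl_surjective (cl I)) := congrArg f hx
  rw [h] at h2
  exact h2.symm

theorem exists_alpha (v : HeightOneSpectrum (𝓞 K)) : ∃ α : Kˣ, prin α = pr v ^ hK K := by
  have h1 : cl (1 : Idl K) = cl (pr v ^ hK K) := by
    rw [cl_pow, cl_one]
    unfold hK
    rw [pow_card_eq_one']
  obtain ⟨x, hx⟩ := cl_eq_iff.1 h1
  exact ⟨x, by rw [hx, mul_one]⟩

end Pool.Agent.Work.MP_787500_nt.HC
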