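import Mathlib
import Pool.Agent.Work.MP_787500_nt.HC.Basic
import Pool.Agent.Work.MP_787500_nt.HC.LatA
import Pool.Agent.Work.MP_787500_nt.HC.LatB

/-!
# Module LATC: lattices in `K` stable under the integers are fractional ideals

`M = {x : K | φ x ∈ D}` (`φ = algebraMap K ℂ`) is an `𝓞 K`-submodule of `K`: for `a ∈ 𝓞 K`,
`φ a ∈ lat 1` and `h`. `D` is the lattice of a `PeriodPair` with periods `φ x₁`, `φ x₂` (`hK`), so `M` is
generated by `x₁, x₂` (over `ℤ`, hence over `𝓞 K`), finitely generated, hence fractional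
(`FractionalIdeal.isFractional_of_fg` or `IsFractional` from a common denominator), nonzero, hence a
unit in the fractional ideals of the Dedekind domain `𝓞 K` (`Units.mk0`).
-/

set_option autoImplicit false

namespace Pool.Agent.Work.MP_787500_nt.HC

open WithZero IsDedekindDomain NumberField Pool.Agent.Work.CM
open scoped Pointwise nonZeroDivisors

universe u

variable {K : Type*} [Field K] [NumberField K] [Algebra K ℂ]

theorem exists_lat {D : Submodule ℤ ℂ} (hD : IsLat D) (hK : InK K D)
    (h : lat (1 : Idl K) * D ≤ D) : ∃ J : Idl K, D = lat J := by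
  classical
  obtain ⟨P, rfl⟩ := hD
  set φ := algebraMap K ℂ with hφ
  let M : Submodule (𝓞 K) K :=
    { carrier := {x | φ x ∈ P.lattice}
      add_mem' := by
        intro x y hx hy
        show φ (x + y) ∈ P.lattice
        rw [map_add]
        exact add_mem hx hy
      zero_mem' := by
        show φ 0 ∈ P.lattice
        rw [map_zero]
        exact zero_mem _
      smul_mem' := by
        intro a x hx
        show φ (a • x) ∈ P.lattice
        rw [Algebra.smul_def, map_mul]
        refine h (Submodule.mul_mem_mul ⟨_, ?_, rfl⟩ hx)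
        rw [Units.val_one, FractionalIdeal.mem_one_iff]
        exact ⟨a, rfl⟩ }
  have hM : ∀ x : K, x ∈ M ↔ φ x ∈ P.lattice := fun x => Iff.rfl
  obtain ⟨x1, h1⟩ := hK _ P.ω₁_mem_lattice
  obtain ⟨x2, h2⟩ := hK _ P.ω₂_mem_lattice
  have hfg : M.FG := by
    refine ⟨{x1, x2}, ?_⟩
    apply le_antisymm
    · rw [Submodule.span_le]
      intro x hx
      rw [Finset.coe_insert, Finset.coe_singleton] at hx
      rcases hx with h3 | h3
      · show φ x ∈ P.lattice
        rw [h3, h1]
        exact P.ω₁_mem_lattice
      · show φ x ∈ P.lattice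
        have h4 : x = x2 := h3
        rw [h4, h2]
        exact P.ω₂_mem_lattice
    · intro x hx
      obtain ⟨m, n, hmn⟩ := PeriodPair.mem_lattice.1 ((hM x).1 hx)
      have hx' : x = (m : 𝓞 K) • x1 + (n : 𝓞 K) • x2 := by
        apply φ.injective
        rw [← hmn, Algebra.smul_def, Algebra.smul_def, map_intCast, map_intCast, map_add, map_mul,
          map_mul, map_intCast, map_intCast, h1, h2]
      rw [hx', Finset.coe_insert, Finset.coe_singleton]
      exact add_mem (Submodule.smul_mem _ _ (Submodule.subset_span (by simp)))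
        (Submodule.smul_mem _ _ (Submodule.subset_span (by simp)))
  have hfrac : IsFractional (𝓞 K)⁰ M := FractionalIdeal.isFractional_of_fg hfg
  let J0 : FractionalIdeal (𝓞 K)⁰ K := ⟨M, hfrac⟩
  have hJ0 : J0 ≠ 0 := by
    intro h0
    have h3 : x1 ∈ J0 := by
      show φ x1 ∈ P.lattice
      rw [h1]
      exact P.ω₁_mem_lattice
    rw [h0, FractionalIdeal.mem_zero_iff] at h3
    rw [h3, map_zero] at h1
    exact P.indep.ne_zero 0 h1.symm
  refine ⟨Units.mk0 J0 hJ0, ?_⟩
  ext z
  rw [mem_lat, Units.val_mk0]
  constructor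
  · intro hz
    obtain ⟨x, rfl⟩ := hK z hz
    exact ⟨x, hz, rfl⟩
  · rintro ⟨x, hx, rfl⟩
    exact hx

end Pool.Agent.Work.MP_787500_nt.HC
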