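import Mathlib
import Pool.Agent.Work.MP_787500_nt.HC.Basic
import Pool.Agent.Work.MP_787500_nt.HC.LatA
import Pool.Agent.Work.MP_787500_nt.HC.LatB
import Pool.Agent.Work.MP_787500_nt.HC.LatC
import Pool.Agent.Work.CM.Kl2

/-!
# Module LATF: the automorphisms act on the lattices of fractional ideals by translations

`CM.conj_eq` with `B = lat 1` (`isLat_lat`, `inK_lat`, `one_mem_lat`, `lat_one_mul 1`): `μ ≠ 0` and a lattice
`D` in `K` with `B * D ≤ D`, so `D = lat c` (`exists_lat`), and `conj σ (lat I) = μ • (lat I * lat c)`,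
`lat I * lat c = lat (c * I)` (`lat_mul`, `mul_comm`).
-/

set_option autoImplicit false

namespace Pool.Agent.Work.MP_787500_nt.HC

open WithZero IsDedekindDomain NumberField Pool.Agent.Work.CM
open scoped Pointwise nonZeroDivisors

universe u

variable {K : Type*} [Field K] [NumberField K] [Algebra K ℂ] {q : ℕ} {s : K}

theorem conj_lat (hb : IsBase K q s) (σ : ℂ ≃ₐ[K] ℂ) : ∃ (c : Idl K) (μ : ℂ), μ ≠ 0 ∧
    ∀ I : Idl K, conj (σ : ℂ ≃+* ℂ) (lat I) = μ • lat (c * I) := by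
  obtain ⟨μ, D, hμ, hD, hDK, hBD, hall⟩ := conj_eq σ (isLat_lat hb (1 : Idl K)) (inK_lat 1)
    one_mem_lat (lat_one_mul 1)
  obtain ⟨c, rfl⟩ := exists_lat hD hDK hBD
  refine ⟨c, μ, hμ, fun I => ?_⟩
  rw [hall (lat I) (isLat_lat hb I) (inK_lat I) (lat_one_mul I), ← lat_mul, mul_comm]

end Pool.Agent.Work.MP_787500_nt.HC
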