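import Mathlib
import Pool.Agent.Work.MP_787500_nt.HC.Basic
import Pool.Agent.Work.MP_787500_nt.HC.LatA
import Pool.Agent.Work.MP_787500_nt.HC.LatB
import Pool.Agent.Work.MP_787500_nt.HC.LatD
import Pool.Agent.Work.MP_787500_nt.HC.LatF
import Pool.Agent.Work.CM.Tw3

/-!
# Module VALB: homogeneity and conjugates of the values

* `eV_prin`: `lat_prin` for `I` and `(pr v)⁻¹ * I` (`mul_left_comm`), `Two.smul` (`two_lat`).
* `eV_conj`: `c`, `μ` from `conj_lat`. `Two.conj` for `Two (lat I) (lat ((pr v)⁻¹ * I))`: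
  `σ (eV v I) = ev (μ • lat (c * I)) (μ • lat (c * ((pr v)⁻¹ * I)))`, then `Two.smul` with
  `two_lat (c * I)` (`mul_left_comm`).
-/

set_option autoImplicit false

namespace Pool.Agent.Work.MP_787500_nt.HC

open WithZero IsDedekindDomain NumberField Pool.Agent.Work.CM
open scoped Pointwise nonZeroDivisors

universe u

variable {K : Type*} [Field K] [NumberField K] [Algebra K ℂ] {q : ℕ} {s : K}

theorem eV_prin (hb : IsBase K q s) {v : HeightOneSpectrum (𝓞 K)} (hv : (2 : 𝓞 K) ∈ v.asIdeal)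
    (x : Kˣ) (I : Idl K) :
    eV v (prin x * I) = ((algebraMap K ℂ (x : K)) ^ 2)⁻¹ * eV v I := by
  have hx : algebraMap K ℂ (x : K) ≠ 0 := (map_ne_zero _).2 x.ne_zero
  unfold eV
  rw [mul_left_comm, lat_prin, lat_prin]
  exact (Two.smul hx (two_lat hb hv I)).2

theorem eV_conj (hb : IsBase K q s) {v v' : HeightOneSpectrum (𝓞 K)}
    (hv : (2 : 𝓞 K) ∈ v.asIdeal) (hv' : (2 : 𝓞 K) ∈ v'.asIdeal) (σ : ℂ ≃ₐ[K] ℂ) :
    ∃ (c : Idl K) (μ : ℂ), μ ≠ 0 ∧ ∀ I : Idl K,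
      σ (eV v I) = (μ ^ 2)⁻¹ * eV v (c * I) ∧ σ (eV v' I) = (μ ^ 2)⁻¹ * eV v' (c * I) := by
  obtain ⟨c, μ, hμ, hc⟩ := conj_lat hb σ
  have key : ∀ {w : HeightOneSpectrum (𝓞 K)}, (2 : 𝓞 K) ∈ w.asIdeal → ∀ I : Idl K,
      σ (eV w I) = (μ ^ 2)⁻¹ * eV w (c * I) := by
    intro w hw I
    have h1 := (Two.conj (σ : ℂ ≃+* ℂ) (two_lat hb hw I)).2
    rw [hc, hc, mul_left_comm c] at h1
    have h2 := (Two.smul hμ (two_lat hb hw (c * I))).2
    rw [h2] at h1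
    exact h1.symm
  exact ⟨c, μ, hμ, fun I => ⟨key hv I, key hv' I⟩⟩

end Pool.Agent.Work.MP_787500_nt.HC
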