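import Mathlib
import Pool.Agent.Work.MP_787500_nt.HC.Basic
import Pool.Agent.Work.MP_787500_nt.HC.ClsA
import Pool.Agent.Work.MP_787500_nt.HC.ValA
import Pool.Agent.Work.MP_787500_nt.HC.ValB
import Pool.Agent.Work.MP_787500_nt.HC.AlgA

/-!
# Module CPXA: the functions on the class group, complex values

* `wv_prin`: `eV v` is homogeneous (`eV_prin`), so `sv (pr v) (eV v)` is invariant under `I ↦ prin x * I`
  (the factor `(x^2)⁻¹` cancels; move `prin x` out with `mul_left_comm`), and so is `wv`.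
* `wdata_complex`: every class is `cl I` (`cl_surjective`). `vals` and `AlgA`. `four`, `ne`, `ne'`, `rec1`:
  directly (`cl (pr v)⁻¹ * cl I = cl ((pr v)⁻¹ * I)`). `rec2`: `rec_vals` for `(vals ..).symm` at
  `J = (pr v)⁻¹ * I`: `(pr v')⁻¹ * ((pr v)⁻¹ * I) = prin (2⁻¹) * I` by `h2`, so
  `wv' ((pr v')⁻¹ * J) = wv' I` by `wv_prin`. `prod`: put `D I = eV v I - eV v' I ≠ 0`; by induction on `k`
  (`diff_vals`), `D (((pr v)⁻¹)^k * I) = D I * (∏_{j<k} (1 + W (p^j a)^2))^2`; for `k = hK K`,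
  `((pr v)⁻¹)^k = prin α⁻¹` and `D (prin α⁻¹ * I) = α^2 D I` (`eV_prin`).
* `act_complex`: `c`, `μ` from `eV_conj`. `σ (sv (pr v) (eV v) I) = sv (pr v) (eV v) (c * I)` because
  numerator and denominator are multiplied by the same factor; hence for `wv`. The class is `cl c`.
-/

set_option autoImplicit false

namespace Pool.Agent.Work.MP_787500_nt.HC

open WithZero IsDedekindDomain NumberField Pool.Agent.Work.CM
open scoped Pointwise nonZeroDivisors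

universe u

variable {K : Type*} [Field K] [NumberField K] [Algebra K ℂ] {q : ℕ} {s : K}
variable {v v' : HeightOneSpectrum (𝓞 K)}

private theorem sv_scale {A : Type*} [CommGroup A] {p : A} {E : A → ℂ} {I J : A} {r : ℂ}
    (hr : r ≠ 0) (h1 : E (p⁻¹ * J) = r * E (p⁻¹ * I)) (h2 : E J = r * E I)
    (h3 : E (p * J) = r * E (p * I)) : sv p E J = sv p E I := by
  unfold sv
  rw [h1, h2, h3]
  rw [show r * E (p⁻¹ * I) - r * E I = r * (E (p⁻¹ * I) - E I) by ring,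
    show 2 * (r * E I + 2 * (r * E (p * I))) = r * (2 * (E I + 2 * E (p * I))) by ring,
    mul_div_mul_left _ _ hr]

private theorem sv_prin (hb : IsBase K q s) (hv : (2 : 𝓞 K) ∈ v.asIdeal) (x : Kˣ) (I : Idl K) :
    sv (pr v) (eV v) (prin x * I) = sv (pr v) (eV v) I := by
  have hr : ((algebraMap K ℂ (x : K)) ^ 2)⁻¹ ≠ 0 :=
    inv_ne_zero (pow_ne_zero 2 ((map_ne_zero _).2 x.ne_zero))
  refine sv_scale hr ?_ (eV_prin hb hv x I) ?_
  · rw [mul_left_comm, eV_prin hb hv]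
  · rw [mul_left_comm, eV_prin hb hv]

theorem wv_prin (hb : IsBase K q s) (hv : (2 : 𝓞 K) ∈ v.asIdeal) (x : Kˣ) (I : Idl K) :
    wv (pr v) (eV v) (prin x * I) = wv (pr v) (eV v) I := by
  unfold wv
  rw [mul_left_comm, sv_prin hb hv, sv_prin hb hv]

theorem wdata_complex (hb : IsBase K q s) (hne : v ≠ v') (hv : (2 : 𝓞 K) ∈ v.asIdeal)
    (hv' : (2 : 𝓞 K) ∈ v'.asIdeal) (h2 : pr v * pr v' = prin (Units.mk0 (2 : K) two_ne_zero))
    {α : Kˣ} (hα : prin α = pr v ^ hK K) {W W' : ClassGroup (𝓞 K) → ℂ}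
    (hW : ∀ I, W (cl I) = wv (pr v) (eV v) I) (hW' : ∀ I, W' (cl I) = wv (pr v') (eV v') I) :
    Wdata K ℂ (cl (pr v)⁻¹) (hK K) (α : K) W W' := by
  have V := vals hb hne hv hv' h2
  have hmul : ∀ I : Idl K, cl (pr v)⁻¹ * cl I = cl ((pr v)⁻¹ * I) := fun I => (cl_mul _ _).symm
  refine ⟨fun a => ?_, fun a => ?_, fun a => ?_, fun a => ?_, fun a => ?_, fun a => ?_⟩ <;>
    obtain ⟨I, rfl⟩ := cl_surjective a
  · rw [hW, hW']
    exact four_vals V I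
  · rw [hmul, hW, hW]
    exact rec_vals V I
  · rw [hmul, hW', hW']
    have h3 := rec_vals V.symm ((pr v)⁻¹ * I)
    have h4 : (pr v')⁻¹ * ((pr v)⁻¹ * I) = prin (Units.mk0 (2 : K) two_ne_zero)⁻¹ * I := by
      have h5 : prin (Units.mk0 (2 : K) two_ne_zero)⁻¹ =
        (prin (Units.mk0 (2 : K) two_ne_zero))⁻¹ := map_inv _ _
      rw [h5, ← h2, mul_inv_rev, mul_assoc]
    rw [h4, wv_prin hb hv'] at h3
    exact h3
  · have hind : ∀ k : ℕ, eV v (((pr v)⁻¹) ^ k * I) - eV v' (((pr v)⁻¹) ^ k * I) =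
        (eV v I - eV v' I) *
          (∏ j ∈ Finset.range k, (1 + W (cl (pr v)⁻¹ ^ j * cl I) ^ 2)) ^ 2 := by
      intro k
      induction k with
      | zero => simp
      | succ k ih =>
        rw [pow_succ', mul_assoc, diff_vals V, ih, Finset.prod_range_succ, ← cl_pow, ← cl_mul, hW]
        ring
    have h5 := hind (hK K)
    have h6 : ((pr v)⁻¹) ^ hK K = prin α⁻¹ := by
      have h7 : prin α⁻¹ = (prin α)⁻¹ := map_inv _ _
      rw [h7, hα, inv_pow]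
    rw [h6, eV_prin hb hv, eV_prin hb hv', ← mul_sub, Units.val_inv_eq_inv_val, map_inv₀, inv_pow,
      inv_inv, mul_comm] at h5
    exact mul_left_cancel₀ (sub_ne_zero.2 (V.ne I)) h5
  · rw [hW]
    exact wv_ne V I
  · rw [hW']
    exact wv_ne V.symm I

private theorem sv_conj {w : HeightOneSpectrum (𝓞 K)} {σ : ℂ ≃ₐ[K] ℂ} {c : Idl K} {μ : ℂ}
    (hμ : μ ≠ 0) (h : ∀ I : Idl K, σ (eV w I) = (μ ^ 2)⁻¹ * eV w (c * I)) (I : Idl K) :
    σ (sv (pr w) (eV w) I) = sv (pr w) (eV w) (c * I) := by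
  have hr : (μ ^ 2)⁻¹ ≠ 0 := inv_ne_zero (pow_ne_zero 2 hμ)
  unfold sv
  rw [map_div₀, map_sub, map_mul, map_add, map_mul, map_ofNat, h, h, h,
    show (μ ^ 2)⁻¹ * eV w (c * ((pr w)⁻¹ * I)) - (μ ^ 2)⁻¹ * eV w (c * I) =
      (μ ^ 2)⁻¹ * (eV w (c * ((pr w)⁻¹ * I)) - eV w (c * I)) by ring,
    show 2 * ((μ ^ 2)⁻¹ * eV w (c * I) + 2 * ((μ ^ 2)⁻¹ * eV w (c * (pr w * I)))) =
      (μ ^ 2)⁻¹ * (2 * (eV w (c * I) + 2 * eV w (c * (pr w * I)))) by ring,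
    mul_div_mul_left _ _ hr, mul_left_comm c, mul_left_comm c]

private theorem wv_conj {w : HeightOneSpectrum (𝓞 K)} {σ : ℂ ≃ₐ[K] ℂ} {c : Idl K} {μ : ℂ}
    (hμ : μ ≠ 0) (h : ∀ I : Idl K, σ (eV w I) = (μ ^ 2)⁻¹ * eV w (c * I)) (I : Idl K) :
    σ (wv (pr w) (eV w) I) = wv (pr w) (eV w) (c * I) := by
  unfold wv
  rw [map_div₀, map_mul, map_add, map_one, map_ofNat, sv_conj hμ h, sv_conj hμ h,
    mul_left_comm c]

theorem act_complex (hb : IsBase K q s) (hv : (2 : 𝓞 K) ∈ v.asIdeal)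
    (hv' : (2 : 𝓞 K) ∈ v'.asIdeal) {W W' : ClassGroup (𝓞 K) → ℂ}
    (hW : ∀ I, W (cl I) = wv (pr v) (eV v) I) (hW' : ∀ I, W' (cl I) = wv (pr v') (eV v') I) :
    Act K ℂ W W' := by
  intro σ
  obtain ⟨c, μ, hμ, h⟩ := eV_conj hb hv hv' σ
  refine ⟨cl c, fun a => ?_⟩
  obtain ⟨I, rfl⟩ := cl_surjective a
  rw [← cl_mul, hW, hW, hW', hW']
  exact ⟨wv_conj hμ (fun I => (h I).1) I, wv_conj hμ (fun I => (h I).2) I⟩

end Pool.Agent.Work.MP_787500_nt.HC
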