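import Mathlib
import Pool.Agent.Work.MP_787500_nt.HC.Basic
import Pool.Agent.Work.MP_787500_nt.HC.ClsA
import Pool.Agent.Work.MP_787500_nt.HC.CpxA
import Pool.Agent.Work.MP_787500_nt.HC.ChA
import Pool.Agent.Work.MP_787500_nt.HC.ChC

/-!
# Module CHD: the sequence is in the maximal abelian extension

`W 1 = wv (pr v) (eV v) 1` (`hW 1`, `cl_one`), the same for `W'`. `exists_chain` gives `M`; `M 0 = lat (pr v')`,
so `lat 1 * M 0 ≤ M 0` and `InK K (M 0)` (`lat_one_mul`, `inK_lat`). `quot_mem`: `b m / a m ∈ abField`.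
`W 1 ∈ abField`: for `σ, τ` with classes `c, d`: `σ (τ (W 1)) = W (c * (d * 1))`, symmetric in `c, d`
(`act_complex`). Induction: `a 0 = W 1 ^ 2`, `b m = (b m / a m) * a m`, `a (m+1) = (a m + b m) / 2`
(`sq4_ne`: `a m ≠ 0`; 2 is in the subfield).
-/

set_option autoImplicit false

namespace Pool.Agent.Work.MP_787500_nt.HC

open WithZero IsDedekindDomain NumberField Pool.Agent.Work.CM
open scoped Pointwise nonZeroDivisors

universe u

variable {K : Type*} [Field K] [NumberField K] [Algebra K ℂ] {q : ℕ} {s : K}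
variable {v v' : HeightOneSpectrum (𝓞 K)}

/-- values of functions on which the automorphisms act by translations -/
theorem Act.mem {F A : Type*} [Field F] [Algebra K F] [CommGroup A] {W W' : A → F}
    (h : Act K F W W') (a : A) : W a ∈ RS.abField K F ∧ W' a ∈ RS.abField K F := by
  refine ⟨?_, ?_⟩
  · rw [RS.mem_abField]
    intro σ τ
    obtain ⟨c, hc⟩ := h σ
    obtain ⟨d, hd⟩ := h τ
    rw [(hd a).1, (hc (d * a)).1, (hc a).1, (hd (c * a)).1, mul_left_comm]
  · rw [RS.mem_abField]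
    intro σ τ
    obtain ⟨c, hc⟩ := h σ
    obtain ⟨d, hd⟩ := h τ
    rw [(hd a).2, (hc (d * a)).2, (hc a).2, (hd (c * a)).2, mul_left_comm]

theorem agm_complex (hb : IsBase K q s) (hne : v ≠ v') (hv : (2 : 𝓞 K) ∈ v.asIdeal)
    (hv' : (2 : 𝓞 K) ∈ v'.asIdeal) (h2 : pr v * pr v' = prin (Units.mk0 (2 : K) two_ne_zero))
    {W W' : ClassGroup (𝓞 K) → ℂ} (hW : ∀ I, W (cl I) = wv (pr v) (eV v) I)
    (hW' : ∀ I, W' (cl I) = wv (pr v') (eV v') I) {i : ℂ} {a b u : ℕ → ℂ}
    (hS : ∀ n, Sq4 (W 1) (W' 1) i a b u n) (m : ℕ) :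
    a m ∈ RS.abField K ℂ ∧ b m ∈ RS.abField K ℂ := by
  have hW1 := hW 1
  have hW1' := hW' 1
  rw [cl_one] at hW1 hW1'
  have hact : Act K ℂ W W' := act_complex hb hv hv' hW hW'
  have hmem := (Act.mem hact 1).1
  have hS' := hS
  rw [hW1, hW1'] at hS'
  obtain ⟨M, hM0, hT, hN, hq⟩ := exists_chain hb hne hv hv' h2 hS'
  have h0 : lat (1 : Idl K) * M 0 ≤ M 0 := by rw [hM0]; exact lat_one_mul _
  have hK0 : InK K (M 0) := by rw [hM0]; exact inK_lat _
  have hz : ∀ m, b m / a m ∈ RS.abField K ℂ := fun m => quot_mem hb h0 hK0 hT hN (hq m)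
  have h2m : (2 : ℂ) ∈ RS.abField K ℂ := by
    have := (RS.abField K ℂ).algebraMap_mem 2
    rwa [map_ofNat] at this
  have ha : ∀ m, a m ∈ RS.abField K ℂ → b m ∈ RS.abField K ℂ := by
    intro m ham
    have := mul_mem (hz m) ham
    rwa [div_mul_cancel₀ _ (sq4_ne (hS m) le_rfl).1] at this
  have hall : ∀ m, a m ∈ RS.abField K ℂ := by
    intro m
    induction m with
    | zero =>
      rw [(hS 0).a0]
      exact pow_mem hmem 2
    | succ m ih =>
      rw [(hS (m + 1)).as m (Nat.lt_succ_self m)]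
      exact div_mem (add_mem ih (ha m ih)) h2m
  exact ⟨hall m, ha m (hall m)⟩

end Pool.Agent.Work.MP_787500_nt.HC
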