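import Mathlib
import Pool.Agent.Work.MP_787500_nt.HC.Basic
import Pool.Agent.Work.MP_787500_nt.HC.ChD

/-!
# Module LYA: elements of the layers

As in `RS/Sharp.lean` (section `mem`). `layM_le_ab`: `hC.agm`, `Act.mem`, and `i ∈ abField` (`σ i = ± i`, private
theorem `root_mem` of `RS/AgmAb.lean`). `layM_finite`: generated by a finite set (the class group is finite) of
algebraic elements (see `RS/LayGal.lean`). `layF_mono`: if `τ^h` fixes `layM n` then it fixes `layM m`.
-/

set_option autoImplicit false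

namespace Pool.Agent.Work.MP_787500_nt.HC

open WithZero IsDedekindDomain NumberField
open scoped Pointwise nonZeroDivisors

universe u

variable {K : Type u} [Field K] [NumberField K] {q : ℕ} {s : K} {v : HeightOneSpectrum (𝓞 K)}
variable {α : Kˣ} {W W' : ClassGroup (𝓞 K) → AlgebraicClosure K} {i : AlgebraicClosure K}
variable {a b u : ℕ → AlgebraicClosure K}


theorem mem_i (n : ℕ) : i ∈ layM W W' i b n :=
  IntermediateField.subset_adjoin _ _ (Or.inl (Or.inl rfl))

theorem mem_b {m n : ℕ} (h : m ≤ n) : b m ∈ layM W W' i b n :=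
  IntermediateField.subset_adjoin _ _ (Or.inl (Or.inr ⟨m, h, rfl⟩))

theorem mem_W (n : ℕ) (c : ClassGroup (𝓞 K)) : W c ∈ layM W W' i b n :=
  IntermediateField.subset_adjoin _ _ (Or.inr (Or.inl ⟨c, rfl⟩))

theorem mem_W' (n : ℕ) (c : ClassGroup (𝓞 K)) : W' c ∈ layM W W' i b n :=
  IntermediateField.subset_adjoin _ _ (Or.inr (Or.inr ⟨c, rfl⟩))

theorem mem_a (hS : ∀ n, Sq4 (W 1) (W' 1) i a b u n) {m n : ℕ} (h : m ≤ n + 1) :
    a m ∈ layM W W' i b n := by
  induction m with
  | zero =>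
    rw [(hS 0).a0]
    exact pow_mem (mem_W n 1) 2
  | succ m ih =>
    rw [(hS (m + 1)).as m (Nat.lt_succ_self m)]
    exact div_mem (add_mem (ih (by omega)) (mem_b (by omega))) (ofNat_mem _ 2)

theorem mem_u (hS : ∀ n, Sq4 (W 1) (W' 1) i a b u n) {m n : ℕ} (h : m ≤ n + 1) :
    u m ∈ layM W W' i b n := by
  induction m with
  | zero =>
    rw [(hS 0).u0]
    exact div_mem (neg_mem (one_mem _)) (mem_W n 1)
  | succ m ih =>
    rw [(hS (m + 1)).us m (Nat.lt_succ_self m)]
    exact div_mem (mul_mem (pow_mem (ih (by omega)) 2) (mem_a hS (by omega)))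
      (mul_mem (ofNat_mem _ 2) (mem_a hS h))

theorem layM_mono {m n : ℕ} (h : m ≤ n) : layM W W' i b m ≤ layM W W' i b n := by
  rw [layM, IntermediateField.adjoin_le_iff]
  rintro z ((hz | ⟨k, hk, rfl⟩) | (⟨c, rfl⟩ | ⟨c, rfl⟩))
  · rw [Set.mem_singleton_iff.1 hz]
    exact mem_i n
  · exact mem_b (hk.trans h)
  · exact mem_W n c
  · exact mem_W' n c

theorem layF_le (n : ℕ) : layF W W' i b n ≤ layM W W' i b n := fun _ hx => (mem_layF.1 hx).1

theorem layF_mono {m n : ℕ} (h : m ≤ n) : layF W W' i b m ≤ layF W W' i b n := by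
  intro x hx
  obtain ⟨h1, h2⟩ := mem_layF.1 hx
  exact mem_layF.2 ⟨layM_mono h h1, fun τ hτ => h2 τ fun y hy => hτ y (layM_mono h hy)⟩

theorem fix_layM {τ : AlgebraicClosure K ≃ₐ[K] AlgebraicClosure K} {n : ℕ} (hi : τ i = i)
    (hb : ∀ m ≤ n, τ (b m) = b m) (hW : ∀ c, τ (W c) = W c ∧ τ (W' c) = W' c)
    {x : AlgebraicClosure K} (hx : x ∈ layM W W' i b n) : τ x = x := by
  induction hx using IntermediateField.adjoin_induction with
  | mem y hy =>
    rcases hy with (hz | ⟨k, hk, rfl⟩) | (⟨c, rfl⟩ | ⟨c, rfl⟩)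
    · rw [Set.mem_singleton_iff.1 hz, hi]
    · exact hb k hk
    · exact (hW c).1
    · exact (hW c).2
  | algebraMap y => exact τ.commutes y
  | add y z _ _ h1 h2 => rw [map_add, h1, h2]
  | inv y _ h1 => rw [map_inv₀, h1]
  | mul y z _ _ h1 h2 => rw [map_mul, h1, h2]

theorem layM_finite (n : ℕ) : FiniteDimensional K (layM W W' i b n) := by
  have hfin : ({i} ∪ {z | ∃ m, m ≤ n ∧ z = b m} ∪ (Set.range W ∪ Set.range W') :
      Set (AlgebraicClosure K)).Finite := by
    refine ((Set.finite_singleton _).union ?_).union ((Set.finite_range W).union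
      (Set.finite_range W'))
    apply ((Set.finite_Iic n).image b).subset
    rintro z ⟨m, hm, rfl⟩
    exact ⟨m, hm, rfl⟩
  have := hfin.to_subtype
  rw [layM]
  exact IntermediateField.finiteDimensional_adjoin fun x _ =>
    (AlgebraicClosure.isAlgebraic K).isAlgebraic x |>.isIntegral

private theorem root_ab (hi : i ^ 2 = -1) : i ∈ RS.abField K (AlgebraicClosure K) := by
  have hs : ∀ σ : AlgebraicClosure K ≃ₐ[K] AlgebraicClosure K, σ i = i ∨ σ i = -i := by
    intro σ
    apply sq_eq_sq_iff_eq_or_eq_neg.1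
    rw [← map_pow, hi, map_neg, map_one]
  rw [RS.mem_abField]
  intro σ τ
  rcases hs σ with h1 | h1 <;> rcases hs τ with h2 | h2 <;>
    simp only [h1, h2, map_neg]

private theorem act_ab (h : Act K (AlgebraicClosure K) W W') (a : ClassGroup (𝓞 K)) :
    W a ∈ RS.abField K (AlgebraicClosure K) ∧ W' a ∈ RS.abField K (AlgebraicClosure K) := by
  constructor
  · rw [RS.mem_abField]
    intro σ τ
    obtain ⟨c, hc⟩ := h σ
    obtain ⟨d, hd⟩ := h τ
    rw [(hd a).1, (hc (d * a)).1, (hc a).1, (hd (c * a)).1, ← mul_assoc, ← mul_assoc, mul_comm c d]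
  · rw [RS.mem_abField]
    intro σ τ
    obtain ⟨c, hc⟩ := h σ
    obtain ⟨d, hd⟩ := h τ
    rw [(hd a).2, (hc (d * a)).2, (hc a).2, (hd (c * a)).2, ← mul_assoc, ← mul_assoc, mul_comm c d]

theorem layM_le_ab (hC : Ctx K q s v α W W') (hS : ∀ n, Sq4 (W 1) (W' 1) i a b u n) (n : ℕ) :
    layM W W' i b n ≤ RS.abField K (AlgebraicClosure K) := by
  rw [layM, IntermediateField.adjoin_le_iff]
  rintro z ((hz | ⟨k, hk, rfl⟩) | (⟨c, rfl⟩ | ⟨c, rfl⟩))
  · rw [Set.mem_singleton_iff.1 hz]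
    exact root_ab (hS 0).i2
  · exact (hC.agm i a b u hS k).2
  · exact (act_ab hC.act c).1
  · exact (act_ab hC.act c).2

end Pool.Agent.Work.MP_787500_nt.HC
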