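import Mathlib
import Pool.Agent.Work.MP_787500_nt.HC.Basic
import Pool.Agent.Work.MP_787500_nt.HC.LyA
import Pool.Agent.Work.MP_787500_nt.HC.ArB

/-!
# Module LYC: the generating automorphisms

`h = hK K` is odd (`odd_hK hC.base`).
* `pow_fix`: `hC.act τ` gives the class `c` of `τ`; `(τ^k) (W a) = W (c^k * a)` by induction, `c^h = 1`
  (`pow_card_eq_one'`).
* `exists_c`: `-1` is not a square in `K` (private theorem `rat_sq` of `RS/Gen.lean`, with `7` replaced by `q`:
  a square `z^2 = r`, `z ∈ K`, `r ∈ ℚ` forces `r` or `-q r` to be a square in `ℚ`; `-q (-1) = q` is prime, not a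
  square), so there is `c` with `c i = -i`, and `(c^h) i = (-1)^h i = -i`.
* `exists_gen4`: let `r = b 1 / (W 1 * W' 1)`: `b 1 ^ 2 = a 0 * b 0 = -i (W 1 W' 1)^2`, so `r^2 = -i`. There is `τ` with
  `τ i = i`, `τ r = -r`: copy the argument of `RS/Gen.lean` (`key`): if all automorphisms fixing `i` fix `r`, then
  `r + c r ∈ K` (`c i = -i`), `(r + c r)^2 = 2 r (c r)`, `(r (c r))^2 = (-i)(i) = 1`, so `2` or `-2` is a square in `K`;
  by `rat_sq` one of `2, -2 q, -2, 2 q` is a rational square: no (`q` is an odd prime). Let `g = τ` and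
  `σ = g^h`: `σ i = i`, `σ r = (-1)^h r = -r`, `σ` fixes all `W c`, `W' c` (`pow_fix`), so `σ (b 1) = -b 1`. The rest by
  induction as in `RS/Gen.lean`: if `τ' = σ^(2^n)` fixes `i`, `b 0, .., b n` and the values of `W`, `W'`, hence
  `a 0, .., a (n+1)`, and `τ' (b (n+1)) = -b (n+1)`, then `(τ' (b (n+2)))^2 = -b (n+2)^2`,
  `τ' (b (n+2)) = ± i b (n+2)`, `τ'^2 (b (n+2)) = -b (n+2)`. (`b 0 = -i W'^2` is fixed.)
-/

set_option autoImplicit false

namespace Pool.Agent.Work.MP_787500_nt.HC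

open WithZero IsDedekindDomain NumberField
open scoped Pointwise nonZeroDivisors

universe u

variable {K : Type u} [Field K] [NumberField K] {q : ℕ} {s : K} {v : HeightOneSpectrum (𝓞 K)}
variable {α : Kˣ} {W W' : ClassGroup (𝓞 K) → AlgebraicClosure K} {i : AlgebraicClosure K}
variable {a b u : ℕ → AlgebraicClosure K}


omit [NumberField K] in
/-- an element outside `K` is moved -/
private theorem exists_moved [CharZero K] {z : AlgebraicClosure K}
    (hz : ∀ x : K, algebraMap K (AlgebraicClosure K) x ≠ z) :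
    ∃ σ : AlgebraicClosure K ≃ₐ[K] AlgebraicClosure K, σ z ≠ z := by
  by_contra hcon
  push Not at hcon
  obtain ⟨x, hx⟩ := (InfiniteGalois.mem_range_algebraMap_iff_fixed z).2 hcon
  exact hz x hx

private theorem rat_sq (hK : Module.finrank ℚ K = 2) (hs : s ^ 2 = -(q : K)) (hq : 0 < q) {z : K}
    {r : ℚ} (h : z ^ 2 = (r : K)) : IsSquare r ∨ IsSquare (-(q : ℚ) * r) := by
  obtain ⟨x, y, rfl⟩ := Quad.exists_coords hK hs hq z
  have h1 : ((x ^ 2 - q * y ^ 2 - r : ℚ) : K) + ((2 * x * y : ℚ) : K) * s = 0 := by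
    push_cast
    linear_combination h - (y : K) ^ 2 * hs
  obtain ⟨h2, h3⟩ := Quad.not_rat hs hq _ _ h1
  rcases mul_eq_zero.1 h3 with h4 | h4
  · right
    have hx : x = 0 := by linarith
    refine ⟨q * y, ?_⟩
    rw [hx] at h2
    linear_combination (q : ℚ) * h2
  · left
    refine ⟨x, ?_⟩
    rw [h4] at h2
    linear_combination -h2

private theorem not_rat_sq {r : ℚ} {m : ℕ} (h : r = m) (hm : m % 4 = 2 ∨ m % 4 = 3) :
    ¬ IsSquare r := by
  rw [h, Rat.isSquare_natCast_iff]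
  rintro ⟨t, ht⟩
  have h1 : t % 4 = 0 ∨ t % 4 = 1 ∨ t % 4 = 2 ∨ t % 4 = 3 := by omega
  have h2 : t * t % 4 = (t % 4) * (t % 4) % 4 := Nat.mul_mod _ _ _
  rw [← ht] at h2
  rcases h1 with h1 | h1 | h1 | h1 <;> rw [h1] at h2 <;> omega

private theorem not_neg_sq {r : ℚ} (h : r < 0) : ¬ IsSquare r := by
  rintro ⟨t, ht⟩
  nlinarith [mul_self_nonneg t]

private theorem exists_conj' (hb : IsBase K q s) (hi : i ^ 2 = -1) :
    ∃ c : AlgebraicClosure K ≃ₐ[K] AlgebraicClosure K, c i = -i := by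
  obtain ⟨hK, hs, hq, h16⟩ := hb
  obtain ⟨σ, hσ⟩ := exists_moved (z := i) (by
    intro x hx
    have h1 : x ^ 2 = ((-1 : ℚ) : K) := by
      apply (algebraMap K (AlgebraicClosure K)).injective
      rw [map_pow, hx, hi]
      simp
    rcases rat_sq hK hs hq.pos h1 with h2 | h2
    · exact not_neg_sq (by norm_num) h2
    · exact not_rat_sq (m := q) (by norm_num) (by omega) h2)
  refine ⟨σ, ?_⟩
  have h1 : (σ i) ^ 2 = i ^ 2 := by rw [← map_pow, hi, map_neg, map_one]
  exact (sq_eq_sq_iff_eq_or_eq_neg.1 h1).resolve_left hσ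

private theorem exists_neg_r (hb : IsBase K q s) (hi : i ^ 2 = -1) {r : AlgebraicClosure K}
    (hr : r ^ 2 = -i) :
    ∃ σ : AlgebraicClosure K ≃ₐ[K] AlgebraicClosure K, σ i = i ∧ σ r = -r := by
  obtain ⟨c, hc⟩ := exists_conj' hb hi
  obtain ⟨hK, hs, hq, h16⟩ := hb
  by_contra hcon
  push Not at hcon
  have hfix : ∀ σ : AlgebraicClosure K ≃ₐ[K] AlgebraicClosure K, σ i = i → σ r = r := by
    intro σ hσ
    have h1 : (σ r) ^ 2 = r ^ 2 := by
      rw [← map_pow, hr, map_neg, hσ]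
    exact (sq_eq_sq_iff_eq_or_eq_neg.1 h1).resolve_right (hcon σ hσ)
  have hcb : (c r) ^ 2 = i := by
    rw [← map_pow, hr, map_neg, hc, neg_neg]
  have ht : r * c r = 1 ∨ r * c r = -1 := by
    apply sq_eq_sq_iff_eq_or_eq_neg.1
    rw [mul_pow, hr, hcb]
    linear_combination (-1) * hi
  obtain ⟨ε, hε, hε'⟩ : ∃ ε : ℚ, (ε = 2 ∨ ε = -2) ∧
      2 * (r * c r) = algebraMap ℚ (AlgebraicClosure K) ε := by
    rcases ht with ht | ht
    · exact ⟨2, Or.inl rfl, by rw [ht]; norm_num⟩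
    · exact ⟨-2, Or.inr rfl, by rw [ht]; norm_num⟩
  have hε0 : r * c r ≠ 0 := by
    rcases ht with ht | ht <;> rw [ht] <;> norm_num
  have hb0 : r ≠ 0 := left_ne_zero_of_mul hε0
  have hprod : ∀ σ : AlgebraicClosure K ≃ₐ[K] AlgebraicClosure K, σ (r * c r) = r * c r := by
    intro σ
    rcases ht with ht | ht
    · rw [ht, map_one]
    · rw [ht, map_neg, map_one]
  have hinv : ∀ σ : AlgebraicClosure K ≃ₐ[K] AlgebraicClosure K, σ (r + c r) = r + c r := by
    intro σ
    have h1 : (σ i) ^ 2 = i ^ 2 := by rw [← map_pow, hi, map_neg, map_one]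
    have hp := hprod σ
    rw [map_mul] at hp
    rcases sq_eq_sq_iff_eq_or_eq_neg.1 h1 with h2 | h2
    · have h3 := hfix σ h2
      rw [h3] at hp
      rw [map_add, h3, mul_left_cancel₀ hb0 hp]
    · have h3 := hfix (c⁻¹ * σ) (by
        rw [AlgEquiv.mul_apply, h2, map_neg]
        have : c⁻¹ i = -i := by
          rw [← neg_eq_iff_eq_neg, ← map_neg, ← hc]
          exact c.symm_apply_apply i
        rw [this, neg_neg])
      rw [AlgEquiv.mul_apply] at h3
      have h4 : σ r = c r := by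
        have h5 : c (c⁻¹ (σ r)) = σ r := c.apply_symm_apply (σ r)
        rw [h3] at h5
        exact h5.symm
      rw [h4, mul_comm r] at hp
      rw [map_add, h4, mul_left_cancel₀ (right_ne_zero_of_mul hε0) hp, add_comm]
  obtain ⟨z, hz⟩ := (InfiniteGalois.mem_range_algebraMap_iff_fixed (r + c r)).2 hinv
  have hz2 : z ^ 2 = (ε : K) := by
    apply (algebraMap K (AlgebraicClosure K)).injective
    have h5 : algebraMap K (AlgebraicClosure K) (ε : K) = algebraMap ℚ (AlgebraicClosure K) ε := by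
      simp
    rw [map_pow, hz, h5, ← hε']
    linear_combination hr + hcb
  have hq0 : (0 : ℚ) < q := by exact_mod_cast hq.pos
  rcases hε with rfl | rfl
  · rcases rat_sq hK hs hq.pos hz2 with h6 | h6
    · exact not_rat_sq (m := 2) (by norm_num) (by omega) h6
    · exact not_neg_sq (by nlinarith) h6
  · rcases rat_sq hK hs hq.pos hz2 with h6 | h6
    · exact not_neg_sq (by norm_num) h6
    · exact not_rat_sq (m := 2 * q) (by push_cast; ring) (by omega) h6

theorem pow_fix (hC : Ctx K q s v α W W') (τ : AlgebraicClosure K ≃ₐ[K] AlgebraicClosure K)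
    (c : ClassGroup (𝓞 K)) : (τ ^ hK K) (W c) = W c ∧ (τ ^ hK K) (W' c) = W' c := by
  obtain ⟨d, hd⟩ := hC.act τ
  have key : ∀ k : ℕ, (τ ^ k) (W c) = W (d ^ k * c) ∧ (τ ^ k) (W' c) = W' (d ^ k * c) := by
    intro k
    induction k with
    | zero =>
      rw [pow_zero, pow_zero, one_mul]
      exact ⟨rfl, rfl⟩
    | succ k ih =>
      rw [pow_succ', AlgEquiv.mul_apply, AlgEquiv.mul_apply, ih.1, ih.2, (hd _).1, (hd _).2,
        ← mul_assoc, ← pow_succ']
      exact ⟨rfl, rfl⟩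
  have h1 := key (hK K)
  have h2 : d ^ hK K = 1 := pow_card_eq_one'
  rwa [h2, one_mul] at h1

private theorem pow_neg {τ : AlgebraicClosure K ≃ₐ[K] AlgebraicClosure K}
    {x : AlgebraicClosure K} (h : τ x = -x) (k : ℕ) : (τ ^ k) x = (-1) ^ k * x := by
  induction k with
  | zero =>
    rw [pow_zero, pow_zero, one_mul]
    rfl
  | succ k ih =>
    rw [pow_succ, AlgEquiv.mul_apply, h, map_neg, ih, pow_succ]
    ring

private theorem pow_id {τ : AlgebraicClosure K ≃ₐ[K] AlgebraicClosure K}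
    {x : AlgebraicClosure K} (h : τ x = x) (k : ℕ) : (τ ^ k) x = x := by
  induction k with
  | zero => rfl
  | succ k ih => rw [pow_succ, AlgEquiv.mul_apply, h, ih]

theorem exists_c (hC : Ctx K q s v α W W') (hi : i ^ 2 = -1) :
    ∃ c : AlgebraicClosure K ≃ₐ[K] AlgebraicClosure K, (c ^ hK K) i = -i := by
  obtain ⟨c, hc⟩ := exists_conj' hC.base hi
  refine ⟨c, ?_⟩
  rw [pow_neg hc, (odd_hK hC.base).neg_one_pow, neg_one_mul]

theorem exists_gen4 (hC : Ctx K q s v α W W') (hS : ∀ n, Sq4 (W 1) (W' 1) i a b u n) :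
    ∃ g : AlgebraicClosure K ≃ₐ[K] AlgebraicClosure K, (g ^ hK K) i = i ∧
      ∀ n, ((g ^ hK K) ^ 2 ^ n) (b (n + 1)) = -b (n + 1) ∧
        ∀ m ≤ n, ((g ^ hK K) ^ 2 ^ n) (b m) = b m := by
  have hi := (hS 0).i2
  have hW0 : W 1 * W' 1 ≠ 0 := mul_ne_zero (hS 0).w0 (hS 0).w0'
  have hr : (b 1 / (W 1 * W' 1)) ^ 2 = -i := by
    rw [div_pow, (hS 1).bs 0 (by norm_num), (hS 0).a0, (hS 0).b0,
      div_eq_iff (pow_ne_zero 2 hW0)]
    ring
  obtain ⟨g, hgi, hgr⟩ := exists_neg_r hC.base hi hr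
  have hσi : (g ^ hK K) i = i := pow_id hgi _
  have hσr : (g ^ hK K) (b 1 / (W 1 * W' 1)) = -(b 1 / (W 1 * W' 1)) := by
    rw [pow_neg hgr, (odd_hK hC.base).neg_one_pow, neg_one_mul]
  have hσW : ∀ c, (g ^ hK K) (W c) = W c ∧ (g ^ hK K) (W' c) = W' c := pow_fix hC g
  have hσb : (g ^ hK K) (b 1) = -b 1 := by
    have e : b 1 = (b 1 / (W 1 * W' 1)) * (W 1 * W' 1) := (div_mul_cancel₀ _ hW0).symm
    rw [e, map_mul, hσr, map_mul, (hσW 1).1, (hσW 1).2, neg_mul]
  refine ⟨g, hσi, ?_⟩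
  set σ := g ^ hK K with hσ
  intro n
  induction n with
  | zero =>
    refine ⟨by rw [pow_zero, pow_one]; exact hσb, ?_⟩
    intro m hm
    obtain rfl : m = 0 := by omega
    rw [(hS 0).b0, map_mul, map_neg, pow_id hσi, map_pow, pow_id (hσW 1).2]
  | succ n ih =>
    obtain ⟨ih1, ih2⟩ := ih
    set τ := σ ^ (2 ^ n) with hτ
    have hτi : τ i = i := pow_id hσi _
    have hpow : σ ^ (2 ^ (n + 1)) = τ * τ := by rw [hτ, ← pow_add, pow_succ, mul_two]
    have ha : ∀ m ≤ n + 1, τ (a m) = a m := by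
      intro m
      induction m with
      | zero =>
        intro _
        rw [(hS 0).a0, map_pow, hτ, pow_id (hσW 1).1]
      | succ m ihm =>
        intro hm
        rw [(hS (m + 1)).as m (by omega), map_div₀, map_add, map_ofNat, ihm (by omega),
          ih2 m (by omega)]
    constructor
    · have h1 : (τ (b (n + 2))) ^ 2 = (i * b (n + 2)) ^ 2 := by
        rw [← map_pow, (hS (n + 2)).bs (n + 1) (by omega), map_mul, ha _ le_rfl, ih1, mul_pow,
          (hS (n + 2)).bs (n + 1) (by omega), hi]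
        ring
      rw [hpow, AlgEquiv.mul_apply]
      rcases sq_eq_sq_iff_eq_or_eq_neg.1 h1 with h2 | h2
      · rw [h2, map_mul, hτi, h2]
        linear_combination (b (n + 2)) * hi
      · rw [h2, map_neg, map_mul, hτi, h2]
        linear_combination (b (n + 2)) * hi
    · intro m hm
      rw [hpow, AlgEquiv.mul_apply]
      rcases Nat.lt_or_ge m (n + 1) with h1 | h1
      · rw [ih2 m (by omega), ih2 m (by omega)]
      · obtain rfl : m = n + 1 := by omega
        rw [ih1, map_neg, ih1, neg_neg]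

end Pool.Agent.Work.MP_787500_nt.HC
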