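import Mathlib
import Pool.Agent.Work.MP_787500_nt.HC.Basic

/-!
# Module LYB: finite subextensions of the maximal abelian extension

As in `RS/LayGal.lean`, for an arbitrary subfield `E` of `abField K Ω`, `Ω = AlgebraicClosure K`. The last claim:
`AlgEquiv.restrictNormalHom_surjective` or `AlgEquiv.liftNormal`.
-/

set_option autoImplicit false

namespace Pool.Agent.Work.MP_787500_nt.HC

open scoped Pointwise nonZeroDivisors

universe u

variable {K : Type u} [Field K] [CharZero K]

theorem ab_galois (E : IntermediateField K (AlgebraicClosure K))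
    (hE : E ≤ RS.abField K (AlgebraicClosure K)) [FiniteDimensional K E] :
    IsGalois K E ∧ (∀ σ τ : E ≃ₐ[K] E, σ * τ = τ * σ) ∧
      (∀ σ : AlgebraicClosure K ≃ₐ[K] AlgebraicClosure K, ∀ x ∈ E, σ x ∈ E) ∧
      (∀ σ : AlgebraicClosure K ≃ₐ[K] AlgebraicClosure K,
        ∃ τ : E ≃ₐ[K] E, ∀ x : E, ((τ x : E) : AlgebraicClosure K) = σ x) ∧
      (∀ τ : E ≃ₐ[K] E, ∃ σ : AlgebraicClosure K ≃ₐ[K] AlgebraicClosure K,
        ∀ x : E, ((τ x : E) : AlgebraicClosure K) = σ x) := by
  classical
  have hst : ∀ (σ : AlgebraicClosure K ≃ₐ[K] AlgebraicClosure K) (x : AlgebraicClosure K),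
      x ∈ E → σ x ∈ E := by
    intro σ x hx
    rw [← InfiniteGalois.fixedField_fixingSubgroup E, IntermediateField.mem_fixedField_iff]
    intro τ hτ
    have h1 : τ x = x := (IntermediateField.mem_fixingSubgroup_iff E τ).1 hτ x hx
    rw [RS.mem_abField.1 (hE hx) τ σ, h1]
  have hnormal : Normal K E := by
    rw [IntermediateField.normal_iff_forall_map_le']
    rintro σ _ ⟨x, hx, rfl⟩
    exact hst σ x hx
  have hgal : IsGalois K E := { }
  refine ⟨hgal, ?_, hst, ?_, ?_⟩
  · intro σ τ
    obtain ⟨σ', rfl⟩ := AlgEquiv.restrictNormalHom_surjective (E := AlgebraicClosure K) σ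
    obtain ⟨τ', rfl⟩ := AlgEquiv.restrictNormalHom_surjective (E := AlgebraicClosure K) τ
    rw [← map_mul, ← map_mul]
    ext x
    have e1 := AlgEquiv.restrictNormal_commutes (σ' * τ') E x
    have e2 := AlgEquiv.restrictNormal_commutes (τ' * σ') E x
    refine e1.trans (Eq.trans ?_ e2.symm)
    exact RS.mem_abField.1 (hE x.2) σ' τ'
  · intro σ
    exact ⟨AlgEquiv.restrictNormal σ E, fun x => AlgEquiv.restrictNormal_commutes σ E x⟩
  · intro τ
    obtain ⟨σ, rfl⟩ := AlgEquiv.restrictNormalHom_surjective (E := AlgebraicClosure K) τ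
    exact ⟨σ, fun x => AlgEquiv.restrictNormal_commutes σ E x⟩

end Pool.Agent.Work.MP_787500_nt.HC
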