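import Mathlib
import Pool.Agent.Work.MP_787500_nt.HC.Basic
import Pool.Agent.Work.MP_787500_nt.HC.LyA

/-!
# Module LYD: automorphisms fixing `i` and the values of `W`, `W'`

By induction on `n` find `k` with `g (b m) = (σ^k) (b m)` for all `m ≤ n`. `n = 0`: `b 0 = -i W'^2` is fixed by both
(`k = 0`). Step: `τ = (σ^k)⁻¹ g` fixes `i`, all `W`, `W'`, `b 0, .., b n`, so `a 0, .., a (n+1)` (recursion), so
`(τ (b (n+1)))^2 = b (n+1)^2` and `τ (b (n+1)) = ± b (n+1)`. If `-`: replace `k` by `k + 2^n`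
(`σ^(2^n)` fixes `b 0, .., b n` and negates `b (n+1)`; `σ^(k + 2^n) = σ^k σ^(2^n)`). Then
`(σ^k)⁻¹ g` fixes all generators of `layM n` (`fix_layM`).
-/

set_option autoImplicit false

namespace Pool.Agent.Work.MP_787500_nt.HC

open WithZero IsDedekindDomain NumberField
open scoped Pointwise nonZeroDivisors

universe u

variable {K : Type u} [Field K] [NumberField K] {q : ℕ} {s : K} {v : HeightOneSpectrum (𝓞 K)}
variable {α : Kˣ} {W W' : ClassGroup (𝓞 K) → AlgebraicClosure K} {i : AlgebraicClosure K}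
variable {a b u : ℕ → AlgebraicClosure K}


omit [NumberField K] in
private theorem pow_id {τ : AlgebraicClosure K ≃ₐ[K] AlgebraicClosure K}
    {x : AlgebraicClosure K} (h : τ x = x) (k : ℕ) : (τ ^ k) x = x := by
  induction k with
  | zero => rfl
  | succ k ih => rw [pow_succ, AlgEquiv.mul_apply, h, ih]

omit [NumberField K] in
private theorem inv_mul_fix {ρ g : AlgebraicClosure K ≃ₐ[K] AlgebraicClosure K}
    {x : AlgebraicClosure K} : (ρ⁻¹ * g) x = x ↔ g x = ρ x := by
  rw [AlgEquiv.mul_apply]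
  constructor
  · intro h
    rw [← ρ.apply_symm_apply (g x)]
    exact congrArg ρ h
  · intro h
    rw [h]
    exact ρ.symm_apply_apply x

theorem aut_eq_pow (hS : ∀ n, Sq4 (W 1) (W' 1) i a b u n)
    {σ g : AlgebraicClosure K ≃ₐ[K] AlgebraicClosure K} (hσi : σ i = i)
    (hσW : ∀ c, σ (W c) = W c ∧ σ (W' c) = W' c)
    (hσ : ∀ n, (σ ^ 2 ^ n) (b (n + 1)) = -b (n + 1) ∧ ∀ m ≤ n, (σ ^ 2 ^ n) (b m) = b m)
    (hgi : g i = i) (hgW : ∀ c, g (W c) = W c ∧ g (W' c) = W' c) (n : ℕ) :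
    ∃ k : ℕ, ∀ x ∈ layM W W' i b n, g x = (σ ^ k) x := by
  have key : ∃ k : ℕ, ∀ m ≤ n, g (b m) = (σ ^ k) (b m) := by
    induction n with
    | zero =>
      refine ⟨0, fun m hm => ?_⟩
      obtain rfl : m = 0 := by omega
      rw [pow_zero, (hS 0).b0, map_mul, map_neg, hgi, map_pow, (hgW 1).2]
      rfl
    | succ n ih =>
      obtain ⟨k, hk⟩ := ih
      have hτ : ∀ m ≤ n, ((σ ^ k)⁻¹ * g) (b m) = b m := fun m hm => inv_mul_fix.2 (hk m hm)
      have hτW : ((σ ^ k)⁻¹ * g) (W 1) = W 1 :=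
        inv_mul_fix.2 (by rw [(hgW 1).1, pow_id (hσW 1).1])
      have ha : ∀ m ≤ n + 1, ((σ ^ k)⁻¹ * g) (a m) = a m := by
        intro m
        induction m with
        | zero =>
          intro _
          rw [(hS 0).a0, map_pow, hτW]
        | succ m ihm =>
          intro hm
          rw [(hS (m + 1)).as m (by omega), map_div₀, map_add, map_ofNat, ihm (by omega),
            hτ m (by omega)]
      have h1 : (((σ ^ k)⁻¹ * g) (b (n + 1))) ^ 2 = b (n + 1) ^ 2 := by
        rw [← map_pow, (hS (n + 1)).bs n (by omega), map_mul, ha n (by omega), hτ n le_rfl]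
      rcases sq_eq_sq_iff_eq_or_eq_neg.1 h1 with h2 | h2
      · refine ⟨k, fun m hm => ?_⟩
        rcases Nat.lt_or_ge m (n + 1) with h3 | h3
        · exact hk m (by omega)
        · obtain rfl : m = n + 1 := by omega
          exact inv_mul_fix.1 h2
      · refine ⟨k + 2 ^ n, fun m hm => ?_⟩
        rw [pow_add, AlgEquiv.mul_apply]
        rcases Nat.lt_or_ge m (n + 1) with h3 | h3
        · rw [(hσ n).2 m (by omega)]
          exact hk m (by omega)
        · obtain rfl : m = n + 1 := by omega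
          rw [(hσ n).1, ← h2, AlgEquiv.mul_apply]
          exact ((σ ^ k).apply_symm_apply (g (b (n + 1)))).symm
  obtain ⟨k, hk⟩ := key
  refine ⟨k, fun x hx => inv_mul_fix.1 (fix_layM (n := n) ?_ ?_ ?_ hx)⟩
  · exact inv_mul_fix.2 (by rw [hgi, pow_id hσi])
  · exact fun m hm => inv_mul_fix.2 (hk m hm)
  · exact fun c => ⟨inv_mul_fix.2 (by rw [(hgW c).1, pow_id (hσW c).1]),
      inv_mul_fix.2 (by rw [(hgW c).2, pow_id (hσW c).2])⟩

end Pool.Agent.Work.MP_787500_nt.HC
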