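import Mathlib
import Pool.Agent.Work.MP_787500_nt.HC.Basic
import Pool.Agent.Work.MP_787500_nt.HC.LyA
import Pool.Agent.Work.MP_787500_nt.HC.LyB
import Pool.Agent.Work.MP_787500_nt.HC.LyC
import Pool.Agent.Work.MP_787500_nt.HC.LyD

/-!
# Module LYE: the number of `h`-th powers in the Galois group of `layM n`

`M = layM n`, `G = Gal(M/K)`, finite and abelian (`ab_galois` with `layM_le_ab`, `layM_finite`), `h = hK K`.
`P = {τ^h}` is a subgroup of `G` (abelian). Let `σ = g^h` (`exists_gen4`) and `c' = c^h` (`exists_c`), restricted to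
`M`: elements of `P`. All elements of `P` fix the values of `W`, `W'` (lift to `Ω` by `ab_galois`, `pow_fix`).
`σ|M` has order `2^n`: `σ^(2^n)` fixes `i`, `W`, `W'`, `b 0, .., b n`, so it is trivial on `M` (`fix_layM`), and for
`n ≥ 1`, `σ^(2^(n-1)) (b n) = -b n ≠ b n` (`sq4_ne`); `orderOf_eq_prime_pow`. An element `τ ∈ P` maps `i` to `± i`. If
`τ i = i` then `τ` is a power of `σ` on `M` (`aut_eq_pow` for a lift that is an `h`-th power). If `τ i = -i`,
the same for `τ c'⁻¹`. So `P` is the disjoint union of `⟨σ⟩` and `⟨σ⟩ c'`, of cardinality `2 * 2^n`.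
* `pow_pow_eq_one`: `P` is a group of order `2^(n+1)`.
-/

set_option autoImplicit false

namespace Pool.Agent.Work.MP_787500_nt.HC

open WithZero IsDedekindDomain NumberField
open scoped Pointwise nonZeroDivisors

universe u

variable {K : Type u} [Field K] [NumberField K] {q : ℕ} {s : K} {v : HeightOneSpectrum (𝓞 K)}
variable {α : Kˣ} {W W' : ClassGroup (𝓞 K) → AlgebraicClosure K} {i : AlgebraicClosure K}
variable {a b u : ℕ → AlgebraicClosure K}


private theorem lye_res (hC : Ctx K q s v α W W') (hS : ∀ n, Sq4 (W 1) (W' 1) i a b u n) (n : ℕ) :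
    ∃ R : (AlgebraicClosure K ≃ₐ[K] AlgebraicClosure K) →*
        (layM W W' i b n ≃ₐ[K] layM W W' i b n),
      (∀ (σ : AlgebraicClosure K ≃ₐ[K] AlgebraicClosure K) (x : layM W W' i b n),
        ((R σ x : layM W W' i b n) : AlgebraicClosure K) = σ (x : AlgebraicClosure K)) ∧
      Function.Surjective R ∧
      ∀ σ τ : layM W W' i b n ≃ₐ[K] layM W W' i b n, σ * τ = τ * σ := by
  have := layM_finite (K := K) (W := W) (W' := W') (i := i) (b := b) n
  obtain ⟨hG, hcomm, -, hres, hlift⟩ := ab_galois (layM W W' i b n) (layM_le_ab hC hS n)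
  choose r hr using hres
  refine ⟨MonoidHom.mk' r ?_, fun σ x => hr σ x, ?_, hcomm⟩
  · intro σ τ
    apply AlgEquiv.ext
    intro x
    apply Subtype.ext
    rw [hr, AlgEquiv.mul_apply, AlgEquiv.mul_apply, hr, hr]
  · intro τ
    obtain ⟨σ, hσ⟩ := hlift τ
    refine ⟨σ, ?_⟩
    apply AlgEquiv.ext
    intro x
    apply Subtype.ext
    rw [hσ]
    exact hr σ x

private theorem lye_main (hC : Ctx K q s v α W W') (hS : ∀ n, Sq4 (W 1) (W' 1) i a b u n)
    (n : ℕ) : ∃ s d : layM W W' i b n ≃ₐ[K] layM W W' i b n,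
      (∀ σ τ : layM W W' i b n ≃ₐ[K] layM W W' i b n, σ * τ = τ * σ) ∧
      orderOf s = 2 ^ n ∧ (∃ ρ, s = ρ ^ hK K) ∧ (∃ ρ, d = ρ ^ hK K) ∧
      (∀ k l : ℕ, s ^ k * d ≠ s ^ l) ∧
      (∀ ρ : layM W W' i b n ≃ₐ[K] layM W W' i b n, ∃ k : ℕ, ρ ^ hK K = s ^ k ∨
        ρ ^ hK K = s ^ k * d) ∧
      (∀ ρ : layM W W' i b n ≃ₐ[K] layM W W' i b n, ∃ k : ℕ, (ρ ^ hK K) ^ 2 = s ^ k) := by
  obtain ⟨R, hR, hRs, hcomm⟩ := lye_res hC hS n
  obtain ⟨g, hgi, hg⟩ := exists_gen4 hC hS
  have hi2 : i ^ 2 = -1 := (hS 0).i2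
  have hi0 : i ≠ 0 := by
    rintro rfl
    rw [zero_pow two_ne_zero] at hi2
    exact one_ne_zero (neg_eq_zero.1 hi2.symm)
  obtain ⟨c, hc⟩ := exists_c hC hi2
  have hii : ∀ τ : AlgebraicClosure K ≃ₐ[K] AlgebraicClosure K, τ i = i ∨ τ i = -i := by
    intro τ
    have h1 : (τ i) ^ 2 = i ^ 2 := by rw [← map_pow, hi2, map_neg, map_one]
    exact sq_eq_sq_iff_eq_or_eq_neg.mp h1
  have hiM : i ∈ layM W W' i b n := mem_i n
  have key : ∀ τ : AlgebraicClosure K ≃ₐ[K] AlgebraicClosure K, τ i = i →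
      (∀ c, τ (W c) = W c ∧ τ (W' c) = W' c) → ∃ k : ℕ, R τ = (R (g ^ hK K)) ^ k := by
    intro τ h1 h2
    obtain ⟨k, hk⟩ := aut_eq_pow hS hgi (pow_fix hC g) hg h1 h2 n
    refine ⟨k, ?_⟩
    rw [← map_pow]
    apply AlgEquiv.ext
    intro x
    apply Subtype.ext
    rw [hR, hR]
    exact hk x x.2
  have hcinv : (c ^ hK K)⁻¹ i = -i := by
    have h1 : (c ^ hK K)⁻¹ ((c ^ hK K) i) = i := by
      rw [← AlgEquiv.mul_apply, inv_mul_cancel, AlgEquiv.one_apply]
    rw [hc, map_neg] at h1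
    rw [← h1, neg_neg]
    rw [h1]
  have hcinvW : ∀ a, (c ^ hK K)⁻¹ (W a) = W a ∧ (c ^ hK K)⁻¹ (W' a) = W' a := by
    intro a
    have h1 := pow_fix hC c a
    constructor
    · conv_lhs => rw [← h1.1]
      rw [← AlgEquiv.mul_apply, inv_mul_cancel, AlgEquiv.one_apply]
    · conv_lhs => rw [← h1.2]
      rw [← AlgEquiv.mul_apply, inv_mul_cancel, AlgEquiv.one_apply]
  refine ⟨R (g ^ hK K), R (c ^ hK K), hcomm, ?_, ⟨R g, map_pow _ _ _⟩, ⟨R c, map_pow _ _ _⟩,
    ?_, ?_, ?_⟩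
  · -- the order
    have hA : ∀ m : ℕ, (R (g ^ hK K)) ^ 2 ^ m = R ((g ^ hK K) ^ 2 ^ m) := fun m =>
      (map_pow _ _ _).symm
    have hfix : ∀ m : ℕ, ((g ^ hK K) ^ m) i = i ∧
        ∀ a, ((g ^ hK K) ^ m) (W a) = W a ∧ ((g ^ hK K) ^ m) (W' a) = W' a := by
      intro m
      induction m with
      | zero => simp
      | succ m ih =>
        rw [pow_succ]
        refine ⟨?_, fun a => ⟨?_, ?_⟩⟩
        · rw [AlgEquiv.mul_apply, hgi, ih.1]
        · rw [AlgEquiv.mul_apply, (pow_fix hC g a).1, (ih.2 a).1]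
        · rw [AlgEquiv.mul_apply, (pow_fix hC g a).2, (ih.2 a).2]
    have h1 : (R (g ^ hK K)) ^ 2 ^ n = 1 := by
      rw [hA]
      apply AlgEquiv.ext
      intro x
      apply Subtype.ext
      rw [hR, AlgEquiv.one_apply]
      exact fix_layM (hfix _).1 (hg n).2 (hfix _).2 x.2
    rcases Nat.eq_zero_or_pos n with h0 | h0
    · subst h0
      rw [pow_zero, pow_one] at h1
      rw [h1, orderOf_one, pow_zero]
    · obtain ⟨m, rfl⟩ : ∃ m, n = m + 1 := ⟨n - 1, by omega⟩
      have : Fact (Nat.Prime 2) := ⟨Nat.prime_two⟩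
      refine orderOf_eq_prime_pow ?_ h1
      intro h2
      rw [hA] at h2
      have h3 := congrArg (fun τ : layM W W' i b (m + 1) ≃ₐ[K] layM W W' i b (m + 1) =>
        ((τ ⟨b (m + 1), mem_b le_rfl⟩ : layM W W' i b (m + 1)) : AlgebraicClosure K)) h2
      rw [hR, AlgEquiv.one_apply] at h3
      rw [(hg m).1] at h3
      have hb0 : b (m + 1) ≠ 0 := (sq4_ne (hS (m + 1)) le_rfl).2.1
      apply hb0
      have h4 : (2 : AlgebraicClosure K) * b (m + 1) = 0 := by linear_combination -h3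
      exact (mul_eq_zero.mp h4).resolve_left two_ne_zero
  · -- disjoint
    intro k l h
    rw [← map_pow, ← map_pow, ← map_mul] at h
    have h3 := congrArg (fun τ : layM W W' i b n ≃ₐ[K] layM W W' i b n =>
        ((τ ⟨i, hiM⟩ : layM W W' i b n) : AlgebraicClosure K)) h
    rw [hR, hR] at h3
    have hfix : ∀ m : ℕ, ((g ^ hK K) ^ m) i = i := by
      intro m
      induction m with
      | zero => simp
      | succ m ih => rw [pow_succ, AlgEquiv.mul_apply, hgi, ih]
    rw [AlgEquiv.mul_apply, hc, map_neg, hfix, hfix] at h3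
    apply hi0
    have h4 : (2 : AlgebraicClosure K) * i = 0 := by linear_combination -h3
    exact (mul_eq_zero.mp h4).resolve_left two_ne_zero
  · -- all powers
    intro ρ
    obtain ⟨τ, rfl⟩ := hRs ρ
    rw [← map_pow]
    rcases hii (τ ^ hK K) with h | h
    · obtain ⟨k, hk⟩ := key _ h (pow_fix hC τ)
      exact ⟨k, Or.inl hk⟩
    · obtain ⟨k, hk⟩ := key (τ ^ hK K * (c ^ hK K)⁻¹) (by
        rw [AlgEquiv.mul_apply, hcinv, map_neg, h, neg_neg]) (fun a => ⟨by
        rw [AlgEquiv.mul_apply, (hcinvW a).1, (pow_fix hC τ a).1], by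
        rw [AlgEquiv.mul_apply, (hcinvW a).2, (pow_fix hC τ a).2]⟩)
      refine ⟨k, Or.inr ?_⟩
      rw [← hk, ← map_mul, inv_mul_cancel_right]
  · -- squares
    intro ρ
    obtain ⟨τ, rfl⟩ := hRs ρ
    rw [← map_pow, ← map_pow]
    refine key _ ?_ ?_
    · rcases hii (τ ^ hK K) with h | h
      · rw [pow_two, AlgEquiv.mul_apply, h, h]
      · rw [pow_two, AlgEquiv.mul_apply, h, map_neg, h, neg_neg]
    · intro a
      rw [pow_two, AlgEquiv.mul_apply, AlgEquiv.mul_apply, (pow_fix hC τ a).1,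
        (pow_fix hC τ a).1, (pow_fix hC τ a).2, (pow_fix hC τ a).2]
      exact ⟨rfl, rfl⟩

theorem card_pow (hC : Ctx K q s v α W W') (hS : ∀ n, Sq4 (W 1) (W' 1) i a b u n) (n : ℕ) :
    Nat.card {τ : layM W W' i b n ≃ₐ[K] layM W W' i b n //
      ∃ ρ : layM W W' i b n ≃ₐ[K] layM W W' i b n, τ = ρ ^ hK K} = 2 ^ (n + 1) := by
  obtain ⟨s, d, hcomm, hord, ⟨σ, hσ⟩, ⟨δ, hδ⟩, hne, hall, -⟩ := lye_main hC hS n
  have hpow : ∀ (k : ℕ) (e : Bool), ∃ ρ, s ^ k * (if e then d else 1) = ρ ^ hK K := by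
    intro k e
    cases e with
    | false =>
      refine ⟨σ ^ k, ?_⟩
      simp only [Bool.false_eq_true, if_false, mul_one]
      rw [hσ, ← pow_mul, ← pow_mul, mul_comm]
    | true =>
      refine ⟨σ ^ k * δ, ?_⟩
      simp only [if_true]
      have hc : Commute (σ ^ k) δ := hcomm _ _
      rw [hc.mul_pow, hσ, hδ, ← pow_mul, ← pow_mul, mul_comm k]
  have hbij : Function.Bijective (fun t : Bool × Fin (2 ^ n) =>
      (⟨s ^ (t.2 : ℕ) * (if t.1 then d else 1), hpow t.2 t.1⟩ :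
        {τ : layM W W' i b n ≃ₐ[K] layM W W' i b n //
          ∃ ρ : layM W W' i b n ≃ₐ[K] layM W W' i b n, τ = ρ ^ hK K})) := by
    constructor
    · rintro ⟨e, k⟩ ⟨e', l⟩ h
      have h1 : s ^ (k : ℕ) * (if e then d else 1) = s ^ (l : ℕ) * (if e' then d else 1) :=
        congrArg Subtype.val h
      have hinj : ∀ h2 : s ^ (k : ℕ) = s ^ (l : ℕ), k = l := by
        intro h2
        apply Fin.ext
        refine pow_injOn_Iio_orderOf ?_ ?_ h2
        · rw [hord]
          exact k.2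
        · rw [hord]
          exact l.2
      cases e with
      | false =>
        cases e' with
        | false =>
          simp only [Bool.false_eq_true, if_false, mul_one] at h1
          rw [hinj h1]
        | true =>
          simp only [Bool.false_eq_true, if_false, mul_one, if_true] at h1
          exact absurd h1.symm (hne _ _)
      | true =>
        cases e' with
        | false =>
          simp only [Bool.false_eq_true, if_false, mul_one, if_true] at h1
          exact absurd h1 (hne _ _)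
        | true =>
          simp only [if_true] at h1
          rw [hinj (mul_right_cancel h1)]
    · rintro ⟨τ, ρ, rfl⟩
      obtain ⟨k, hk | hk⟩ := hall ρ
      · refine ⟨(false, ⟨k % 2 ^ n, Nat.mod_lt _ (by positivity)⟩), ?_⟩
        apply Subtype.ext
        simp only [Bool.false_eq_true, if_false, mul_one]
        rw [hk, ← hord, pow_mod_orderOf]
      · refine ⟨(true, ⟨k % 2 ^ n, Nat.mod_lt _ (by positivity)⟩), ?_⟩
        apply Subtype.ext
        simp only [if_true]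
        rw [hk, ← hord, pow_mod_orderOf]
  rw [← Nat.card_eq_of_bijective _ hbij, Nat.card_prod, Nat.card_eq_fintype_card,
    Fintype.card_bool, Nat.card_fin, pow_succ, mul_comm]

theorem pow_pow_eq_one (hC : Ctx K q s v α W W') (hS : ∀ n, Sq4 (W 1) (W' 1) i a b u n) (n : ℕ)
    (ρ : layM W W' i b n ≃ₐ[K] layM W W' i b n) : (ρ ^ hK K) ^ 2 ^ (n + 1) = 1 := by
  obtain ⟨s, d, -, hord, -, -, -, -, hsq⟩ := lye_main hC hS n
  obtain ⟨k, hk⟩ := hsq ρ
  rw [pow_succ', pow_mul, hk, ← pow_mul, mul_comm k, pow_mul, ← hord, pow_orderOf_eq_one, one_pow]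

end Pool.Agent.Work.MP_787500_nt.HC
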