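import Mathlib
import Pool.Agent.Work.MP_787500_nt.HC.Basic
import Pool.Agent.Work.MP_787500_nt.HC.LyA
import Pool.Agent.Work.MP_787500_nt.HC.LyB
import Pool.Agent.Work.MP_787500_nt.HC.LyE

/-!
# Module LYF: the degree of `layF n`

`M = layM n`, `G = Gal(M/K)` finite abelian (`ab_galois`), `C = {g | g^h = 1}`, a subgroup. The homomorphism
`g ↦ g^h` has kernel `C` and image of cardinality `2^(n+1)` (`card_pow`), so `|G| = |C| 2^(n+1)`. Let `F'` be the
fixed field of `C` in `M`: `finrank F' M = |C|` (`IntermediateField.finrank_fixedField_eq_card`) and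
`finrank K M = |G|` (`IsGalois.card_aut_eq_finrank`), so `finrank K F' = 2^(n+1)`. Finally
`layF n = IntermediateField.lift F'` (elements `x ∈ M` fixed by all `g ∈ C`; the `g ∈ C` are the restrictions
of the `τ` with `τ^h = 1` on `M`, `ab_galois`), and `IntermediateField.lift` preserves the degree
(`IntermediateField.liftAlgEquiv` or so).
-/

set_option autoImplicit false

namespace Pool.Agent.Work.MP_787500_nt.HC

open WithZero IsDedekindDomain NumberField
open scoped Pointwise nonZeroDivisors

universe u

variable {K : Type u} [Field K] [NumberField K] {q : ℕ} {s : K} {v : HeightOneSpectrum (𝓞 K)}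
variable {α : Kˣ} {W W' : ClassGroup (𝓞 K) → AlgebraicClosure K} {i : AlgebraicClosure K}
variable {a b u : ℕ → AlgebraicClosure K}


theorem finrank_layF (hC : Ctx K q s v α W W') (hS : ∀ n, Sq4 (W 1) (W' 1) i a b u n) (n : ℕ) :
    Module.finrank K (layF W W' i b n) = 2 ^ (n + 1) := by
  have hfin := layM_finite (K := K) (W := W) (W' := W') (i := i) (b := b) n
  obtain ⟨hG, hcomm, -, hres, hlift⟩ := ab_galois (layM W W' i b n) (layM_le_ab hC hS n)
  obtain ⟨φ, hφ⟩ : ∃ φ : (layM W W' i b n ≃ₐ[K] layM W W' i b n) →*
      (layM W W' i b n ≃ₐ[K] layM W W' i b n), ∀ g, φ g = g ^ hK K :=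
    ⟨MonoidHom.mk' (fun g => g ^ hK K) (fun x y => (show Commute x y from hcomm x y).mul_pow _),
      fun _ => rfl⟩
  have hcardR : Nat.card φ.range = 2 ^ (n + 1) := by
    rw [← card_pow hC hS n]
    refine Nat.card_congr (Equiv.subtypeEquivRight fun τ => ?_)
    rw [MonoidHom.mem_range]
    constructor
    · rintro ⟨ρ, hρ⟩
      exact ⟨ρ, by rw [← hρ, hφ]⟩
    · rintro ⟨ρ, hρ⟩
      exact ⟨ρ, by rw [hρ, hφ]⟩
  have hcard : Nat.card φ.ker * 2 ^ (n + 1) =
      Nat.card (layM W W' i b n ≃ₐ[K] layM W W' i b n) := by
    rw [← hcardR, ← Subgroup.index_ker, Subgroup.card_mul_index]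
  have hfix : Module.finrank (IntermediateField.fixedField φ.ker) (layM W W' i b n) =
      Nat.card φ.ker := IntermediateField.finrank_fixedField_eq_card _
  have htot : Nat.card (layM W W' i b n ≃ₐ[K] layM W W' i b n) =
      Module.finrank K (layM W W' i b n) := IsGalois.card_aut_eq_finrank K _
  have hmul : Module.finrank K (IntermediateField.fixedField φ.ker) *
      Module.finrank (IntermediateField.fixedField φ.ker) (layM W W' i b n) =
      Module.finrank K (layM W W' i b n) := Module.finrank_mul_finrank _ _ _
  have hpos : 0 < Nat.card φ.ker := by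
    rw [← hfix]
    exact Module.finrank_pos
  have h1 : Module.finrank K (IntermediateField.fixedField φ.ker) = 2 ^ (n + 1) := by
    rw [← htot, ← hcard, hfix, mul_comm] at hmul
    exact Nat.eq_of_mul_eq_mul_left hpos hmul
  have h2 : layF W W' i b n =
      IntermediateField.lift (IntermediateField.fixedField φ.ker) := by
    ext x
    constructor
    · intro hx
      rw [mem_layF] at hx
      obtain ⟨hxM, hx2⟩ := hx
      have h3 := IntermediateField.mem_lift (E := IntermediateField.fixedField φ.ker)
        (⟨x, hxM⟩ : layM W W' i b n)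
      rw [show ((⟨x, hxM⟩ : layM W W' i b n)).1 = x from rfl] at h3
      rw [h3, IntermediateField.mem_fixedField_iff]
      intro g hg
      obtain ⟨τ, hτ⟩ := hlift g
      apply Subtype.ext
      rw [hτ]
      refine hx2 τ ?_
      intro y hy
      rw [MonoidHom.mem_ker, hφ] at hg
      have h4 : ∀ (k : ℕ) (z : layM W W' i b n),
          (((g ^ k) z : layM W W' i b n) : AlgebraicClosure K) = (τ ^ k) z := by
        intro k
        induction k with
        | zero => intro z; simp
        | succ k ih => intro z; rw [pow_succ, pow_succ, AlgEquiv.mul_apply, AlgEquiv.mul_apply,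
            ih, hτ]
      have h5 := h4 (hK K) ⟨y, hy⟩
      rw [hg, AlgEquiv.one_apply] at h5
      exact h5.symm
    · intro hx
      have hxM : x ∈ layM W W' i b n := IntermediateField.lift_le _ hx
      have h3 := IntermediateField.mem_lift (E := IntermediateField.fixedField φ.ker)
        (⟨x, hxM⟩ : layM W W' i b n)
      rw [show ((⟨x, hxM⟩ : layM W W' i b n)).1 = x from rfl] at h3
      rw [h3, IntermediateField.mem_fixedField_iff] at hx
      rw [mem_layF]
      refine ⟨hxM, ?_⟩
      intro τ hτ
      obtain ⟨g, hg⟩ := hres τ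
      have h4 : ∀ (k : ℕ) (z : layM W W' i b n),
          (((g ^ k) z : layM W W' i b n) : AlgebraicClosure K) = (τ ^ k) z := by
        intro k
        induction k with
        | zero => intro z; simp
        | succ k ih => intro z; rw [pow_succ, pow_succ, AlgEquiv.mul_apply, AlgEquiv.mul_apply,
            ih, hg]
      have h5 : g ∈ φ.ker := by
        rw [MonoidHom.mem_ker, hφ]
        apply AlgEquiv.ext
        intro z
        apply Subtype.ext
        rw [h4, AlgEquiv.one_apply]
        exact hτ z z.2
      have h6 := congrArg Subtype.val (hx g h5)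
      rw [hg] at h6
      exact h6
  rw [h2, ← h1]
  exact ((IntermediateField.liftAlgEquiv
    (IntermediateField.fixedField φ.ker)).toLinearEquiv.finrank_eq).symm

end Pool.Agent.Work.MP_787500_nt.HC
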