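import Mathlib
import Pool.Agent.Work.MP_787500_nt.HC.Basic

/-!
# Module ARC: the valuations of a generator of a power of a prime ideal

`prin α = pr v ^ h`: the fractional ideal `(α)` is the image of the ideal `v.asIdeal ^ h`, so `α` is integral,
`α = algebraMap a`, `Ideal.span {a} = v.asIdeal ^ h` (`FractionalIdeal.coeIdeal_pow`,
`coeIdeal_span_singleton`, `coeIdeal_inj`, `coe_toPrincipalIdeal`). `v.intValuation a = exp (-h)`
(`a ∈ v^h`, `a ∉ v^(h+1)`: `intValuation_le_pow_iff_mem`), and for `w ≠ v`, `a ∉ w.asIdeal` (otherwise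
`v.asIdeal ^ h ≤ w.asIdeal`, `v.asIdeal ≤ w.asIdeal`, equal by maximality; `h = 0` is trivial), so the valuation is 1.
-/

set_option autoImplicit false

namespace Pool.Agent.Work.MP_787500_nt.HC

open WithZero IsDedekindDomain NumberField
open scoped Pointwise nonZeroDivisors

universe u

variable {K : Type*} [Field K] [NumberField K]

theorem val_alpha {v : HeightOneSpectrum (𝓞 K)} {α : Kˣ} {h : ℕ} (hα : prin α = pr v ^ h) :
    v.valuation K (α : K) = exp (-(h : ℤ)) ∧
      ∀ w : HeightOneSpectrum (𝓞 K), w ≠ v → w.valuation K (α : K) = 1 := by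
  have h1 : FractionalIdeal.spanSingleton (𝓞 K)⁰ (α : K) =
      ((v.asIdeal ^ h : Ideal (𝓞 K)) : FractionalIdeal (𝓞 K)⁰ K) := by
    have h2 := congrArg (fun I : Idl K => (I : FractionalIdeal (𝓞 K)⁰ K)) hα
    simp only [prin, pr, coe_toPrincipalIdeal, Units.val_pow_eq_pow_val, Units.val_mk0] at h2
    rw [h2, FractionalIdeal.coeIdeal_pow]
  obtain ⟨a, ha⟩ : ∃ a : 𝓞 K, algebraMap (𝓞 K) K a = (α : K) := by
    have h2 : (α : K) ∈ ((v.asIdeal ^ h : Ideal (𝓞 K)) : FractionalIdeal (𝓞 K)⁰ K) := by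
      rw [← h1]
      exact FractionalIdeal.mem_spanSingleton_self _ _
    obtain ⟨a, -, ha⟩ := (FractionalIdeal.mem_coeIdeal _).1 h2
    exact ⟨a, ha⟩
  have h3 : Ideal.span {a} = v.asIdeal ^ h := by
    rw [← ha, ← FractionalIdeal.coeIdeal_span_singleton] at h1
    exact FractionalIdeal.coeIdeal_inj.1 h1
  have hmem : a ∈ v.asIdeal ^ h := by
    rw [← h3]
    exact Ideal.mem_span_singleton_self a
  constructor
  · rw [← ha, HeightOneSpectrum.valuation_of_algebraMap]
    have h4 : v.intValuation a ≤ exp (-(h : ℤ)) :=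
      (v.intValuation_le_pow_iff_mem a h).2 hmem
    have h5 : ¬ v.intValuation a ≤ exp (-((h + 1 : ℕ) : ℤ)) := by
      rw [v.intValuation_le_pow_iff_mem]
      intro hcon
      have h6 : v.asIdeal ^ h ≤ v.asIdeal ^ (h + 1) := by
        calc v.asIdeal ^ h = Ideal.span {a} := h3.symm
          _ ≤ v.asIdeal ^ (h + 1) := (Ideal.span_singleton_le_iff_mem _).2 hcon
      have := v.isPrime
      exact absurd h6 (not_le_of_gt (Ideal.pow_succ_lt_pow v.ne_bot h))
    refine le_antisymm h4 ?_
    have hne : v.intValuation a ≠ 0 := by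
      intro h0
      apply h5
      rw [h0]
      exact zero_le
    obtain ⟨m, hm⟩ : ∃ m : ℤ, v.intValuation a = exp m := ⟨_, (exp_log hne).symm⟩
    rw [hm] at h5 ⊢
    rw [exp_le_exp] at h5 ⊢
    push_cast at h5
    omega
  · intro w hw
    rw [← ha, HeightOneSpectrum.valuation_eq_one_iff_notMem]
    intro haw
    apply hw
    have h4 : v.asIdeal ^ h ≤ w.asIdeal := by
      rw [← h3, Ideal.span_singleton_le_iff_mem]
      exact haw
    have := w.isPrime
    have h5 : v.asIdeal ≤ w.asIdeal := fun x hx =>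
      this.mem_of_pow_mem h (h4 (Ideal.pow_mem_pow hx h))
    have h6 := v.isMaximal.eq_of_le w.isPrime.ne_top h5
    exact (HeightOneSpectrum.ext h6).symm

end Pool.Agent.Work.MP_787500_nt.HC
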