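import Mathlib
import Pool.Agent.Work.MP_787500_nt.HC.Basic
import Pool.Agent.Work.MP_787500_nt.HC.ArB
import Pool.Agent.Work.MP_787500_nt.HC.ArC
import Pool.Agent.Work.MP_787500_nt.HC.LatE

/-!
# Module ARD: `2 ^ h / α` is not congruent to 1 or -1 modulo 8

Let `γ = 2^h / α`, `h = hK K` odd (`odd_hK`), `ε = ±1`, and suppose `v (γ - ε) ≤ exp (-3)`. With `y = ε γ`:
`v (y - 1) ≤ exp (-3)`.
* `LocSq (v.valuation K) y`: for every `n ≥ 3` there is `r` with `v (r - 1) < 1`, `v (y - r^2) ≤ exp (-n)`, by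
  induction: `r = 1`; `r' = r + (y - r^2)/(2 r)`, `y - r'^2 = -((y - r^2)/(2 r))^2`, of valuation
  `≤ exp (-2 (n - 1)) ≤ exp (-(n+1))` (`v 2 = exp (-1)`, `v r = 1`). (`Quad.dyadic`; every nonzero element of
  `ℤᵐ⁰` is `exp m`.)
* `EvenOff2 y`: at a place `w` with `2 ∉ w`: `v(2) = 1`, and `w ≠ v`, so `w α = 1` (`val_alpha`), `w y = 1`.
* `Quad.propP`: `y` is a square in `K`. At the other place `v'` above 2 (`exists_places` gives two different
  places above 2, one of them is not `v`): `v' y = v' (2)^h = exp (-h)` (`Quad.dyadic`, `val_alpha`), and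
  a square has even exponent (`isSquare_exp_iff` in H10_Even): contradiction with `h` odd.
-/

set_option autoImplicit false

namespace Pool.Agent.Work.MP_787500_nt.HC

open WithZero IsDedekindDomain NumberField
open scoped Pointwise nonZeroDivisors

universe u

variable {K : Type*} [Field K] [NumberField K] {q : ℕ} {s : K}

private theorem arD_locSq {v : Valuation K ℤᵐ⁰} (h2 : v 2 = exp (-1)) {y : K}
    (hy : v (y - 1) ≤ exp (-3)) : LocSq v y := by
  have hK2 : (2 : K) ≠ 0 := two_ne_zero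
  have key : ∀ n : ℕ, 3 ≤ n → ∃ r : K, v (r - 1) < 1 ∧ v (y - r ^ 2) ≤ exp (-(n : ℤ)) := by
    intro n hn
    induction n, hn using Nat.le_induction with
    | base =>
      refine ⟨1, ?_, ?_⟩
      · rw [sub_self, map_zero]
        exact zero_lt_one
      · rw [one_pow]
        exact hy
    | succ n hn ih =>
      obtain ⟨r, hr1, hr2⟩ := ih
      have hvr : v r = 1 := by
        have h3 : r = 1 + (r - 1) := by ring
        rw [h3, Valuation.map_add_eq_of_lt_left _ (by rwa [map_one]), map_one]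
      have hr0 : r ≠ 0 := by
        rintro rfl
        rw [map_zero] at hvr
        exact zero_ne_one hvr
      set t : K := (y - r ^ 2) / (2 * r) with ht
      have hvt : v t ≤ exp (-(n : ℤ) + 1) := by
        rw [ht, map_div₀, map_mul, h2, hvr, mul_one, div_le_iff₀ (exp_pos), ← exp_add]
        refine hr2.trans (exp_le_exp.2 ?_)
        omega
      refine ⟨r + t, ?_, ?_⟩
      · have h3 : r + t - 1 = (r - 1) + t := by ring
        rw [h3]
        refine lt_of_le_of_lt (v.map_add _ _) (max_lt hr1 (lt_of_le_of_lt hvt ?_))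
        rw [← exp_zero, exp_lt_exp]
        omega
      · have h3 : y - (r + t) ^ 2 = -(t ^ 2) := by
          have h4 : y - r ^ 2 = t * (2 * r) := by
            rw [ht, div_mul_cancel₀]
            exact mul_ne_zero hK2 hr0
          linear_combination h4
        rw [h3, Valuation.map_neg, map_pow]
        calc v t ^ 2 ≤ exp (-(n : ℤ) + 1) ^ 2 := pow_le_pow_left' hvt 2
          _ = exp ((-(n : ℤ) + 1) + (-(n : ℤ) + 1)) := by rw [pow_two, ← exp_add]
          _ ≤ exp (-((n + 1 : ℕ) : ℤ)) := exp_le_exp.2 (by push_cast; omega)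
  intro γ hγ
  obtain ⟨m, rfl⟩ : ∃ m : ℤ, γ = exp m := ⟨_, (exp_log hγ).symm⟩
  obtain ⟨r, -, hr⟩ := key (3 + m.natAbs + 1) (by omega)
  refine ⟨r, lt_of_le_of_lt hr (exp_lt_exp.2 ?_)⟩
  push_cast
  have := neg_abs_le m
  omega

private theorem arD_main (hb : IsBase K q s) {v : HeightOneSpectrum (𝓞 K)}
    (hv : (2 : 𝓞 K) ∈ v.asIdeal) {α : Kˣ} (hα : prin α = pr v ^ hK K) {e : K}
    (he : e = 1 ∨ e = -1) : ¬ v.valuation K (2 ^ hK K / (α : K) - e) ≤ exp (-3) := by
  intro hcon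
  have hodd := odd_hK hb
  obtain ⟨hK2, hs, hq, hq16⟩ := hb
  obtain ⟨hα1, hα2⟩ := val_alpha hα
  obtain ⟨hres, h2v⟩ := Quad.dyadic hK2 hs hq (by omega) hv
  have he2 : e * e = 1 := by
    rcases he with h | h <;> rw [h] <;> ring
  have hve : ∀ w : HeightOneSpectrum (𝓞 K), w.valuation K e = 1 := by
    intro w
    rcases he with h | h
    · rw [h, map_one]
    · rw [h, Valuation.map_neg, map_one]
  set y : K := e * (2 ^ hK K / (α : K)) with hy
  have hα0 : (α : K) ≠ 0 := α.ne_zero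
  have he0 : e ≠ 0 := by
    rintro rfl
    rw [zero_mul] at he2
    exact zero_ne_one he2
  have hy0 : y ≠ 0 := mul_ne_zero he0 (div_ne_zero (pow_ne_zero _ two_ne_zero) hα0)
  have hy1 : v.valuation K (y - 1) ≤ exp (-3) := by
    have h1 : y - 1 = e * (2 ^ hK K / (α : K) - e) := by
      rw [hy, mul_sub, he2]
    rw [h1, map_mul, hve, one_mul]
    exact hcon
  have hloc : LocSq (v.valuation K) y := arD_locSq h2v hy1
  have hev : EvenOff2 y := by
    intro w hw
    have hwv : w ≠ v := fun h => hw (by rw [h]; exact hv)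
    have hw2 : w.valuation K (2 : K) = 1 := by
      have h1 := (HeightOneSpectrum.valuation_eq_one_iff_notMem (K := K) w (r := (2 : 𝓞 K))).2 hw
      rwa [map_ofNat] at h1
    rw [hy, map_mul, hve, map_div₀, map_pow, hw2, hα2 w hwv, one_pow, div_one, mul_one]
    exact IsSquare.one
  have hsq : IsSquare y := Quad.propP hK2 hs hq hq16 v hv y hy0 hev hloc
  obtain ⟨v1, v2, hne, h21, h22, -⟩ := exists_places (K := K) ⟨hK2, hs, hq, hq16⟩
  obtain ⟨v', hv'v, hv'2⟩ : ∃ v' : HeightOneSpectrum (𝓞 K), v' ≠ v ∧ (2 : 𝓞 K) ∈ v'.asIdeal := by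
    by_cases h : v1 = v
    · exact ⟨v2, fun h' => hne (h.trans h'.symm), h22⟩
    · exact ⟨v1, h, h21⟩
  have h2v' := (Quad.dyadic hK2 hs hq (by omega) hv'2).2
  have h1 : v'.valuation K y = exp (-(hK K : ℤ)) := by
    rw [hy, map_mul, hve, map_div₀, map_pow, h2v', hα2 v' hv'v, div_one, one_mul, ← exp_nsmul]
    congr 1
    simp
  obtain ⟨t, ht⟩ := hsq
  have h3 : IsSquare (exp (-(hK K : ℤ)) : ℤᵐ⁰) := ⟨v'.valuation K t, by rw [← h1, ht, map_mul]⟩
  rw [isSquare_exp_iff, even_neg] at h3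
  have h4 : Even (hK K) := by exact_mod_cast h3
  exact (Nat.not_even_iff_odd.2 hodd) h4

theorem gamma_not (hb : IsBase K q s) {v : HeightOneSpectrum (𝓞 K)}
    (hv : (2 : 𝓞 K) ∈ v.asIdeal) {α : Kˣ} (hα : prin α = pr v ^ hK K) :
    ¬ v.valuation K (2 ^ hK K / (α : K) - 1) ≤ exp (-3) ∧
      ¬ v.valuation K (2 ^ hK K / (α : K) + 1) ≤ exp (-3) := by
  refine ⟨arD_main hb hv hα (Or.inl rfl), ?_⟩
  have h1 := arD_main hb hv hα (e := -1) (Or.inr rfl)
  rwa [sub_neg_eq_add] at h1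

end Pool.Agent.Work.MP_787500_nt.HC
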