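import Mathlib
import Pool.Agent.Work.MP_787500_nt.HC.Basic
import Pool.Agent.Work.MP_787500_nt.HC.ArC
import Pool.Agent.Work.MP_787500_nt.HC.ArD
import Pool.Agent.Work.MP_787500_nt.H10_Tower

/-!
# Module ARE: the dyadic valuation of an extension

`exists_above`: `Q` with `below K Q = v` (H10_Tower); `2 ∈ Q` (`two_mem_below`).
`exists_valuation_below` (H10_Val): `e ≠ 0` with `v(x)^e = Q(x)` for all `x ∈ K`. So comparisons between values of
elements of `K` are the same for `v` and `Q`. `two`, `al`: `v 2 < 1`, `v α = exp (-h) < 1` (`val_alpha`; the class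
number `hK K = Nat.card _` is positive). `res`: `v x ≤ 1`, if `v x = 1` then `v (x - 1) < 1` (`Quad.sub_one_lt` with
`Quad.dyadic`). `unif`: `v x < 1` implies `v x ≤ exp (-1) = v 2` (`le_exp_of_lt`). `g1`, `g2`: `v 8 = exp (-3)`,
`gamma_not`.
-/

set_option autoImplicit false

namespace Pool.Agent.Work.MP_787500_nt.HC

open WithZero IsDedekindDomain NumberField
open scoped Pointwise nonZeroDivisors

universe u

variable {K : Type*} [Field K] [NumberField K] {q : ℕ} {s : K}

theorem exists_dya (hb : IsBase K q s) {v : HeightOneSpectrum (𝓞 K)}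
    (hv : (2 : 𝓞 K) ∈ v.asIdeal) {α : Kˣ} (hα : prin α = pr v ^ hK K) (F : Type*) [Field F]
    [NumberField F] [Algebra K F] : ∃ Q : HeightOneSpectrum (𝓞 F), (2 : 𝓞 F) ∈ Q.asIdeal ∧
      Dya K (Q.valuation F) (hK K) (α : K) := by
  obtain ⟨hg1, hg2⟩ := gamma_not hb hv hα
  obtain ⟨hK2, hs, hq, hq16⟩ := hb
  obtain ⟨hα1, -⟩ := val_alpha hα
  obtain ⟨hres, h2v⟩ := Quad.dyadic hK2 hs hq (by omega) hv
  obtain ⟨Q, hQ⟩ := exists_above (L := F) v
  obtain ⟨e, he, hval⟩ := exists_valuation_below (K := K) Q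
  rw [hQ] at hval
  have hlt : ∀ x y : K, Q.valuation F (algebraMap K F x) < Q.valuation F (algebraMap K F y) ↔
      v.valuation K x < v.valuation K y := by
    intro x y
    rw [← hval, ← hval]
    exact pow_lt_pow_iff_left₀ zero_le zero_le he
  have hle : ∀ x y : K, Q.valuation F (algebraMap K F x) ≤ Q.valuation F (algebraMap K F y) ↔
      v.valuation K x ≤ v.valuation K y := by
    intro x y
    rw [← hval, ← hval]
    exact pow_le_pow_iff_left₀ zero_le zero_le he
  have hlt1 : ∀ x : K, Q.valuation F (algebraMap K F x) < 1 ↔ v.valuation K x < 1 := by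
    intro x
    have := hlt x 1
    rwa [map_one, map_one, map_one] at this
  have hle1 : ∀ x : K, Q.valuation F (algebraMap K F x) ≤ 1 ↔ v.valuation K x ≤ 1 := by
    intro x
    have := hle x 1
    rwa [map_one, map_one, map_one] at this
  have hexp1 : (exp (-1) : ℤᵐ⁰) < 1 := by
    rw [← exp_zero, exp_lt_exp]
    omega
  have h2map : algebraMap K F 2 = 2 := map_ofNat _ 2
  have hpos : 0 < hK K := Nat.card_pos
  have hv8 : v.valuation K (8 : K) = exp (-3) := by
    have : (8 : K) = 2 ^ 3 := by norm_num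
    rw [this, map_pow, h2v, ← exp_nsmul]
    congr 1
  refine ⟨Q, ?_, ?_, ?_, ?_, ?_, ?_, ?_⟩
  · rw [← two_mem_below (K := K) Q, hQ]
    exact hv
  · rw [← h2map, hlt1, h2v]
    exact hexp1
  · rw [hlt1, hα1, ← exp_zero, exp_lt_exp]
    omega
  · intro x hx
    rw [hle1] at hx
    rcases lt_or_eq_of_le hx with h | h
    · exact Or.inl ((hlt1 x).2 h)
    · right
      have h1 := Quad.sub_one_lt hres h
      rw [← hlt1, map_sub, map_one] at h1
      exact h1
  · intro x hx
    rw [hlt1] at hx
    rw [← h2map, hle, h2v]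
    exact le_exp_of_lt (n := 0) (by rwa [exp_zero])
  · intro hcon
    apply hg1
    rw [← hv8, ← hle]
    rw [map_sub, map_one, map_ofNat]
    exact hcon
  · intro hcon
    apply hg2
    rw [← hv8, ← hle]
    rw [map_add, map_one, map_ofNat]
    exact hcon

end Pool.Agent.Work.MP_787500_nt.HC
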