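import Mathlib
import Pool.Agent.Work.MP_787500_nt.HC.Basic

/-!
# Module LYG: traces and odd order (abstract)

`C` is the set of the automorphisms `g` with `g^h = 1`, `h` odd; a subgroup since the group is abelian.
* `odd_card`: if 2 divided the order of this subgroup it would contain an element of order 2 (Cauchy,
  `exists_prime_orderOf_dvd_card`), but `g^h = 1` with `h` odd.
* `trace_mem`: `y = ∑ g ∈ C, g x` is fixed by all `τ`: choose integers (naturals) with `A h = 1 + B 2^e` or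
  `A h + B 2^e = 1` (coprime). `τ = (τ^h)^A (τ^(2^e))^B`; `τ^h` commutes with all `g` and fixes `x`, so it fixes `y`;
  `(τ^(2^e))^h = (τ^h)^(2^e) = 1`, so `τ^(2^e) ∈ C` permutes the terms. So `y ∈ K` (`IsGalois`,
  `IsGalois.mem_bot_iff_fixed` or so).
-/

set_option autoImplicit false

namespace Pool.Agent.Work.MP_787500_nt.HC

open scoped Pointwise nonZeroDivisors

universe u

variable {K M : Type*} [Field K] [Field M] [Algebra K M] [FiniteDimensional K M]

private def powSub {G : Type*} [Group G] (h : ℕ) (hcomm : ∀ σ τ : G, σ * τ = τ * σ) :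
    Subgroup G where
  carrier := {g | g ^ h = 1}
  mul_mem' := by
    intro a b ha hb
    have ha' : a ^ h = 1 := ha
    have hb' : b ^ h = 1 := hb
    show (a * b) ^ h = 1
    rw [Commute.mul_pow (hcomm a b), ha', hb', one_mul]
  one_mem' := one_pow h
  inv_mem' := by
    intro a ha
    have ha' : a ^ h = 1 := ha
    show a⁻¹ ^ h = 1
    rw [inv_pow, ha', inv_one]

theorem odd_card {h : ℕ} (hh : Odd h) (hcomm : ∀ σ τ : M ≃ₐ[K] M, σ * τ = τ * σ)
    (C : Finset (M ≃ₐ[K] M)) (hC : ∀ g, g ∈ C ↔ g ^ h = 1) : Odd C.card := by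
  have hcard : Nat.card (powSub h hcomm) = C.card := Nat.subtype_card C hC
  rw [← Nat.not_even_iff_odd, even_iff_two_dvd, ← hcard]
  intro h2
  have hp : Fact (Nat.Prime 2) := ⟨Nat.prime_two⟩
  obtain ⟨x, hx⟩ := exists_prime_orderOf_dvd_card' 2 h2
  have h3 : x ^ h = 1 := Subtype.ext x.2
  have h4 := orderOf_dvd_of_pow_eq_one h3
  rw [hx] at h4
  exact (Nat.not_even_iff_odd.2 hh) (even_iff_two_dvd.2 h4)

theorem trace_mem [IsGalois K M] {h : ℕ} (hh : Odd h)
    (hcomm : ∀ σ τ : M ≃ₐ[K] M, σ * τ = τ * σ) {e : ℕ}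
    (he : ∀ τ : M ≃ₐ[K] M, (τ ^ h) ^ 2 ^ e = 1) (C : Finset (M ≃ₐ[K] M))
    (hC : ∀ g, g ∈ C ↔ g ^ h = 1) {x : M} (hx : ∀ τ : M ≃ₐ[K] M, (τ ^ h) x = x) :
    ∃ T : K, algebraMap K M T = ∑ g ∈ C, g x := by
  have hfix : ∀ τ : M ≃ₐ[K] M, τ (∑ g ∈ C, g x) = ∑ g ∈ C, g x := by
    intro τ
    have h1 : τ ^ h ∈ MulAction.stabilizer (M ≃ₐ[K] M) (∑ g ∈ C, g x) := by
      rw [MulAction.mem_stabilizer_iff, AlgEquiv.smul_def, map_sum]
      refine Finset.sum_congr rfl fun g _ => ?_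
      have h2 : (τ ^ h) (g x) = ((τ ^ h) * g) x := rfl
      rw [h2, hcomm]
      show g ((τ ^ h) x) = g x
      rw [hx]
    have h2 : τ ^ 2 ^ e ∈ MulAction.stabilizer (M ≃ₐ[K] M) (∑ g ∈ C, g x) := by
      have h3 : (τ ^ 2 ^ e) ^ h = 1 := by
        rw [← pow_mul, mul_comm, pow_mul]
        exact he τ
      rw [MulAction.mem_stabilizer_iff, AlgEquiv.smul_def, map_sum]
      refine Finset.sum_bij (fun g _ => (τ ^ 2 ^ e) * g) ?_ ?_ ?_ ?_
      · intro g hg
        rw [hC] at hg ⊢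
        rw [Commute.mul_pow (hcomm _ _), h3, hg, one_mul]
      · intro a _ b _ hab
        exact mul_left_cancel hab
      · intro g hg
        refine ⟨(τ ^ 2 ^ e)⁻¹ * g, ?_, mul_inv_cancel_left _ _⟩
        rw [hC] at hg ⊢
        rw [Commute.mul_pow (hcomm _ _), inv_pow, h3, hg, inv_one, one_mul]
      · intro g _
        rfl
    have hco : IsCoprime (h : ℤ) ((2 ^ e : ℕ) : ℤ) := by
      rw [Nat.isCoprime_iff_coprime]
      exact Nat.Coprime.pow_right e (Nat.coprime_two_right.2 hh)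
    obtain ⟨A, B, hAB⟩ := hco
    have h3 : τ = (τ ^ h) ^ A * (τ ^ 2 ^ e) ^ B := by
      rw [← zpow_natCast τ h, ← zpow_natCast τ (2 ^ e), ← zpow_mul, ← zpow_mul, ← zpow_add,
        mul_comm (h : ℤ) A, mul_comm _ B, hAB, zpow_one]
    have h4 : τ ∈ MulAction.stabilizer (M ≃ₐ[K] M) (∑ g ∈ C, g x) := by
      rw [h3]
      exact mul_mem (zpow_mem h1 A) (zpow_mem h2 B)
    exact h4
  obtain ⟨T, hT⟩ := (IsGalois.mem_range_algebraMap_iff_fixed (∑ g ∈ C, g x)).2 hfix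
  exact ⟨T, hT⟩

end Pool.Agent.Work.MP_787500_nt.HC
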