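import Mathlib
import Pool.Agent.Work.MP_787500_nt.HC.Basic

/-!
# Module VLA: the recursion and valuations (pure valuations)

Write `x k = V (W (p^k a))`, `W k` for `W (p^k a)`. The sequence `x` is periodic (`A` is finite, so `p` has
finite order), all `x k ≠ 0`, and `x (k+1)^2 * V (1 + W k^2) = V 2 * x k`.
* If `x k < 1`: `V (1 + W k ^2) = 1`, `x (k+1)^2 = V 2 * x k`, so `x (k+1) < 1` (for `V 2 ≤ 1`).
* If `x k > 1`: `V (1 + W k^2) = x k ^ 2`, `(x (k+1) x k)^2 = V 2 * x k`, so `x (k+1)^2 = V 2 / x k < 1`.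
* So one `x k ≠ 1` implies that all later `x j` are `< 1`, hence by periodicity all are `< 1` (which excludes
  `x k > 1`).
`val_rec_unit` (`V 2 = 1`): if all are `< 1`: `x (k+1)^2 = x k`, so `x (k+1) > x k`, strictly increasing, against
periodicity. So all are 1.
`val_rec_dyadic` (`V 2 < 1`): either all `x k = 1`, and then `V (1 + W k^2) = V 2`; or all are `< 1` and
`x (k+1)^2 = V 2 * x k`: at a maximum `x j` of the sequence, if `x j > V 2` then
`x (k+1)^2 ≤ V 2 * x j < x j ^2` for all `k`, contradiction at `k + 1 = j` (or `j +` period); the same for the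
minimum; so all `x k = V 2`.
-/

set_option autoImplicit false

namespace Pool.Agent.Work.MP_787500_nt.HC

open WithZero IsDedekindDomain NumberField
open scoped Pointwise nonZeroDivisors

universe u

theorem vla_lt_of_sq_lt {x y : ℤᵐ⁰} {n : ℕ} (h : x ^ n < y ^ n) : x < y := by
  by_contra hc
  exact absurd h (not_lt.2 (pow_le_pow_left' (not_lt.1 hc) n))

theorem vla_lt_one_of_pow {x : ℤᵐ⁰} {n : ℕ} (h : x ^ n < 1) : x < 1 := by
  rw [← one_pow n] at h
  exact vla_lt_of_sq_lt h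

theorem vla_eq_one_of_pow {x : ℤᵐ⁰} {n : ℕ} (hn : n ≠ 0) (h : x ^ n = 1) : x = 1 := by
  rcases lt_trichotomy x 1 with h1 | h1 | h1
  · exact absurd h (pow_lt_one₀ zero_le h1 hn).ne
  · exact h1
  · exact absurd h (one_lt_pow₀ h1 hn).ne'

variable {A F : Type*} [CommGroup A] [Finite A] [Field F] [CharZero F] (V : Valuation F ℤᵐ⁰)

omit [CharZero F] in
theorem vla_trans_le {x y z : F} {t : ℤᵐ⁰} (h1 : V (x - y) ≤ t) (h2 : V (y - z) ≤ t) :
    V (x - z) ≤ t := by
  have h3 : x - z = (x - y) + (y - z) := by ring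
  rw [h3]
  exact V.map_add_le h1 h2

omit [CharZero F] in
theorem vla_trans_lt {x y z : F} {t : ℤᵐ⁰} (h1 : V (x - y) < t) (h2 : V (y - z) < t) :
    V (x - z) < t := by
  have h3 : x - z = (x - y) + (y - z) := by ring
  rw [h3]
  exact V.map_add_lt h1 h2

private theorem vla_step (h2 : V 2 ≤ 1) {p : A} {W : A → F}
    (hrec : ∀ a, W (p * a) ^ 2 * (1 + W a ^ 2) = 2 * W a) (a : A) (h1 : V (W a) < 1) :
    V (W (p * a)) ^ 2 = V 2 * V (W a) ∧ V (W (p * a)) < 1 := by
  have e1 : V (1 + W a ^ 2) = 1 := by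
    apply Valuation.map_one_add_of_lt
    rw [map_pow]
    exact pow_lt_one₀ zero_le h1 two_ne_zero
  have e2 := congrArg V (hrec a)
  rw [map_mul, map_pow, e1, mul_one, map_mul] at e2
  refine ⟨e2, vla_lt_one_of_pow (n := 2) ?_⟩
  rw [e2]
  exact lt_of_le_of_lt (mul_le_of_le_one_left' h2) h1

private theorem vla_step' (h2 : V 2 ≤ 1) {p : A} {W : A → F} (hne : ∀ a, W a ≠ 0)
    (hrec : ∀ a, W (p * a) ^ 2 * (1 + W a ^ 2) = 2 * W a) (a : A) (h1 : 1 < V (W a)) :
    V (W (p * a)) < 1 := by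
  have e0 : 1 < V (W a ^ 2) := by
    rw [map_pow]
    exact one_lt_pow₀ h1 two_ne_zero
  have e1 : V (1 + W a ^ 2) = V (W a) ^ 2 := by
    rw [← map_pow]
    apply Valuation.map_add_eq_of_lt_right
    rw [map_one]
    exact e0
  have e2 := congrArg V (hrec a)
  rw [map_mul, map_pow, e1, map_mul] at e2
  have hx : V (W a) ≠ 0 := (V.ne_zero_iff).2 (hne a)
  have e3 : V (W (p * a)) ^ 2 * V (W a) = V 2 := by
    have e4 : (V (W (p * a)) ^ 2 * V (W a)) * V (W a) = V 2 * V (W a) := by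
      rw [mul_assoc, ← sq, e2]
    exact mul_right_cancel₀ hx e4
  by_contra hc
  have h3 : 1 ≤ V (W (p * a)) ^ 2 := one_le_pow₀ (not_lt.1 hc)
  have h4 : V (W a) ≤ V (W (p * a)) ^ 2 * V (W a) := le_mul_of_one_le_left' h3
  rw [e3] at h4
  exact absurd (h4.trans h2) (not_le.2 h1)

private theorem vla_per {p : A} {W : A → F} (a : A) (k m : ℕ) :
    V (W (p ^ (k + m * orderOf p) * a)) = V (W (p ^ k * a)) := by
  rw [pow_add, mul_comm m, pow_mul, pow_orderOf_eq_one, one_pow, mul_one]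

private theorem vla_dich (h2 : V 2 ≤ 1) {p : A} {W : A → F} (hne : ∀ a, W a ≠ 0)
    (hrec : ∀ a, W (p * a) ^ 2 * (1 + W a ^ 2) = 2 * W a) (a : A) :
    (∀ k : ℕ, V (W (p ^ k * a)) = 1) ∨ ∀ k : ℕ, V (W (p ^ k * a)) < 1 ∧
      V (W (p ^ (k + 1) * a)) ^ 2 = V 2 * V (W (p ^ k * a)) := by
  by_cases h : ∀ k : ℕ, V (W (p ^ k * a)) = 1
  · exact Or.inl h
  · right
    push Not at h
    obtain ⟨k, hk⟩ := h
    have hs : ∀ j : ℕ, p ^ (j + 1) * a = p * (p ^ j * a) := fun j => by
      rw [pow_succ, mul_comm (p ^ j) p, mul_assoc]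
    have h1 : V (W (p ^ (k + 1) * a)) < 1 := by
      rw [hs]
      rcases lt_or_gt_of_ne hk with h3 | h3
      · exact (vla_step V h2 hrec _ h3).2
      · exact vla_step' V h2 hne hrec _ h3
    have h3 : ∀ j : ℕ, V (W (p ^ (k + 1 + j) * a)) < 1 := by
      intro j
      induction j with
      | zero => exact h1
      | succ j ih =>
        rw [← add_assoc, hs]
        exact (vla_step V h2 hrec _ ih).2
    have h4 : ∀ j : ℕ, V (W (p ^ j * a)) < 1 := by
      intro j
      rw [← vla_per V a j (k + 1)]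
      have h5 : k + 1 ≤ j + (k + 1) * orderOf p := by
        have := Nat.le_mul_of_pos_right (k + 1) (orderOf_pos p)
        omega
      obtain ⟨m, hm⟩ := Nat.exists_eq_add_of_le h5
      rw [hm]
      exact h3 m
    exact fun j => ⟨h4 j, by rw [hs]; exact (vla_step V h2 hrec _ (h4 j)).1⟩

theorem val_rec_dyadic (h2 : V 2 < 1) {p : A} {W : A → F} (hne : ∀ a, W a ≠ 0)
    (hrec : ∀ a, W (p * a) ^ 2 * (1 + W a ^ 2) = 2 * W a) (a : A) :
    (∀ k : ℕ, V (W (p ^ k * a)) = V 2) ∨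
      ∀ k : ℕ, V (W (p ^ k * a)) = 1 ∧ V (1 + W (p ^ k * a) ^ 2) = V 2 := by
  have h20 : V 2 ≠ 0 := (V.ne_zero_iff).2 two_ne_zero
  rcases vla_dich V h2.le hne hrec a with h | h
  · right
    intro k
    refine ⟨h k, ?_⟩
    have e1 := congrArg V (hrec (p ^ k * a))
    have hs : p * (p ^ k * a) = p ^ (k + 1) * a := by
      rw [pow_succ, mul_comm (p ^ k) p, mul_assoc]
    rw [hs, map_mul, map_pow, h, one_pow, one_mul, map_mul, h, mul_one] at e1
    exact e1
  · left
    have hn := orderOf_pos p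
    have hmod : ∀ k, V (W (p ^ k * a)) = V (W (p ^ (k % orderOf p) * a)) := fun k => by
      rw [pow_mod_orderOf]
    obtain ⟨j, hj, hjm⟩ := Finset.exists_max_image (Finset.range (orderOf p))
      (fun k => V (W (p ^ k * a))) ⟨0, Finset.mem_range.2 hn⟩
    obtain ⟨i, hi, him⟩ := Finset.exists_min_image (Finset.range (orderOf p))
      (fun k => V (W (p ^ k * a))) ⟨0, Finset.mem_range.2 hn⟩
    have hmax : ∀ k, V (W (p ^ k * a)) ≤ V (W (p ^ j * a)) := fun k => by
      rw [hmod k]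
      exact hjm _ (Finset.mem_range.2 (Nat.mod_lt _ hn))
    have hmin : ∀ k, V (W (p ^ i * a)) ≤ V (W (p ^ k * a)) := fun k => by
      rw [hmod k]
      exact him _ (Finset.mem_range.2 (Nat.mod_lt _ hn))
    have hsh : ∀ k, ∃ m, V (W (p ^ (m + 1) * a)) = V (W (p ^ k * a)) := fun k => by
      refine ⟨k + 1 * orderOf p - 1, ?_⟩
      have h5 : k + 1 * orderOf p - 1 + 1 = k + 1 * orderOf p := by omega
      rw [h5, vla_per]
    have h3 : V (W (p ^ j * a)) ≤ V 2 := by
      by_contra hc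
      obtain ⟨m, hm⟩ := hsh j
      have e1 := (h m).2
      rw [hm] at e1
      have e2 : V 2 * V (W (p ^ m * a)) ≤ V 2 * V (W (p ^ j * a)) := mul_le_mul_right (hmax m) _
      have e3 : V 2 * V (W (p ^ j * a)) < V (W (p ^ j * a)) * V (W (p ^ j * a)) :=
        mul_lt_mul_of_pos_right (not_le.1 hc) (zero_lt_iff.2 ((V.ne_zero_iff).2 (hne _)))
      rw [← e1, sq] at e2
      exact absurd (e2.trans_lt e3) (lt_irrefl _)
    have h4 : V 2 ≤ V (W (p ^ i * a)) := by
      by_contra hc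
      obtain ⟨m, hm⟩ := hsh i
      have e1 := (h m).2
      rw [hm] at e1
      have e2 : V 2 * V (W (p ^ i * a)) ≤ V 2 * V (W (p ^ m * a)) := mul_le_mul_right (hmin m) _
      have e3 : V (W (p ^ i * a)) * V (W (p ^ i * a)) < V 2 * V (W (p ^ i * a)) :=
        mul_lt_mul_of_pos_right (not_le.1 hc) (zero_lt_iff.2 ((V.ne_zero_iff).2 (hne _)))
      rw [← e1, sq] at e2
      exact absurd (e3.trans_le e2) (lt_irrefl _)
    exact fun k => le_antisymm ((hmax k).trans h3) (h4.trans (hmin k))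

theorem val_rec_unit (h2 : V 2 = 1) {p : A} {W : A → F} (hne : ∀ a, W a ≠ 0)
    (hrec : ∀ a, W (p * a) ^ 2 * (1 + W a ^ 2) = 2 * W a) (a : A) : V (W a) = 1 := by
  rcases vla_dich V h2.le hne hrec a with h | h
  · have := h 0
    rwa [pow_zero, one_mul] at this
  · exfalso
    have h1 : StrictMono (fun k : ℕ => V (W (p ^ k * a))) := by
      apply strictMono_nat_of_lt_succ
      intro k
      have h3 := (h k).2
      rw [h2, one_mul] at h3
      have h4 := (h (k + 1)).1
      have h5 : V (W (p ^ (k + 1) * a)) * V (W (p ^ (k + 1) * a)) <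
          V (W (p ^ (k + 1) * a)) * 1 :=
        mul_lt_mul_of_pos_left h4 (zero_lt_iff.2 ((V.ne_zero_iff).2 (hne _)))
      rw [← sq, h3, mul_one] at h5
      exact h5
    have h3 := h1 (show 0 < 0 + 1 * orderOf p by have := orderOf_pos p; omega)
    have h4 := vla_per V (W := W) (p := p) a 0 1
    exact absurd h3 (by
      show ¬ V (W (p ^ 0 * a)) < V (W (p ^ (0 + 1 * orderOf p) * a))
      rw [h4]
      exact lt_irrefl _)

end Pool.Agent.Work.MP_787500_nt.HC
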