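import Mathlib
import Pool.Agent.Work.MP_787500_nt.HC.Basic
import Pool.Agent.Work.MP_787500_nt.HC.VlA

/-!
# Module VLB: the valuations of `W`, `W'` at a dyadic place

`val_rec_dyadic` for `W`, `p`. First alternative: `V (1 + W (p^k a)^2) = 1` for all `k`, so `H.prod a` gives
`V α ^ 2 = 1`, against `hV.al`. So `V (W a) = 1`, `V (1 + W a^2) = V 2` (`k = 0`).
`W'`: `rec2` at `p⁻¹ b` is `W' (p⁻¹ b)^2 (1 + W' b^2) = 2 W' b`, so `val_rec_dyadic` applies to `W'`, `p⁻¹`. The
second alternative (`V (W' a) = 1`) is impossible: `W' a ^4 = (1 - W a^2)(1 + W a^2)` (`four`) has valuation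
`≤ V 2 < 1`. So `V (W' a) = V 2`. Then `V (W a^2 - 1) * V 2 = V 2 ^ 4`, so `V (W a^2 - 1) = V 2^3 = V 8`.
-/

set_option autoImplicit false

namespace Pool.Agent.Work.MP_787500_nt.HC

open WithZero IsDedekindDomain NumberField
open scoped Pointwise nonZeroDivisors

universe u

variable {K F A : Type*} [Field K] [Field F] [CharZero F] [Algebra K F] [CommGroup A] [Finite A]
variable {p : A} {h : ℕ} {α : K} {W W' : A → F} {V : Valuation F ℤᵐ⁰}

theorem val_W (H : Wdata K F p h α W W') (hV : Dya K V h α) (a : A) :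
    V (W a) = 1 ∧ V (1 + W a ^ 2) = V 2 ∧ V (W' a) = V 2 ∧ V (W a ^ 2 - 1) = V 8 := by
  have h20 : V 2 ≠ 0 := (V.ne_zero_iff).2 two_ne_zero
  have hW : V (W a) = 1 ∧ V (1 + W a ^ 2) = V 2 := by
    rcases val_rec_dyadic V hV.two H.ne H.rec1 a with h1 | h1
    · exfalso
      have h2 : ∀ k : ℕ, V (1 + W (p ^ k * a) ^ 2) = 1 := fun k => by
        apply Valuation.map_one_add_of_lt
        rw [map_pow, h1 k]
        exact pow_lt_one₀ zero_le hV.two two_ne_zero
      have h3 := congrArg V (H.prod a)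
      rw [map_pow, map_pow, map_prod, Finset.prod_congr rfl (fun k _ => h2 k),
        Finset.prod_const_one, one_pow] at h3
      exact absurd (vla_eq_one_of_pow two_ne_zero h3) hV.al.ne
    · have h2 := h1 0
      rwa [pow_zero, one_mul] at h2
  have hf := H.four a
  have e1 : (1 - W a ^ 2) * (1 + W a ^ 2) = W' a ^ 4 := by linear_combination -hf
  have e1' := congrArg V e1
  rw [map_mul, hW.2, map_pow] at e1'
  have hW' : V (W' a) = V 2 := by
    have hrec : ∀ b, W' (p⁻¹ * b) ^ 2 * (1 + W' b ^ 2) = 2 * W' b := fun b => by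
      have h3 := H.rec2 (p⁻¹ * b)
      rwa [mul_inv_cancel_left] at h3
    rcases val_rec_dyadic V hV.two H.ne' hrec a with h1 | h1
    · have h2 := h1 0
      rwa [pow_zero, one_mul] at h2
    · exfalso
      have h2 := (h1 0).1
      rw [pow_zero, one_mul] at h2
      rw [h2, one_pow] at e1'
      have h3 : V (1 - W a ^ 2) ≤ 1 := V.map_sub_le (by rw [map_one]) (by
        rw [map_pow, hW.1, one_pow])
      have h4 : V (1 - W a ^ 2) * V 2 < 1 :=
        lt_of_le_of_lt (mul_le_of_le_one_left' h3) hV.two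
      exact absurd e1' h4.ne
  refine ⟨hW.1, hW.2, hW', ?_⟩
  rw [hW'] at e1'
  have e2 : V (1 - W a ^ 2) = V 2 ^ 3 := by
    apply mul_right_cancel₀ h20
    rw [e1', ← pow_succ]
  rw [V.map_sub_swap, e2, ← map_pow]
  norm_num

end Pool.Agent.Work.MP_787500_nt.HC
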