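import Mathlib
import Pool.Agent.Work.MP_787500_nt.HC.Basic
import Pool.Agent.Work.MP_787500_nt.HC.VlB

/-!
# Module VLC: the residues of `Y = W' / 2`

`Y a = W' a / 2`, `V (Y a) = 1`.
* `Y_rec`: `rec2` is `Y(a)^2 (1 + 4 Y(pa)^2) = Y(pa)`, so `Y(pa) - Y(a)^2 = 4 Y(a)^2 Y(pa)^2`.
* `Y_sum`: let `Y_k = Y (p^k a)`, `c_k = (1 + W (p^k a)^2)/2`: `V (c_k) = 1`, `c_k - 1 = (W^2 - 1)/2`,
  `V (c_k - 1) = V 4`. From `(W^2 - 1)(W^2 + 1) = -W'^4 = -16 Y^4`: `c_k - 1 = -4 Y_k^4 / c_k`, so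
  `c_k - (1 - 4 Y_k^4) = 4 Y_k^4 (c_k - 1)/c_k` has valuation `≤ V 16`. By induction on `n`:
  `V (∏_{k<n} c_k - (1 - 4 Σ_{k<n} Y_k^4)) ≤ V 16` (cross terms have the factor 16). `prod`:
  `α^2 = (2^h ∏ c_k)^2`, so with `γ = 2^h / α` and `ε ∈ {1, -1}`: `γ ∏ c_k = ε`; `V γ = 1`. With
  `S = Σ_{k<h} Y_k^4`: `γ - ε = γ (1 - ∏ c_k) = 4 γ S + (valuation ≤ V 16)`. Let
  `x = (2^h/α - ε)/4 ∈ K`: `V (x - γ S) ≤ V 4`, so `V x ≤ 1`. `hV.res x`: if `V x < 1`, then `V x ≤ V 2` (`unif`) and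
  `V (γ - ε) ≤ V 8`, against `g1` or `g2`. So `V (x - 1) < 1`, and `V (γ - 1) < 1` (`V (γ - ε) < 1`,
  `V (ε - 1) < 1`), so `V (S - 1) < 1`.
  Finally with `T = Σ_{k<h} Y_k`: `V (T^2 - Σ Y_k^2) ≤ V 2 < 1` (induction; `V (Y_k) ≤ 1`), the same again for
  the squares: `V (T^4 - S) < 1`; so `V (T^4 - 1) < 1`, and `(T - 1)^4 - (T^4 - 1)` is 2 times an integral
  element, so `V ((T - 1)^4) < 1`.
-/

set_option autoImplicit false

namespace Pool.Agent.Work.MP_787500_nt.HC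

open WithZero IsDedekindDomain NumberField
open scoped Pointwise nonZeroDivisors

universe u

variable {K F A : Type*} [Field K] [Field F] [CharZero F] [Algebra K F] [CommGroup A] [Finite A]
variable {p : A} {h : ℕ} {α : K} {W W' : A → F} {V : Valuation F ℤᵐ⁰}

omit [CharZero F] in
theorem vlc_four : V 4 = V 2 ^ 2 := by
  rw [← map_pow]
  norm_num

theorem vlc_Y (H : Wdata K F p h α W W') (hV : Dya K V h α) (a : A) : V (W' a / 2) = 1 := by
  rw [map_div₀, (val_W H hV a).2.2.1, div_self ((V.ne_zero_iff).2 two_ne_zero)]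

omit [CharZero F] in
/-- the square of a sum -/
theorem vlc_sq_sum {ι : Type*} (s : Finset ι) (g : ι → F) (hg : ∀ k ∈ s, V (g k) ≤ 1) :
    V (∑ k ∈ s, g k) ≤ 1 ∧ V ((∑ k ∈ s, g k) ^ 2 - ∑ k ∈ s, g k ^ 2) ≤ V 2 := by
  classical
  induction s using Finset.induction_on with
  | empty => simp
  | insert c s hc ih =>
    obtain ⟨h1, h2⟩ := ih fun k hk => hg k (Finset.mem_insert_of_mem hk)
    have h3 := hg c (Finset.mem_insert_self c s)
    rw [Finset.sum_insert hc, Finset.sum_insert hc]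
    refine ⟨V.map_add_le h3 h1, ?_⟩
    have e1 : (g c + ∑ k ∈ s, g k) ^ 2 - (g c ^ 2 + ∑ k ∈ s, g k ^ 2) =
        ((∑ k ∈ s, g k) ^ 2 - ∑ k ∈ s, g k ^ 2) + 2 * (g c * ∑ k ∈ s, g k) := by ring
    rw [e1]
    refine V.map_add_le h2 ?_
    rw [map_mul, map_mul]
    exact mul_le_of_le_one_right' (mul_le_one' h3 h1)

omit [CharZero F] in
theorem vlc_sq_lt {x y : F} (hx : V x ≤ 1) (hy : V y ≤ 1) (h : V (x - y) < 1) :
    V (x ^ 2 - y ^ 2) < 1 := by
  have e1 : x ^ 2 - y ^ 2 = (x + y) * (x - y) := by ring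
  rw [e1, map_mul]
  exact lt_of_le_of_lt (mul_le_of_le_one_left' (V.map_add_le hx hy)) h

theorem Y_rec (H : Wdata K F p h α W W') (hV : Dya K V h α) (a : A) :
    V (W' (p * a) / 2 - (W' a / 2) ^ 2) ≤ V 4 := by
  have e1 : W' (p * a) / 2 - (W' a / 2) ^ 2 = (W' a / 2) ^ 2 * W' (p * a) ^ 2 := by
    linear_combination (-1 / 4) * H.rec2 a
  rw [e1, map_mul, map_pow, map_pow, vlc_Y H hV, (val_W H hV _).2.2.1, one_pow, one_mul,
    vlc_four]

/-- one factor of the product -/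
private theorem vlc_c (H : Wdata K F p h α W W') (hV : Dya K V h α) (a : A) :
    V ((1 + W a ^ 2) / 2) = 1 ∧
      V ((1 + W a ^ 2) / 2 - (1 - 4 * (W' a / 2) ^ 4)) ≤ V 16 := by
  have h20 : V 2 ≠ 0 := (V.ne_zero_iff).2 two_ne_zero
  obtain ⟨-, h1, -, h3⟩ := val_W H hV a
  refine ⟨by rw [map_div₀, h1, div_self h20], ?_⟩
  have e1 : (1 + W a ^ 2) / 2 - (1 - 4 * (W' a / 2) ^ 4) = -((W a ^ 2 - 1) / 2) ^ 2 := by
    linear_combination (1 / 4) * H.four a
  have h8 : V 8 = V 2 ^ 3 := by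
    rw [← map_pow]
    norm_num
  have h16 : V 16 = V 2 ^ 4 := by
    rw [← map_pow]
    norm_num
  have h4 : V 2 ^ 3 / V 2 = V 2 ^ 2 := by
    rw [div_eq_iff h20, ← pow_succ]
  rw [e1, Valuation.map_neg, map_pow, map_div₀, h3, h8, h4, h16, ← pow_mul]

private theorem vlc_prod (H : Wdata K F p h α W W') (hV : Dya K V h α) (a : A) (n : ℕ) :
    V (∏ k ∈ Finset.range n, (1 + W (p ^ k * a) ^ 2) / 2) = 1 ∧
      V (∑ k ∈ Finset.range n, (W' (p ^ k * a) / 2) ^ 4) ≤ 1 ∧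
      V (∏ k ∈ Finset.range n, (1 + W (p ^ k * a) ^ 2) / 2 -
        (1 - 4 * ∑ k ∈ Finset.range n, (W' (p ^ k * a) / 2) ^ 4)) ≤ V 16 := by
  induction n with
  | zero => simp
  | succ n ih =>
    obtain ⟨h1, h2, h3⟩ := ih
    obtain ⟨h4, h5⟩ := vlc_c H hV (p ^ n * a)
    rw [Finset.prod_range_succ, Finset.sum_range_succ]
    set P := ∏ k ∈ Finset.range n, (1 + W (p ^ k * a) ^ 2) / 2 with hP
    set S := ∑ k ∈ Finset.range n, (W' (p ^ k * a) / 2) ^ 4 with hS
    set c := (1 + W (p ^ n * a) ^ 2) / 2 with hc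
    set y := (W' (p ^ n * a) / 2) ^ 4 with hy
    have hy1 : V y = 1 := by rw [hy, map_pow, vlc_Y H hV, one_pow]
    have h41 : V (4 : F) ≤ 1 := by
      rw [vlc_four]
      exact pow_le_one' hV.two.le 2
    refine ⟨by rw [map_mul, h1, h4, mul_one], V.map_add_le h2 hy1.le, ?_⟩
    have e1 : P * c - (1 - 4 * (S + y)) = 16 * (S * y) + ((P - (1 - 4 * S)) * (1 - 4 * y) +
        P * (c - (1 - 4 * y))) := by ring
    rw [e1]
    refine V.map_add_le ?_ (V.map_add_le ?_ ?_)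
    · rw [map_mul, map_mul]
      exact mul_le_of_le_one_right' (mul_le_one' h2 hy1.le)
    · rw [map_mul]
      refine (mul_le_of_le_one_right' (V.map_sub_le (by rw [map_one]) ?_)).trans h3
      rw [map_mul]
      exact mul_le_one' h41 hy1.le
    · rw [map_mul, h1, one_mul]
      exact h5

omit [CharZero F] in
/-- fourth powers modulo the maximal ideal -/
theorem vlc_four_pow {x : F} (h2 : V 2 < 1) (hx : V x ≤ 1) (h : V (x ^ 4 - 1) < 1) :
    V (x - 1) < 1 := by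
  apply vla_lt_one_of_pow (n := 4)
  rw [← map_pow]
  have e1 : (x - 1) ^ 4 = (x ^ 4 - 1) + 2 * (-2 * x ^ 3 + 3 * x ^ 2 - 2 * x + 1) := by ring
  rw [e1]
  refine V.map_add_lt h ?_
  rw [map_mul]
  have h3 : ∀ n : ℕ, V (x ^ n) ≤ 1 := fun n => by
    rw [map_pow]
    exact pow_le_one' hx n
  have h4 : V (-2 * x ^ 3 + 3 * x ^ 2 - 2 * x + 1) ≤ 1 := by
    have e2 : V (3 : F) ≤ 1 := by exact_mod_cast val_nat_le V 3
    refine V.map_add_le (V.map_sub_le (V.map_add_le ?_ ?_) ?_) (by rw [map_one])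
    · rw [map_mul, Valuation.map_neg]
      exact mul_le_one' h2.le (h3 3)
    · rw [map_mul]
      exact mul_le_one' e2 (h3 2)
    · rw [map_mul]
      exact mul_le_one' h2.le hx
  exact lt_of_le_of_lt (mul_le_of_le_one_right' h4) h2

theorem Y_sum (H : Wdata K F p h α W W') (hV : Dya K V h α) (a : A) :
    V (∑ k ∈ Finset.range h, W' (p ^ k * a) / 2 - 1) < 1 := by
  have h20 : V 2 ≠ 0 := (V.ne_zero_iff).2 two_ne_zero
  have h41 : V (4 : F) < 1 := by
    rw [vlc_four]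
    exact pow_lt_one₀ zero_le hV.two two_ne_zero
  have h40 : V (4 : F) ≠ 0 := (V.ne_zero_iff).2 (by norm_num)
  obtain ⟨h1, h2, h3⟩ := vlc_prod H hV a h
  set P := ∏ k ∈ Finset.range h, (1 + W (p ^ k * a) ^ 2) / 2 with hP
  set S := ∑ k ∈ Finset.range h, (W' (p ^ k * a) / 2) ^ 4 with hS
  have hP0 : P ≠ 0 := fun h0 => by
    rw [h0, map_zero] at h1
    exact zero_ne_one h1
  -- the sign
  have e1 : ∏ k ∈ Finset.range h, (1 + W (p ^ k * a) ^ 2) = 2 ^ h * P := by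
    have e2 : ∀ k ∈ Finset.range h, 1 + W (p ^ k * a) ^ 2 =
        2 * ((1 + W (p ^ k * a) ^ 2) / 2) := fun k _ => by ring
    rw [Finset.prod_congr rfl e2, Finset.prod_mul_distrib, Finset.prod_const, Finset.card_range]
  have e3 := H.prod a
  rw [e1] at e3
  have hsq : algebraMap K F α = 2 ^ h * P ∨ algebraMap K F α = -(2 ^ h * P) :=
    sq_eq_sq_iff_eq_or_eq_neg.1 e3
  have h2h : (2 : F) ^ h * P ≠ 0 := mul_ne_zero (pow_ne_zero _ two_ne_zero) hP0
  have hγ' : algebraMap K F (2 ^ h / α) = 2 ^ h / algebraMap K F α := by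
    rw [map_div₀, map_pow, map_ofNat]
  obtain ⟨ε, hε, hγ⟩ : ∃ ε : K, (ε = 1 ∨ ε = -1) ∧
      algebraMap K F (2 ^ h / α) * P = algebraMap K F ε := by
    rcases hsq with h5 | h5
    · refine ⟨1, Or.inl rfl, ?_⟩
      rw [hγ', h5, map_one, div_mul_eq_mul_div, div_self h2h]
    · refine ⟨-1, Or.inr rfl, ?_⟩
      rw [hγ', h5, map_neg, map_one, div_neg, neg_mul, div_mul_eq_mul_div, div_self h2h]
  set γ := algebraMap K F (2 ^ h / α) with hγdef
  have hε1 : V (algebraMap K F ε) = 1 := by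
    rcases hε with h5 | h5
    · rw [h5, map_one, map_one]
    · rw [h5, map_neg, map_one, Valuation.map_neg, map_one]
  have hγ1 : V γ = 1 := by
    have h5 := congrArg V hγ
    rw [map_mul, h1, mul_one, hε1] at h5
    exact h5
  have hg : ¬ V (γ - algebraMap K F ε) ≤ V 8 := by
    rcases hε with h5 | h5
    · rw [h5, map_one]
      exact hV.g1
    · rw [h5, map_neg, map_one, sub_neg_eq_add]
      exact hV.g2
  -- the element x
  have hx : algebraMap K F ((2 ^ h / α - ε) / 4) = (γ - algebraMap K F ε) / 4 := by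
    rw [map_div₀, map_sub, map_ofNat]
  set x := algebraMap K F ((2 ^ h / α - ε) / 4) with hxdef
  have hx4 : γ - algebraMap K F ε = 4 * x := by
    rw [hx]
    field_simp
  have hxS : V (x - γ * S) ≤ V 4 := by
    have e4 : 4 * (x - γ * S) = -(γ * (P - (1 - 4 * S))) := by
      linear_combination -hx4 + hγ
    have e5 := congrArg V e4
    rw [map_mul, Valuation.map_neg, map_mul, hγ1, one_mul] at e5
    have h16 : V 16 = V 4 * V 4 := by
      rw [← map_mul]
      norm_num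
    rw [← e5, h16] at h3
    exact le_of_mul_le_mul_left h3 (zero_lt_iff.2 h40)
  have hγS : V (γ * S) ≤ 1 := by
    rw [map_mul, hγ1, one_mul]
    exact h2
  have hx1 : V x ≤ 1 := by
    have e4 : x = (x - γ * S) + γ * S := by ring
    rw [e4]
    exact V.map_add_le (hxS.trans h41.le) hγS
  have hS1 : V (S - 1) < 1 := by
    rcases hV.res _ hx1 with h5 | h5
    · exfalso
      apply hg
      rw [hx4, map_mul]
      have h8 : V 8 = V 4 * V 2 := by
        rw [← map_mul]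
        norm_num
      rw [h8]
      exact mul_le_mul_right (hV.unif _ h5) _
    · have h6 : V (γ * S - 1) < 1 := by
        refine vla_trans_lt V ?_ h5
        rw [V.map_sub_swap]
        exact lt_of_le_of_lt hxS h41
      have h7 : V (γ - 1) < 1 := by
        refine vla_trans_lt V (y := algebraMap K F ε) ?_ ?_
        · rw [hx4, map_mul]
          exact lt_of_le_of_lt (mul_le_of_le_one_right' hx1) h41
        · rcases hε with h8 | h8
          · rw [h8, map_one, sub_self, map_zero]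
            exact zero_lt_one
          · have e6 : (-1 : F) - 1 = -2 := by norm_num
            rw [h8, map_neg, map_one, e6, Valuation.map_neg]
            exact hV.two
      have e7 : S - 1 = -(S * (γ - 1)) + (γ * S - 1) := by ring
      rw [e7]
      refine V.map_add_lt ?_ h6
      rw [Valuation.map_neg, map_mul]
      exact lt_of_le_of_lt (mul_le_of_le_one_left' h2) h7
  -- the sum
  have hY : ∀ k ∈ Finset.range h, V (W' (p ^ k * a) / 2) ≤ 1 := fun k _ => (vlc_Y H hV _).le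
  have hY2 : ∀ k ∈ Finset.range h, V ((W' (p ^ k * a) / 2) ^ 2) ≤ 1 := fun k hk => by
    rw [map_pow]
    exact pow_le_one' (hY k hk) 2
  obtain ⟨hT, hT2⟩ := vlc_sq_sum (V := V) (Finset.range h) _ hY
  obtain ⟨hU, hU2⟩ := vlc_sq_sum (V := V) (Finset.range h) _ hY2
  set T := ∑ k ∈ Finset.range h, W' (p ^ k * a) / 2 with hTdef
  set U := ∑ k ∈ Finset.range h, (W' (p ^ k * a) / 2) ^ 2 with hUdef
  have e8 : ∑ k ∈ Finset.range h, ((W' (p ^ k * a) / 2) ^ 2) ^ 2 = S := by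
    rw [hS]
    refine Finset.sum_congr rfl fun k _ => ?_
    rw [← pow_mul]
  rw [e8] at hU2
  apply vlc_four_pow hV.two hT
  have e9 : T ^ 4 = (T ^ 2) ^ 2 := by ring
  rw [e9]
  refine vla_trans_lt V (vlc_sq_lt (V := V) (x := T ^ 2) (y := U) ?_ hU
    (lt_of_le_of_lt hT2 hV.two)) (vla_trans_lt V (lt_of_le_of_lt hU2 hV.two) hS1)
  rw [map_pow]
  exact pow_le_one' hT 2

end Pool.Agent.Work.MP_787500_nt.HC
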