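import Mathlib
import Pool.Agent.Work.MP_787500_nt.HC.Basic
import Pool.Agent.Work.MP_787500_nt.HC.VlC

/-!
# Module VLD: traces are odd

`Y a = W' a / 2`, `V (Y a) = 1` (`val_W`). By induction on `k`, `V (Y (p^k a) - Y(a)^(2^k)) < 1` (`Y_rec`,
`V 4 < 1`). Let `y_c = Y (f c)`. `Σ_c Σ_{k<h} Y (p^k f c)` is congruent (valuation of the difference `< 1`) to
`C.card`, by `Y_sum`, hence to 1 (`C.card` is odd, `V 2 < 1`). It is also congruent to
`Σ_{k<h} Σ_c y_c^(2^k)`, hence to `Σ_{k<h} T^(2^k)` (`V (Σ x_c)^2 - Σ x_c^2) ≤ V 2` for integral `x_c`,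
induction on `k`). `V T ≤ 1`, `T ∈ K`, so by `hV.res T` either `V T < 1` or `V (T - 1) < 1`. In the first case all
`T^(2^k)` have valuation `< 1`, so 1 has valuation `< 1`, a contradiction.
-/

set_option autoImplicit false

namespace Pool.Agent.Work.MP_787500_nt.HC

open WithZero IsDedekindDomain NumberField
open scoped Pointwise nonZeroDivisors

universe u

variable {K F A : Type*} [Field K] [Field F] [CharZero F] [Algebra K F] [CommGroup A] [Finite A]
variable {p : A} {h : ℕ} {α : K} {W W' : A → F} {V : Valuation F ℤᵐ⁰}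

private theorem vld_pow (H : Wdata K F p h α W W') (hV : Dya K V h α) (a : A) (k : ℕ) :
    V (W' (p ^ k * a) / 2 - (W' a / 2) ^ 2 ^ k) < 1 := by
  induction k with
  | zero => simp
  | succ k ih =>
    have hs : p ^ (k + 1) * a = p * (p ^ k * a) := by
      rw [pow_succ, mul_comm (p ^ k) p, mul_assoc]
    have h41 : V (4 : F) < 1 := by
      rw [vlc_four]
      exact pow_lt_one₀ zero_le hV.two two_ne_zero
    rw [hs, pow_succ, pow_mul]
    refine vla_trans_lt V (lt_of_le_of_lt (Y_rec H hV (p ^ k * a)) h41) ?_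
    refine vlc_sq_lt (vlc_Y H hV _).le ?_ ih
    rw [map_pow, vlc_Y H hV, one_pow]

omit [CharZero F] in
private theorem vld_sum_pow (h2 : V 2 < 1) {ι : Type*} (C : Finset ι) (g : ι → F)
    (hg : ∀ c ∈ C, V (g c) ≤ 1) (k : ℕ) :
    V ((∑ c ∈ C, g c) ^ 2 ^ k - ∑ c ∈ C, g c ^ 2 ^ k) < 1 := by
  have hg' : ∀ n, ∀ c ∈ C, V (g c ^ n) ≤ 1 := fun n c hc => by
    rw [map_pow]
    exact pow_le_one' (hg c hc) n
  induction k with
  | zero => simp
  | succ k ih =>
    have e1 : ∑ c ∈ C, g c ^ 2 ^ (k + 1) = ∑ c ∈ C, (g c ^ 2 ^ k) ^ 2 :=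
      Finset.sum_congr rfl fun c _ => by rw [pow_succ, pow_mul]
    rw [e1, pow_succ, pow_mul]
    refine vla_trans_lt V (vlc_sq_lt ?_ ?_ ih)
      (lt_of_le_of_lt (vlc_sq_sum C _ (hg' (2 ^ k))).2 h2)
    · rw [map_pow]
      exact pow_le_one' (vlc_sq_sum C g hg).1 _
    · exact (vlc_sq_sum C _ (hg' (2 ^ k))).1

theorem trace_odd (H : Wdata K F p h α W W') (hV : Dya K V h α) {ι : Type*} (C : Finset ι)
    (hC : Odd C.card) (f : ι → A) {T : K} (hT : algebraMap K F T = ∑ c ∈ C, W' (f c) / 2) :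
    V (algebraMap K F T - 1) < 1 := by
  have hg : ∀ c ∈ C, V (W' (f c) / 2) ≤ 1 := fun c _ => (vlc_Y H hV _).le
  have h1 : V (∑ c ∈ C, ∑ k ∈ Finset.range h, W' (p ^ k * f c) / 2 - (C.card : F)) < 1 := by
    have e1 : ∑ c ∈ C, ∑ k ∈ Finset.range h, W' (p ^ k * f c) / 2 - (C.card : F) =
        ∑ c ∈ C, (∑ k ∈ Finset.range h, W' (p ^ k * f c) / 2 - 1) := by
      rw [Finset.sum_sub_distrib, Finset.sum_const, nsmul_eq_mul, mul_one]
    rw [e1]
    exact V.map_sum_lt one_ne_zero fun c _ => Y_sum H hV (f c)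
  have h2 : V ((C.card : F) - 1) < 1 := by
    obtain ⟨m, hm⟩ := hC
    have e1 : (C.card : F) - 1 = 2 * (m : F) := by
      rw [hm]
      push_cast
      ring
    rw [e1, map_mul]
    exact lt_of_le_of_lt (mul_le_of_le_one_right' (val_nat_le V m)) hV.two
  have h3 := vla_trans_lt V h1 h2
  rw [Finset.sum_comm] at h3
  have h4 : V (∑ k ∈ Finset.range h, ∑ c ∈ C, W' (p ^ k * f c) / 2 -
      ∑ k ∈ Finset.range h, (algebraMap K F T) ^ 2 ^ k) < 1 := by
    rw [← Finset.sum_sub_distrib]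
    refine V.map_sum_lt one_ne_zero fun k _ => ?_
    refine vla_trans_lt V (y := ∑ c ∈ C, (W' (f c) / 2) ^ 2 ^ k) ?_ ?_
    · rw [← Finset.sum_sub_distrib]
      exact V.map_sum_lt one_ne_zero fun c _ => vld_pow H hV (f c) k
    · rw [V.map_sub_swap, hT]
      exact vld_sum_pow hV.two C _ hg k
  have hT1 : V (algebraMap K F T) ≤ 1 := by
    rw [hT]
    exact (vlc_sq_sum C _ hg).1
  rcases hV.res T hT1 with h5 | h5
  · exfalso
    have h6 : V (∑ k ∈ Finset.range h, (algebraMap K F T) ^ 2 ^ k - 0) < 1 := by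
      rw [sub_zero]
      refine V.map_sum_lt one_ne_zero fun k _ => ?_
      rw [map_pow]
      exact pow_lt_one₀ zero_le h5 (pow_ne_zero _ two_ne_zero)
    have h7 := vla_trans_lt V h4 h6
    rw [V.map_sub_swap] at h3
    have h8 := vla_trans_lt V h3 h7
    rw [sub_zero, map_one] at h8
    exact lt_irrefl _ h8
  · exact h5

end Pool.Agent.Work.MP_787500_nt.HC
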