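import Mathlib
import Pool.Agent.Work.MP_787500_nt.HC.Basic
import Pool.Agent.Work.MP_787500_nt.HC.VlB
import Pool.Agent.Work.MP_787500_nt.HC.VlC

/-!
# Module VLE: the sequence at a dyadic place

`z m = b m / a m`, `y m = z m / 4`. `sq4_ne`: `a m ≠ 0` and so on.
* `V (z m) = V 4` by induction: `z 0 = -i W'^2 / W^2` (`val_W`; `V i = 1` from `i^2 = -1`);
  `z(m+1)^2 (1 + z m)^2 = 4 z m` (`sq4_quot`) with `V (1 + z m) = 1`.
* `u m ^4 = 1 - z m ^2` (`sq4_ne`), so `V (u m) = 1` and `V (u m ^4 - 1) < 1`; `(u - 1)^4 - (u^4 - 1)` is 2 times an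
  integral element, so `V (u - 1) < 1`; `u + 1 = (u - 1) + 2`.
* `V (y m) = 1`, `y(m+1)^2 (1 + z m)^2 = y m`, so `V (y(m+1)^2 - y m) < 1`. `y 0 = -i Y^2 / W^2` with
  `Y = W'/2`: `V (y 0 - Y^2) < 1` since `V (-i - 1) < 1` (`(i + 1)^2 = 2 i`) and `V (W^2 - 1) < 1`. By induction
  `V (y m ^(2^m) - Y^2) < 1`: `y(m+1)^(2^(m+1)) - y m ^(2^m)` is a multiple of `y(m+1)^2 - y m`
  (`sub_dvd_pow_sub_pow`).
-/

set_option autoImplicit false

namespace Pool.Agent.Work.MP_787500_nt.HC

open WithZero IsDedekindDomain NumberField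
open scoped Pointwise nonZeroDivisors

universe u

variable {K F A : Type*} [Field K] [Field F] [CharZero F] [Algebra K F] [CommGroup A] [Finite A]
variable {p : A} {h : ℕ} {α : K} {W W' : A → F} {V : Valuation F ℤᵐ⁰}

omit [CharZero F] in
private theorem vle_pow {x y : F} (hx : V x ≤ 1) (hy : V y ≤ 1) (h : V (x - y) < 1) (n : ℕ) :
    V (x ^ n - y ^ n) < 1 := by
  induction n with
  | zero => simp
  | succ n ih =>
    have e1 : x ^ (n + 1) - y ^ (n + 1) = x ^ n * (x - y) + (x ^ n - y ^ n) * y := by ring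
    rw [e1]
    refine V.map_add_lt ?_ ?_
    · rw [map_mul, map_pow]
      exact lt_of_le_of_lt (mul_le_of_le_one_left' (pow_le_one' hx n)) h
    · rw [map_mul]
      exact lt_of_le_of_lt (mul_le_of_le_one_right' hy) ih

private theorem vle_z (H : Wdata K F p h α W W') (hV : Dya K V h α) {c : A} {i : F}
    {a b u : ℕ → F} {n : ℕ} (hS : Sq4 (W c) (W' c) i a b u n) {m : ℕ} (hm : m ≤ n) :
    V (b m / a m) = V 4 := by
  have h40 : V (4 : F) ≠ 0 := (V.ne_zero_iff).2 (by norm_num)
  have h41 : V (4 : F) < 1 := by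
    rw [vlc_four]
    exact pow_lt_one₀ zero_le hV.two two_ne_zero
  induction m with
  | zero =>
    obtain ⟨h1, -, h3, -⟩ := val_W H hV c
    have hi : V i = 1 := by
      have h3 := congrArg V hS.i2
      rw [map_pow, Valuation.map_neg, map_one] at h3
      exact vla_eq_one_of_pow two_ne_zero h3
    rw [hS.a0, hS.b0, map_div₀, map_mul, map_pow, map_pow, Valuation.map_neg, hi, h1, h3,
      one_pow, one_mul, div_one, vlc_four]
  | succ m ih =>
    have h1 := ih (by omega)
    have h2 := congrArg V (sq4_quot hS (show m < n by omega))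
    have h3 : V (1 + b m / a m) = 1 := by
      apply Valuation.map_one_add_of_lt
      rw [h1]
      exact h41
    rw [map_mul, map_pow, map_pow, h3, one_pow, mul_one, map_mul, h1, ← sq] at h2
    have h4 : (V (b (m + 1) / a (m + 1)) / V 4) ^ 2 = 1 := by
      rw [div_pow, h2, div_self (pow_ne_zero _ h40)]
    have h5 := vla_eq_one_of_pow two_ne_zero h4
    rwa [div_eq_one_iff_eq h40] at h5

private theorem vle_y (H : Wdata K F p h α W W') (hV : Dya K V h α) {c : A} {i : F}
    {a b u : ℕ → F} {n : ℕ} (hS : Sq4 (W c) (W' c) i a b u n) {m : ℕ} (hm : m ≤ n) :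
    V (b m / a m / 4) = 1 := by
  rw [map_div₀, vle_z H hV hS hm, div_self ((V.ne_zero_iff).2 (by norm_num))]

theorem seq_val (H : Wdata K F p h α W W') (hV : Dya K V h α) {c : A} {i : F} {a b u : ℕ → F}
    {n : ℕ} (hS : Sq4 (W c) (W' c) i a b u n) {m : ℕ} (hm : m ≤ n) :
    V (b m / a m) = V 4 ∧ V (u m) = 1 ∧ V (u m + 1) < 1 ∧
      V ((b m / a m / 4) ^ 2 ^ m - (W' c / 2) ^ 2) < 1 := by
  have h41 : V (4 : F) < 1 := by
    rw [vlc_four]
    exact pow_lt_one₀ zero_le hV.two two_ne_zero
  have hz := vle_z H hV hS hm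
  obtain ⟨ha, -, -, -, -, heq⟩ := sq4_ne hS hm
  have hz2 : V ((b m / a m) ^ 2) < 1 := by
    rw [map_pow, hz]
    exact pow_lt_one₀ zero_le h41 two_ne_zero
  have hu4 : u m ^ 4 = 1 - (b m / a m) ^ 2 := by
    have h1 : u m ^ 4 * a m ^ 2 = (1 - (b m / a m) ^ 2) * a m ^ 2 := by
      rw [heq]
      field_simp
    exact mul_right_cancel₀ (pow_ne_zero _ ha) h1
  have hu : V (u m) = 1 := by
    apply vla_eq_one_of_pow (n := 4) (by norm_num)
    rw [← map_pow, hu4]
    exact Valuation.map_one_sub_of_lt _ hz2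
  have hu1 : V (u m - 1) < 1 := by
    apply vlc_four_pow hV.two hu.le
    have e1 : u m ^ 4 - 1 = -(b m / a m) ^ 2 := by rw [hu4]; ring
    rw [e1, Valuation.map_neg]
    exact hz2
  refine ⟨hz, hu, ?_, ?_⟩
  · have e1 : u m + 1 = (u m - 1) + 2 := by ring
    rw [e1]
    exact V.map_add_lt hu1 hV.two
  · clear hz ha heq hz2 hu4 hu hu1
    induction m with
    | zero =>
      obtain ⟨h1, -, -, h4⟩ := val_W H hV c
      have hi : V (i + 1) < 1 := by
        apply vla_lt_one_of_pow (n := 2)
        have hi1 : V i = 1 := by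
          have h3 := congrArg V hS.i2
          rw [map_pow, Valuation.map_neg, map_one] at h3
          exact vla_eq_one_of_pow two_ne_zero h3
        have e1 : (i + 1) ^ 2 = 2 * i := by linear_combination hS.i2
        rw [← map_pow, e1, map_mul, hi1, mul_one]
        exact hV.two
      have hw : V (W c ^ 2 - 1) < 1 := by
        rw [h4]
        have e1 : V (8 : F) = V 2 ^ 3 := by
          rw [← map_pow]
          norm_num
        rw [e1]
        exact pow_lt_one₀ zero_le hV.two three_ne_zero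
      have hw0 := hS.w0
      rw [pow_zero, pow_one, hS.a0, hS.b0]
      have e1 : -i * W' c ^ 2 / W c ^ 2 / 4 - (W' c / 2) ^ 2 =
          -((W' c / 2) ^ 2 * (((i + 1) + (W c ^ 2 - 1)) / W c ^ 2)) := by
        field_simp
        ring
      rw [e1, Valuation.map_neg, map_mul, map_pow, vlc_Y H hV, one_pow, one_mul, map_div₀,
        map_pow, h1, one_pow, div_one]
      exact V.map_add_lt hi hw
    | succ m ih =>
      have h1 := ih (by omega)
      refine vla_trans_lt V ?_ h1
      rw [pow_succ', pow_mul]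
      have hy := vle_y H hV hS (show m ≤ n by omega)
      have hy1 := vle_y H hV hS hm
      have hz := vle_z H hV hS (show m ≤ n by omega)
      have hq := sq4_quot hS (show m < n by omega)
      refine vle_pow ?_ hy.le ?_ _
      · rw [map_pow, hy1, one_pow]
      · have e1 : (b (m + 1) / a (m + 1) / 4) ^ 2 - b m / a m / 4 =
            -((b (m + 1) / a (m + 1) / 4) ^ 2 * ((b m / a m) * (2 + b m / a m))) := by
          linear_combination (1 / 16) * hq
        rw [e1, Valuation.map_neg, map_mul, map_pow, hy1, one_pow, one_mul, map_mul, hz]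
        exact lt_of_le_of_lt (mul_le_of_le_one_right' (V.map_add_le hV.two.le
          (by rw [hz]; exact h41.le))) h41

end Pool.Agent.Work.MP_787500_nt.HC
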