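import Mathlib
import Pool.Agent.Work.MP_787500_nt.HC.Basic
import Pool.Agent.Work.MP_787500_nt.HC.VlD
import Pool.Agent.Work.MP_787500_nt.HC.VlE
import Pool.Agent.Work.MP_787500_nt.HC.LyG

/-!
# Module LYH: the valuation of the sum of the conjugates (abstract)

`M/K` as in LYG, `W, W' : A → M` with `Wdata`, and `M`-valued sequences. For `g ∈ C`: `g` maps the sequence to a
sequence starting from `W (c g)`, `W' (c g)` (`Sq4.map`). Let `y = b n / a n / 4`, `Y = W' 1 / 2`.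
`seq_val` for this sequence: `V ((g y)^(2^n) - (W' (c g) / 2)^2) < 1`, `V (g y) = 1`, where
`g (b n / a n) = (g ∘ b) n / (g ∘ a) n`. Sum over `g ∈ C`: with `S = ∑ g y` and `T = ∑ W' (c g)/2 = ∑ g Y`:
`V (S^(2^n) - ∑ (g y)^(2^n)) < 1` (`V ((∑ x)^2 - ∑ x^2) ≤ V 2 < 1` for integral `x`, induction),
`V (∑ (W' (c g)/2)^2 - T^2) < 1`. `T ∈ K` by `trace_mem` (`x = Y`; `hfix`), so `V (T - 1) < 1` by `trace_odd`
(`odd_card`), so `V (S^(2^n) - 1) < 1`, `V S = 1`, and `∑ g (b n / a n) = 4 S`.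
-/

set_option autoImplicit false

namespace Pool.Agent.Work.MP_787500_nt.HC

open WithZero IsDedekindDomain NumberField
open scoped Pointwise nonZeroDivisors

universe u

variable {K M A : Type*} [Field K] [Field M] [CharZero M] [Algebra K M] [FiniteDimensional K M]
variable [CommGroup A] [Finite A]
variable {p : A} {h : ℕ} {α : K} {W W' : A → M} {V : Valuation M ℤᵐ⁰}

/-- sums of squares -/
private theorem ly_sq {F ι : Type*} [Field F] (V : Valuation F ℤᵐ⁰) (h2 : V 2 < 1) (s : Finset ι)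
    (f : ι → F) (hf : ∀ c ∈ s, V (f c) ≤ 1) :
    V (∑ c ∈ s, f c) ≤ 1 ∧ V ((∑ c ∈ s, f c) ^ 2 - ∑ c ∈ s, f c ^ 2) < 1 := by
  classical
  induction s using Finset.induction_on with
  | empty => simp
  | insert x s hx ih =>
    obtain ⟨h3, h4⟩ := ih fun c hc => hf c (Finset.mem_insert_of_mem hc)
    have h5 := hf x (Finset.mem_insert_self _ _)
    rw [Finset.sum_insert hx, Finset.sum_insert hx]
    refine ⟨(V.map_add _ _).trans (max_le h5 h3), ?_⟩
    have h6 : (f x + ∑ c ∈ s, f c) ^ 2 - (f x ^ 2 + ∑ c ∈ s, f c ^ 2) =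
        2 * (f x * ∑ c ∈ s, f c) + ((∑ c ∈ s, f c) ^ 2 - ∑ c ∈ s, f c ^ 2) := by ring
    rw [h6]
    refine lt_of_le_of_lt (V.map_add _ _) (max_lt ?_ h4)
    rw [map_mul, map_mul]
    calc V 2 * (V (f x) * V (∑ c ∈ s, f c)) ≤ V 2 * (1 * 1) :=
          mul_le_mul' le_rfl (mul_le_mul' h5 h3)
      _ < 1 := by rw [mul_one, mul_one]; exact h2

private theorem ly_tr {F : Type*} [Field F] (V : Valuation F ℤᵐ⁰) {x y z : F} (h1 : V (x - y) < 1)
    (h2 : V (y - z) < 1) : V (x - z) < 1 := by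
  have : x - z = (x - y) + (y - z) := by ring
  rw [this]
  exact lt_of_le_of_lt (V.map_add _ _) (max_lt h1 h2)

private theorem ly_sy {F : Type*} [Field F] (V : Valuation F ℤᵐ⁰) {x y : F} (h1 : V (x - y) < 1) :
    V (y - x) < 1 := by
  rwa [V.map_sub_swap]

private theorem ly_psq {F : Type*} [Field F] (V : Valuation F ℤᵐ⁰) {x y : F} (hx : V x ≤ 1)
    (hy : V y ≤ 1) (h1 : V (x - y) < 1) : V (x ^ 2 - y ^ 2) < 1 := by
  have : x ^ 2 - y ^ 2 = (x - y) * (x + y) := by ring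
  rw [this, map_mul]
  calc V (x - y) * V (x + y) ≤ V (x - y) * 1 :=
        mul_le_mul' le_rfl ((V.map_add _ _).trans (max_le hx hy))
    _ < 1 := by rw [mul_one]; exact h1

private theorem ly_pow {F ι : Type*} [Field F] (V : Valuation F ℤᵐ⁰) (h2 : V 2 < 1) (s : Finset ι)
    (f : ι → F) (hf : ∀ c ∈ s, V (f c) ≤ 1) (k : ℕ) :
    V ((∑ c ∈ s, f c) ^ 2 ^ k - ∑ c ∈ s, f c ^ 2 ^ k) < 1 := by
  induction k with
  | zero => simp
  | succ k ih =>
    have hf' : ∀ c ∈ s, V (f c ^ 2 ^ k) ≤ 1 := fun c hc => by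
      rw [map_pow]
      exact pow_le_one' (hf c hc) _
    obtain ⟨h3, h4⟩ := ly_sq V h2 s (fun c => f c ^ 2 ^ k) hf'
    have h5 := (ly_sq V h2 s f hf).1
    have h6 : V ((∑ c ∈ s, f c) ^ 2 ^ k) ≤ 1 := by
      rw [map_pow]
      exact pow_le_one' h5 _
    have h7 := ly_psq V h6 h3 ih
    have h8 := ly_tr V h7 h4
    simp only [← pow_mul, ← pow_succ] at h8
    exact h8

private theorem ly_sum {F ι : Type*} [Field F] (V : Valuation F ℤᵐ⁰) (s : Finset ι)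
    (f g : ι → F) (h : ∀ c ∈ s, V (f c - g c) < 1) :
    V (∑ c ∈ s, f c - ∑ c ∈ s, g c) < 1 := by
  rw [← Finset.sum_sub_distrib]
  exact V.map_sum_lt one_ne_zero h

theorem sum_val [IsGalois K M] (hh : Odd h) (hcomm : ∀ σ τ : M ≃ₐ[K] M, σ * τ = τ * σ) {e : ℕ}
    (he : ∀ τ : M ≃ₐ[K] M, (τ ^ h) ^ 2 ^ e = 1) (C : Finset (M ≃ₐ[K] M))
    (hC : ∀ g, g ∈ C ↔ g ^ h = 1) (H : Wdata K M p h α W W') (hV : Dya K V h α)
    (hact : Act K M W W') (hfix : ∀ τ : M ≃ₐ[K] M, (τ ^ h) (W' 1) = W' 1)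
    {i : M} {a b u : ℕ → M} {n : ℕ} (hS : Sq4 (W 1) (W' 1) i a b u n) :
    V (∑ g ∈ C, g (b n / a n)) = V 4 := by
  classical
  have h2 := hV.two
  have hV4 : V 4 ≠ 0 := (V.ne_zero_iff).2 (by norm_num)
  choose f hf using hact
  have hW : ∀ g : M ≃ₐ[K] M, g (W 1) = W (f g) ∧ g (W' 1) = W' (f g) := fun g => by
    have := hf g 1
    rwa [mul_one] at this
  have hseq : ∀ g : M ≃ₐ[K] M, V (g (b n / a n)) = V 4 ∧
      V ((g (b n / a n) / 4) ^ 2 ^ n - (W' (f g) / 2) ^ 2) < 1 := by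
    intro g
    have h3 : Sq4 (W (f g)) (W' (f g)) (g i) (g ∘ a) (g ∘ b) (g ∘ u) n := by
      have := hS.map (g : M →+* M)
      rw [← (hW g).1, ← (hW g).2]
      exact this
    obtain ⟨h4, -, -, h5⟩ := seq_val H hV h3 (le_refl n)
    simp only [Function.comp_apply] at h4 h5
    rw [map_div₀]
    exact ⟨h4, h5⟩
  set y : (M ≃ₐ[K] M) → M := fun g => g (b n / a n) / 4 with hy
  have hy1 : ∀ g, V (y g) = 1 := by
    intro g
    simp only [hy]
    rw [map_div₀, (hseq g).1, div_self hV4]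
  have hY1 : ∀ g, V (W' (f g) / 2) ≤ 1 := by
    intro g
    have h3 := (hseq g).2
    have h4 : V ((W' (f g) / 2) ^ 2) ≤ 1 := by
      have h5 : (W' (f g) / 2) ^ 2 = (y g) ^ 2 ^ n - ((y g) ^ 2 ^ n - (W' (f g) / 2) ^ 2) := by ring
      rw [h5]
      refine (V.map_sub _ _).trans (max_le ?_ h3.le)
      rw [map_pow, hy1, one_pow]
    rw [map_pow] at h4
    exact (pow_le_one_iff two_ne_zero).1 h4
  obtain ⟨T, hT⟩ := trace_mem hh hcomm he C hC (x := W' 1 / 2) (fun τ => by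
    rw [map_div₀, hfix, map_ofNat])
  have hT' : algebraMap K M T = ∑ g ∈ C, W' (f g) / 2 := by
    rw [hT]
    refine Finset.sum_congr rfl fun g _ => ?_
    rw [map_div₀, (hW g).2, map_ofNat]
  have hT1 := trace_odd H hV C (odd_card hh hcomm C hC) f hT'
  have e1 : V ((∑ g ∈ C, y g) ^ 2 ^ n - ∑ g ∈ C, y g ^ 2 ^ n) < 1 :=
    ly_pow V h2 C y (fun g _ => (hy1 g).le) n
  have e2 : V (∑ g ∈ C, y g ^ 2 ^ n - ∑ g ∈ C, (W' (f g) / 2) ^ 2) < 1 :=
    ly_sum V C _ _ fun g _ => (hseq g).2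
  obtain ⟨e3, e4⟩ := ly_sq V h2 C (fun g => W' (f g) / 2) (fun g _ => hY1 g)
  rw [← hT'] at e3 e4
  have e5 : V (algebraMap K M T ^ 2 - 1 ^ 2) < 1 := ly_psq V e3 (by rw [map_one]) hT1
  have e6 := ly_tr V (ly_tr V (ly_tr V e1 e2) (ly_sy V e4)) e5
  rw [one_pow] at e6
  have e7 : V ((∑ g ∈ C, y g) ^ 2 ^ n) = 1 := by
    have := V.map_add_eq_of_lt_right (x := (∑ g ∈ C, y g) ^ 2 ^ n - 1) (y := 1) (by rwa [map_one])
    rw [sub_add_cancel, map_one] at this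
    exact this
  rw [map_pow] at e7
  have e8 : V (∑ g ∈ C, y g) = 1 := (pow_eq_one_iff.1 e7).resolve_right (by positivity)
  have e9 : ∑ g ∈ C, g (b n / a n) = 4 * ∑ g ∈ C, y g := by
    rw [Finset.mul_sum]
    refine Finset.sum_congr rfl fun g _ => ?_
    simp only [hy]
    field_simp
  rw [e9, map_mul, e8, mul_one]


end Pool.Agent.Work.MP_787500_nt.HC
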