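import Mathlib
import Pool.Agent.Work.MP_787500_nt.HC.Basic
import Pool.Agent.Work.MP_787500_nt.RS.Iso

/-!
# Module PTA: near zero the parameter is additive up to small elements

`W : y^2 = x (x - 1)(x + 1)`, `t = RS.tpar 0 = x / y`, and `RS.InG V 0 4 P` means `P = 0` or
`1 ≤ V (16 x)`.
* `small_four`: `V (4^2) < V 4` since `V 4 < 1`.
* `near_of_sq`: suppose `V 4 ≤ V (t - τ)`. Since `V (2 τ) < V 4`, `V (t + τ) = V ((t - τ) + 2 τ) = V (t - τ)`, so
  `V (t^2 - τ^2) ≥ V 4 ^2`, a contradiction.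
* `tpar_sq`: `x t^2 = x^3/y^2 = x^2/(x^2 - 1)`, `x t^2 - 1 = 1/(x^2 - 1)`, and `V x > 1` (`V 16 < 1`). The last claim
  is `RS.val_tpar`.
* `tpar_sub`: `RS.sub_mem` gives `InG` and `V (t (P - Q)) = V (t P - t Q)`. Let `τ = t P - t Q`, `V τ ≤ V 4`
  (`RS.val_tpar_le`). If `P = 0` or `Q = 0` then `t (P - Q) = τ` (`t (-Q) = -t Q`). If `P - Q = 0`: `t (P - Q) = 0`,
  `V τ = 0`, so `τ = 0`. Otherwise `P = (x1, y1)`, `Q = (x2, y2)`, `P - Q = (x3, y3)` and
   (*)  `x3 τ^2 (x1^2 - 1)(x2^2 - 1) = (x1 x2 + 1)^2`,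
  for `x1 ≠ x2` this is the identity `I4` in the proof of `RS.sub_mem` (with `(e1,e2,e3) = (0,1,-1)`; copy
  `I1`-`I4` from there, `RS.sub_some_of_X_ne`) divided by `x1 x2`, since `y^2 = x (x^2 - 1)`; for `x1 = x2`,
  `y2 = -y1` (`RS.sub_some_of_X_eq`) it is the duplication formula (`add_self_some`). By (*)
  `x3 τ^2 - 1 = (x1 + x2)^2 / ((x1^2 - 1)(x2^2 - 1))` has valuation `≤ max(V x1, V x2)^2 / (V x1 ^2 V x2 ^2) < 1`.
  With `tpar_sq` for `P - Q`: `V (x3 (t3^2 - τ^2)) < 1`, so `V (t3^2 - τ^2) < 1 / V x3 = V t3 ^2 ≤ V 4 ^2`;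
  `near_of_sq`.
* `tpar_sum`: induction; `P + Q = P - (-Q)`, `t (-Q) = - t Q`.
-/

set_option autoImplicit false

namespace Pool.Agent.Work.MP_787500_nt.HC

open WithZero IsDedekindDomain NumberField WeierstrassCurve WeierstrassCurve.Affine
open scoped Pointwise nonZeroDivisors

universe u

variable {F : Type*} [Field F] [CharZero F] [DecidableEq F] {V : Valuation F ℤᵐ⁰}
variable {W : WeierstrassCurve.Affine F}

omit [DecidableEq F] [CharZero F] in
private theorem four_eq : V (4 : F) = V 2 * V 2 := by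
  rw [← map_mul]
  norm_num

omit [DecidableEq F] [CharZero F] in
private theorem sixteen_eq : V (16 : F) = V 4 * V 4 := by
  rw [← map_mul]
  norm_num

omit [DecidableEq F] in
private theorem four_ne : V (4 : F) ≠ 0 := (Valuation.ne_zero_iff V).2 (by norm_num)

private theorem div_lt {a b : ℤᵐ⁰} (h : a < b) : a / b < 1 :=
  (div_lt_one₀ (zero_le.trans_lt h)).2 h

omit [DecidableEq F] [CharZero F] in
private theorem four_lt (h2 : V 2 < 1) : V (4 : F) < 1 := by
  rw [four_eq]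
  exact mul_lt_one' h2 h2

omit [DecidableEq F] in
private theorem sixteen_lt (h2 : V 2 < 1) : V (16 : F) < V 4 := by
  rw [sixteen_eq]
  calc V (4 : F) * V 4 < V 4 * 1 :=
        mul_lt_mul_of_pos_left (four_lt h2) (zero_lt_iff.2 four_ne)
    _ = V 4 := mul_one _

omit [DecidableEq F] in
theorem small_four (h2 : V 2 < 1) : RS.Small V 0 1 (-1) (4 : F) := by
  refine ⟨h2, by norm_num, ?_, ?_⟩
  · have e : (4 : F) ^ 2 * (1 - 0) = 16 := by norm_num
    rw [e]
    exact sixteen_lt h2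
  · have e : (4 : F) ^ 2 * (-1 - 0) = -16 := by norm_num
    rw [e, Valuation.map_neg]
    exact sixteen_lt h2

omit [DecidableEq F] in
theorem near_of_sq (h2 : V 2 < 1) {t τ : F} (hτ : V τ ≤ V 4) (h : V (t ^ 2 - τ ^ 2) < V 4 ^ 2) :
    V (t - τ) < V 4 := by
  by_contra hc
  rw [not_lt] at hc
  have h40 : V (4 : F) ≠ 0 := four_ne
  have h1 : V (2 * τ) < V (t - τ) := by
    refine lt_of_lt_of_le ?_ hc
    rw [map_mul]
    calc V 2 * V τ ≤ V 2 * V 4 := mul_le_mul_right hτ _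
      _ < 1 * V 4 := mul_lt_mul_of_pos_right h2 (zero_lt_iff.2 h40)
      _ = V 4 := one_mul _
  have h3 : V (t + τ) = V (t - τ) := by
    have e : t + τ = (t - τ) + 2 * τ := by ring
    rw [e]
    exact Valuation.map_add_eq_of_lt_left V h1
  have e : t ^ 2 - τ ^ 2 = (t - τ) * (t + τ) := by ring
  rw [e, map_mul, h3] at h
  refine absurd h (not_lt.2 ?_)
  rw [pow_two]
  exact mul_le_mul' hc hc

omit [DecidableEq F] in
private theorem one_lt_of (h2 : V 2 < 1) {x : F} (hG : 1 ≤ V (16 * x)) : 1 < V x := by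
  by_contra hc
  rw [not_lt] at hc
  rw [map_mul] at hG
  have h1 : V 16 * V x < 1 :=
    (mul_le_mul_right hc _).trans_lt (by
      rw [mul_one]
      exact (sixteen_lt h2).trans (four_lt h2))
  exact absurd hG (not_le.2 h1)

omit [DecidableEq F] [CharZero F] in
private theorem sq_sub_one {x : F} (hx : 1 < V x) : V (x ^ 2 - 1) = V x ^ 2 := by
  rw [← map_pow]
  refine Valuation.map_sub_eq_of_lt_left V ?_
  rw [map_one, map_pow]
  exact one_lt_pow₀ hx two_ne_zero

omit [DecidableEq F] [CharZero F] in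
private theorem ne_zero_of {x : F} (hx : 1 < V x) : x ≠ 0 := by
  rintro rfl
  rw [map_zero] at hx
  exact absurd hx (not_lt.2 zero_le_one)

omit [DecidableEq F] [CharZero F] in
private theorem ne_zero_sq {x : F} (hx : 1 < V x) : x ^ 2 - 1 ≠ 0 := by
  intro h
  have h1 := sq_sub_one hx
  rw [h, map_zero] at h1
  exact pow_ne_zero 2 ((Valuation.ne_zero_iff V).2 (ne_zero_of hx)) h1.symm

omit [DecidableEq F] in
theorem tpar_sq (h : TwoTors W 0 1 (-1)) (h2 : V 2 < 1) {x y : F} (hn : W.Nonsingular x y)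
    (hG : 1 ≤ V (16 * x)) : V (x * (x / y) ^ 2 - 1) < 1 ∧ V (x / y) ^ 2 * V x = 1 := by
  have hx1 := one_lt_of h2 hG
  have hx0 := ne_zero_of hx1
  have hG' : 1 ≤ V (4 ^ 2 * (x - 0)) := by
    have e : (4 : F) ^ 2 * (x - 0) = 16 * x := by
      rw [sub_zero]
      norm_num
    rw [e]
    exact hG
  obtain ⟨hy, h3⟩ := RS.val_tpar h (small_four h2) hn hG'
  rw [sub_zero] at h3
  refine ⟨?_, h3⟩
  have E := h.eq_of_nonsingular hn
  have hs := ne_zero_sq hx1
  have e : x * (x / y) ^ 2 - 1 = 1 / (x ^ 2 - 1) := by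
    have hE : y ^ 2 = x * (x ^ 2 - 1) := by
      rw [E]
      ring
    rw [div_pow, hE]
    field_simp
    ring
  rw [e, map_div₀, map_one, sq_sub_one hx1]
  refine div_lt ?_
  exact one_lt_pow₀ hx1 two_ne_zero

omit [DecidableEq F] in
/-- the parameter is close to `τ` -/
private theorem tpar_near (h : TwoTors W 0 1 (-1)) (h2 : V 2 < 1) {x y τ : F}
    (hn : W.Nonsingular x y) (hG : 1 ≤ V (16 * x)) (hτ : V τ ≤ V 4)
    (h1 : V (x * τ ^ 2 - 1) < 1) : V (x / y - τ) < V 4 := by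
  obtain ⟨h3, h4⟩ := tpar_sq h h2 hn hG
  have hx1 := one_lt_of h2 hG
  have hx0 : V x ≠ 0 := (Valuation.ne_zero_iff V).2 (ne_zero_of hx1)
  refine near_of_sq h2 hτ ?_
  have h5 : V (x * ((x / y) ^ 2 - τ ^ 2)) < 1 := by
    have e : x * ((x / y) ^ 2 - τ ^ 2) = (x * (x / y) ^ 2 - 1) - (x * τ ^ 2 - 1) := by ring
    rw [e]
    exact (Valuation.map_sub V _ _).trans_lt (max_lt h3 h1)
  rw [map_mul] at h5
  have h6 : 1 ≤ V x * V 4 ^ 2 := by
    rw [mul_comm, ← map_pow, ← map_mul]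
    have e : (4 : F) ^ 2 * x = 16 * x := by norm_num
    rw [e]
    exact hG
  exact lt_of_mul_lt_mul_left' (h5.trans_le h6)

omit [DecidableEq F] in
private theorem key_near {x1 x2 x3 τ : F} (hx1 : 1 < V x1) (hx2 : 1 < V x2)
    (h1 : x3 * τ ^ 2 * ((x1 ^ 2 - 1) * (x2 ^ 2 - 1)) = (x1 * x2 + 1) ^ 2) :
    V (x3 * τ ^ 2 - 1) < 1 := by
  have hs1 := ne_zero_sq hx1
  have hs2 := ne_zero_sq hx2
  have e : x3 * τ ^ 2 - 1 = (x1 + x2) ^ 2 / ((x1 ^ 2 - 1) * (x2 ^ 2 - 1)) := by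
    rw [eq_div_iff (mul_ne_zero hs1 hs2), sub_mul, h1]
    ring
  rw [e, map_div₀, map_mul, sq_sub_one hx1, sq_sub_one hx2, map_pow, ← mul_pow]
  refine div_lt ?_
  refine pow_lt_pow_left₀ ?_ zero_le two_ne_zero
  refine (V.map_add _ _).trans_lt (max_lt ?_ ?_)
  · calc V x1 = V x1 * 1 := (mul_one _).symm
      _ < V x1 * V x2 := mul_lt_mul_of_pos_left hx2 (zero_lt_one.trans hx1)
  · calc V x2 = 1 * V x2 := (one_mul _).symm
      _ < V x1 * V x2 := mul_lt_mul_of_pos_right hx1 (zero_lt_one.trans hx2)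

omit [CharZero F] [DecidableEq F] in
private theorem tpar_neg (h : TwoTors W 0 1 (-1)) (P : W.Point) :
    RS.tpar 0 (-P) = -RS.tpar 0 P := by
  rcases P with _ | ⟨x, y, hn⟩
  · have e : (-(Point.zero : W.Point)) = Point.zero := rfl
    rw [e]
    simp [RS.tpar]
  · rw [Point.neg_some]
    simp only [RS.tpar]
    rw [h.negY_eq, div_neg]

omit [CharZero F] [DecidableEq F] in
private theorem inG_neg {P : W.Point} (hP : RS.InG V 0 4 P) : RS.InG V 0 4 (-P) := by
  rcases P with _ | ⟨x, y, hn⟩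
  · exact hP
  · exact hP

theorem tpar_sub (h : TwoTors W 0 1 (-1)) (h2 : V 2 < 1) {P Q : W.Point}
    (hP : RS.InG V 0 4 P) (hQ : RS.InG V 0 4 Q) :
    RS.InG V 0 4 (P - Q) ∧ V (RS.tpar 0 (P - Q) - (RS.tpar 0 P - RS.tpar 0 Q)) < V 4 := by
  have h40 : (0 : ℤᵐ⁰) < V (4 : F) := zero_lt_iff.2 four_ne
  have hsub := RS.sub_mem h (small_four h2) hP hQ
  refine ⟨hsub.1, ?_⟩
  have hτ : V (RS.tpar 0 P - RS.tpar 0 Q) ≤ V 4 :=
    (Valuation.map_sub V _ _).trans (max_le (RS.val_tpar_le h (small_four h2) hP)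
      (RS.val_tpar_le h (small_four h2) hQ))
  rcases P with _ | ⟨x1, y1, h1⟩
  · have e : ((Point.zero : W.Point) - Q) = -Q := zero_sub Q
    rw [e, tpar_neg h]
    have e2 : RS.tpar 0 (Point.zero : W.Point) = 0 := rfl
    rw [e2, zero_sub, sub_self, map_zero]
    exact h40
  · rcases Q with _ | ⟨x2, y2, h2'⟩
    · have e : ((Point.some x1 y1 h1 : W.Point) - Point.zero) = Point.some x1 y1 h1 := sub_zero _
      rw [e]
      have e2 : RS.tpar 0 (Point.zero : W.Point) = 0 := rfl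
      rw [e2, sub_zero, sub_self, map_zero]
      exact h40
    · have e16 : ∀ x : F, (4 : F) ^ 2 * (x - 0) = 16 * x := fun x => by
        rw [sub_zero]
        norm_num
      have hG1 : 1 ≤ V (16 * x1) := by
        rw [← e16]
        exact hP
      have hG2 : 1 ≤ V (16 * x2) := by
        rw [← e16]
        exact hQ
      have hx1 := one_lt_of h2 hG1
      have hx2 := one_lt_of h2 hG2
      have E1 := h.eq_of_nonsingular h1
      have E2 := h.eq_of_nonsingular h2'
      have hy1 : y1 ≠ 0 := (RS.val_tpar h (small_four h2) h1 hP).1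
      have hy2 : y2 ≠ 0 := (RS.val_tpar h (small_four h2) h2' hQ).1
      have hX1 := ne_zero_of hx1
      have hX2 := ne_zero_of hx2
      have F1 : y1 ^ 2 = x1 * (x1 ^ 2 - 1) := by
        rw [E1]
        ring
      have F2 : y2 ^ 2 = x2 * (x2 ^ 2 - 1) := by
        rw [E2]
        ring
      have t1 : RS.tpar 0 (Point.some x1 y1 h1 : W.Point) = x1 / y1 := by
        simp only [RS.tpar, sub_zero]
      have t2 : RS.tpar 0 (Point.some x2 y2 h2' : W.Point) = x2 / y2 := by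
        simp only [RS.tpar, sub_zero]
      rw [t1, t2] at hτ ⊢
      by_cases hx : x1 = x2
      · rcases RS.sub_some_of_X_eq h h1 h2' hx with ⟨hy, hz⟩ | ⟨hy, hz⟩
        · rw [hz]
          have e : (RS.tpar 0 (0 : W.Point)) = 0 := rfl
          rw [e, hx, hy, sub_self, sub_self, map_zero]
          exact h40
        · obtain ⟨X3, Y3, h3, hadd, hX3, -⟩ := add_self_some h h1 hy1
          have hR := hz.trans hadd
          have hG3 : 1 ≤ V (16 * X3) := by
            have := hsub.1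
            rw [hR] at this
            rw [← e16]
            exact this
          rw [hR]
          simp only [RS.tpar]
          rw [sub_zero]
          refine tpar_near h h2 h3 hG3 hτ (key_near hx1 hx2 ?_)
          subst hx
          subst hy
          rw [sub_zero] at hX3
          rw [hX3]
          have hs := ne_zero_sq hx1
          have e1' : (x1 / y1 - x1 / -y1) = 2 * x1 / y1 := by
            rw [div_neg]
            ring
          rw [e1']
          have e2' : (((x1 - 0) ^ 2 - (0 - 1) * (0 - -1)) / (2 * y1)) ^ 2 * (2 * x1 / y1) ^ 2 *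
              ((x1 ^ 2 - 1) * (x1 ^ 2 - 1)) =
              (x1 ^ 2 + 1) ^ 2 * x1 ^ 2 * (x1 ^ 2 - 1) ^ 2 / (y1 ^ 2) ^ 2 := by
            field_simp
            ring
          rw [e2', F1]
          field_simp
      · obtain ⟨x3, y3, h3, hR, hx3⟩ := RS.sub_some_of_X_ne h h1 h2' hx
        have hG3 : 1 ≤ V (16 * x3) := by
          have := hsub.1
          rw [hR] at this
          rw [← e16]
          exact this
        rw [hR]
        simp only [RS.tpar]
        rw [sub_zero]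
        refine tpar_near h h2 h3 hG3 hτ (key_near hx1 hx2 ?_)
        have hD : x1 - x2 ≠ 0 := sub_ne_zero.2 hx
        have hsD : ((y1 + y2) / (x1 - x2)) * (x1 - x2) = y1 + y2 := div_mul_cancel₀ _ hD
        have I1 : x3 * (x1 * x2 * (x1 - x2) ^ 2) = (x1 * y2 + x2 * y1) ^ 2 := by
          rw [hx3]
          linear_combination x1 * x2 * (((y1 + y2) / (x1 - x2)) * (x1 - x2) + (y1 + y2)) * hsD +
            (x1 - x2) * x2 * F1 - (x1 - x2) * x1 * F2
        have I2 : (x1 / y1 - x2 / y2) * (y1 * y2) = x1 * y2 - x2 * y1 := by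
          field_simp
        have I3 : (x1 * y2 - x2 * y1) * (x1 * y2 + x2 * y1) =
            -(x1 * x2 * (x1 - x2) * (x1 * x2 + 1)) := by
          linear_combination x1 ^ 2 * F2 - x2 ^ 2 * F1
        have I4 : x3 * (x1 / y1 - x2 / y2) ^ 2 * (y1 ^ 2 * y2 ^ 2) =
            x1 * x2 * (x1 * x2 + 1) ^ 2 := by
          have hne : x1 * x2 * (x1 - x2) ^ 2 ≠ 0 := mul_ne_zero (mul_ne_zero hX1 hX2) (pow_ne_zero 2 hD)
          apply mul_right_cancel₀ hne
          calc x3 * (x1 / y1 - x2 / y2) ^ 2 * (y1 ^ 2 * y2 ^ 2) * (x1 * x2 * (x1 - x2) ^ 2)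
              = (x3 * (x1 * x2 * (x1 - x2) ^ 2)) * ((x1 / y1 - x2 / y2) * (y1 * y2)) ^ 2 := by ring
            _ = ((x1 * y2 - x2 * y1) * (x1 * y2 + x2 * y1)) ^ 2 := by rw [I1, I2]; ring
            _ = _ := by rw [I3]; ring
        rw [F1, F2] at I4
        apply mul_left_cancel₀ (mul_ne_zero hX1 hX2)
        linear_combination I4

theorem tpar_sum (h : TwoTors W 0 1 (-1)) (h2 : V 2 < 1) {ι : Type*} (s : Finset ι)
    (P : ι → W.Point) (hP : ∀ j ∈ s, RS.InG V 0 4 (P j)) :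
    RS.InG V 0 4 (∑ j ∈ s, P j) ∧
      V (RS.tpar 0 (∑ j ∈ s, P j) - ∑ j ∈ s, RS.tpar 0 (P j)) < V 4 := by
  classical
  induction s using Finset.induction_on with
  | empty =>
    rw [Finset.sum_empty, Finset.sum_empty]
    have e : (RS.tpar 0 (0 : W.Point)) = 0 := rfl
    refine ⟨trivial, ?_⟩
    rw [e, sub_zero, map_zero]
    exact zero_lt_iff.2 four_ne
  | insert j s hj ih =>
    obtain ⟨ih1, ih2⟩ := ih fun k hk => hP k (Finset.mem_insert_of_mem hk)
    rw [Finset.sum_insert hj, Finset.sum_insert hj]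
    have h3 := tpar_sub h h2 (hP j (Finset.mem_insert_self _ _)) (inG_neg ih1)
    rw [sub_neg_eq_add, tpar_neg h, sub_neg_eq_add] at h3
    refine ⟨h3.1, ?_⟩
    have e : RS.tpar 0 (P j + ∑ k ∈ s, P k) - (RS.tpar 0 (P j) + ∑ k ∈ s, RS.tpar 0 (P k)) =
        (RS.tpar 0 (P j + ∑ k ∈ s, P k) - (RS.tpar 0 (P j) + RS.tpar 0 (∑ k ∈ s, P k))) +
        (RS.tpar 0 (∑ k ∈ s, P k) - ∑ k ∈ s, RS.tpar 0 (P k)) := by ring
    rw [e]
    exact (V.map_add _ _).trans_lt (max_lt h3.2 ih2)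

end Pool.Agent.Work.MP_787500_nt.HC
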