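import Mathlib
import Pool.Agent.Work.MP_787500_nt.HC.Basic
import Pool.Agent.Work.MP_787500_nt.HC.PtA

/-!
# Module PTB: the double of a point of the sequence

`P = (-u^2, u z)`, `y = u z ≠ 0`, `V u = 1` (`V (u + 1) < 1`). `2 P = P + P` (`two_nsmul`) has first coordinate
`X = ((u^4 + 1)/(2 u z))^2` (`add_self_some`, `(e1,e2,e3) = (0,1,-1)`) `= ((2 - z^2)/(2 u z))^2`, so
`V X = V 4 ^(-2)` (`V (z^2) < V 2`): `V (4^2 X) = 1`, `2 P` is in `InG`. `X z^2 = (1 - z^2/2)^2 / u^2`, so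
`V (X z^2 - 1) < 1` (`V (z^2/2) < 1`, `V (u^2 - 1) = V (u + 1) V (u + 1 - 2) < 1`). With `tpar_sq`:
`V (X (t^2 - z^2)) < 1`, so `V (t^2 - z^2) < V 4 ^2`, and `near_of_sq` with `τ = z`.
-/

set_option autoImplicit false

namespace Pool.Agent.Work.MP_787500_nt.HC

open WithZero IsDedekindDomain NumberField WeierstrassCurve WeierstrassCurve.Affine
open scoped Pointwise nonZeroDivisors

universe u

variable {F : Type*} [Field F] [CharZero F] [DecidableEq F] {V : Valuation F ℤᵐ⁰}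
variable {W : WeierstrassCurve.Affine F}

omit [DecidableEq F] [CharZero F] in
private theorem four_eq : V (4 : F) = V 2 * V 2 := by
  rw [← map_mul]
  norm_num

omit [DecidableEq F] [CharZero F] in
private theorem sixteen_eq : V (16 : F) = V 4 * V 4 := by
  rw [← map_mul]
  norm_num

omit [DecidableEq F] in
private theorem four_ne : V (4 : F) ≠ 0 := (Valuation.ne_zero_iff V).2 (by norm_num)

omit [DecidableEq F] in
private theorem two_ne : V (2 : F) ≠ 0 := (Valuation.ne_zero_iff V).2 two_ne_zero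

private theorem div_lt {a b : ℤᵐ⁰} (h : a < b) : a / b < 1 :=
  (div_lt_one₀ (zero_le.trans_lt h)).2 h

omit [DecidableEq F] in
/-- the parameter is close to `τ` -/
private theorem tpar_near (h : TwoTors W 0 1 (-1)) (h2 : V 2 < 1) {x y τ : F}
    (hn : W.Nonsingular x y) (hG : 1 ≤ V (16 * x)) (hτ : V τ ≤ V 4)
    (h1 : V (x * τ ^ 2 - 1) < 1) : V (x / y - τ) < V 4 := by
  obtain ⟨h3, h4⟩ := tpar_sq h h2 hn hG
  refine near_of_sq h2 hτ ?_
  have h5 : V (x * ((x / y) ^ 2 - τ ^ 2)) < 1 := by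
    have e : x * ((x / y) ^ 2 - τ ^ 2) = (x * (x / y) ^ 2 - 1) - (x * τ ^ 2 - 1) := by ring
    rw [e]
    exact (Valuation.map_sub V _ _).trans_lt (max_lt h3 h1)
  rw [map_mul] at h5
  have h6 : 1 ≤ V x * V 4 ^ 2 := by
    rw [mul_comm, ← map_pow, ← map_mul]
    have e : (4 : F) ^ 2 * x = 16 * x := by norm_num
    rw [e]
    exact hG
  exact lt_of_mul_lt_mul_left' (h5.trans_le h6)

theorem double_near (h : TwoTors W 0 1 (-1)) (h2 : V 2 < 1) {u z : F} (huz : u ^ 4 = 1 - z ^ 2)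
    (hz : V z = V 4) (hu : V (u + 1) < 1) (hn : W.Nonsingular (-u ^ 2) (u * z)) :
    RS.InG V 0 4 ((2 : ℕ) • (Point.some _ _ hn : W.Point)) ∧
      V (RS.tpar 0 ((2 : ℕ) • (Point.some _ _ hn : W.Point)) - z) < V 4 := by
  have h20 : (2 : F) ≠ 0 := two_ne_zero
  have hVu : V u = 1 := by
    have e : u = (u + 1) - 1 := by ring
    rw [e, Valuation.map_sub_eq_of_lt_right V (by rw [map_one]; exact hu), map_one]
  have hu0 : u ≠ 0 := by
    rintro rfl
    rw [map_zero] at hVu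
    exact zero_ne_one hVu
  have hz0 : z ≠ 0 := by
    rintro rfl
    rw [map_zero] at hz
    exact four_ne hz.symm
  obtain ⟨X, Y, h3, hadd, hX, -⟩ := add_self_some h hn (mul_ne_zero hu0 hz0)
  have hX' : X = ((2 - z ^ 2) / (2 * (u * z))) ^ 2 := by
    rw [← sub_zero X, hX]
    have e : (-u ^ 2 - 0) ^ 2 - (0 - 1) * (0 - -1) = 2 - z ^ 2 := by
      linear_combination huz
    rw [e]
  have hXz : X * z ^ 2 = (1 - z ^ 2 / 2) ^ 2 / u ^ 2 := by
    rw [hX']
    field_simp
  have h42 : V (4 : F) < V 2 := by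
    rw [four_eq]
    calc V (2 : F) * V 2 < V 2 * 1 := mul_lt_mul_of_pos_left h2 (zero_lt_iff.2 two_ne)
      _ = V 2 := mul_one _
  have h41 : V (4 : F) < 1 := h42.trans h2
  have hz2 : V (z ^ 2) < V 2 := by
    rw [map_pow, hz, pow_two]
    calc V (4 : F) * V 4 < V 4 * 1 := mul_lt_mul_of_pos_left h41 (zero_lt_iff.2 four_ne)
      _ = V 4 := mul_one _
      _ < V 2 := h42
  have hz3 : V (z ^ 2 / 2) < 1 := by
    rw [map_div₀]
    exact div_lt hz2
  have hA : V (1 - z ^ 2 / 2) = 1 := by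
    rw [Valuation.map_sub_eq_of_lt_left V (by rw [map_one]; exact hz3), map_one]
  have hB : V (X * z ^ 2) = 1 := by
    rw [hXz, map_div₀, map_pow, map_pow, hA, hVu, one_pow, div_one]
  have hG : 1 ≤ V (16 * X) := by
    rw [map_mul, sixteen_eq]
    rw [map_mul, map_pow, hz, pow_two, mul_comm] at hB
    exact hB.ge
  have hC : V (X * z ^ 2 - 1) < 1 := by
    have e : X * z ^ 2 - 1 = (-(z ^ 2) + (z ^ 2 / 2) ^ 2 - (u + 1) * ((u + 1) - 2)) / u ^ 2 := by
      rw [hXz]
      field_simp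
      ring
    rw [e, map_div₀, map_pow, hVu, one_pow, div_one]
    have c1 : V (-(z ^ 2)) < 1 := by
      rw [Valuation.map_neg]
      exact hz2.trans h2
    have c2 : V ((z ^ 2 / 2) ^ 2) < 1 := by
      rw [map_pow]
      exact pow_lt_one₀ zero_le hz3 two_ne_zero
    have c3 : V ((u + 1) - 2) < 1 := (Valuation.map_sub V _ _).trans_lt (max_lt hu h2)
    have c4 : V ((u + 1) * ((u + 1) - 2)) < 1 := by
      rw [map_mul]
      exact mul_lt_one' hu c3
    exact (Valuation.map_sub V _ _).trans_lt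
      (max_lt ((V.map_add _ _).trans_lt (max_lt c1 c2)) c4)
  rw [two_nsmul, hadd]
  refine ⟨?_, ?_⟩
  · show 1 ≤ V (4 ^ 2 * (X - 0))
    have e : (4 : F) ^ 2 * (X - 0) = 16 * X := by
      rw [sub_zero]
      norm_num
    rw [e]
    exact hG
  · simp only [RS.tpar]
    rw [sub_zero]
    exact tpar_near h h2 h3 hG hz.le hC

end Pool.Agent.Work.MP_787500_nt.HC
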