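import Mathlib
import Pool.Agent.Work.MP_787500_nt.HC.Basic
import Pool.Agent.Work.MP_787500_nt.HC.PtA
import Pool.Agent.Work.MP_787500_nt.RS.NonTor

/-!
# Module PTC: a sum of points of infinite order

`V = Q.valuation F`, `V 2 < 1` (`HeightOneSpectrum.valuation_lt_one_iff_mem`). `R = ∑ P c`,
`2 R = ∑ 2 P c` (`Finset.nsmul_sum`). `tpar_sum` and `hz`: `V (t(2R) - ∑ z c) < V 4`, so `V (t (2R)) = V 4 ≠ 0`
by `hs`; so `2 R ≠ 0`, `2 R = (X, Y)` with `V (t)^2 V X = 1` (`tpar_sq`), `V X = V 4 ^(-2) > 1`. By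
`RS.not_torsion_of_large`, `m • 2 R ≠ 0`, so `m • R ≠ 0`.
-/

set_option autoImplicit false

namespace Pool.Agent.Work.MP_787500_nt.HC

open WithZero IsDedekindDomain NumberField WeierstrassCurve WeierstrassCurve.Affine
open scoped Pointwise nonZeroDivisors

universe u

variable {F : Type*} [Field F] [NumberField F] [DecidableEq F]
variable {W : WeierstrassCurve.Affine F}

omit [NumberField F] [DecidableEq F] in
private theorem inG_some {V : Valuation F ℤᵐ⁰} {x y : F} {hn : W.Nonsingular x y}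
    (hG : RS.InG V 0 4 (Point.some x y hn : W.Point)) : 1 ≤ V (16 * x) := by
  have e : (4 : F) ^ 2 * (x - 0) = 16 * x := by
    rw [sub_zero]
    norm_num
  rw [← e]
  exact hG

theorem sum_nontorsion (h : TwoTors W 0 1 (-1)) {Q : HeightOneSpectrum (𝓞 F)}
    (hQ : (2 : 𝓞 F) ∈ Q.asIdeal) {ι : Type*} (C : Finset ι) (P : ι → W.Point) (z : ι → F)
    (hP : ∀ c ∈ C, RS.InG (Q.valuation F) 0 4 ((2 : ℕ) • P c))
    (hz : ∀ c ∈ C, Q.valuation F (RS.tpar 0 ((2 : ℕ) • P c) - z c) < Q.valuation F 4)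
    (hs : Q.valuation F (∑ c ∈ C, z c) = Q.valuation F 4) {m : ℕ} (hm : m ≠ 0) :
    m • (∑ c ∈ C, P c) ≠ 0 := by
  have h2 : Q.valuation F 2 < 1 := by
    have e : (2 : F) = algebraMap (𝓞 F) F 2 := by rw [map_ofNat]
    rw [e, HeightOneSpectrum.valuation_lt_one_iff_mem]
    exact hQ
  have h40 : Q.valuation F (4 : F) ≠ 0 := (Valuation.ne_zero_iff _).2 (by norm_num)
  obtain ⟨hG, ht⟩ := tpar_sum h h2 C (fun c => (2 : ℕ) • P c) hP
  have hR : (2 : ℕ) • (∑ c ∈ C, P c) = ∑ c ∈ C, (2 : ℕ) • P c := (Finset.sum_nsmul _ _ _).symm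
  rw [← hR] at hG ht
  intro h0
  have hV : Q.valuation F (RS.tpar 0 ((2 : ℕ) • (∑ c ∈ C, P c))) = Q.valuation F 4 := by
    have e : RS.tpar 0 ((2 : ℕ) • (∑ c ∈ C, P c)) =
        ((RS.tpar 0 ((2 : ℕ) • (∑ c ∈ C, P c)) - ∑ c ∈ C, RS.tpar 0 ((2 : ℕ) • P c)) +
          ∑ c ∈ C, (RS.tpar 0 ((2 : ℕ) • P c) - z c)) + ∑ c ∈ C, z c := by
      rw [Finset.sum_sub_distrib]
      ring
    rw [e, Valuation.map_add_eq_of_lt_right, hs]
    rw [hs]
    refine (Valuation.map_add _ _ _).trans_lt (max_lt ht ?_)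
    exact Valuation.map_sum_lt _ h40 hz
  have h5 : m • ((2 : ℕ) • (∑ c ∈ C, P c)) = 0 := by
    rw [smul_comm, h0, smul_zero]
  rcases hcase : ((2 : ℕ) • (∑ c ∈ C, P c)) with _ | ⟨X, Y, hn⟩
  · rw [hcase] at hV
    have e2 : RS.tpar 0 (Point.zero : W.Point) = 0 := rfl
    rw [e2, map_zero] at hV
    exact h40 hV.symm
  · rw [hcase] at hV hG h5
    have hG' := inG_some hG
    obtain ⟨-, h7⟩ := tpar_sq h h2 hn hG'
    simp only [RS.tpar, sub_zero] at hV
    rw [hV] at h7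
    have h4 : Q.valuation F (4 : F) < 1 := by
      have e : (4 : F) = 2 * 2 := by norm_num
      rw [e, map_mul]
      exact mul_lt_one' h2 h2
    have hX : 1 < Q.valuation F X := by
      by_contra hc
      rw [not_lt] at hc
      have h8 : Q.valuation F (4 : F) ^ 2 * Q.valuation F X < 1 :=
        (mul_le_mul_right hc _).trans_lt (by
          rw [mul_one]
          exact pow_lt_one₀ zero_le h4 two_ne_zero)
      exact absurd h7 h8.ne
    exact RS.not_torsion_of_large h hQ hn hX hm h5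

end Pool.Agent.Work.MP_787500_nt.HC
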