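import Mathlib
import Pool.Agent.Work.MP_787500_nt.HC.Basic
import Pool.Agent.Work.MP_787500_nt.HC.LyH
import Pool.Agent.Work.MP_787500_nt.HC.PtB
import Pool.Agent.Work.MP_787500_nt.HC.PtC
import Pool.Agent.Work.MP_787500_nt.H9_Descent

/-!
# Module LYI: the trace point (abstract)

`M` is a number field, `W0 : y^2 = x (x-1)(x+1)` over `K`. The point `P = (-u_n^2, u_n z)`, `z = b n / a n`,
`u_n^4 = 1 - z^2` (`sq4_ne`), is on the curve over `M`. Let `R = ∑ g ∈ C, g P` (`Point.map` for `g`).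
* infinite order: `sum_nontorsion` with `P g = Point.map g P = (-(g u)^2, g u * g z)` and `z g = g z`:
  for `g ∈ C` the sequence `g ∘ a, g ∘ b, g ∘ u` starts from `W (c g)`, `W' (c g)`; `seq_val` gives `V (g z) = V 4`,
  `V (g u + 1) < 1`; `double_near`; `sum_val`.
* fixed by `g ∈ C`: permutes the terms.
* if `τ` fixes `u_n` and negates `z` then `τ P = -P` (`(x, y) ↦ (x, -y)`, `negY_eq`), and `τ` commutes with all
  `g`, so `τ R = -R`.
(`mp` and its lemmas: see the private definitions in `RS/RankStep.lean`.)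
-/

set_option autoImplicit false

namespace Pool.Agent.Work.MP_787500_nt.HC

open WithZero IsDedekindDomain NumberField WeierstrassCurve WeierstrassCurve.Affine
open scoped Pointwise nonZeroDivisors

universe u

variable {K M A : Type*} [Field K] [CharZero K] [Field M] [NumberField M] [Algebra K M]
variable [FiniteDimensional K M] [CommGroup A] [Finite A]
variable {p : A} {h : ℕ} {α : K} {W W' : A → M}

open scoped Classical in
/-- the automorphisms act on the points -/
private noncomputable def mpi {K F : Type*} [Field K] [Field F] [Algebra K F]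
    (W : WeierstrassCurve.Affine K) (f : F ≃ₐ[K] F) : (W⁄F).Point →+ (W⁄F).Point :=
  Point.map (W' := W) (f : F →ₐ[K] F)

open scoped Classical in
private theorem mpi_mul {K F : Type*} [Field K] [Field F] [Algebra K F]
    (W : WeierstrassCurve.Affine K) (f g : F ≃ₐ[K] F) (P : (W⁄F).Point) :
    mpi W (f * g) P = mpi W f (mpi W g P) := by
  rw [mpi, mpi, mpi, Point.map_map]
  rfl

open scoped Classical in
private theorem mpi_some {K F : Type*} [Field K] [Field F] [Algebra K F]
    (W : WeierstrassCurve.Affine K) (g : F ≃ₐ[K] F) {x y x' y' : F} (hn : (W⁄F).Nonsingular x y)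
    (hx : g x = x') (hy : g y = y') : ∃ hn' : (W⁄F).Nonsingular x' y',
      mpi W g (Point.some x y hn) = Point.some x' y' hn' := by
  have h1 : (W⁄F).Nonsingular (g x) (g y) :=
    (W.baseChange_nonsingular (f := (g : F →ₐ[K] F)) g.injective x y).mpr hn
  subst hx hy
  refine ⟨h1, ?_⟩
  rw [mpi, Point.map_some]
  rfl

open scoped Classical in
theorem exists_trace_point [IsGalois K M] (hh : Odd h)
    (hcomm : ∀ σ τ : M ≃ₐ[K] M, σ * τ = τ * σ) {e : ℕ}
    (he : ∀ τ : M ≃ₐ[K] M, (τ ^ h) ^ 2 ^ e = 1) (H : Wdata K M p h α W W')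
    {Q : HeightOneSpectrum (𝓞 M)} (hQ : (2 : 𝓞 M) ∈ Q.asIdeal)
    (hV : Dya K (Q.valuation M) h α) (hact : Act K M W W')
    (hfix : ∀ τ : M ≃ₐ[K] M, (τ ^ h) (W' 1) = W' 1) {i : M} {a b u : ℕ → M} {n : ℕ}
    (hS : Sq4 (W 1) (W' 1) i a b u n) {W0 : WeierstrassCurve.Affine K}
    (h0 : TwoTors W0 0 1 (-1)) :
    ∃ R : (W0⁄M).Point, (∀ m : ℕ, m ≠ 0 → m • R ≠ 0) ∧
      (∀ g : M ≃ₐ[K] M, g ^ h = 1 → Point.map (W' := W0) (g : M →ₐ[K] M) R = R) ∧
      (∀ τ : M ≃ₐ[K] M, τ (u n) = u n → τ (b n / a n) = -(b n / a n) →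
        Point.map (W' := W0) (τ : M →ₐ[K] M) R = -R) := by
  have hM : TwoTors (W0⁄M) 0 1 (-1) := by
    have := h0.bc M
    rwa [map_zero, map_one, map_neg, map_one] at this
  obtain ⟨ha0, hb0, -, -, hu0, heq⟩ := sq4_ne hS (le_refl n)
  set z : M := b n / a n with hz
  have hu4 : u n ^ 4 = 1 - z ^ 2 := by
    rw [hz]
    field_simp
    exact heq
  have h2 : Q.valuation M 2 < 1 := hV.two
  have hns : (W0⁄M).Nonsingular (-u n ^ 2) (u n * z) := by
    apply hM.nonsingular_of_eq
    linear_combination (u n ^ 2) * hu4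
  set C : Finset (M ≃ₐ[K] M) := Finset.univ.filter (fun g => g ^ h = 1) with hCdef
  have hC : ∀ g, g ∈ C ↔ g ^ h = 1 := fun g => by
    rw [hCdef, Finset.mem_filter]
    exact ⟨fun h => h.2, fun h => ⟨Finset.mem_univ _, h⟩⟩
  set P : (W0⁄M).Point := Point.some _ _ hns with hP
  have hmap : ∀ g : M ≃ₐ[K] M, ∃ hn : (W0⁄M).Nonsingular (-(g (u n)) ^ 2) (g (u n) * g z),
      mpi W0 g P = Point.some _ _ hn := fun g =>
    mpi_some W0 g hns (by rw [map_neg, map_pow]) (by rw [map_mul])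
  have hseq : ∀ g : M ≃ₐ[K] M, Q.valuation M (g z) = Q.valuation M 4 ∧
      Q.valuation M (g (u n) + 1) < 1 := by
    intro g
    obtain ⟨c, hc⟩ := hact g
    have h1 := hc 1
    rw [mul_one] at h1
    have h3 : Sq4 (W c) (W' c) (g i) (g ∘ a) (g ∘ b) (g ∘ u) n := by
      have := hS.map (g : M →+* M)
      rw [← h1.1, ← h1.2]
      exact this
    obtain ⟨h4, -, h5, -⟩ := seq_val H hV h3 (le_refl n)
    simp only [Function.comp_apply] at h4 h5
    rw [hz, map_div₀]
    exact ⟨h4, h5⟩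
  refine ⟨∑ g ∈ C, mpi W0 g P, ?_, ?_, ?_⟩
  · intro m hm
    refine sum_nontorsion hM hQ C (fun g => mpi W0 g P) (fun g => g z) ?_ ?_ ?_ hm
    · intro g _
      obtain ⟨hn, e⟩ := hmap g
      rw [e]
      exact (double_near hM h2 (by rw [← map_pow, hu4, map_sub, map_one, map_pow]) (hseq g).1
        (hseq g).2 hn).1
    · intro g _
      obtain ⟨hn, e⟩ := hmap g
      rw [e]
      exact (double_near hM h2 (by rw [← map_pow, hu4, map_sub, map_one, map_pow]) (hseq g).1
        (hseq g).2 hn).2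
    · exact sum_val hh hcomm he C hC H hV hact hfix hS
  · intro g hg
    show mpi W0 g (∑ g ∈ C, mpi W0 g P) = ∑ g ∈ C, mpi W0 g P
    rw [map_sum]
    refine Finset.sum_equiv (Equiv.mulLeft g) ?_ ?_
    · intro g'
      rw [hC, hC, Equiv.coe_mulLeft]
      have e : (g * g') ^ h = g' ^ h := by
        rw [Commute.mul_pow (hcomm g g'), hg, one_mul]
      rw [e]
    · intro g' _
      rw [Equiv.coe_mulLeft, mpi_mul]
  · intro τ hτu hτz
    show mpi W0 τ (∑ g ∈ C, mpi W0 g P) = -∑ g ∈ C, mpi W0 g P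
    have hτP : mpi W0 τ P = -P := by
      obtain ⟨hn, e⟩ := mpi_some W0 τ hns (x' := -u n ^ 2) (y' := -(u n * z))
        (by rw [map_neg, map_pow, hτu]) (by rw [map_mul, hτu, hτz]; ring)
      rw [hP, e, Point.neg_some]
      simp only [Point.some.injEq, true_and]
      exact (hM.negY_eq _ _).symm
    rw [map_sum, ← Finset.sum_neg_distrib]
    refine Finset.sum_congr rfl fun g _ => ?_
    rw [← mpi_mul, hcomm, mpi_mul, hτP, map_neg]


end Pool.Agent.Work.MP_787500_nt.HC
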