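import Mathlib
import Pool.Agent.Work.MP_787500_nt.HC.Basic
import Pool.Agent.Work.MP_787500_nt.HC.LyA
import Pool.Agent.Work.MP_787500_nt.HC.LyB
import Pool.Agent.Work.MP_787500_nt.HC.LyC

/-!
# Module LYJ: restriction to a layer

`res M f` is the function `f` with values in `M` (0 outside). For `M = layM n`: `Sq4.comap` with `M.val`
(`mem_a`, `mem_b`, `mem_u`), `Wdata.comap`, `Act` (lift the automorphism of `M` to `Ω` by `ab_galois`),
`res_fix`: `pow_fix` for a lift; `adjoin_res`: as in `RS/Sharp.lean`.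
-/

set_option autoImplicit false

namespace Pool.Agent.Work.MP_787500_nt.HC

open WithZero IsDedekindDomain NumberField
open scoped Pointwise nonZeroDivisors

universe u

open scoped Classical in
/-- a function with values in an intermediate field -/
noncomputable def res {K Ω X : Type*} [Field K] [Field Ω] [Algebra K Ω]
    (M : IntermediateField K Ω) (f : X → Ω) (x : X) : M :=
  if h : f x ∈ M then ⟨f x, h⟩ else 0

theorem res_coe {K Ω X : Type*} [Field K] [Field Ω] [Algebra K Ω]
    {M : IntermediateField K Ω} {f : X → Ω} {x : X} (h : f x ∈ M) :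
    ((res M f x : M) : Ω) = f x := by
  rw [res, dif_pos h]

variable {K : Type u} [Field K] [NumberField K] {q : ℕ} {s : K} {v : HeightOneSpectrum (𝓞 K)}
variable {α : Kˣ} {W W' : ClassGroup (𝓞 K) → AlgebraicClosure K} {i : AlgebraicClosure K}
variable {a b u : ℕ → AlgebraicClosure K}


theorem sq4_res (hS : ∀ n, Sq4 (W 1) (W' 1) i a b u n) (n : ℕ) :
    Sq4 (res (layM W W' i b n) W 1) (res (layM W W' i b n) W' 1) ⟨i, mem_i n⟩
      (res (layM W W' i b n) a) (res (layM W W' i b n) b) (res (layM W W' i b n) u) n := by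
  set M := layM W W' i b n with hM
  have hW : algebraMap M (AlgebraicClosure K) (res M W 1) = W 1 := res_coe (mem_W n 1)
  have hW' : algebraMap M (AlgebraicClosure K) (res M W' 1) = W' 1 := res_coe (mem_W' n 1)
  refine Sq4.comap (algebraMap M (AlgebraicClosure K)) (A := a) (B := b) (U := u) ?_
    (fun m hm => res_coe (mem_a hS (by omega))) (fun m hm => res_coe (mem_b hm))
    (fun m hm => res_coe (mem_u hS (by omega)))
  rw [hW, hW']
  exact hS n

theorem wdata_res (hC : Ctx K q s v α W W') (n : ℕ) :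
    Wdata K (layM W W' i b n) (cl (pr v)⁻¹) (hK K) (α : K) (res (layM W W' i b n) W)
      (res (layM W W' i b n) W') := by
  set M := layM W W' i b n with hM
  have hW : (fun c => M.val (res M W c)) = W := funext fun c => res_coe (mem_W n c)
  have hW' : (fun c => M.val (res M W' c)) = W' := funext fun c => res_coe (mem_W' n c)
  refine Wdata.comap M.val ?_
  rw [hW, hW']
  exact hC.data

theorem act_res (hC : Ctx K q s v α W W') (hS : ∀ n, Sq4 (W 1) (W' 1) i a b u n) (n : ℕ) :
    Act K (layM W W' i b n) (res (layM W W' i b n) W) (res (layM W W' i b n) W') := by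
  intro σ
  have hfin : FiniteDimensional K (layM W W' i b n) := layM_finite n
  obtain ⟨-, -, -, -, hlift⟩ := ab_galois (layM W W' i b n) (layM_le_ab hC hS n)
  obtain ⟨τ, hτ⟩ := hlift σ
  obtain ⟨c, hc⟩ := hC.act τ
  refine ⟨c, fun x => ⟨?_, ?_⟩⟩
  · apply Subtype.ext
    rw [hτ, res_coe (mem_W n _), res_coe (mem_W n _), (hc x).1]
  · apply Subtype.ext
    rw [hτ, res_coe (mem_W' n _), res_coe (mem_W' n _), (hc x).2]

theorem res_fix (hC : Ctx K q s v α W W') (hS : ∀ n, Sq4 (W 1) (W' 1) i a b u n) (n : ℕ)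
    (τ : layM W W' i b n ≃ₐ[K] layM W W' i b n) (c : ClassGroup (𝓞 K)) :
    (τ ^ hK K) (res (layM W W' i b n) W c) = res (layM W W' i b n) W c ∧
      (τ ^ hK K) (res (layM W W' i b n) W' c) = res (layM W W' i b n) W' c := by
  have hfin : FiniteDimensional K (layM W W' i b n) := layM_finite n
  obtain ⟨-, -, -, -, hlift⟩ := ab_galois (layM W W' i b n) (layM_le_ab hC hS n)
  obtain ⟨σ, hσ⟩ := hlift τ
  have hpow : ∀ (k : ℕ) (x : layM W W' i b n),
      (((τ ^ k) x : layM W W' i b n) : AlgebraicClosure K) = (σ ^ k) x := by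
    intro k
    induction k with
    | zero => intro x; rfl
    | succ k ih =>
      intro x
      rw [pow_succ', pow_succ', AlgEquiv.mul_apply, AlgEquiv.mul_apply, hσ, ih]
  refine ⟨?_, ?_⟩
  · apply Subtype.ext
    rw [hpow, res_coe (mem_W n _), (pow_fix hC σ c).1]
  · apply Subtype.ext
    rw [hpow, res_coe (mem_W' n _), (pow_fix hC σ c).2]

theorem adjoin_res (n : ℕ) :
    IntermediateField.adjoin K ({(⟨i, mem_i n⟩ : layM W W' i b n)} ∪
      {z | ∃ m, m ≤ n ∧ z = res (layM W W' i b n) b m} ∪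
      (Set.range (res (layM W W' i b n) W) ∪ Set.range (res (layM W W' i b n) W'))) = ⊤ := by
  apply IntermediateField.map_injective (layM W W' i b n).val
  rw [IntermediateField.adjoin_map, ← AlgHom.fieldRange_eq_map, IntermediateField.fieldRange_val]
  show _ = IntermediateField.adjoin K _
  congr 1
  ext z
  constructor
  · rintro ⟨y, (hy | ⟨m, hm, rfl⟩) | (⟨c, rfl⟩ | ⟨c, rfl⟩), rfl⟩
    · left; left
      rw [Set.mem_singleton_iff.1 hy]
      rfl
    · left; right
      exact ⟨m, hm, res_coe (mem_b hm)⟩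
    · right; left
      exact ⟨c, (res_coe (mem_W n c)).symm⟩
    · right; right
      exact ⟨c, (res_coe (mem_W' n c)).symm⟩
  · rintro ((hy | ⟨m, hm, rfl⟩) | (⟨c, rfl⟩ | ⟨c, rfl⟩))
    · rw [Set.mem_singleton_iff.1 hy]
      exact ⟨⟨i, mem_i n⟩, Or.inl (Or.inl rfl), rfl⟩
    · exact ⟨res _ b m, Or.inl (Or.inr ⟨m, hm, rfl⟩), res_coe (mem_b hm)⟩
    · exact ⟨res _ W c, Or.inr (Or.inl ⟨c, rfl⟩), res_coe (mem_W n c)⟩
    · exact ⟨res _ W' c, Or.inr (Or.inr ⟨c, rfl⟩), res_coe (mem_W' n c)⟩

end Pool.Agent.Work.MP_787500_nt.HC
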