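import Mathlib
import Pool.Agent.Work.MP_787500_nt.HC.Basic
import Pool.Agent.Work.MP_787500_nt.HC.LyI
import Pool.Agent.Work.MP_787500_nt.HC.LyJ
import Pool.Agent.Work.MP_787500_nt.HC.LyE
import Pool.Agent.Work.MP_787500_nt.HC.LyF
import Pool.Agent.Work.MP_787500_nt.HC.ArB
import Pool.Agent.Work.MP_787500_nt.HC.ArE

/-!
# Module LYK: a point of infinite order over `layF n`

`M = layM n`, a number field (finite over `K`). `exists_dya` gives `Q`, `exists_trace_point` (with `e = n + 1`,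
`pow_pow_eq_one`, `odd_hK`, `wdata_res`, `act_res`, `res_fix`, `sq4_res`) gives `R`. `R ≠ 0` (`m = 1`), `R = (x, y)`,
`x, y ∈ M` are fixed by the `g` with `g^h = 1`, so (as elements of `Ω`) they are in `layF n`: for `τ` on `Ω` with
`τ^h = 1` on `M`, its restriction `g` to `M` satisfies `g^h = 1`. The point over `layF n` with these
coordinates maps to `R` under the injective map induced by `layF n → M`, so it has infinite order.
If `τ` fixes `a n`, `u n` and negates `b n`, its restriction to `M` maps `R` to `-R`, i.e. `τ x = x`,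
`τ y = -y` (`negY`).
-/

set_option autoImplicit false

namespace Pool.Agent.Work.MP_787500_nt.HC

open WithZero IsDedekindDomain NumberField
open scoped Pointwise nonZeroDivisors

universe u

variable {K : Type u} [Field K] [NumberField K] {q : ℕ} {s : K} {v : HeightOneSpectrum (𝓞 K)}
variable {α : Kˣ} {W W' : ClassGroup (𝓞 K) → AlgebraicClosure K} {i : AlgebraicClosure K}
variable {a b u : ℕ → AlgebraicClosure K}


open scoped WeierstrassCurve.Affine

omit [NumberField K] in
private theorem lk_tt [CharZero K] : TwoTors (legendre (0 : K) 1 (-1)) 0 1 (-1) :=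
  ⟨rfl, rfl, rfl, rfl, rfl, by norm_num, by norm_num, by norm_num⟩

omit [NumberField K] in
private theorem lk_bc (F : Type*) [Field F] [Algebra K F] :
    ((legendre (0 : K) 1 (-1))⁄F) = legendre (0 : F) 1 (-1) := by
  ext <;> simp [legendre]

omit [NumberField K] in
/-- a point with coordinates in a subfield -/
private theorem lk_desc {F M : Type*} [Field F] [Field M] [Algebra K F] [Algebra K M]
    {_ : DecidableEq F} {_ : DecidableEq M}
    (W₀ : WeierstrassCurve.Affine K) (ψ : F →ₐ[K] M) {x y : F} {X Y : M} (hx : ψ x = X)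
    (hy : ψ y = Y) (hn : (W₀⁄M).Nonsingular X Y)
    (hR : ∀ m : ℕ, m ≠ 0 → m • (WeierstrassCurve.Affine.Point.some X Y hn : (W₀⁄M).Point) ≠ 0) :
    ∃ hn' : (W₀⁄F).Nonsingular x y, ∀ m : ℕ, m ≠ 0 →
      m • (WeierstrassCurve.Affine.Point.some x y hn' : (W₀⁄F).Point) ≠ 0 := by
  subst hx hy
  have hn' : (W₀⁄F).Nonsingular x y :=
    (W₀.baseChange_nonsingular (f := ψ) ψ.injective x y).mp hn
  refine ⟨hn', fun m hm h0 => hR m hm ?_⟩
  have e := congrArg (WeierstrassCurve.Affine.Point.map (W' := W₀) ψ) h0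
  rw [map_nsmul, map_zero, WeierstrassCurve.Affine.Point.map_some] at e
  exact e

omit [NumberField K] in
private theorem lk_fix {M : Type*} [Field M] [Algebra K M] {_ : DecidableEq M}
    (W₀ : WeierstrassCurve.Affine K) (g : M ≃ₐ[K] M) {X Y : M} (hn : (W₀⁄M).Nonsingular X Y)
    (h : WeierstrassCurve.Affine.Point.map (W' := W₀) (g : M →ₐ[K] M)
      (WeierstrassCurve.Affine.Point.some X Y hn) = WeierstrassCurve.Affine.Point.some X Y hn) :
    g X = X ∧ g Y = Y := by
  rw [WeierstrassCurve.Affine.Point.map_some] at h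
  simp only [WeierstrassCurve.Affine.Point.some.injEq] at h
  exact h

omit [NumberField K] in
private theorem lk_neg {M : Type*} [Field M] [Algebra K M] {_ : DecidableEq M}
    (W₀ : WeierstrassCurve.Affine K) (hM : TwoTors (W₀⁄M) 0 1 (-1))
    (g : M ≃ₐ[K] M) {X Y : M} (hn : (W₀⁄M).Nonsingular X Y)
    (h : WeierstrassCurve.Affine.Point.map (W' := W₀) (g : M →ₐ[K] M)
      (WeierstrassCurve.Affine.Point.some X Y hn) =
        -(WeierstrassCurve.Affine.Point.some X Y hn : (W₀⁄M).Point)) :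
    g X = X ∧ g Y = -Y := by
  rw [WeierstrassCurve.Affine.Point.map_some, WeierstrassCurve.Affine.Point.neg_some] at h
  simp only [WeierstrassCurve.Affine.Point.some.injEq] at h
  rw [hM.negY_eq] at h
  exact h

omit [NumberField K] in
private theorem lk_cases {M : Type*} [Field M] [Algebra K M] {_ : DecidableEq M}
    (W₀ : WeierstrassCurve.Affine K) (R : (W₀⁄M).Point) (hR : ∀ m : ℕ, m ≠ 0 → m • R ≠ 0) :
    ∃ (X Y : M) (hn : (W₀⁄M).Nonsingular X Y), R = WeierstrassCurve.Affine.Point.some X Y hn := by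
  rcases R with _ | ⟨X, Y, hn⟩
  · exact absurd (smul_zero (1 : ℕ)) (hR 1 one_ne_zero)
  · exact ⟨X, Y, hn, rfl⟩

open scoped Classical in
theorem exists_point (hC : Ctx K q s v α W W') (hS : ∀ n, Sq4 (W 1) (W' 1) i a b u n) (n : ℕ)
    [NumberField (layF W W' i b n)] :
    ∃ (x y : layF W W' i b n) (hn : (legendre (0 : layF W W' i b n) 1 (-1)).Nonsingular x y),
      (∀ m : ℕ, m ≠ 0 → m • (WeierstrassCurve.Affine.Point.some x y hn :
        (legendre (0 : layF W W' i b n) 1 (-1)).Point) ≠ 0) ∧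
      ∀ τ : AlgebraicClosure K ≃ₐ[K] AlgebraicClosure K, τ (a n) = a n → τ (u n) = u n →
        τ (b n) = -b n → τ x = x ∧ τ y = -y := by
  set M := layM W W' i b n with hMdef
  have hfin : FiniteDimensional K M := layM_finite n
  have hNF : NumberField M := NumberField.of_module_finite K M
  obtain ⟨hgal, hcomm, -, hres, -⟩ := ab_galois M (layM_le_ab hC hS n)
  obtain ⟨Q, hQ, hV⟩ := exists_dya hC.base hC.two hC.al M
  obtain ⟨R, hR, hRfix, hRneg⟩ := exists_trace_point (odd_hK hC.base) hcomm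
    (pow_pow_eq_one hC hS n) (wdata_res hC n) hQ hV (act_res hC hS n)
    (fun τ => (res_fix hC hS n τ 1).2) (sq4_res hS n) (lk_tt (K := K))
  obtain ⟨X, Y, hn, rfl⟩ := lk_cases (legendre (0 : K) 1 (-1)) R hR
  have hpow : ∀ (g : M ≃ₐ[K] M) (σ : AlgebraicClosure K ≃ₐ[K] AlgebraicClosure K),
      (∀ x : M, ((g x : M) : AlgebraicClosure K) = σ x) → ∀ (k : ℕ) (x : M),
      (((g ^ k) x : M) : AlgebraicClosure K) = (σ ^ k) x := by
    intro g σ h k
    induction k with
    | zero => intro x; rfl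
    | succ k ih =>
      intro x
      rw [pow_succ', pow_succ', AlgEquiv.mul_apply, AlgEquiv.mul_apply, h, ih]
  have hfix : ∀ g : M ≃ₐ[K] M, g ^ hK K = 1 → g X = X ∧ g Y = Y := fun g hg =>
    lk_fix _ g hn (hRfix g hg)
  have hmem : ∀ Z : M, (∀ g : M ≃ₐ[K] M, g ^ hK K = 1 → g Z = Z) →
      (Z : AlgebraicClosure K) ∈ layF W W' i b n := by
    intro Z hZ
    rw [mem_layF]
    refine ⟨Z.2, fun τ hτ => ?_⟩
    obtain ⟨g, hg⟩ := hres τ
    rw [← hg, hZ g]
    ext x
    rw [hpow g τ hg, hτ _ x.2]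
    rfl
  have hX := hmem X (fun g hg => (hfix g hg).1)
  have hY := hmem Y (fun g hg => (hfix g hg).2)
  have key : ∃ hn' : (legendre (0 : layF W W' i b n) 1 (-1)).Nonsingular ⟨X, hX⟩ ⟨Y, hY⟩,
      ∀ m : ℕ, m ≠ 0 → m • (WeierstrassCurve.Affine.Point.some ⟨X, hX⟩ ⟨Y, hY⟩ hn' :
        (legendre (0 : layF W W' i b n) 1 (-1)).Point) ≠ 0 := by
    rw [← lk_bc (K := K) (layF W W' i b n)]
    exact lk_desc (legendre (0 : K) 1 (-1)) (IntermediateField.inclusion
      (layF_le (W := W) (W' := W') (i := i) (b := b) n)) (x := ⟨X, hX⟩) (y := ⟨Y, hY⟩) (X := X)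
      (Y := Y) rfl rfl hn hR
  obtain ⟨hn'', hinf'⟩ := key
  refine ⟨⟨X, hX⟩, ⟨Y, hY⟩, hn'', hinf', fun τ ha hu hb => ?_⟩
  obtain ⟨g, hg⟩ := hres τ
  have hga : g (res M a n) = res M a n := Subtype.ext (by
    rw [hg, res_coe (mem_a hS (by omega)), ha])
  have hgu : g (res M u n) = res M u n := Subtype.ext (by
    rw [hg, res_coe (mem_u hS (by omega)), hu])
  have hgb : g (res M b n) = -res M b n := Subtype.ext (by
    rw [hg]
    show τ (res M b n : M) = -((res M b n : M) : AlgebraicClosure K)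
    rw [res_coe (mem_b (le_refl n)), hb])
  have hM : TwoTors ((legendre (0 : K) 1 (-1))⁄M) 0 1 (-1) := by
    rw [lk_bc]
    exact ⟨rfl, rfl, rfl, rfl, rfl, by norm_num, by norm_num, by norm_num⟩
  obtain ⟨h2, h3⟩ := lk_neg _ hM g hn (hRneg g hgu (by rw [map_div₀, hga, hgb, neg_div]))
  constructor
  · show τ (X : AlgebraicClosure K) = X
    rw [← hg]
    exact congrArg Subtype.val h2
  · show τ (Y : AlgebraicClosure K) = -(Y : AlgebraicClosure K)
    rw [← hg]
    exact congrArg Subtype.val h3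


end Pool.Agent.Work.MP_787500_nt.HC
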