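import Mathlib
import Pool.Agent.Work.MP_787500_nt.HC.Basic
import Pool.Agent.Work.MP_787500_nt.HC.VlA

/-!
# Module VLF: units away from two

* `W_unit`: `val_rec_unit` for `W`, `p`, and for `W'`, `p⁻¹` (`rec2` at `p⁻¹ b` is
  `W' (p⁻¹ b)^2 (1 + W' b^2) = 2 W' b`).
* `seq_unit`: induction on `m`: `V (a m) = V (b m) = 1` and `V (u m) = 1`, as in the private theorem
  `agm_unit_aux` of `RS/AgmUnit.lean`: `a_m^2 - b_m^2 = u_m^4 a_m^2` (`sq4_ne`) and
  `(a_m + b_m)(a_m - b_m)` has both factors of valuation `≤ 1` and product of valuation 1, so both have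
  valuation 1.
-/

set_option autoImplicit false

namespace Pool.Agent.Work.MP_787500_nt.HC

open WithZero IsDedekindDomain NumberField
open scoped Pointwise nonZeroDivisors

universe u

variable {K F A : Type*} [Field K] [Field F] [CharZero F] [Algebra K F] [CommGroup A] [Finite A]
variable {p : A} {h : ℕ} {α : K} {W W' : A → F} {V : Valuation F ℤᵐ⁰}

theorem W_unit (H : Wdata K F p h α W W') (h2 : V 2 = 1) (a : A) :
    V (W a) = 1 ∧ V (W' a) = 1 := by
  have hrec : ∀ b, W' (p⁻¹ * b) ^ 2 * (1 + W' b ^ 2) = 2 * W' b := fun b => by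
    have h3 := H.rec2 (p⁻¹ * b)
    rwa [mul_inv_cancel_left] at h3
  exact ⟨val_rec_unit V h2 H.ne H.rec1 a, val_rec_unit V h2 H.ne' hrec a⟩

private theorem vlf_aux {x y u : F} (hx : V x = 1) (hy : V y = 1) (h2 : V 2 = 1)
    (hu : V u = 1) (h : u ^ 4 * x ^ 2 = x ^ 2 - y ^ 2) : V (x + y) = 1 := by
  have e1 : (x + y) * (x - y) = u ^ 4 * x ^ 2 := by rw [h]; ring
  have e2 := congrArg V e1
  rw [map_mul, map_mul, map_pow, map_pow, hx, hu, one_pow, one_pow, one_mul] at e2
  have h3 : V (x + y) ≤ 1 := V.map_add_le hx.le hy.le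
  have h4 : V (x - y) ≤ 1 := V.map_sub_le hx.le hy.le
  refine le_antisymm h3 ?_
  rw [← e2]
  exact mul_le_of_le_one_right' h4

theorem seq_unit (H : Wdata K F p h α W W') (h2 : V 2 = 1) {c : A} {i : F} {a b u : ℕ → F}
    {n : ℕ} (hS : Sq4 (W c) (W' c) i a b u n) {m : ℕ} (hm : m ≤ n) :
    V (a m) = 1 ∧ V (b m) = 1 ∧ V (u m) = 1 := by
  induction m with
  | zero =>
    obtain ⟨hw, hw'⟩ := W_unit H h2 c
    have hi : V i = 1 := by
      have h3 := congrArg V hS.i2
      rw [map_pow, Valuation.map_neg, map_one] at h3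
      exact vla_eq_one_of_pow two_ne_zero h3
    rw [hS.a0, hS.b0, hS.u0]
    refine ⟨?_, ?_, ?_⟩
    · rw [map_pow, hw, one_pow]
    · rw [map_mul, map_pow, Valuation.map_neg, hi, hw', one_pow, one_mul]
    · rw [map_div₀, Valuation.map_neg, map_one, hw, div_one]
  | succ m ih =>
    obtain ⟨ha, hb, hu⟩ := ih (by omega)
    obtain ⟨-, -, -, -, -, heq⟩ := sq4_ne hS (show m ≤ n by omega)
    have h3 := vlf_aux (V := V) ha hb h2 hu heq
    have ha' : V (a (m + 1)) = 1 := by
      rw [hS.as m (by omega), map_div₀, h3, h2, div_one]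
    refine ⟨ha', ?_, ?_⟩
    · have h4 := congrArg V (hS.bs m (by omega))
      rw [map_pow, map_mul, ha, hb, mul_one] at h4
      exact vla_eq_one_of_pow two_ne_zero h4
    · rw [hS.us m (by omega), map_div₀, map_mul, map_mul, map_pow, ha, ha', hu, h2]
      simp

end Pool.Agent.Work.MP_787500_nt.HC
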