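import Mathlib
import Pool.Agent.Work.MP_787500_nt.HC.Basic
import Pool.Agent.Work.MP_787500_nt.HC.VlF
import Pool.Agent.Work.MP_787500_nt.RS.Unr

/-!
# Module LYL: inertia (abstract)

As in `RS/Unr.lean` (its private theorems `inertia_small`, `fixed_of_sq` must be copied). Let `V = Q.valuation F`,
`V 2 = 1`. `g` fixes the values of `W`, `W'` and `K`; by `fixed_of_sq` it fixes `i` (`i^2 = -1`, `V i = 1`), hence
`a 0 = W^2`, `b 0 = -i W'^2`; if it fixes `a m`, `b m` then it fixes `a (m+1)`, and `b (m+1)^2 = a m * b m` with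
`V (b (m+1)) = 1` (`seq_unit`), so it fixes `b (m+1)`. By `htop` it is the identity.
-/

set_option autoImplicit false

namespace Pool.Agent.Work.MP_787500_nt.HC

open WithZero IsDedekindDomain NumberField
open scoped Pointwise nonZeroDivisors

universe u

variable {K F A : Type*} [Field K] [NumberField K] [Field F] [NumberField F] [Algebra K F]
variable [CommGroup A] [Finite A] {p : A} {h : ℕ} {α : K} {W W' : A → F}

/-- the elements of the inertia group move the integral elements by small elements -/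
private theorem inertia_small {F : Type*} [Field F] [NumberField F] (Q : HeightOneSpectrum (𝓞 F))
    (σ : F →+* F)
    (hσ : ∀ x : 𝓞 F, Q.valuation F (σ (algebraMap (𝓞 F) F x) - algebraMap (𝓞 F) F x) < 1)
    (z : F) (hz : Q.valuation F z ≤ 1) : Q.valuation F (σ z - z) < 1 := by
  obtain ⟨x, ⟨y, hy⟩, hxy⟩ := Q.exists_primeCompl_mul_eq_of_integer z hz
  have hy1 : Q.valuation F (algebraMap (𝓞 F) F y) = 1 := by
    rw [HeightOneSpectrum.valuation_of_algebraMap]
    exact (Q.intValuation_eq_one_iff_mem_primeCompl y).mpr hy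
  have hxy' : z * algebraMap (𝓞 F) F y = algebraMap (𝓞 F) F x := hxy
  set X := algebraMap (𝓞 F) F x with hX
  set Y := algebraMap (𝓞 F) F y with hY
  have hY0 : Y ≠ 0 := by
    intro h
    rw [h, map_zero] at hy1
    exact zero_ne_one hy1
  have hσY : Q.valuation F (σ Y) = 1 := by
    have h1 : σ Y = Y + (σ Y - Y) := by ring
    rw [h1, Valuation.map_add_eq_of_lt_left _ (by rw [hy1]; exact hσ y), hy1]
  have hσY0 : σ Y ≠ 0 := (map_ne_zero σ).2 hY0
  have hzσ : σ z * σ Y = σ X := by rw [← map_mul, hxy']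
  have e : σ z - z = ((σ X - X) - z * (σ Y - Y)) / σ Y := by
    rw [eq_div_iff hσY0]
    linear_combination hzσ - hxy'
  rw [e, map_div₀, hσY, div_one]
  refine lt_of_le_of_lt (Valuation.map_sub _ _ _) (max_lt (hσ x) ?_)
  rw [map_mul]
  calc Q.valuation F z * Q.valuation F (σ Y - Y) ≤ 1 * Q.valuation F (σ Y - Y) :=
        mul_le_mul' hz le_rfl
    _ = Q.valuation F (σ Y - Y) := one_mul _
    _ < 1 := hσ y

/-- a unit whose square is fixed is fixed -/
private theorem fixed_of_sq {F : Type*} [Field F] [NumberField F] (Q : HeightOneSpectrum (𝓞 F))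
    (hQ : (2 : 𝓞 F) ∉ Q.asIdeal) (σ : F →+* F)
    (hσ : ∀ z : F, Q.valuation F z ≤ 1 → Q.valuation F (σ z - z) < 1)
    (z : F) (hz : Q.valuation F z = 1) (h2 : σ (z ^ 2) = z ^ 2) : σ z = z := by
  have h3 : (σ z - z) * (σ z + z) = 0 := by
    rw [map_pow] at h2
    linear_combination h2
  rcases mul_eq_zero.1 h3 with h | h
  · exact sub_eq_zero.1 h
  · exfalso
    have h4 : σ z - z = -(2 * z) := by linear_combination h
    have h5 := hσ z hz.le
    have hv2 : Q.valuation F (2 : F) = 1 := by
      rw [show (2 : F) = algebraMap (𝓞 F) F 2 by rw [map_ofNat],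
        HeightOneSpectrum.valuation_of_algebraMap]
      exact (Q.intValuation_eq_one_iff_mem_primeCompl 2).mpr hQ
    rw [h4, Valuation.map_neg, map_mul, hv2, hz, one_mul] at h5
    exact lt_irrefl _ h5

theorem inertia_trivial (H : Wdata K F p h α W W') {c : A} {i : F} {a b u : ℕ → F} {n : ℕ}
    (hS : Sq4 (W c) (W' c) i a b u n)
    (htop : IntermediateField.adjoin K ({i} ∪ {z | ∃ m, m ≤ n ∧ z = b m} ∪
      (Set.range W ∪ Set.range W')) = ⊤)
    (Q : HeightOneSpectrum (𝓞 F)) (hQ : (2 : 𝓞 F) ∉ Q.asIdeal) (g : Gal(F/K))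
    (hg : g ∈ Q.asIdeal.inertia Gal(F/K)) (hW : ∀ c, g (W c) = W c ∧ g (W' c) = W' c) :
    g = 1 := by
  have h2 : Q.valuation F (2 : F) = 1 := by
    rw [show (2 : F) = algebraMap (𝓞 F) F 2 by rw [map_ofNat],
      HeightOneSpectrum.valuation_of_algebraMap]
    exact (Q.intValuation_eq_one_iff_mem_primeCompl 2).mpr hQ
  have hσ1 : ∀ x : 𝓞 F, Q.valuation F ((g : F →+* F) (algebraMap (𝓞 F) F x) -
      algebraMap (𝓞 F) F x) < 1 := by
    intro x
    have h1 : (g : F →+* F) (algebraMap (𝓞 F) F x) - algebraMap (𝓞 F) F x =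
        algebraMap (𝓞 F) F (g • x - x) := by
      rw [map_sub]
      rfl
    rw [h1, HeightOneSpectrum.valuation_lt_one_iff_mem]
    exact hg x
  have hσ2 := inertia_small Q (g : F →+* F) hσ1
  have hfix := fixed_of_sq Q hQ (g : F →+* F) hσ2
  have hi : g i = i := by
    refine hfix i ?_ ?_
    · have h2 : Q.valuation F i ^ 2 = 1 := by
        rw [← map_pow, hS.i2, Valuation.map_neg, map_one]
      exact (pow_eq_one_iff_of_nonneg zero_le two_ne_zero).mp h2
    · rw [hS.i2, map_neg, map_one]
  have hab : ∀ m, m ≤ n → g (a m) = a m ∧ g (b m) = b m := by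
    intro m
    induction m with
    | zero =>
      intro _
      rw [hS.a0, hS.b0]
      constructor
      · rw [map_pow, (hW c).1]
      · rw [map_mul, map_neg, map_pow, (hW c).2, hi]
    | succ m ih =>
      intro hm
      obtain ⟨h1, h2'⟩ := ih (by omega)
      constructor
      · rw [hS.as m (by omega), map_div₀, map_add, h1, h2', map_ofNat]
      · refine hfix (b (m + 1)) (seq_unit H h2 hS hm).2.1 ?_
        rw [hS.bs m (by omega)]
        change g (a m * b m) = a m * b m
        rw [map_mul, h1, h2']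
  let E : IntermediateField K F :=
    { carrier := {x | g x = x}
      mul_mem' := by
        intro x y hx hy
        change g (x * y) = x * y
        rw [map_mul, hx, hy]
      one_mem' := map_one g
      add_mem' := by
        intro x y hx hy
        change g (x + y) = x + y
        rw [map_add, hx, hy]
      zero_mem' := map_zero g
      algebraMap_mem' := fun r => g.commutes r
      inv_mem' := by
        intro x hx
        change g x⁻¹ = x⁻¹
        rw [map_inv₀, hx] }
  have hE : IntermediateField.adjoin K ({i} ∪ {z | ∃ m, m ≤ n ∧ z = b m} ∪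
      (Set.range W ∪ Set.range W')) ≤ E := by
    rw [IntermediateField.adjoin_le_iff]
    rintro x ((hx | ⟨m, hm, rfl⟩) | (⟨c, rfl⟩ | ⟨c, rfl⟩))
    · rw [Set.mem_singleton_iff] at hx
      rw [hx]
      exact hi
    · exact (hab m hm).2
    · exact (hW c).1
    · exact (hW c).2
  rw [htop] at hE
  ext x
  exact hE (x := x) trivial


end Pool.Agent.Work.MP_787500_nt.HC
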