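import Mathlib
import Pool.Agent.Work.MP_787500_nt.HC.Basic

/-!
# Module LYM: unramified subextensions (abstract)

`P` is a prime of `M` above `Q` (`Ideal.exists_maximal_ideal_liesOver_of_isIntegral`, see `exists_above` in
H10_Tower). The inertia group of `P` in `Gal(M/K)` has only elements with `g^h = 1`, `h` odd, so its order is
odd (Cauchy, `exists_prime_orderOf_dvd_card`); it is the ramification index `e(P)` over `K`
(`Ideal.card_inertia_eq_ramificationIdxIn`, as at the end of `RS/Unr.lean`). The ramification index is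
multiplicative in towers, so `e(Q)` divides `e(P)` (`Ideal.ramificationIdx_algebra_tower` or so) and is odd.
It is also the order of the inertia group of `Q` in `Gal(F/K)`, so it divides `finrank K F = 2^e`. So
`e(Q) = 1`, and `Ideal.ramificationIdx_eq_one_iff` as in `RS/Unr.lean`.
-/

set_option autoImplicit false

namespace Pool.Agent.Work.MP_787500_nt.HC

open WithZero IsDedekindDomain NumberField
open scoped Pointwise nonZeroDivisors

universe u

/-- the order of the inertia group is the ramification index -/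
private theorem card_in {K F : Type*} [Field K] [NumberField K] [Field F] [NumberField F]
    [Algebra K F] [IsGalois K F] (Q : HeightOneSpectrum (𝓞 F)) :
    Nat.card (Q.asIdeal.inertia Gal(F/K)) = Q.asIdeal.ramificationIdx (𝓞 K) := by
  have hQprime : Q.asIdeal.IsPrime := Q.isPrime
  rw [← Ideal.ramificationIdxIn_eq_ramificationIdx (Q.asIdeal.under (𝓞 K)) _ Gal(F/K),
    ← Ideal.card_inertia_eq_ramificationIdxIn (G := Gal(F/K)) (Q.asIdeal.under (𝓞 K)) Q.asIdeal]

theorem unram_sub {K F M : Type*} [Field K] [NumberField K] [Field F] [NumberField F] [Field M]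
    [NumberField M] [Algebra K F] [Algebra F M] [Algebra K M] [IsScalarTower K F M]
    [IsGalois K F] [IsGalois K M] {e : ℕ} (hF : Module.finrank K F = 2 ^ e) {h : ℕ} (hh : Odd h)
    (Q : HeightOneSpectrum (𝓞 F))
    (hin : ∀ P : HeightOneSpectrum (𝓞 M), P.asIdeal.comap (algebraMap (𝓞 F) (𝓞 M)) = Q.asIdeal →
      ∀ g : Gal(M/K), g ∈ P.asIdeal.inertia Gal(M/K) → g ^ h = 1) :
    Algebra.IsUnramifiedAt (𝓞 K) Q.asIdeal := by
  have hQprime : Q.asIdeal.IsPrime := Q.isPrime
  have hQmax : Q.asIdeal.IsMaximal := Q.isMaximal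
  obtain ⟨P, hP, hPv⟩ := Ideal.exists_maximal_ideal_liesOver_of_isIntegral (S := 𝓞 M) Q.asIdeal
  have hne : P ≠ ⊥ := by
    rintro rfl
    have h1 := hPv.over
    rw [Ideal.under_bot] at h1
    exact Q.ne_bot h1
  set P' : HeightOneSpectrum (𝓞 M) := ⟨P, hP.isPrime, hne⟩ with hP'
  have hin' := hin P' hPv.over.symm
  -- the inertia group of `P` has odd order
  have hodd : Odd (Nat.card (P'.asIdeal.inertia Gal(M/K))) := by
    rw [← Nat.not_even_iff_odd]
    intro heven
    have h2 : 2 ∣ Nat.card (P'.asIdeal.inertia Gal(M/K)) := heven.two_dvd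
    obtain ⟨g, hg⟩ := exists_prime_orderOf_dvd_card' 2 h2
    have hgh : g ^ h = 1 := by
      apply Subtype.ext
      rw [SubgroupClass.coe_pow, hin' g.1 g.2]
      rfl
    have h3 := orderOf_dvd_of_pow_eq_one hgh
    rw [hg] at h3
    exact (Nat.not_even_iff_odd.2 hh) (even_iff_two_dvd.2 h3)
  have h1 : Q.asIdeal.ramificationIdx (𝓞 K) ∣ P.ramificationIdx (𝓞 K) :=
    Ideal.ramificationIdx_below_dvd Q.asIdeal P
  have h2 : Odd (Q.asIdeal.ramificationIdx (𝓞 K)) := by
    rw [card_in P'] at hodd
    exact hodd.of_dvd_nat h1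
  have h3 : Q.asIdeal.ramificationIdx (𝓞 K) ∣ 2 ^ e := by
    rw [← card_in Q, ← hF, ← IsGalois.card_aut_eq_finrank]
    exact Subgroup.card_subgroup_dvd_card _
  rw [← Ideal.ramificationIdx_eq_one_iff]
  obtain ⟨k, _, hk⟩ := (Nat.dvd_prime_pow Nat.prime_two).1 h3
  rw [hk] at h2 ⊢
  rcases Nat.eq_zero_or_pos k with rfl | hk0
  · rw [pow_zero]
  · exfalso
    exact (Nat.not_even_iff_odd.2 h2) ((Nat.even_pow' hk0.ne').2 even_two)


end Pool.Agent.Work.MP_787500_nt.HC
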