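import Mathlib
import Pool.Agent.Work.MP_787500_nt.HC.Basic
import Pool.Agent.Work.MP_787500_nt.HC.LyA
import Pool.Agent.Work.MP_787500_nt.HC.LyB
import Pool.Agent.Work.MP_787500_nt.HC.LyF
import Pool.Agent.Work.MP_787500_nt.HC.LyJ
import Pool.Agent.Work.MP_787500_nt.HC.LyL
import Pool.Agent.Work.MP_787500_nt.HC.LyM
import Pool.Agent.Work.MP_787500_nt.HC.ArB

/-!
# Module LYN: the layers are in the tower

`M = layM n`, `F = layF n`, number fields, Galois and abelian over `K` (`ab_galois`, `layF_le`, `layM_le_ab`;
`FiniteDimensional K F` as a subfield of `M`). `InTwoTower K F` with `L = F`: degree `2^(n+1)`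
(`finrank_layF`), unramified outside 2 by `unram_sub` with the algebra structure given by the inclusion
`F → M` (`IntermediateField.inclusion (layF_le n)`): for `P` of `M` above `Q`, `2 ∉ P`, and `g` in the inertia
group of `P`, `g^h` is in the inertia group, it fixes the values of `W`, `W'` (`res_fix`), so `g^h = 1` by
`inertia_trivial` (`wdata_res`, `sq4_res`, `adjoin_res`).
-/

set_option autoImplicit false

namespace Pool.Agent.Work.MP_787500_nt.HC

open WithZero IsDedekindDomain NumberField
open scoped Pointwise nonZeroDivisors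

universe u

variable {K : Type u} [Field K] [NumberField K] {q : ℕ} {s : K} {v : HeightOneSpectrum (𝓞 K)}
variable {α : Kˣ} {W W' : ClassGroup (𝓞 K) → AlgebraicClosure K} {i : AlgebraicClosure K}
variable {a b u : ℕ → AlgebraicClosure K}


/-- abstract version for two intermediate fields -/
theorem tower_sub {E E' : IntermediateField K (AlgebraicClosure K)} (hE : E ≤ E')
    [NumberField E] [NumberField E'] [IsGalois K E] [IsGalois K E'] {e : ℕ}
    (hF : Module.finrank K E = 2 ^ e) {h : ℕ} (hh : Odd h)
    (hin : ∀ P : HeightOneSpectrum (𝓞 E'), (2 : 𝓞 E') ∉ P.asIdeal →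
      ∀ g : Gal(E'/K), g ∈ P.asIdeal.inertia Gal(E'/K) → g ^ h = 1) : InTwoTower K E := by
  let _ : Algebra E E' := (IntermediateField.inclusion hE).toRingHom.toAlgebra
  have : IsScalarTower K E E' := IsScalarTower.of_algebraMap_eq (fun x => rfl)
  refine ⟨E, inferInstance, inferInstance, inferInstance, inferInstance, inferInstance,
    inferInstance, ⟨e, hF⟩, fun Q hQ => ?_⟩
  refine unram_sub (M := E') hF hh Q (fun P hP g hg => hin P ?_ g hg)
  intro h2
  apply hQ
  rw [← hP, Ideal.mem_comap, map_ofNat]
  exact h2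

theorem layF_finite (n : ℕ) : FiniteDimensional K (layF W W' i b n) := by
  have h1 : FiniteDimensional K (layM W W' i b n) := layM_finite n
  exact FiniteDimensional.of_injective
    (IntermediateField.inclusion (layF_le n)).toLinearMap
    (IntermediateField.inclusion (layF_le n)).injective

theorem layF_galois (hC : Ctx K q s v α W W') (hS : ∀ n, Sq4 (W 1) (W' 1) i a b u n) (n : ℕ) :
    FiniteDimensional K (layF W W' i b n) ∧ IsGalois K (layF W W' i b n) ∧
      (∀ σ τ : layF W W' i b n ≃ₐ[K] layF W W' i b n, σ * τ = τ * σ) ∧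
      (∀ σ : AlgebraicClosure K ≃ₐ[K] AlgebraicClosure K,
        ∃ τ : layF W W' i b n ≃ₐ[K] layF W W' i b n,
          ∀ x : layF W W' i b n, ((τ x : layF W W' i b n) : AlgebraicClosure K) = σ x) := by
  have h0 : FiniteDimensional K (layF W W' i b n) := layF_finite n
  obtain ⟨h1, h2, -, h4, -⟩ := ab_galois (layF W W' i b n)
    ((layF_le n).trans (layM_le_ab hC hS n))
  exact ⟨h0, h1, h2, h4⟩

theorem layF_tower (hC : Ctx K q s v α W W') (hS : ∀ n, Sq4 (W 1) (W' 1) i a b u n) (n : ℕ)
    [NumberField (layF W W' i b n)] : InTwoTower K (layF W W' i b n) := by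
  have hM : FiniteDimensional K (layM W W' i b n) := layM_finite n
  have hN : NumberField (layM W W' i b n) := NumberField.of_module_finite K (layM W W' i b n)
  obtain ⟨h1, -⟩ := ab_galois (layM W W' i b n) (layM_le_ab hC hS n)
  obtain ⟨-, h2, -⟩ := layF_galois hC hS n
  refine tower_sub (layF_le n) (finrank_layF hC hS n) (odd_hK hC.base) ?_
  intro P hP g hg
  exact inertia_trivial (wdata_res hC n) (sq4_res hS n) (adjoin_res n) P hP (g ^ hK K)
    (pow_mem hg _) (fun c => res_fix hC hS n g c)

end Pool.Agent.Work.MP_787500_nt.HC
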