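import Mathlib
import Pool.Agent.Work.MP_787500_nt.HC.Basic
import Pool.Agent.Work.MP_787500_nt.HC.LyC
import Pool.Agent.Work.MP_787500_nt.HC.LyF
import Pool.Agent.Work.MP_787500_nt.HC.LyK
import Pool.Agent.Work.MP_787500_nt.HC.LyN
import Pool.Agent.Work.MP_787500_nt.RS.Bound
import Pool.Agent.Work.MP_787500_nt.RS.RankStep
import Pool.Agent.Work.MP_787500_nt.RS.Sharp

/-!
# Module LYO: the rank over the layers

As `rk_lay` in `RS/Sharp.lean`, by induction on `n` (`RS.rank_base` for `n = 0`, `RS.rank_step` for the step).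
* finitely generated: `RS.bound hC.base (layF_tower ..)` and `RS.condExp_zero` (`RS.rk_fg`).
* `c = c0^h` (`exists_c`), `σ = g^h` (`exists_gen4`), restricted to `layF n` (`layF_galois`, `RS.coe_pow_apply`-like);
  `i ∈ layF n`: if `τ^h = 1` on `layM n` then `τ i = ± i` and `h` odd give `τ i = i`.
* step: `F' = layF n`, `F = layF (n+1)`; `σ^(2^n)` fixes `layM n` (`fix_layM`; `pow_fix` for the values of `W`), so
  it fixes `layF n`, `a (n+1)`, `u (n+1)` (`mem_a`, `mem_u`), and negates `b (n+1)`; the point of `exists_point`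
  for `n + 1` has `x` fixed and `y` negated by `σ^(2^n)`.
-/

set_option autoImplicit false

namespace Pool.Agent.Work.MP_787500_nt.HC

open WithZero IsDedekindDomain NumberField
open scoped Pointwise nonZeroDivisors

universe u

variable {K : Type u} [Field K] [NumberField K] {q : ℕ} {s : K} {v : HeightOneSpectrum (𝓞 K)}
variable {α : Kˣ} {W W' : ClassGroup (𝓞 K) → AlgebraicClosure K} {i : AlgebraicClosure K}
variable {a b u : ℕ → AlgebraicClosure K}


/-- the imaginary unit is in the layers -/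
theorem i_mem_layF (hC : Ctx K q s v α W W') (hi : i ^ 2 = -1) (n : ℕ) :
    i ∈ layF W W' i b n := by
  rw [mem_layF]
  refine ⟨mem_i n, fun τ hτ => ?_⟩
  have h1 : (τ i) ^ 2 = i ^ 2 := by rw [← map_pow, hi, map_neg, map_one]
  rcases sq_eq_sq_iff_eq_or_eq_neg.1 h1 with h2 | h2
  · exact h2
  · exfalso
    have h3 : ∀ k : ℕ, (τ ^ k) i = (-1) ^ k * i := by
      intro k
      induction k with
      | zero => simp
      | succ k ih =>
        rw [pow_succ, AlgEquiv.mul_apply, h2, map_neg, ih, pow_succ]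
        ring
    have h4 := hτ i (mem_i n)
    rw [h3, (odd_hK hC.base).neg_one_pow] at h4
    have h5 : (2 : AlgebraicClosure K) * i = 0 := by linear_combination -h4
    rcases mul_eq_zero.1 h5 with h6 | h6
    · exact two_ne_zero h6
    · rw [h6, zero_pow two_ne_zero] at hi
      exact one_ne_zero (neg_eq_zero.1 hi.symm)

/-- the upper bound for the curve -/
theorem rk_bound {F : Type u} [Field F] [NumberField F] [Algebra K F] (hb : IsBase K q s)
    (hT : InTwoTower K F) : RankShaBound (legendre (0 : F) 1 (-1)) (Module.finrank K F) := by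
  have h := (RS.bound hb hT (e1 := 0) (e2 := 1) (e3 := -1) (by norm_num)
    (by norm_num) (by norm_num)).2
  rwa [RS.condExp_zero, add_zero] at h

omit [NumberField K] in
theorem apply_pow_i {τ : AlgebraicClosure K ≃ₐ[K] AlgebraicClosure K} (h : τ i = i) (k : ℕ) :
    (τ ^ k) i = i := by
  induction k with
  | zero => rfl
  | succ k ih => rw [pow_succ, AlgEquiv.mul_apply, h, ih]

omit [NumberField K] in
theorem apply_pow_coe {E : IntermediateField K (AlgebraicClosure K)} {τ : E ≃ₐ[K] E}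
    {σ : AlgebraicClosure K ≃ₐ[K] AlgebraicClosure K}
    (h : ∀ x : E, ((τ x : E) : AlgebraicClosure K) = σ x) (k : ℕ)
    (x : E) : (((τ ^ k) x : E) : AlgebraicClosure K) = (σ ^ k) x := by
  induction k generalizing x with
  | zero => rfl
  | succ k ih => rw [pow_succ, pow_succ, AlgEquiv.mul_apply, AlgEquiv.mul_apply, ih, h]

theorem layF_numberField (hC : Ctx K q s v α W W') (hS : ∀ n, Sq4 (W 1) (W' 1) i a b u n)
    (n : ℕ) : NumberField (layF W W' i b n) := by
  have := (layF_galois hC hS n).1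
  exact NumberField.of_module_finite K (layF W W' i b n)

/-- transport of a point to an equal curve -/
theorem point_transport {F : Type u} [Field F] [DecidableEq F]
    {E E' : WeierstrassCurve.Affine F} (h : E = E')
    {x y : F} (hn : E'.Nonsingular x y) (hP : ∀ m : ℕ, m ≠ 0 →
      m • (WeierstrassCurve.Affine.Point.some x y hn : E'.Point) ≠ 0) :
    ∃ hn' : E.Nonsingular x y, ∀ m : ℕ, m ≠ 0 →
      m • (WeierstrassCurve.Affine.Point.some x y hn' : E.Point) ≠ 0 := by
  subst h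
  exact ⟨hn, hP⟩

open scoped Classical in
theorem rk_zero {F : Type u} [Field F] [NumberField F] [Algebra K F] (hb : IsBase K q s)
    (hT : InTwoTower K F) {j : F} (hj : j ^ 2 = -1) (c : F ≃ₐ[K] F) (hc : c j = -j) {x y : F}
    (hn : (legendre (0 : F) 1 (-1)).Nonsingular x y) (hP : ∀ m : ℕ, m ≠ 0 →
      m • (WeierstrassCurve.Affine.Point.some x y hn : (legendre (0 : F) 1 (-1)).Point) ≠ 0) :
    2 ≤ RS.rk F := by
  have hW := legendre_twoTors (F := K) (e1 := 0) (e2 := 1) (e3 := -1) (by norm_num) (by norm_num)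
    (by norm_num)
  obtain ⟨hn', hP'⟩ := point_transport (RS.legendre_bc' (K := K) F) hn hP
  have key := RS.rank_base hW (RS.rk_fg (rk_bound hb hT) K) hj c hc _ hP'
  rw [RS.rk]
  rw [RS.legendre_bc'] at key
  exact key

open scoped Classical in
theorem rk_succ {F' F : Type u} [Field F'] [NumberField F'] [Algebra K F'] [Field F]
    [NumberField F] [Algebra K F] [Algebra F' F] [IsScalarTower K F' F]
    (hb : IsBase K q s) (hT : InTwoTower K F) {n : ℕ} {j : F} (hj : j ^ 2 = -1)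
    (g c : F ≃ₐ[K] F) (hgc : g * c = c * g) (hg : g j = j) (hc : c j = -j)
    (hfix : ∀ x : F', (g ^ (2 ^ n)) (algebraMap F' F x) = algebraMap F' F x) {x y : F}
    (hn : (legendre (0 : F) 1 (-1)).Nonsingular x y) (hP : ∀ m : ℕ, m ≠ 0 →
      m • (WeierstrassCurve.Affine.Point.some x y hn : (legendre (0 : F) 1 (-1)).Point) ≠ 0)
    (hx : (g ^ (2 ^ n)) x = x) (hy : (g ^ (2 ^ n)) y = -y) :
    RS.rk F' + 2 ^ (n + 1) ≤ RS.rk F := by
  have hW := legendre_twoTors (F := K) (e1 := 0) (e2 := 1) (e3 := -1) (by norm_num) (by norm_num)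
    (by norm_num)
  obtain ⟨hn', hP'⟩ := point_transport (RS.legendre_bc' (K := K) F) hn hP
  have key := RS.rank_step (F' := F') hW (RS.rk_fg (rk_bound hb hT) K) hj n g c hgc hg hc hfix
    hn' hx hy hP'
  rw [RS.rk, RS.rk]
  rw [RS.legendre_bc', RS.legendre_bc'] at key
  exact key

/-- independence of the instance -/
theorem nt_inst {F : Type u} [Field F] (d1 d2 : DecidableEq F) {E : WeierstrassCurve.Affine F}
    {x y : F} {hn : E.Nonsingular x y} (hP : ∀ m : ℕ, m ≠ 0 → letI := d1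
      m • (WeierstrassCurve.Affine.Point.some x y hn : E.Point) ≠ 0) :
    ∀ m : ℕ, m ≠ 0 → letI := d2
      m • (WeierstrassCurve.Affine.Point.some x y hn : E.Point) ≠ 0 := by
  rwa [Subsingleton.elim d2 d1]

/-- the step for two intermediate fields -/
theorem rk_succ_sub {E E' : IntermediateField K (AlgebraicClosure K)} (hE : E ≤ E')
    [NumberField E] [NumberField E'] (hb : IsBase K q s) (hT : InTwoTower K E') {n : ℕ} {j : E'}
    (hj : j ^ 2 = -1) (g c : E' ≃ₐ[K] E') (hgc : g * c = c * g) (hg : g j = j) (hc : c j = -j)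
    (hfix : ∀ x : E', (x : AlgebraicClosure K) ∈ E → (g ^ (2 ^ n)) x = x) {x y : E'}
    [DecidableEq E']
    (hn : (legendre (0 : E') 1 (-1)).Nonsingular x y) (hP : ∀ m : ℕ, m ≠ 0 →
      m • (WeierstrassCurve.Affine.Point.some x y hn : (legendre (0 : E') 1 (-1)).Point) ≠ 0)
    (hx : (g ^ (2 ^ n)) x = x) (hy : (g ^ (2 ^ n)) y = -y) :
    RS.rk E + 2 ^ (n + 1) ≤ RS.rk E' := by
  let _ : Algebra E E' := (IntermediateField.inclusion hE).toRingHom.toAlgebra
  have : IsScalarTower K E E' := IsScalarTower.of_algebraMap_eq (fun x => rfl)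
  exact rk_succ (F' := E) (F := E') hb hT hj g c hgc hg hc
    (fun x => hfix _ x.2) hn (nt_inst _ _ hP) hx hy

theorem rk_zero_sub {E' : IntermediateField K (AlgebraicClosure K)}
    [NumberField E'] (hb : IsBase K q s) (hT : InTwoTower K E') {j : E'}
    (hj : j ^ 2 = -1) (c : E' ≃ₐ[K] E') (hc : c j = -j) {x y : E'} [DecidableEq E']
    (hn : (legendre (0 : E') 1 (-1)).Nonsingular x y) (hP : ∀ m : ℕ, m ≠ 0 →
      m • (WeierstrassCurve.Affine.Point.some x y hn : (legendre (0 : E') 1 (-1)).Point) ≠ 0) :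
    2 ≤ RS.rk E' :=
  rk_zero hb hT hj c hc hn (nt_inst _ _ hP)

open scoped Classical in
theorem rk_layF_aux (hC : Ctx K q s v α W W') (hS : ∀ n, Sq4 (W 1) (W' 1) i a b u n) (n : ℕ) :
    2 ^ (n + 1) ≤ RS.rk (layF W W' i b n) := by
  obtain ⟨g, hgi, hg⟩ := exists_gen4 hC hS
  obtain ⟨c, hc⟩ := exists_c hC (hS 0).i2
  induction n with
  | zero =>
    have := layF_numberField hC hS 0
    obtain ⟨h1, h2, h3, h4⟩ := layF_galois hC hS 0
    obtain ⟨c', hc'⟩ := h4 (c ^ hK K)
    have hiF := i_mem_layF (b := b) hC (hS 0).i2 0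
    obtain ⟨x, y, hn, hP, -⟩ := exists_point hC hS 0
    have e1 := layF_tower hC hS 0
    have e2 : (⟨i, hiF⟩ : layF W W' i b 0) ^ 2 = -1 := Subtype.ext (hS 0).i2
    have e3 : c' (⟨i, hiF⟩ : layF W W' i b 0) = -(⟨i, hiF⟩ : layF W W' i b 0) :=
      Subtype.ext (by rw [hc']; exact hc)
    exact rk_zero_sub hC.base e1 e2 c' e3 hn hP
  | succ n ih =>
    have := layF_numberField hC hS n
    have := layF_numberField hC hS (n + 1)
    obtain ⟨h1, h2, h3, h4⟩ := layF_galois hC hS (n + 1)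
    obtain ⟨c', hc'⟩ := h4 (c ^ hK K)
    obtain ⟨g', hg'⟩ := h4 (g ^ hK K)
    have hgp := apply_pow_coe hg'
    have hiF := i_mem_layF (b := b) hC (hS 0).i2 (n + 1)
    obtain ⟨x, y, hn, hP, hxy⟩ := exists_point hC hS (n + 1)
    obtain ⟨hb1, hb2⟩ := hg n
    have hfi : ((g ^ hK K) ^ (2 ^ n)) i = i := apply_pow_i hgi _
    have hWp : ∀ d, ((g ^ hK K) ^ (2 ^ n)) (W d) = W d ∧ ((g ^ hK K) ^ (2 ^ n)) (W' d) = W' d := by
      intro d
      rw [← pow_mul, mul_comm, pow_mul]
      exact pow_fix hC _ d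
    have hfix : ∀ {x : AlgebraicClosure K}, x ∈ layM W W' i b n →
        ((g ^ hK K) ^ (2 ^ n)) x = x := fun hx => fix_layM hfi hb2 hWp hx
    obtain ⟨hx, hy⟩ := hxy ((g ^ hK K) ^ (2 ^ n)) (hfix (mem_a hS le_rfl))
      (hfix (mem_u hS le_rfl)) hb1
    have e1 := layF_tower hC hS (n + 1)
    have e2 : (⟨i, hiF⟩ : layF W W' i b (n + 1)) ^ 2 = -1 := Subtype.ext (hS 0).i2
    have e3 : c' (⟨i, hiF⟩ : layF W W' i b (n + 1)) = -(⟨i, hiF⟩ : layF W W' i b (n + 1)) :=
      Subtype.ext (by rw [hc']; exact hc)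
    have e4 : g' (⟨i, hiF⟩ : layF W W' i b (n + 1)) = (⟨i, hiF⟩ : layF W W' i b (n + 1)) :=
      Subtype.ext (by rw [hg']; exact hgi)
    have e5 : ∀ x : layF W W' i b (n + 1), (x : AlgebraicClosure K) ∈ layF W W' i b n →
        (g' ^ (2 ^ n)) x = x := fun x hx => Subtype.ext (by rw [hgp]; exact hfix (layF_le n hx))
    have e6 : (g' ^ (2 ^ n)) x = x := Subtype.ext (by rw [hgp]; exact hx)
    have e7 : (g' ^ (2 ^ n)) y = -y := Subtype.ext (by rw [hgp]; exact hy)
    have key : RS.rk (layF W W' i b n) + 2 ^ (n + 1) ≤ RS.rk (layF W W' i b (n + 1)) :=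
      rk_succ_sub (layF_mono (Nat.le_succ n)) hC.base e1 e2 g' c' (h3 g' c') e4 e3 e5 hn hP e6 e7
    calc 2 ^ (n + 1 + 1) = 2 ^ (n + 1) + 2 ^ (n + 1) := by ring
      _ ≤ RS.rk (layF W W' i b n) + 2 ^ (n + 1) := Nat.add_le_add_right ih _
      _ ≤ _ := key

theorem rk_layF (hC : Ctx K q s v α W W') (hS : ∀ n, Sq4 (W 1) (W' 1) i a b u n) (n : ℕ)
    [NumberField (layF W W' i b n)] : 2 ^ (n + 1) ≤ RS.rk (layF W W' i b n) :=
  rk_layF_aux hC hS n

end Pool.Agent.Work.MP_787500_nt.HC
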