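import Mathlib
import Pool.Agent.Work.MP_787500_nt.HC.Basic
import Pool.Agent.Work.CM.Ext1
import Pool.Agent.Work.CM.Ext2

/-!
# Module TRA: transfer from the complex numbers to the algebraic closure

`Ω = AlgebraicClosure K`, `ψ := IsAlgClosed.lift : Ω →ₐ[K] ℂ`. Every `Wc a` has finitely many images under the
automorphisms of `ℂ` over `K` (they are among the `Wc (c * a)`, `A` finite), so it is algebraic
(`algebraic_of_finite`), hence in the range of `ψ` (the range of `ψ` is algebraically closed in `ℂ`: the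
minimal polynomial splits in `Ω`, so every root in `ℂ` of it comes from `Ω`). Choose `W`, `W'` with
`ψ ∘ W = Wc`, `ψ ∘ W' = Wc'`. An automorphism `σ` of `Ω` extends to `τ` on `ℂ` (`exists_extension`), and
`ψ (σ (W a)) = τ (Wc a) = Wc (c * a) = ψ (W (c * a))`.
`mem_of_map`: the same with two automorphisms.
-/

set_option autoImplicit false

namespace Pool.Agent.Work.MP_787500_nt.HC

open WithZero IsDedekindDomain NumberField Pool.Agent.Work.CM
open scoped Pointwise nonZeroDivisors

universe u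

variable {K : Type*} [Field K] [Algebra K ℂ]

private theorem mem_range (ψ : AlgebraicClosure K →ₐ[K] ℂ) {z : ℂ} (hz : IsAlgebraic K z) :
    ∃ x, ψ x = z := by
  have h1 : IsIntegral K z := hz.isIntegral
  have h2 : ((minpoly K z).map (algebraMap K (AlgebraicClosure K))).Splits :=
    IsAlgClosed.splits _
  have h3 : (Polynomial.aeval z (minpoly K z)) = 0 := minpoly.aeval K z
  have h4 : ((minpoly K z).map (algebraMap K (AlgebraicClosure K))).map (ψ : AlgebraicClosure K →+* ℂ)
      = (minpoly K z).map (algebraMap K ℂ) := by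
    rw [Polynomial.map_map]
    congr 1
    exact ψ.comp_algebraMap
  have h5 : z ∈ ((minpoly K z).map (algebraMap K ℂ)).roots := by
    rw [Polynomial.mem_roots (Polynomial.map_ne_zero (minpoly.ne_zero h1)), Polynomial.IsRoot.def,
      Polynomial.eval_map_algebraMap]
    exact h3
  rw [← h4, h2.roots_map] at h5
  obtain ⟨x, -, hx⟩ := Multiset.mem_map.1 h5
  exact ⟨x, hx⟩

theorem transfer {A : Type*} [CommGroup A] [Finite A] {Wc Wc' : A → ℂ} (h : Act K ℂ Wc Wc') :
    ∃ (ψ : AlgebraicClosure K →ₐ[K] ℂ) (W W' : A → AlgebraicClosure K),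
      (∀ a, ψ (W a) = Wc a) ∧ (∀ a, ψ (W' a) = Wc' a) ∧ Act K (AlgebraicClosure K) W W' := by
  have hψ : Nonempty (AlgebraicClosure K →ₐ[K] ℂ) := ⟨IsAlgClosed.lift⟩
  obtain ⟨ψ⟩ := hψ
  have h1 : ∀ a, ∃ x, ψ x = Wc a := by
    intro a
    apply mem_range
    apply algebraic_of_finite
    refine (Set.finite_range Wc).subset ?_
    rintro _ ⟨σ, rfl⟩
    obtain ⟨c, hc⟩ := h σ
    exact ⟨c * a, (hc a).1.symm⟩
  have h2 : ∀ a, ∃ x, ψ x = Wc' a := by
    intro a
    apply mem_range
    apply algebraic_of_finite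
    refine (Set.finite_range Wc').subset ?_
    rintro _ ⟨σ, rfl⟩
    obtain ⟨c, hc⟩ := h σ
    exact ⟨c * a, (hc a).2.symm⟩
  choose W hW using h1
  choose W' hW' using h2
  refine ⟨ψ, W, W', hW, hW', fun σ => ?_⟩
  obtain ⟨τ, hτ⟩ := exists_extension ψ σ
  obtain ⟨c, hc⟩ := h τ
  refine ⟨c, fun a => ⟨?_, ?_⟩⟩
  · apply (ψ : AlgebraicClosure K →+* ℂ).injective
    simp only [RingHom.coe_coe]
    rw [← hτ, hW, hW, (hc a).1]
  · apply (ψ : AlgebraicClosure K →+* ℂ).injective
    simp only [RingHom.coe_coe]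
    rw [← hτ, hW', hW', (hc a).2]

theorem mem_of_map (ψ : AlgebraicClosure K →ₐ[K] ℂ) {x : AlgebraicClosure K}
    (h : ψ x ∈ RS.abField K ℂ) : x ∈ RS.abField K (AlgebraicClosure K) := by
  rw [RS.mem_abField] at h ⊢
  intro σ τ
  obtain ⟨σ', hσ⟩ := exists_extension ψ σ
  obtain ⟨τ', hτ⟩ := exists_extension ψ τ
  have h1 := h σ' τ'
  rw [hτ, hσ, hσ, hτ] at h1
  exact (ψ : AlgebraicClosure K →+* ℂ).injective h1

end Pool.Agent.Work.MP_787500_nt.HC
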