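import Mathlib
import Pool.Agent.Work.MP_787500_nt.HC.Basic
import Pool.Agent.Work.MP_787500_nt.HC.LatE
import Pool.Agent.Work.MP_787500_nt.HC.ClsA
import Pool.Agent.Work.MP_787500_nt.HC.CpxA
import Pool.Agent.Work.MP_787500_nt.HC.ChD
import Pool.Agent.Work.MP_787500_nt.HC.TrA

/-!
# Module TRB: the setting exists

`K` has an embedding in `ℂ` (`Classical.arbitrary`, `NumberField.Embeddings`): `Algebra K ℂ` by
`RingHom.toAlgebra`. `exists_places`, `exists_alpha`, `wv_prin` and `exists_class_fun` give `v`, `v'`, `α` and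
complex functions; `wdata_complex`, `act_complex`; `transfer` gives `ψ`, `W`, `W'`; `Wdata.comap` (rewrite
`fun a => ψ (W a)` as the complex function), and for `agm`: `Sq4.map` by `ψ`, `agm_complex`, `mem_of_map`.
-/

set_option autoImplicit false

namespace Pool.Agent.Work.MP_787500_nt.HC

open WithZero IsDedekindDomain NumberField Pool.Agent.Work.CM
open scoped Pointwise nonZeroDivisors

universe u

theorem exists_ctx {K : Type u} [Field K] [NumberField K] {q : ℕ} {s : K} (hb : IsBase K q s) :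
    ∃ (v : HeightOneSpectrum (𝓞 K)) (α : Kˣ) (W W' : ClassGroup (𝓞 K) → AlgebraicClosure K),
      Ctx K q s v α W W' := by
  obtain ⟨φ⟩ : Nonempty (K →+* ℂ) := inferInstance
  let _ : Algebra K ℂ := φ.toAlgebra
  obtain ⟨v, v', hne, hv, hv', h2⟩ := exists_places hb
  obtain ⟨α, hα⟩ := exists_alpha v
  obtain ⟨Wc, hW⟩ := exists_class_fun (wv (pr v) (eV v)) (wv_prin hb hv)
  obtain ⟨Wc', hW'⟩ := exists_class_fun (wv (pr v') (eV v')) (wv_prin hb hv')
  have hdat := wdata_complex hb hne hv hv' h2 hα hW hW'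
  have hact := act_complex hb hv hv' hW hW'
  obtain ⟨ψ, W, W', h3, h4, h5⟩ := transfer hact
  refine ⟨v, α, W, W', hb, hv, hα, ?_, h5, fun i a b u hS m => ?_⟩
  · apply Wdata.comap ψ
    have e1 : (fun a => ψ (W a)) = Wc := funext h3
    have e2 : (fun a => ψ (W' a)) = Wc' := funext h4
    rw [e1, e2]
    exact hdat
  · have hS' : ∀ n, Sq4 (Wc 1) (Wc' 1) (ψ i) (ψ ∘ a) (ψ ∘ b) (ψ ∘ u) n := by
      intro n
      have := (hS n).map (ψ : AlgebraicClosure K →+* ℂ)
      rw [← h3, ← h4]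
      exact this
    obtain ⟨g1, g2⟩ := agm_complex hb hne hv hv' h2 hW hW' hS' m
    exact ⟨mem_of_map ψ g1, mem_of_map ψ g2⟩

end Pool.Agent.Work.MP_787500_nt.HC
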