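import Mathlib
import Pool.Agent.Work.MP_787500_nt.HC.LyO
import Pool.Agent.Work.MP_787500_nt.HC.TrB

/-!
# Module FIN: assembly (helper72)

A tower of abelian extensions of `K` in which the rank of `y^2 = x^3 - x` is the degree.
-/

set_option autoImplicit false

namespace Pool.Agent.Work.MP_787500_nt.HC

open WithZero IsDedekindDomain NumberField

universe u

variable {K : Type u} [Field K] [NumberField K] {q : ℕ} {s : K} {v : HeightOneSpectrum (𝓞 K)}
variable {α : Kˣ} {W W' : ClassGroup (𝓞 K) → AlgebraicClosure K} {i : AlgebraicClosure K}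
variable {a b u : ℕ → AlgebraicClosure K}

theorem layF_sharp (hC : Ctx K q s v α W W') (hS : ∀ n, Sq4 (W 1) (W' 1) i a b u n) (n : ℕ) :
    ∃ _ : NumberField (layF W W' i b n), IsGalois K (layF W W' i b n) ∧
      (∀ σ τ : layF W W' i b n ≃ₐ[K] layF W W' i b n, σ * τ = τ * σ) ∧
      InTwoTower K (layF W W' i b n) ∧ Module.finrank K (layF W W' i b n) = 2 ^ (n + 1) ∧
      RS.rk (layF W W' i b n) = 2 ^ (n + 1) ∧
      ShaTwoTrivial (legendre (0 : layF W W' i b n) 1 (-1)) := by
  have hN := layF_numberField hC hS n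
  obtain ⟨-, h2, h3, -⟩ := layF_galois hC hS n
  have hT := layF_tower hC hS n
  have hd := finrank_layF hC hS n
  have hb := rk_bound hC.base hT
  rw [hd] at hb
  obtain ⟨heq, hsha⟩ := RS.rk_eq hb (rk_layF hC hS n)
  exact ⟨hN, h2, h3, hT, hd, heq, hsha⟩

/-- the tower -/
theorem exists_tower (hb : IsBase K q s) :
    ∃ F : ℕ → IntermediateField K (AlgebraicClosure K), Monotone F ∧ ∀ n,
      ∃ _ : NumberField (F n), IsGalois K (F n) ∧ (∀ σ τ : F n ≃ₐ[K] F n, σ * τ = τ * σ) ∧
        InTwoTower K (F n) ∧ Module.finrank K (F n) = 2 ^ (n + 1) ∧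
        RS.rk (F n) = 2 ^ (n + 1) ∧ ShaTwoTrivial (legendre (0 : F n) 1 (-1)) := by
  obtain ⟨v, α, W, W', hC⟩ := exists_ctx hb
  obtain ⟨i, a, b, u, hS⟩ := hC.data.exists_sq4 1
  exact ⟨layF W W' i b, fun m n h => layF_mono h, fun n => layF_sharp hC hS n⟩

end Pool.Agent.Work.MP_787500_nt.HC
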