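import Mathlib
import Pool.Agent.Work.MP_787500_nt.HC.Basic
import Pool.Agent.Work.MP_787500_nt.HC.LyA
import Pool.Agent.Work.MP_787500_nt.HC.LyF
import Pool.Agent.Work.MP_787500_nt.HC.LyN

/-!
# Module TWA: the union of the layers

`L = ⨆ n, layF n` is the union of the increasing sequence `layF n` (`layF_mono`): membership in a directed
supremum (`IntermediateField.coe_iSup_of_directed` or so; or by hand: the union is an intermediate field).
* `exists_le_layF`: take a finite basis (or a finite set of generators) of `F` over `K`; each element is in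
  some `layF n`; take the maximum.
* `not_finite_sup`: if `L` were finite dimensional then `L ≤ layF n` for some `n` (`exists_le_layF`), so
  `layF (n + 1) ≤ layF n`, against the degrees `2^(n+2)`, `2^(n+1)` (`finrank_layF`, `layF_finite`).
-/

set_option autoImplicit false

namespace Pool.Agent.Work.MP_787500_nt.HC

open WithZero IsDedekindDomain NumberField
open scoped Pointwise nonZeroDivisors

universe u

variable {K : Type u} [Field K] [NumberField K] {q : ℕ} {s : K} {v : HeightOneSpectrum (𝓞 K)}
variable {α : Kˣ} {W W' : ClassGroup (𝓞 K) → AlgebraicClosure K} {i : AlgebraicClosure K}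
variable {a b u : ℕ → AlgebraicClosure K}

omit [NumberField K] in
/-- membership in the union -/
theorem mem_sup_of_mono {f : ℕ → IntermediateField K (AlgebraicClosure K)} (hf : Monotone f)
    {x : AlgebraicClosure K} : x ∈ (⨆ n, f n) ↔ ∃ n, x ∈ f n := by
  rw [← SetLike.mem_coe, IntermediateField.coe_iSup_of_directed hf.directed_le, Set.mem_iUnion]
  rfl

theorem exists_le_layF {F : IntermediateField K (AlgebraicClosure K)} [FiniteDimensional K F]
    (h : F ≤ ⨆ n, layF W W' i b n) : ∃ n, F ≤ layF W W' i b n := by
  classical
  have hmono : Monotone (fun n => layF W W' i b n) := fun m n hmn => layF_mono hmn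
  let B := Module.finBasis K F
  have h1 : ∀ j, ∃ n, ((B j : F) : AlgebraicClosure K) ∈ layF W W' i b n := fun j =>
    (mem_sup_of_mono hmono).1 (h (B j).2)
  choose N hN using h1
  refine ⟨Finset.univ.sup N, fun x hx => ?_⟩
  have h2 := B.sum_repr ⟨x, hx⟩
  have h3 : ∑ j, (B.repr ⟨x, hx⟩ j) • ((B j : F) : AlgebraicClosure K) = x := by
    have h4 := congrArg (F.val) h2
    rw [map_sum] at h4
    simpa using h4
  rw [← h3]
  refine sum_mem fun j _ => ?_
  exact IntermediateField.smul_mem _ (hmono (Finset.le_sup (Finset.mem_univ j)) (hN j))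

theorem not_finite_sup (hC : Ctx K q s v α W W') (hS : ∀ n, Sq4 (W 1) (W' 1) i a b u n) :
    ¬ FiniteDimensional K (⨆ n, layF W W' i b n : IntermediateField K (AlgebraicClosure K)) := by
  intro hfin
  obtain ⟨n, hn⟩ := exists_le_layF (W := W) (W' := W') (i := i) (b := b)
    (F := ⨆ n, layF W W' i b n) le_rfl
  have h1 : layF W W' i b (n + 1) ≤ layF W W' i b n :=
    (le_iSup (fun n => layF W W' i b n) (n + 1)).trans hn
  have h2 : layF W W' i b n = layF W W' i b (n + 1) := le_antisymm (layF_mono (Nat.le_succ n)) h1
  have h3 := finrank_layF hC hS n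
  have h4 := finrank_layF hC hS (n + 1)
  rw [← h2, h3] at h4
  have h5 := Nat.pow_right_injective (le_refl 2) h4
  omega

end Pool.Agent.Work.MP_787500_nt.HC
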