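import Mathlib
import Pool.Agent.Work.MP_787500_nt.HC.Basic
import Pool.Agent.Work.MP_787500_nt.HC.LyC
import Pool.Agent.Work.MP_787500_nt.HC.LyD
import Pool.Agent.Work.MP_787500_nt.HC.LyF
import Pool.Agent.Work.MP_787500_nt.HC.LyN

/-!
# Module TWB: the automorphisms of `layF n` which fix `i` are powers of `σ`

`h = hK K` is odd (`odd_hK`). `τ^h` fixes `i` and the values of `W`, `W'` (`pow_fix`), so by `aut_eq_pow` it agrees
with `σ^k` on `layM n`, which contains `layF n`. The Galois group of `layF n` over `K` has `2^(n+1)` elements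
(`layF_galois`, `IsGalois.card_aut_eq_finrank`, `finrank_layF`), so the restriction `ρ` of `τ` to `layF n` satisfies
`ρ^(2^(n+1)) = 1`. Choose `h'` with `h h' ≡ 1` modulo `2^(n+1)` (`Nat.exists_mul_emod_eq_one_of_coprime` or
`Nat.Coprime`): on `layF n`, `τ = τ^(h h') = (σ^k)^h' = σ^(k h')` (both sides preserve `layF n`: `layF_galois`).
-/

set_option autoImplicit false

namespace Pool.Agent.Work.MP_787500_nt.HC

open WithZero IsDedekindDomain NumberField
open scoped Pointwise nonZeroDivisors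

universe u

variable {K : Type u} [Field K] [NumberField K] {q : ℕ} {s : K} {v : HeightOneSpectrum (𝓞 K)}
variable {α : Kˣ} {W W' : ClassGroup (𝓞 K) → AlgebraicClosure K} {i : AlgebraicClosure K}
variable {a b u : ℕ → AlgebraicClosure K}

theorem aut_layF (hC : Ctx K q s v α W W') (hS : ∀ n, Sq4 (W 1) (W' 1) i a b u n)
    {σ : AlgebraicClosure K ≃ₐ[K] AlgebraicClosure K} (hσi : σ i = i)
    (hσW : ∀ c, σ (W c) = W c ∧ σ (W' c) = W' c)
    (hσ : ∀ n, (σ ^ 2 ^ n) (b (n + 1)) = -b (n + 1) ∧ ∀ m ≤ n, (σ ^ 2 ^ n) (b m) = b m)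
    {τ : AlgebraicClosure K ≃ₐ[K] AlgebraicClosure K} (hτ : τ i = i) (n : ℕ) :
    ∃ k : ℕ, ∀ x ∈ layF W W' i b n, τ x = (σ ^ k) x := by
  have hτh : (τ ^ hK K) i = i := by
    have h : ∀ k : ℕ, (τ ^ k) i = i := by
      intro k
      induction k with
      | zero => simp
      | succ k ih => rw [pow_succ, AlgEquiv.mul_apply, hτ, ih]
    exact h _
  obtain ⟨k, hk⟩ := aut_eq_pow hS hσi hσW hσ hτh (fun c => pow_fix hC τ c) n
  obtain ⟨hfd, hgal, -, hres⟩ := layF_galois hC hS n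
  obtain ⟨τ', hτ'⟩ := hres τ
  obtain ⟨σ', hσ'⟩ := hres σ
  have hpow : ∀ (g : AlgebraicClosure K ≃ₐ[K] AlgebraicClosure K)
      (g' : layF W W' i b n ≃ₐ[K] layF W W' i b n),
      (∀ x : layF W W' i b n, ((g' x : layF W W' i b n) : AlgebraicClosure K) = g x) →
      ∀ (k : ℕ) (z : layF W W' i b n),
        (((g' ^ k) z : layF W W' i b n) : AlgebraicClosure K) = (g ^ k) z := by
    intro g g' hg k
    induction k with
    | zero => intro z; simp
    | succ k ih => intro z; rw [pow_succ, pow_succ, AlgEquiv.mul_apply, AlgEquiv.mul_apply, ih, hg]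
  have h1 : τ' ^ hK K = σ' ^ k := by
    apply AlgEquiv.ext
    intro z
    apply Subtype.ext
    rw [hpow τ τ' hτ', hpow σ σ' hσ']
    exact hk z (layF_le n z.2)
  have hcard : Nat.card (layF W W' i b n ≃ₐ[K] layF W W' i b n) = 2 ^ (n + 1) := by
    rw [IsGalois.card_aut_eq_finrank, finrank_layF hC hS n]
  have hone : τ' ^ 2 ^ (n + 1) = 1 := by
    rw [← hcard]
    exact pow_card_eq_one'
  have hcop : Nat.Coprime (hK K) (2 ^ (n + 1)) :=
    (Nat.coprime_two_right.2 (odd_hK hC.base)).pow_right _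
  obtain ⟨m, -, hm⟩ := Nat.exists_mul_mod_eq_one_of_coprime hcop
    (Nat.one_lt_two_pow (Nat.succ_ne_zero n))
  have h2 : τ' = σ' ^ (k * m) := by
    have h3 : τ' ^ (hK K * m) = τ' := by
      rw [← Nat.div_add_mod (hK K * m) (2 ^ (n + 1)), hm, pow_add, pow_mul, hone, one_pow, one_mul,
        pow_one]
    rw [pow_mul, ← h1, ← pow_mul, h3]
  refine ⟨k * m, fun x hx => ?_⟩
  have h4 := hτ' ⟨x, hx⟩
  rw [h2, hpow σ σ' hσ'] at h4
  exact h4.symm

end Pool.Agent.Work.MP_787500_nt.HC
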