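import Mathlib
import Pool.Agent.Work.MP_787500_nt.HC.Basic
import Pool.Agent.Work.MP_787500_nt.HC.LyA
import Pool.Agent.Work.MP_787500_nt.HC.LyF
import Pool.Agent.Work.MP_787500_nt.HC.LyK
import Pool.Agent.Work.MP_787500_nt.HC.LyN

/-!
# Module TWC: the fixed field of `σ^(2^n)` in `layF (n + 1)` is `layF n`

Let `E` be the intermediate field of the `x ∈ layF (n+1)` with `(σ^(2^n)) x = x`. `layF n ≤ E`: `layF_mono`, and
`σ^(2^n)` fixes `layM n` pointwise (`fix_layM`; `σ^k` fixes `i` and the values of `W`, `W'`), `layF_le`.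
`E ≠ layF (n+1)`: by `exists_point` (for `n + 1`, with `NumberField (layF (n+1))` from `layF_finite`,
`NumberField.of_module_finite`, and `τ = σ^(2^n)`, which fixes `a (n+1)`, `u (n+1)` (`mem_a`, `mem_u`) and negates
`b (n+1)`) there is `y ∈ layF (n+1)` with `(σ^(2^n)) y = -y`, and `y ≠ 0` because a point `(x, 0)` has order 2
(`2 • P = 0`: `add_self_eq_zero_iff` in H9_Alg with `legendre_twoTors`; the point has infinite order, use
`m = 2`). The degrees are `2^(n+1)` and `2^(n+2)` (`finrank_layF`), so `finrank K E` is a proper divisor of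
`2^(n+2)` and a multiple of `2^(n+1)` (`IntermediateField.finrank_dvd_of_le_right` or the tower law), so
`finrank K E = 2^(n+1)` and `E = layF n` (`IntermediateField.eq_of_le_of_finrank_eq`).
-/

set_option autoImplicit false

namespace Pool.Agent.Work.MP_787500_nt.HC

open WithZero IsDedekindDomain NumberField
open scoped Pointwise nonZeroDivisors

universe u

variable {K : Type u} [Field K] [NumberField K] {q : ℕ} {s : K} {v : HeightOneSpectrum (𝓞 K)}
variable {α : Kˣ} {W W' : ClassGroup (𝓞 K) → AlgebraicClosure K} {i : AlgebraicClosure K}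
variable {a b u : ℕ → AlgebraicClosure K}


omit [NumberField K] in
private theorem pow_apply_eq {x : AlgebraicClosure K} {τ : AlgebraicClosure K ≃ₐ[K] AlgebraicClosure K}
    (h : τ x = x) (k : ℕ) : (τ ^ k) x = x := by
  induction k with
  | zero => rfl
  | succ k ih => rw [pow_succ, AlgEquiv.mul_apply, h, ih]


theorem mem_layF_of_fixed (hC : Ctx K q s v α W W') (hS : ∀ n, Sq4 (W 1) (W' 1) i a b u n)
    {σ : AlgebraicClosure K ≃ₐ[K] AlgebraicClosure K} (hσi : σ i = i)
    (hσW : ∀ c, σ (W c) = W c ∧ σ (W' c) = W' c)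
    (hσ : ∀ n, (σ ^ 2 ^ n) (b (n + 1)) = -b (n + 1) ∧ ∀ m ≤ n, (σ ^ 2 ^ n) (b m) = b m) {n : ℕ}
    {x : AlgebraicClosure K} (hx : x ∈ layF W W' i b (n + 1)) (hfix : (σ ^ 2 ^ n) x = x) :
    x ∈ layF W W' i b n := by
  classical
  have hfd : FiniteDimensional K (layF W W' i b (n + 1)) := layF_finite (n + 1)
  have hnf : NumberField (layF W W' i b (n + 1)) :=
    NumberField.of_module_finite K (layF W W' i b (n + 1))
  set τ : AlgebraicClosure K ≃ₐ[K] AlgebraicClosure K := σ ^ 2 ^ n with hτ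
  have hτM : ∀ {z : AlgebraicClosure K}, z ∈ layM W W' i b n → τ z = z := by
    intro z hz
    exact fix_layM (pow_apply_eq hσi _) (hσ n).2
      (fun c => ⟨pow_apply_eq (hσW c).1 _, pow_apply_eq (hσW c).2 _⟩) hz
  let E : IntermediateField K (AlgebraicClosure K) :=
    { carrier := {z | z ∈ layF W W' i b (n + 1) ∧ τ z = z}
      mul_mem' := by
        rintro y z ⟨hy, hy'⟩ ⟨hz, hz'⟩
        exact ⟨mul_mem hy hz, by rw [map_mul, hy', hz']⟩
      one_mem' := ⟨one_mem _, map_one τ⟩
      add_mem' := by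
        rintro y z ⟨hy, hy'⟩ ⟨hz, hz'⟩
        exact ⟨add_mem hy hz, by rw [map_add, hy', hz']⟩
      zero_mem' := ⟨zero_mem _, map_zero τ⟩
      algebraMap_mem' := fun r => ⟨IntermediateField.algebraMap_mem _ r, τ.commutes r⟩
      inv_mem' := by
        rintro y ⟨hy, hy'⟩
        exact ⟨inv_mem hy, by rw [map_inv₀, hy']⟩ }
  have mE : ∀ z, z ∈ E ↔ z ∈ layF W W' i b (n + 1) ∧ τ z = z := fun z => Iff.rfl
  have hle : layF W W' i b n ≤ E := fun z hz =>
    (mE z).2 ⟨layF_mono (Nat.le_succ n) hz, hτM (layF_le n hz)⟩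
  have hle' : E ≤ layF W W' i b (n + 1) := fun z hz => ((mE z).1 hz).1
  have hne : E ≠ layF W W' i b (n + 1) := by
    intro heq
    obtain ⟨x0, y0, hn, hP, hxy⟩ := exists_point hC hS (n + 1)
    obtain ⟨-, hy0⟩ := hxy τ (hτM (mem_a hS le_rfl)) (hτM (mem_u hS le_rfl)) (hσ n).1
    have h1 : (y0 : AlgebraicClosure K) ∈ E := by rw [heq]; exact y0.2
    have h2 := ((mE _).1 h1).2
    rw [hy0] at h2
    have h3 : (2 : AlgebraicClosure K) * (y0 : AlgebraicClosure K) = 0 := by linear_combination -h2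
    have h4 : (y0 : AlgebraicClosure K) = 0 := (mul_eq_zero.1 h3).resolve_left two_ne_zero
    have h5 : y0 = 0 := Subtype.ext h4
    have hW : TwoTors (legendre (0 : layF W W' i b (n + 1)) 1 (-1)) 0 1 (-1) :=
      ⟨rfl, rfl, rfl, rfl, rfl, by norm_num, by norm_num, by norm_num⟩
    refine hP 2 two_ne_zero ?_
    refine (two_nsmul _).trans ?_
    exact (add_self_eq_zero_iff hW hn).2 h5
  have hfE : FiniteDimensional K E := Module.Finite.of_injective
    (IntermediateField.inclusion hle').toLinearMap (IntermediateField.inclusion hle').injective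
  have d1 := IntermediateField.finrank_dvd_of_le_right hle
  have d2 := IntermediateField.finrank_dvd_of_le_right hle'
  rw [finrank_layF hC hS] at d1 d2
  have d3 : Module.finrank K E ≠ 2 ^ (n + 1 + 1) := by
    intro h
    exact hne (IntermediateField.eq_of_le_of_finrank_eq hle' (by rw [h, finrank_layF hC hS]))
  obtain ⟨m, hm⟩ := d1
  have d4 : m ∣ 2 := by
    rw [hm, pow_succ 2 (n + 1)] at d2
    exact (Nat.mul_dvd_mul_iff_left (by positivity)).1 d2
  have d5 : m = 1 := by
    rcases (Nat.dvd_prime Nat.prime_two).1 d4 with h | h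
    · exact h
    · exfalso
      apply d3
      rw [hm, h, ← pow_succ]
  have d6 : Module.finrank K E = 2 ^ (n + 1) := by rw [hm, d5, mul_one]
  have h7 : layF W W' i b n = E :=
    IntermediateField.eq_of_le_of_finrank_eq hle (by rw [d6, finrank_layF hC hS])
  rw [h7]
  exact (mE x).2 ⟨hx, hfix⟩

end Pool.Agent.Work.MP_787500_nt.HC
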