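import Mathlib
import Pool.Agent.Work.MP_787500_nt.HC.Basic
import Pool.Agent.Work.MP_787500_nt.HC.TwB
import Pool.Agent.Work.MP_787500_nt.HC.TwC
import Pool.Agent.Work.MP_787500_nt.HC.LyC
import Pool.Agent.Work.MP_787500_nt.HC.LyN

/-!
# Module TWD: the subfields of the layers

`σ = g^h` from `exists_gen4` (`pow_fix` for the values of `W`, `W'`). Induction on `n`, `F ≤ layF n`. If `n = m + 1` and
`F ≤ layF m`, use the induction hypothesis. Otherwise (`n = 0`, or `F` is not contained in `layF (n-1)`):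
* (*) every automorphism `τ` of `Ω` which fixes `F` pointwise and `i` fixes `layF n` pointwise: by `aut_layF`,
  `τ = σ^k` on `layF n`. `σ^(2^n)` is trivial on `layF n` (`fix_layM`, `layF_le`). If `2^n ∣ k` we are done.
  Otherwise `k = 2^j r`, `r` odd, `j < n`; then `τ^(2^(n-1-j)) = σ^(2^(n-1) r) = σ^(2^(n-1))` on `layF n`
  (`r` odd, `σ^(2^n) = 1`), so `σ^(2^(n-1))` fixes `F` pointwise and `F ≤ layF (n-1)` by
  `mem_layF_of_fixed`, a contradiction.
* Let `H` be the group of the automorphisms of `layF n` over `K` fixing the elements of `F` (`layF_galois`; every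
  automorphism of `layF n` is a restriction, `ab_galois`). If `H` is trivial then `F = layF n`
  (Galois correspondence, or: every `x ∈ layF n` is fixed by all `τ` fixing `F` pointwise, so it is in `F`,
  `InfiniteGalois.fixedField_fixingSubgroup`): first alternative. Otherwise take `h ∈ H`, `h ≠ 1`: `h i = -i` by (*)
  (`h i = ± i`), `h (h x) = x` by (*) for `h^2`. An element `x` of `layF n` fixed by `h` is fixed by every `τ`
  fixing `F`: `τ i = i` gives `τ x = x` by (*); `τ i = -i`: `h⁻¹ τ` (on `layF n`) fixes `i` and `F`, so it is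
  trivial on `layF n`, `τ x = h x = x`. So `x ∈ F`. The degree: `H = {1, h}` has two elements, or
  `F` corresponds to the fixed field of `h`, `2 * finrank K F = finrank K (layF n)`.
-/

set_option autoImplicit false

namespace Pool.Agent.Work.MP_787500_nt.HC

open WithZero IsDedekindDomain NumberField
open scoped Pointwise nonZeroDivisors

universe u

variable {K : Type u} [Field K] [NumberField K] {q : ℕ} {s : K} {v : HeightOneSpectrum (𝓞 K)}
variable {α : Kˣ} {W W' : ClassGroup (𝓞 K) → AlgebraicClosure K} {i : AlgebraicClosure K}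
variable {a b u : ℕ → AlgebraicClosure K}

omit [NumberField K] in
private theorem twd_pow_fix {τ : AlgebraicClosure K ≃ₐ[K] AlgebraicClosure K}
    {x : AlgebraicClosure K} (h : τ x = x) (k : ℕ) : (τ ^ k) x = x := by
  induction k with
  | zero => simp
  | succ k ih => rw [pow_succ, AlgEquiv.mul_apply, h, ih]

omit [NumberField K] in
private theorem twd_gcd {τ : AlgebraicClosure K ≃ₐ[K] AlgebraicClosure K}
    {x : AlgebraicClosure K} {k l : ℕ} (h1 : (τ ^ k) x = x) (h2 : (τ ^ l) x = x) :
    (τ ^ Nat.gcd k l) x = x := by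
  have hit : ∀ m : ℕ, (τ ^ m) x = (τ : AlgebraicClosure K → AlgebraicClosure K)^[m] x := by
    intro m
    induction m with
    | zero => simp
    | succ m ih => rw [pow_succ', AlgEquiv.mul_apply, ih, Function.iterate_succ_apply']
  rw [hit] at h1 h2 ⊢
  exact Function.IsPeriodicPt.gcd h1 h2

private theorem twd_i_mem (hC : Ctx K q s v α W W') (hi : i ^ 2 = -1) (n : ℕ) :
    i ∈ layF W W' i b n := by
  rw [mem_layF]
  refine ⟨mem_i n, fun τ hτ => ?_⟩
  have h1 : (τ i) ^ 2 = i ^ 2 := by rw [← map_pow, hi, map_neg, map_one]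
  rcases sq_eq_sq_iff_eq_or_eq_neg.1 h1 with h2 | h2
  · exact h2
  · exfalso
    have h3 : ∀ k : ℕ, (τ ^ k) i = (-1) ^ k * i := by
      intro k
      induction k with
      | zero => simp
      | succ k ih =>
        rw [pow_succ, AlgEquiv.mul_apply, h2, map_neg, ih, pow_succ]
        ring
    have h4 := hτ i (mem_i n)
    rw [h3, (odd_hK hC.base).neg_one_pow] at h4
    have h5 : (2 : AlgebraicClosure K) * i = 0 := by linear_combination -h4
    rcases mul_eq_zero.1 h5 with h6 | h6
    · exact two_ne_zero h6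
    · rw [h6, zero_pow two_ne_zero] at hi
      exact one_ne_zero (neg_eq_zero.1 hi.symm)

/-- an automorphism which fixes `F` and `i` is trivial on the smallest layer containing `F` -/
private theorem twd_star (hC : Ctx K q s v α W W') (hS : ∀ n, Sq4 (W 1) (W' 1) i a b u n) {n : ℕ}
    {F : IntermediateField K (AlgebraicClosure K)} (hF : F ≤ layF W W' i b n)
    (hmin : ∀ m, n = m + 1 → ¬ F ≤ layF W W' i b m)
    {τ : AlgebraicClosure K ≃ₐ[K] AlgebraicClosure K} (hτF : ∀ x ∈ F, τ x = x) (hτi : τ i = i)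
    {x : AlgebraicClosure K} (hx : x ∈ layF W W' i b n) : τ x = x := by
  obtain ⟨g, hgi, hg⟩ := exists_gen4 hC hS
  obtain ⟨σ, hσdef⟩ : ∃ σ : AlgebraicClosure K ≃ₐ[K] AlgebraicClosure K, σ = g ^ hK K := ⟨_, rfl⟩
  rw [← hσdef] at hgi hg
  have hσW : ∀ c, σ (W c) = W c ∧ σ (W' c) = W' c := by
    intro c
    rw [hσdef]
    exact pow_fix hC g c
  obtain ⟨k, hk⟩ := aut_layF hC hS hgi hσW hg hτi n
  have htriv : ∀ y ∈ layF W W' i b n, (σ ^ 2 ^ n) y = y := fun y hy =>
    fix_layM (twd_pow_fix hgi _) (hg n).2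
      (fun c => ⟨twd_pow_fix (hσW c).1 _, twd_pow_fix (hσW c).2 _⟩) (layF_le n hy)
  obtain ⟨j, hj, hgcd⟩ := (Nat.dvd_prime_pow Nat.prime_two).1 (Nat.gcd_dvd_right k (2 ^ n))
  rcases eq_or_lt_of_le hj with hjn | hjn
  · have hdvd : 2 ^ n ∣ k := by
      rw [← hjn, ← hgcd]
      exact Nat.gcd_dvd_left _ _
    obtain ⟨r, rfl⟩ := hdvd
    rw [hk x hx, pow_mul]
    exact twd_pow_fix (htriv x hx) r
  · exfalso
    obtain ⟨m, rfl⟩ : ∃ m, n = m + 1 := ⟨n - 1, by omega⟩
    refine hmin m rfl fun y hy => ?_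
    have hyn := hF hy
    have h1 : (σ ^ k) y = y := by rw [← hk y hyn, hτF y hy]
    have h2 := twd_gcd h1 (htriv y hyn)
    rw [hgcd] at h2
    have h3 : (σ ^ 2 ^ m) y = y := by
      obtain ⟨r, hr⟩ : (2 : ℕ) ^ j ∣ 2 ^ m := pow_dvd_pow 2 (by omega)
      rw [hr, pow_mul]
      exact twd_pow_fix h2 r
    exact mem_layF_of_fixed hC hS hgi hσW hg hyn h3

omit [NumberField K] in
private theorem twd_mem_of_fixed {F : IntermediateField K (AlgebraicClosure K)} [CharZero K]
    {x : AlgebraicClosure K}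
    (h : ∀ τ : AlgebraicClosure K ≃ₐ[K] AlgebraicClosure K, (∀ y ∈ F, τ y = y) → τ x = x) :
    x ∈ F := by
  rw [← InfiniteGalois.fixedField_fixingSubgroup F, IntermediateField.mem_fixedField_iff]
  intro τ hτ
  exact h τ ((IntermediateField.mem_fixingSubgroup_iff F τ).1 hτ)

omit [NumberField K] in
/-- the degree of the fixed field of an involution -/
private theorem twd_finrank {E F : IntermediateField K (AlgebraicClosure K)}
    [FiniteDimensional K E] (hFE : F ≤ E) {h : E ≃ₐ[K] E} (hh : ∀ x, h (h x) = x)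
    (hne : ∃ x, h x ≠ x) (hF : ∀ x : E, (x : AlgebraicClosure K) ∈ F ↔ h x = x) :
    2 * Module.finrank K F = Module.finrank K E := by
  have hord : orderOf h = 2 := by
    refine orderOf_eq_prime ?_ ?_
    · rw [pow_two]
      apply AlgEquiv.ext
      intro x
      rw [AlgEquiv.mul_apply, hh, AlgEquiv.one_apply]
    · rintro rfl
      obtain ⟨x, hx⟩ := hne
      exact hx (AlgEquiv.one_apply x)
  have h1 : Module.finrank (IntermediateField.fixedField (Subgroup.zpowers h)) E = 2 := by
    rw [IntermediateField.finrank_fixedField_eq_card, Nat.card_zpowers, hord]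
  have h2 : Module.finrank K (IntermediateField.fixedField (Subgroup.zpowers h)) *
      Module.finrank (IntermediateField.fixedField (Subgroup.zpowers h)) E =
      Module.finrank K E := Module.finrank_mul_finrank _ _ _
  have h3 : F = IntermediateField.lift (IntermediateField.fixedField (Subgroup.zpowers h)) := by
    ext x
    constructor
    · intro hx
      have h4 := IntermediateField.mem_lift
        (E := IntermediateField.fixedField (Subgroup.zpowers h)) (⟨x, hFE hx⟩ : E)
      rw [show ((⟨x, hFE hx⟩ : E)).1 = x from rfl] at h4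
      rw [h4, IntermediateField.mem_fixedField_iff]
      have h5 : h ⟨x, hFE hx⟩ = ⟨x, hFE hx⟩ := (hF ⟨x, hFE hx⟩).1 hx
      intro g hg
      have h6 : Subgroup.zpowers h ≤ MulAction.stabilizer (E ≃ₐ[K] E) (⟨x, hFE hx⟩ : E) := by
        rw [Subgroup.zpowers_le, MulAction.mem_stabilizer_iff]
        exact h5
      exact MulAction.mem_stabilizer_iff.1 (h6 hg)
    · intro hx
      have hxE : x ∈ E := IntermediateField.lift_le _ hx
      have h4 := IntermediateField.mem_lift
        (E := IntermediateField.fixedField (Subgroup.zpowers h)) (⟨x, hxE⟩ : E)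
      rw [show ((⟨x, hxE⟩ : E)).1 = x from rfl] at h4
      rw [h4, IntermediateField.mem_fixedField_iff] at hx
      exact (hF ⟨x, hxE⟩).2 (hx h (Subgroup.mem_zpowers h))
  have h7 : Module.finrank K F =
      Module.finrank K (IntermediateField.fixedField (Subgroup.zpowers h)) := by
    rw [h3]
    exact ((IntermediateField.liftAlgEquiv
      (IntermediateField.fixedField (Subgroup.zpowers h))).toLinearEquiv.finrank_eq).symm
  rw [h7, ← h2, h1, mul_comm]

theorem sub_layF (hC : Ctx K q s v α W W') (hS : ∀ n, Sq4 (W 1) (W' 1) i a b u n) {n : ℕ}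
    {F : IntermediateField K (AlgebraicClosure K)} (hF : F ≤ layF W W' i b n) :
    (∃ m, F = layF W W' i b m) ∨
      ∃ m, F ≤ layF W W' i b m ∧ 2 * Module.finrank K F = 2 ^ (m + 1) ∧
        ∃ (h : layF W W' i b m ≃ₐ[K] layF W W' i b m) (j : layF W W' i b m),
          (j : AlgebraicClosure K) = i ∧ h j = -j ∧ (∀ x, h (h x) = x) ∧
          ∀ x : layF W W' i b m, h x = x → (x : AlgebraicClosure K) ∈ F := by
  classical
  obtain ⟨n, hF, hmin⟩ : ∃ n, F ≤ layF W W' i b n ∧ ∀ m, n = m + 1 → ¬ F ≤ layF W W' i b m := by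
    have hex : ∃ n, F ≤ layF W W' i b n := ⟨n, hF⟩
    refine ⟨Nat.find hex, Nat.find_spec hex, fun m hm => Nat.find_min hex (by omega)⟩
  have hi : i ^ 2 = -1 := (hS 0).i2
  by_cases hall : ∀ τ : AlgebraicClosure K ≃ₐ[K] AlgebraicClosure K, (∀ y ∈ F, τ y = y) →
      ∀ x ∈ layF W W' i b n, τ x = x
  · left
    refine ⟨n, le_antisymm hF fun x hx => ?_⟩
    exact twd_mem_of_fixed fun τ hτ => hall τ hτ x hx
  · right
    push Not at hall
    obtain ⟨τ₀, hτ₀, y, hy, hyne⟩ := hall
    have hi0 : i ≠ 0 := by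
      rintro rfl
      rw [zero_pow two_ne_zero] at hi
      exact one_ne_zero (neg_eq_zero.1 hi.symm)
    have hτ₀i : τ₀ i = -i := by
      have h1 : (τ₀ i) ^ 2 = i ^ 2 := by rw [← map_pow, hi, map_neg, map_one]
      rcases sq_eq_sq_iff_eq_or_eq_neg.1 h1 with h2 | h2
      · exact absurd (twd_star hC hS hF hmin hτ₀ h2 hy) hyne
      · exact h2
    obtain ⟨hfd, -, -, hres⟩ := layF_galois hC hS n
    obtain ⟨h, hh⟩ := hres τ₀
    have himem := twd_i_mem (b := b) hC hi n
    have hfix : ∀ x : layF W W' i b n, h x = x → (x : AlgebraicClosure K) ∈ F := by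
      intro x hx
      have hx' : τ₀ x = x := by rw [← hh, hx]
      refine twd_mem_of_fixed fun τ hτ => ?_
      have h1 : (τ i) ^ 2 = i ^ 2 := by rw [← map_pow, hi, map_neg, map_one]
      rcases sq_eq_sq_iff_eq_or_eq_neg.1 h1 with h2 | h2
      · exact twd_star hC hS hF hmin hτ h2 x.2
      · have h3 : ∀ z ∈ F, (τ₀⁻¹ * τ) z = z := by
          intro z hz
          rw [AlgEquiv.mul_apply, hτ z hz]
          apply τ₀.injective
          rw [← AlgEquiv.mul_apply, mul_inv_cancel, AlgEquiv.one_apply, hτ₀ z hz]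
        have h4 : (τ₀⁻¹ * τ) i = i := by
          rw [AlgEquiv.mul_apply, h2]
          apply τ₀.injective
          rw [← AlgEquiv.mul_apply, mul_inv_cancel, AlgEquiv.one_apply, hτ₀i]
        have h5 := twd_star hC hS hF hmin h3 h4 x.2
        have h6 := congrArg τ₀ h5
        rw [← AlgEquiv.mul_apply, mul_inv_cancel_left, hx'] at h6
        exact h6
    have hhh : ∀ x : layF W W' i b n, h (h x) = x := by
      intro x
      apply Subtype.ext
      rw [hh, hh, ← AlgEquiv.mul_apply]
      refine twd_star hC hS hF hmin ?_ ?_ x.2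
      · intro z hz
        rw [AlgEquiv.mul_apply, hτ₀ z hz, hτ₀ z hz]
      · rw [AlgEquiv.mul_apply, hτ₀i, map_neg, hτ₀i, neg_neg]
    have hji : h ⟨i, himem⟩ = -⟨i, himem⟩ := by
      apply Subtype.ext
      rw [hh]
      exact hτ₀i
    refine ⟨n, hF, ?_, h, ⟨i, himem⟩, rfl, hji, hhh, hfix⟩
    rw [← finrank_layF hC hS n]
    refine twd_finrank hF hhh ⟨⟨i, himem⟩, ?_⟩ ?_
    · intro hc
      have h1 := congrArg Subtype.val (hji.symm.trans hc)
      have h2 : -i = i := h1
      have h3 : (2 : AlgebraicClosure K) * i = 0 := by linear_combination -h2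
      rcases mul_eq_zero.1 h3 with h4 | h4
      · exact two_ne_zero h4
      · exact hi0 h4
    · intro x
      refine ⟨fun hx => ?_, hfix x⟩
      apply Subtype.ext
      rw [hh]
      exact hτ₀ x hx

end Pool.Agent.Work.MP_787500_nt.HC
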