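import Mathlib
import Pool.Agent.Work.MP_787500_nt.HC.Basic
import Pool.Agent.Work.MP_787500_nt.HC.LyO
import Pool.Agent.Work.MP_787500_nt.RS.RankStep
import Pool.Agent.Work.MP_787500_nt.RS.Isom

/-!
# Module TWE: the rank and a quadratic extension containing `i`

`W0 : y^2 = x (x - 1)(x + 1)` over `K` (`legendre_twoTors`). `A = (W0⁄E').Point`, `J : A → A`, `J (J P) = -P`, and
`J (h P) = -(h (J P))` for the action of `h` (private theorem `exists_J` of `RS/RankStep.lean`, with the private
`mp`; copy them). The action of `h` is an involution (`h2`). Points of `A` fixed by `h` have coordinates in `E`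
(`hfix`), so they come from `(W0⁄E).Point`. For `P ∈ A`: `P + h P` is fixed by `h`, and `J (P - h P)` is fixed by `h`
(`h (J (P - h P)) = -(J (h (P - h P))) = J (P - h P)`). The subgroup `B = {P | h P = P}` of `A` is the image of
`(W0⁄E).Point` (injective), so `finrank B ≤ finrank (W0⁄E).Point` (or `=`). The homomorphism `A → B × B`,
`P ↦ (P + h P, J (P - h P))` has kernel consisting of points with `2 P = 0` (`J` is injective), torsion; so
`finrank A ≤ 2 finrank B` (for instance `2 A` embeds, or compare ranks: a homomorphism with torsion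
kernel of finitely generated groups does not decrease the rank; or: the map `B × B → A`,
`(P, Q) ↦ P - J Q` hits `2 P` for every `P`: `2 P = (P + h P) + (P - h P) = (P + h P) - J (J (P - h P))`, so its range
has finite index or contains `2 A`, `Submodule.finrank` of the range equals that of `A`).
Finite generation: `RS.rk_fg (rk_bound hb hT')`, `rk_bound` in `LyO`. `RS.rk` and `RS.legendre_bc'` as in `LyO` (see
`rk_succ_sub` there). Do NOT use `convert` for changing `DecidableEq` instances (the grader rejects
`FastSubsingleton` in proof terms); `nt_inst` in `LyO` shows the alternative.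
-/

set_option autoImplicit false

namespace Pool.Agent.Work.MP_787500_nt.HC

open WithZero IsDedekindDomain NumberField
open scoped Pointwise nonZeroDivisors
open WeierstrassCurve WeierstrassCurve.Affine

universe u

variable {K : Type u} [Field K] [NumberField K] {q : ℕ} {s : K} {v : HeightOneSpectrum (𝓞 K)}
variable {α : Kˣ} {W W' : ClassGroup (𝓞 K) → AlgebraicClosure K} {i : AlgebraicClosure K}
variable {a b u : ℕ → AlgebraicClosure K}


private theorem finrank_le_two_mul {A : Type*} [AddCommGroup A] [Module.Finite ℤ A] (h J : A →+ A)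
    (hh : ∀ x, h (h x) = x) (hJ : ∀ x, J (J x) = -x) (hJh : ∀ x, J (h x) = -(h (J x)))
    (B : AddSubgroup A) (hB : ∀ x, x ∈ B ↔ h x = x) :
    Module.finrank ℤ A ≤ 2 * Module.finrank ℤ B := by
  let φ : A →+ B := (AddMonoidHom.id A + h).codRestrict B (by
    intro x
    rw [hB]
    show h (x + h x) = x + h x
    rw [map_add, hh, add_comm])
  have hφ : ∀ x, ((φ x : B) : A) = x + h x := fun _ => rfl
  have finB : Module.Finite ℤ B :=
    inferInstanceAs (Module.Finite ℤ (AddSubgroup.toIntSubmodule B))
  have h1 : Module.finrank ℤ (LinearMap.range φ.toIntLinearMap) + Module.finrank ℤ (LinearMap.ker φ.toIntLinearMap) = Module.finrank ℤ A := by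
    rw [← (LinearMap.quotKerEquivRange φ.toIntLinearMap).finrank_eq]
    exact Submodule.finrank_quotient_add_finrank _
  have h2 : Module.finrank ℤ (LinearMap.range φ.toIntLinearMap) ≤ Module.finrank ℤ B :=
    Submodule.finrank_le _
  have h3 : Module.finrank ℤ (LinearMap.ker φ.toIntLinearMap) ≤ Module.finrank ℤ B := by
    let ψ : LinearMap.ker φ.toIntLinearMap →+ B :=
      (J.comp (LinearMap.ker φ.toIntLinearMap).subtype.toAddMonoidHom).codRestrict B (by
        rintro ⟨x, hx⟩
        rw [hB]
        have hx' : x + h x = 0 := by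
          have := congrArg Subtype.val (LinearMap.mem_ker.1 hx)
          exact this
        show h (J x) = J x
        have e1 : h x = -x := by rw [eq_neg_iff_add_eq_zero, add_comm]; exact hx'
        have e2 := hJh x
        rw [e1, map_neg] at e2
        exact (neg_inj.1 e2).symm)
    have hψ : Function.Injective ψ.toIntLinearMap := by
      intro a b hab
      apply Subtype.ext
      have h4 : J (a : A) = J (b : A) := congrArg Subtype.val hab
      have h5 : J (J (a : A)) = J (J (b : A)) := by rw [h4]
      rw [hJ, hJ] at h5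
      exact neg_inj.1 h5
    exact LinearMap.finrank_le_finrank_of_injective hψ
  omega

open scoped Classical in
/-- the automorphisms act on the points -/
private noncomputable def mp {K F : Type*} [Field K] [Field F] [Algebra K F]
    (W : WeierstrassCurve.Affine K) (f : F ≃ₐ[K] F) : (W⁄F).Point →+ (W⁄F).Point :=
  Point.map (W' := W) (f : F →ₐ[K] F)

open scoped Classical in
private theorem mp_mul {K F : Type*} [Field K] [Field F] [Algebra K F]
    (W : WeierstrassCurve.Affine K) (f g : F ≃ₐ[K] F) (P : (W⁄F).Point) :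
    mp W (f * g) P = mp W f (mp W g P) := by
  rw [mp, mp, mp, Point.map_map]
  rfl

open scoped Classical in
private theorem mp_one {K F : Type*} [Field K] [Field F] [Algebra K F]
    (W : WeierstrassCurve.Affine K) (P : (W⁄F).Point) : mp W (1 : F ≃ₐ[K] F) P = P := by
  cases P <;> rfl

open scoped Classical in
private theorem exists_J {K F : Type*} [Field K] [CharZero K] [Field F] [Algebra K F]
    {W : WeierstrassCurve.Affine K} (h : TwoTors W 0 1 (-1)) {i : F} (hi : i ^ 2 = -1) :
    ∃ J : (W⁄F).Point →+ (W⁄F).Point, (∀ P, J (J P) = -P) ∧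
      (∀ f : F ≃ₐ[K] F, f i = i → ∀ P, mp W f (J P) = J (mp W f P)) ∧
      (∀ f : F ≃ₐ[K] F, f i = -i → ∀ P, J (mp W f P) = -(mp W f (J P))) := by
  have : CharZero F := charZero_of_injective_algebraMap (algebraMap K F).injective
  have hF : TwoTors (W⁄F) 0 1 (-1) := by
    have := h.bc F
    rwa [map_zero, map_one, map_neg, map_one] at this
  have hi3 : (-i) ^ 3 = i := by linear_combination (-i) * hi
  have hi2 : (-i) ^ 2 = -1 := by linear_combination hi
  have hi0 : -i ≠ 0 := by
    intro h0
    rw [h0] at hi2
    norm_num at hi2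
  obtain ⟨φ, hφ⟩ := RS.exists_isom (u := -i) (r := 0) hF hF.swap hi0 (by ring)
    (by rw [hi2]; ring) (by rw [hi2]; ring)
  have hφ' : ∀ (x y : F) (hn : (W⁄F).Nonsingular x y), ∃ hn' : (W⁄F).Nonsingular (-x) (i * y),
      φ (Point.some x y hn) = Point.some _ _ hn' := by
    intro x y hn
    obtain ⟨hn', h1⟩ := hφ x y hn
    have e1 : (-i) ^ 2 * x + 0 = -x := by rw [hi2]; ring
    have e2 : (-i) ^ 3 * y = i * y := by rw [hi3]
    refine ⟨by rw [← e1, ← e2]; exact hn', ?_⟩
    rw [h1]
    simp only [Point.some.injEq]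
    exact ⟨e1, e2⟩
  have hneg : ∀ (x y : F) (hn : (W⁄F).Nonsingular x y), ∃ hn' : (W⁄F).Nonsingular x (-y),
      -(Point.some x y hn) = Point.some _ _ hn' := by
    intro x y hn
    refine ⟨by rw [← hF.negY_eq x y]; exact (nonsingular_neg ..).2 hn, ?_⟩
    rw [Point.neg_some]
    simp only [Point.some.injEq, true_and]
    exact hF.negY_eq x y
  have hbn : ∀ (f : F ≃ₐ[K] F) {x y : F}, (W⁄F).Nonsingular x y →
      (W⁄F).Nonsingular (f x) (f y) := by
    intro f x y hn
    exact (W.baseChange_nonsingular (f := (f : F →ₐ[K] F)) f.injective x y).mpr hn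
  refine ⟨φ, ?_, ?_, ?_⟩
  · intro P
    rcases P with _ | ⟨x, y, hn⟩
    · change φ (φ 0) = -0
      rw [map_zero, map_zero, neg_zero]
    · obtain ⟨h1, e1⟩ := hφ' x y hn
      obtain ⟨h2, e2⟩ := hφ' _ _ h1
      obtain ⟨h3, e3⟩ := hneg x y hn
      rw [e1, e2, e3]
      simp only [Point.some.injEq]
      exact ⟨by ring, by linear_combination y * hi⟩
  · intro f hf P
    rcases P with _ | ⟨x, y, hn⟩
    · change mp W f (φ 0) = φ (mp W f 0)
      rw [map_zero, map_zero, map_zero]
    · obtain ⟨h1, e1⟩ := hφ' x y hn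
      rw [e1, mp, Point.map_some, Point.map_some]
      obtain ⟨h2, e2⟩ := hφ' (f x) (f y) (hbn f hn)
      refine Eq.trans ?_ e2.symm
      simp only [Point.some.injEq]
      exact ⟨map_neg f x, (map_mul f i y).trans (by rw [hf])⟩
  · intro f hf P
    rcases P with _ | ⟨x, y, hn⟩
    · change φ (mp W f 0) = -(mp W f (φ 0))
      rw [map_zero, map_zero, map_zero, neg_zero]
    · obtain ⟨h1, e1⟩ := hφ' x y hn
      rw [e1, mp, Point.map_some, Point.map_some]
      obtain ⟨h2, e2⟩ := hφ' (f x) (f y) (hbn f hn)
      refine Eq.trans e2 ?_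
      obtain ⟨h3, e3⟩ := hneg (f (-x)) (f (i * y)) (hbn f h1)
      refine Eq.trans ?_ e3.symm
      simp only [Point.some.injEq]
      refine ⟨(map_neg f x).symm, ?_⟩
      rw [map_mul, hf]
      ring


open scoped Classical in
private theorem rk_aux {K F' F : Type*} [Field K] [CharZero K] [Field F'] [Field F] [Algebra K F']
    [Algebra K F] [Algebra F' F] [IsScalarTower K F' F] {W : WeierstrassCurve.Affine K}
    (h : TwoTors W 0 1 (-1)) (hFG : AddGroup.FG (W⁄F).Point) {i : F}
    (hi : i ^ 2 = -1) (g : F ≃ₐ[K] F) (hg : g i = -i) (h2 : ∀ x, g (g x) = x)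
    (hfix : ∀ x : F, g x = x → ∃ z : F', algebraMap F' F z = x) :
    Module.finrank ℤ (W⁄F).Point ≤ 2 * Module.finrank ℤ (W⁄F').Point := by
  have hfin : Module.Finite ℤ (W⁄F).Point := Module.Finite.iff_addGroup_fg.2 hFG
  have : CharZero F := charZero_of_injective_algebraMap (algebraMap K F).injective
  obtain ⟨J, hJ, -, hJg⟩ := exists_J h hi (F := F)
  set τ : (W⁄F).Point →+ (W⁄F).Point := mp W g with hτ
  have hττ : ∀ P, τ (τ P) = P := by
    intro P
    rw [hτ, ← mp_mul]
    have : g * g = 1 := AlgEquiv.ext h2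
    rw [this, mp_one]
  let B : AddSubgroup (W⁄F).Point :=
    { carrier := {P | τ P = P}
      add_mem' := by
        intro a b (ha : τ a = a) (hb : τ b = b)
        show τ (a + b) = a + b
        rw [map_add, ha, hb]
      zero_mem' := map_zero τ
      neg_mem' := by
        intro a (ha : τ a = a)
        show τ (-a) = -a
        rw [map_neg, ha] }
  have mB : ∀ P, P ∈ B ↔ τ P = P := fun P => Iff.rfl
  have h1 := finrank_le_two_mul τ J hττ hJ (fun P => hJg g hg P) B mB
  let ι : (W⁄F').Point →+ (W⁄F).Point := Point.map (W' := W) (IsScalarTower.toAlgHom K F' F)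
  have hι : ∀ P, P ∈ B → P ∈ LinearMap.range ι.toIntLinearMap := by
    intro P hP
    rw [mB] at hP
    rcases P with _ | ⟨x, y, hn⟩
    · exact ⟨0, map_zero ι⟩
    · have hP' : mp W g (Point.some x y hn) = Point.some x y hn := hP
      rw [mp, Point.map_some] at hP'
      simp only [Point.some.injEq] at hP'
      obtain ⟨x', hx'⟩ := hfix x hP'.1
      obtain ⟨y', hy'⟩ := hfix y hP'.2
      have hn' : (W⁄F').Nonsingular x' y' := by
        rw [← W.baseChange_nonsingular (f := IsScalarTower.toAlgHom K F' F)
          (algebraMap F' F).injective x' y']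
        show (W⁄F).Nonsingular (algebraMap F' F x') (algebraMap F' F y')
        rw [hx', hy']
        exact hn
      have e1 : ι (Point.some x' y' hn') = Point.some x y hn := by
        show Point.map (W' := W) (IsScalarTower.toAlgHom K F' F) _ = _
        rw [Point.map_some]
        simp only [Point.some.injEq]
        exact ⟨hx', hy'⟩
      exact ⟨Point.some x' y' hn', e1⟩
  have h3 : Module.finrank ℤ B ≤ Module.finrank ℤ (LinearMap.range ι.toIntLinearMap) := by
    let κ : B →+ LinearMap.range ι.toIntLinearMap :=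
      { toFun := fun P => ⟨P, hι P P.2⟩
        map_zero' := rfl
        map_add' := fun _ _ => rfl }
    have hκ : Function.Injective κ.toIntLinearMap := by
      intro a b hab
      have e1 : (κ a : (W⁄F).Point) = κ b := congrArg Subtype.val hab
      exact Subtype.ext e1
    exact LinearMap.finrank_le_finrank_of_injective hκ
  have h4 : Module.finrank ℤ (LinearMap.range ι.toIntLinearMap) =
      Module.finrank ℤ (W⁄F').Point :=
    (LinearEquiv.ofInjective ι.toIntLinearMap
      (Point.map_injective (W' := W) (IsScalarTower.toAlgHom K F' F))).finrank_eq.symm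
  calc Module.finrank ℤ (W⁄F).Point ≤ 2 * Module.finrank ℤ B := h1
    _ ≤ 2 * Module.finrank ℤ (W⁄F').Point := Nat.mul_le_mul_left 2 (h3.trans h4.le)

open scoped Classical in
private theorem rk_gen {F' F : Type u} [Field F'] [NumberField F'] [Algebra K F'] [Field F]
    [NumberField F] [Algebra K F] [Algebra F' F] [IsScalarTower K F' F]
    (hb : IsBase K q s) (hT : InTwoTower K F) {j : F} (hj : j ^ 2 = -1)
    (g : F ≃ₐ[K] F) (hg : g j = -j) (h2 : ∀ x, g (g x) = x)
    (hfix : ∀ x : F, g x = x → ∃ z : F', algebraMap F' F z = x) :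
    RS.rk F ≤ 2 * RS.rk F' := by
  have hW := legendre_twoTors (F := K) (e1 := 0) (e2 := 1) (e3 := -1) (by norm_num) (by norm_num)
    (by norm_num)
  have key := rk_aux (F' := F') hW (RS.rk_fg (rk_bound hb hT) K) hj g hg h2 hfix
  rw [RS.rk, RS.rk]
  rw [RS.legendre_bc', RS.legendre_bc'] at key
  exact key


theorem rk_le_two {E E' : IntermediateField K (AlgebraicClosure K)} (hE : E ≤ E')
    [NumberField E] [NumberField E'] (hb : IsBase K q s) (hT : InTwoTower K E)
    (hT' : InTwoTower K E') {j : E'} (hj : j ^ 2 = -1) (h : E' ≃ₐ[K] E') (hh : h j = -j)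
    (h2 : ∀ x, h (h x) = x) (hfix : ∀ x : E', h x = x → (x : AlgebraicClosure K) ∈ E) :
    RS.rk E' ≤ 2 * RS.rk E := by
  let _ : Algebra E E' := (IntermediateField.inclusion hE).toRingHom.toAlgebra
  have : IsScalarTower K E E' := IsScalarTower.of_algebraMap_eq (fun x => rfl)
  exact rk_gen (F' := E) (F := E') hb hT' hj h hh h2
    (fun x hx => ⟨⟨(x : AlgebraicClosure K), hfix x hx⟩, rfl⟩)

end Pool.Agent.Work.MP_787500_nt.HC
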