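import Mathlib
import Pool.Agent.Work.MP_787500_nt.HC.TwA
import Pool.Agent.Work.MP_787500_nt.HC.TwD
import Pool.Agent.Work.MP_787500_nt.HC.TwE
import Pool.Agent.Work.MP_787500_nt.HC.Fin

/-!
# Module FIN2: assembly for all subfields of the union of the layers (helper72)
-/

set_option autoImplicit false

namespace Pool.Agent.Work.MP_787500_nt.HC

open WithZero IsDedekindDomain NumberField

universe u

variable {K : Type u} [Field K] [NumberField K] {q : ℕ} {s : K} {v : HeightOneSpectrum (𝓞 K)}
variable {α : Kˣ} {W W' : ClassGroup (𝓞 K) → AlgebraicClosure K} {i : AlgebraicClosure K}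
variable {a b u : ℕ → AlgebraicClosure K}

/-- a subfield of a field of the tower is in the tower -/
theorem tower_mono {E E' : IntermediateField K (AlgebraicClosure K)} (hE : E ≤ E')
    [NumberField E] [NumberField E'] (h : InTwoTower K E') : InTwoTower K E := by
  obtain ⟨L, f1, f2, f3, f4, f5, h1, h2, h3⟩ := h
  let _ : Algebra E E' := (IntermediateField.inclusion hE).toRingHom.toAlgebra
  let _ : Algebra E L := ((algebraMap E' L).comp (algebraMap E E')).toAlgebra
  have : IsScalarTower K E L := IsScalarTower.of_algebraMap_eq (fun x => by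
    rw [IsScalarTower.algebraMap_apply K E' L x]
    rfl)
  exact ⟨L, f1, f2, f3, inferInstance, this, h1, h2, h3⟩

theorem layF_le_sup (n : ℕ) :
    layF W W' i b n ≤ ⨆ n, layF W W' i b n := le_iSup (layF W W' i b) n

/-- all number fields between `K` and the union of the layers -/
theorem sub_sharp (hC : Ctx K q s v α W W') (hS : ∀ n, Sq4 (W 1) (W' 1) i a b u n)
    {F : IntermediateField K (AlgebraicClosure K)} (hF : F ≤ ⨆ n, layF W W' i b n)
    [NumberField F] : IsGalois K F ∧ (∀ σ τ : F ≃ₐ[K] F, σ * τ = τ * σ) ∧ InTwoTower K F ∧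
      RS.rk F = Module.finrank K F ∧ ShaTwoTrivial (legendre (0 : F) 1 (-1)) := by
  have hfin : FiniteDimensional K F := Module.Finite.of_restrictScalars_finite ℚ K F
  obtain ⟨n, hn⟩ := exists_le_layF hF
  rcases sub_layF hC hS hn with ⟨m, hm⟩ | ⟨m, hle, hdeg, h, j, hj, hhj, hh2, hfix⟩
  · subst hm
    obtain ⟨hN, h1, h2, h3, h4, h5, h6⟩ := layF_sharp hC hS m
    exact ⟨h1, h2, h3, h5.trans h4.symm, h6⟩
  · obtain ⟨hN, -, -, h3, -, h5, -⟩ := layF_sharp hC hS m
    obtain ⟨g1, g2, -⟩ := ab_galois F ((hle.trans (layF_le m)).trans (layM_le_ab hC hS m))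
    have hT : InTwoTower K F := tower_mono hle h3
    have hj2 : j ^ 2 = -1 := by
      apply Subtype.ext
      push_cast
      rw [hj, (hS 0).i2]
    have key := rk_le_two hle hC.base hT h3 hj2 h hhj hh2 hfix
    obtain ⟨heq, hsha⟩ := RS.rk_eq (rk_bound hC.base hT) (by omega)
    exact ⟨g1, g2, hT, heq, hsha⟩

/-- one infinite abelian extension -/
theorem exists_union (hb : IsBase K q s) :
    ∃ L : IntermediateField K (AlgebraicClosure K), ¬ FiniteDimensional K L ∧
      ∀ F : IntermediateField K (AlgebraicClosure K), F ≤ L → ∀ _ : NumberField F,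
        IsGalois K F ∧ (∀ σ τ : F ≃ₐ[K] F, σ * τ = τ * σ) ∧ InTwoTower K F ∧
        RS.rk F = Module.finrank K F ∧ ShaTwoTrivial (legendre (0 : F) 1 (-1)) := by
  obtain ⟨v, α, W, W', hC⟩ := exists_ctx hb
  obtain ⟨i, a, b, u, hS⟩ := hC.data.exists_sq4 1
  exact ⟨⨆ n, layF W W' i b n, not_finite_sup hC hS, fun F hF _ => sub_sharp hC hS hF⟩

end Pool.Agent.Work.MP_787500_nt.HC
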